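import Pool.Agent.Lib.MP_d8b51b_an.Defs

set_option autoImplicit false

/-!
# MP_d8b51b_an: exact statements of the modules (paper proofs in `/team-store/MP_d8b51b_PROOF.md`)

Each module is one file in `Pool/Agent/Lib/MP_d8b51b_an/` proving `theorem specXxx (hyps) : SpecXxx`.
-/

namespace Pool.Agent.Lib.MPd8b51b

open MeasureTheory Metric Set
open scoped ENNReal

/-- PAIR: the `L^p` segment (Poincare) inequality on a compact convex set. -/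
def SpecPair : Prop :=
  ∀ (V : Type) [NormedAddCommGroup V] [NormedSpace ℝ V] [FiniteDimensional ℝ V]
    [MeasurableSpace V] [BorelSpace V] (μ : Measure V) [μ.IsAddHaarMeasure]
    (G : Type) [NormedAddCommGroup G] [NormedSpace ℝ G] [CompleteSpace G]
    (K : Set V) (F : V → G) (p : ℕ), 1 ≤ p → Convex ℝ K → IsCompact K → ContDiff ℝ 1 F →
    ∫⁻ x in K, (∫⁻ y in K, ‖F x - F y‖ₑ ^ p ∂μ) ∂μ ≤
      2 ^ Module.finrank ℝ V * Metric.ediam K ^ p * μ K * ∫⁻ x in K, ‖fderiv ℝ F x‖ₑ ^ p ∂μ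

/-- NEST: nested decay (Vitali + PAIR). -/
def SpecNest : Prop :=
  ∀ n : ℕ, 1 ≤ n → ∀ (c : E n) (ρ : ℝ), 0 < ρ → ∀ (v : E n → ℝ) (e : ℝ≥0∞),
    ContinuousOn v (closedBall c ρ) → EnOn n (closedBall c ρ) v e →
    volume {x ∈ closedBall c ρ | 0 < v x} ≤ volume (closedBall c ρ) / 2 →
    volume (ball (0 : E n) 1) * volume {x ∈ closedBall c ρ | 1 ≤ v x} ≤
      1600 ^ n * e * volume {x ∈ closedBall c ρ | 0 < v x}

/-- LOG: logarithmic cut-off functions of small energy. -/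
def SpecLog : Prop :=
  ∀ ε : ℝ, 0 < ε → ∃ M : ℝ, 1 < M ∧ ∀ n : ℕ, 2 ≤ n → ∀ (c : E n) (s : ℝ), 0 < s →
    ∃ ψ : E n → ℝ, ContDiff ℝ 1 ψ ∧ (∀ x, 0 ≤ ψ x ∧ ψ x ≤ 1) ∧ (∀ x ∈ closedBall c s, ψ x = 1) ∧
      (∀ x, x ∉ ball c (M * s) → ψ x = 0) ∧
      ∫⁻ x, ‖fderiv ℝ ψ x‖ₑ ^ n ≤ ENNReal.ofReal ε ^ n * volume (ball (0 : E n) 1)

/-- LIN: linear cut-off functions. -/
def SpecLin : Prop :=
  ∀ (n : ℕ) (c : E n) (a b : ℝ), 0 < a → a < b → ∃ ψ : E n → ℝ, ContDiff ℝ 1 ψ ∧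
    (∀ x, 0 ≤ ψ x ∧ ψ x ≤ 1) ∧ (∀ x ∈ closedBall c a, ψ x = 1) ∧ (∀ x, x ∉ ball c b → ψ x = 0) ∧
    ∀ x, ‖fderiv ℝ ψ x‖ ≤ 2 / (b - a)

/-- COMP: energy of a composition with a `C¹` function. -/
def SpecComp : Prop :=
  ∀ (n : ℕ) (k : ℝ) (U : Set (E n)) (h : E n → E n), 1 ≤ n → 0 ≤ k → CI n k U h →
    ContinuousOn h U → ∀ C : Set (E n), C ⊆ U → IsCompact C → ∀ ψ : E n → ℝ, ContDiff ℝ 1 ψ →
    EnOn n C (fun x => ψ (h x))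
      (ENNReal.ofReal k ^ n * ∫⁻ y in h '' C, ‖fderiv ℝ ψ y‖ₑ ^ n)

/-- EXT: the function `(ψ ∘ g) * χ`, extended by zero outside `h (ball x r)`. -/
def SpecExt : Prop :=
  ∀ (n : ℕ) (k : ℝ) (U : Set (E n)) (h g : E n → E n), 1 ≤ n → 0 ≤ k → Hom U h g →
    CI n k (h '' U) g → ∀ (x : E n) (r' r : ℝ), 0 < r' → r' < r → closedBall x r ⊆ U →
    ∀ (ψ χ : E n → ℝ) (D : Set (E n)), ContDiff ℝ 1 ψ → ContDiff ℝ 1 χ →
    (∀ a, 0 ≤ ψ a ∧ ψ a ≤ 1) → (∀ a, 0 ≤ χ a ∧ χ a ≤ 1) →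
    (∀ a, a ∉ closedBall x r' → ψ a = 0) → IsClosed D → (∀ y, y ∉ D → χ y = 0) →
    Continuous ((h '' ball x r).indicator (fun y => ψ (g y) * χ y)) ∧
    ∀ K : Set (E n), IsCompact K →
      EnOn n K ((h '' ball x r).indicator (fun y => ψ (g y) * χ y))
        (2 ^ n * (ENNReal.ofReal k ^ n *
            (∫⁻ a in {a ∈ closedBall x r | h a ∈ D}, ‖fderiv ℝ ψ a‖ₑ ^ n) +
          ∫⁻ y, ‖fderiv ℝ χ y‖ₑ ^ n))

/-- GROW: the three growth lemmas. -/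
def SpecGrow : Prop :=
  ∀ k : ℝ, 0 < k → ∃ M : ℝ, 1 < M ∧ ∀ (n : ℕ) (U : Set (E n)) (h g : E n → E n), 2 ≤ n →
    QCI n k U h g →
    (∀ (c : E n) (ρ : ℝ), 0 < ρ → closedBall c ρ ⊆ U → ∀ (y : E n) (s : ℝ), 0 < s →
      volume {x ∈ closedBall c ρ | dist (h x) y < M * s} ≤ volume (closedBall c ρ) / 2 →
      volume {x ∈ closedBall c ρ | dist (h x) y ≤ s} ≤
        (1 / 2) ^ n * volume {x ∈ closedBall c ρ | dist (h x) y < M * s}) ∧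
    (∀ (c : E n) (ρ : ℝ), 0 < ρ → closedBall c ρ ⊆ U → ∀ (y : E n) (s : ℝ), 0 < s →
      volume {x ∈ closedBall c ρ | s < dist (h x) y} ≤ volume (closedBall c ρ) / 2 →
      volume {x ∈ closedBall c ρ | M * s ≤ dist (h x) y} ≤
        (1 / 2) ^ n * volume {x ∈ closedBall c ρ | s < dist (h x) y}) ∧
    (∀ (x : E n) (s : ℝ), 0 < s → closedBall x (M * s) ⊆ U →
      volume (h '' closedBall x s) ≤ (1 / 2) ^ n * volume (h '' ball x (M * s)))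

/-- TEL: telescoping. `K` compact convex, `x ∈ K`, `K_j = x + 2^{-j} (K - x)`; if the pair averages
over `K_j` are at most `α_j ^ p` then the average of `‖F x' - F x‖ ^ p` over `K` is at most
`(2 ∑ α_j) ^ p` (for `p ≥ dim V`). -/
def SpecTel : Prop :=
  ∀ (V : Type) [NormedAddCommGroup V] [NormedSpace ℝ V] [FiniteDimensional ℝ V]
    [MeasurableSpace V] [BorelSpace V] (μ : Measure V) [μ.IsAddHaarMeasure]
    (G : Type) [NormedAddCommGroup G]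
    (K : Set V) (F : V → G) (p : ℕ) (x : V) (α : ℕ → ℝ), 1 ≤ p → Module.finrank ℝ V ≤ p →
    Convex ℝ K → IsCompact K → 0 < μ K → x ∈ K → ContinuousOn F K → (∀ j, 0 ≤ α j) →
    Summable α →
    (∀ j : ℕ, ∫⁻ y in AffineMap.homothety x ((1 / 2 : ℝ) ^ j) '' K,
        (∫⁻ y' in AffineMap.homothety x ((1 / 2 : ℝ) ^ j) '' K, ‖F y - F y'‖ₑ ^ p ∂μ) ∂μ ≤
      ENNReal.ofReal (α j) ^ p * μ (AffineMap.homothety x ((1 / 2 : ℝ) ^ j) '' K) ^ 2) →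
    ∫⁻ y in K, ‖F y - F x‖ₑ ^ p ∂μ ≤ ENNReal.ofReal (2 * ∑' j, α j) ^ p * μ K

/-- MOR: dimension-free Morrey (Hoelder) estimate. -/
def SpecMor : Prop :=
  ∀ k : ℝ, 0 < k → ∃ M C : ℝ, 1 < M ∧ 1 ≤ C ∧ ∀ (n : ℕ) (U : Set (E n)) (h g : E n → E n),
    2 ≤ n → QCI n k U h g → ∀ (x₀ : E n) (t : ℝ), 0 < t → closedBall x₀ (8 * t) ⊆ U →
    ∀ (j : ℕ), ∀ x₁ ∈ closedBall x₀ (t / M ^ j), ∀ x₂ ∈ closedBall x₀ (t / M ^ j),
      dist (h x₁) (h x₂) ≤ C * (1 / 2) ^ j * vr (h '' ball x₀ (8 * t))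

/-- VOL: the volume of the image is controlled by the typical size. -/
def SpecVol : Prop :=
  ∀ k : ℝ, 0 < k → ∃ Q : ℝ, 1 ≤ Q ∧ ∀ (n : ℕ) (U : Set (E n)) (h g : E n → E n), 2 ≤ n →
    QCI n k U h g → ∀ (z : E n) (t S : ℝ), 0 < t → 0 < S → closedBall z (4 * t) ⊆ U →
    High n h z (4 * t) S → vr (h '' ball z t) ≤ Q * S

/-- MED: existence of a typical size. -/
def SpecMed : Prop :=
  ∀ (n : ℕ) (h : E n → E n) (z : E n) (t : ℝ), 1 ≤ n → 0 < t →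
    ContinuousOn h (closedBall z t) → InjOn h (closedBall z t) →
    ∃ S : ℝ, 0 < S ∧ Low n h z t S ∧ High n h z t (2 * S)

/-- INR: the image contains a ball of radius comparable with the typical size. -/
def SpecInr : Prop :=
  ∀ k : ℝ, 0 < k → ∃ c : ℝ, 0 < c ∧ ∀ (n : ℕ) (U : Set (E n)) (h g : E n → E n), 2 ≤ n →
    QCI n k U h g → ∀ (z : E n) (t S : ℝ), 0 < t → 0 < S → closedBall z t ⊆ U →
    Low n h z t S → ball (h z) (c * S) ⊆ h '' ball z t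

/-- CMP: typical sizes at neighbouring points are comparable. -/
def SpecCmp : Prop :=
  ∀ k : ℝ, 0 < k → ∃ C : ℝ, 1 ≤ C ∧ ∀ (n : ℕ) (U : Set (E n)) (h g : E n → E n), 2 ≤ n →
    QCI n k U h g → ∀ (z z' : E n) (t S S' : ℝ), 0 < t → 0 < S → 0 < S' → closedBall z t ⊆ U →
    closedBall z' t ⊆ U → dist z z' ≤ t / 64 → High n h z t S → Low n h z' t S' → S' ≤ C * S

/-- CHAIN: a chain from `p` to `q` along which everything is uniformly controlled. -/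
def SpecChain : Prop :=
  ∀ k : ℝ, 0 < k → ∃ N : ℕ, 2 ≤ N ∧ ∀ n : ℕ, 2 ≤ n → ∀ (f : E n → E n) (x₀ : E n) (ρ : ℝ),
    0 < ρ → (∀ z ∈ ball x₀ (2 * ρ), ∃ g, QCI n k (ball z (ρ / 8)) f g) →
    ∀ p ∈ ball x₀ (2 * ρ), ∀ q ∈ ball x₀ (2 * ρ), ∃ (z : ℕ → E n) (r : ℝ), 0 < r ∧ z 0 = p ∧
      z N = q ∧ (∀ i ≤ N, z i ∈ ball x₀ (2 * ρ)) ∧
      (∀ i < N, dist (z i) (z (i + 1)) < ρ / 16) ∧
      (∀ i < N, dist (f (z i)) (f (z (i + 1))) ≤ r / 4) ∧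
      (∀ i ≤ N, ball (f (z i)) r ⊆ f '' ball (z i) (ρ / 16))

/-- ZALC: Zalcman type choice of the centre. -/
def SpecZalc : Prop :=
  ∀ (n : ℕ) (f : E n → E n) (c : ℝ), 0 < c → c ≤ 1 / 32 →
    (∀ x ∈ ball (0 : E n) 1, ∃ V : Set (E n), IsOpen V ∧ x ∈ V ∧ InjOn f V) →
    ¬ InjOn f (ball 0 c) → ∃ (x₀ : E n) (ρ : ℝ), 0 < ρ ∧
      (∀ x ∈ closedBall x₀ (ρ / (16 * c)), ball x (ρ / 8) ⊆ ball 0 1 ∧ InjOn f (ball x (ρ / 8))) ∧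
      ¬ InjOn f (ball x₀ (2 * ρ))

/-- SECT: the lift of the triangles with base `[y, y']` starting at `z`. -/
def SpecSect : Prop :=
  ∀ (n : ℕ) (f : E n → E n) (X : Set (E n)), IsOpen X → ContinuousOn f X →
    (∀ x ∈ X, ∃ V : Set (E n), IsOpen V ∧ x ∈ V ∧ V ⊆ X ∧ InjOn f V) →
    (∀ V : Set (E n), IsOpen V → V ⊆ X → IsOpen (f '' V)) →
    ∀ (z y y' : E n), z ∈ X → f z = y → ∃ g : E n → E n,
      IsOpen {p | Lft f X z y y' p} ∧ ContinuousOn g {p | Lft f X z y y' p} ∧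
      (∀ p, Lft f X z y y' p → g p ∈ X ∧ f (g p) = p) ∧
      IsOpen (g '' {p | Lft f X z y y' p}) ∧
      (∀ p, ∀ V : Set (E n), IsOpen V → V ⊆ X → InjOn f V → z ∈ V →
        (∀ u ∈ Icc (0 : ℝ) 1, ∀ τ ∈ Icc (0 : ℝ) 1, pt y y' p u τ ∈ f '' V) → g p ∈ V) ∧
      (∀ p, Lft f X z y y' p → ∀ u ∈ Icc (0 : ℝ) 1, ∀ τ ∈ Icc (0 : ℝ) 1,
        Lft f X z y y' (pt y y' p u τ)) ∧
      (∀ w, ¬ Lft f X z y y' w → (∀ u ∈ Icc (0 : ℝ) 1, Lft f X z y y' (pt y y' w u 0)) →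
        ∀ C : Set (E n), IsCompact C → C ⊆ X → ∃ τ₁ ∈ Ioc (0 : ℝ) 1,
          (∀ u ∈ Icc (0 : ℝ) 1, ∀ τ ∈ Icc (0 : ℝ) τ₁, Lft f X z y y' (pt y y' w u τ)) ∧
          ∃ u ∈ Icc (0 : ℝ) 1, ∃ τ ∈ Icc (0 : ℝ) τ₁, g (pt y y' w u τ) ∉ C)

/-- MORREY2: two-dimensional Morrey inequality, uniform in the exponent `n ≥ 3`. -/
def SpecMorrey2 : Prop :=
  ∀ c₀ : ℝ, 0 < c₀ → ∃ C : ℝ, 1 ≤ C ∧ ∀ (n : ℕ), 3 ≤ n → ∀ (v : ℝ × ℝ → ℝ) (a b : ℝ),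
    ContDiff ℝ 1 v → c₀ ≤ b - a → b - a ≤ 1 →
    ∀ x₁ ∈ Icc (0 : ℝ) 1 ×ˢ Icc a b, ∀ x₂ ∈ Icc (0 : ℝ) 1 ×ˢ Icc a b,
      ENNReal.ofReal |v x₁ - v x₂| ^ n ≤
        ENNReal.ofReal C ^ n * ∫⁻ x in Icc (0 : ℝ) 1 ×ˢ Icc a b, ‖fderiv ℝ v x‖ₑ ^ n

/-- BAD: the set of apices whose triangle does not lift is small. -/
def SpecBad : Prop :=
  ∀ (k N η : ℝ), 0 < k → 1 ≤ N → 0 < η → ∃ R : ℝ, 8 ≤ R ∧ ∀ n : ℕ, 3 ≤ n →
    ∀ (f : E n → E n) (x₀ : E n) (ρ : ℝ), 0 < ρ → LQ n k (ball x₀ (R * ρ)) f →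
    ∀ (z y y' y₀ : E n) (r : ℝ), z ∈ ball x₀ (2 * ρ) → f z = y → 0 < r → dist y y' ≤ r / 4 →
      dist y y₀ ≤ N * r → ball y r ⊆ f '' ball z (ρ / 16) → InjOn f (ball z (ρ / 8)) →
      volume {w ∈ ball y₀ (r / 2) | ¬ Lft f (ball x₀ (R * ρ)) z y y' w} ≤
        ENNReal.ofReal η * volume (ball y₀ (r / 2))

/-- MAIN: the dimension-free injectivity radius. -/
def SpecMain : Prop :=
  ∀ k : ℝ, 0 < k → ∃ c : ℝ, 0 < c ∧ ∀ n : ℕ, 3 ≤ n → ∀ f : E n → E n,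
    LQ n k (ball 0 1) f → InjOn f (ball 0 c)

/-- absolute continuity on almost every segment in `V` parallel to a coordinate axis -/
def ACL {n : ℕ} (V : Set (E n)) (h : E n → E n) : Prop :=
  ∀ i : Fin n, ∀ᵐ x : E n, ∀ a b : ℝ,
    (∀ s ∈ uIcc a b, x + s • EuclideanSpace.single i (1 : ℝ) ∈ V) →
    AbsolutelyContinuousOnInterval (fun s : ℝ => h (x + s • EuclideanSpace.single i (1 : ℝ))) a b

/-- MOLL: the analytic properties imply the capacity inequality (mollification). -/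
def SpecMoll : Prop :=
  ∀ (n : ℕ) (k : ℝ) (V : Set (E n)) (h : E n → E n), 1 ≤ n → 0 ≤ k → IsOpen V →
    ContinuousOn h V → InjOn h V → ACL V h →
    (∀ᵐ x : E n, x ∈ V → DifferentiableAt ℝ h x ∧
      ‖fderiv ℝ h x‖ ^ n ≤ k ^ n * |(fderiv ℝ h x).det|) → CI n k V h

/-- LOC: `ACL` is a local property. -/
def SpecLoc : Prop :=
  ∀ (n : ℕ) (V : Set (E n)) (h : E n → E n), IsOpen V → ContinuousOn h V →
    (∀ x ∈ V, ∃ W : Set (E n), IsOpen W ∧ x ∈ W ∧ ACL W h) → ACL V h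

end Pool.Agent.Lib.MPd8b51b
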