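import Pool.Agent.Lib.MP_d8b51b_an.Spec

set_option autoImplicit false

/-!
# MP_d8b51b_an: second part, from the analytic definition of quasiconformality to `QCI`

The inverse of an analytically quasiconformal map satisfies the capacity inequality.
-/

namespace Pool.Agent.Lib.MPd8b51b

open MeasureTheory Metric Set
open scoped ENNReal

/-- `diam g(B(y,r))^n ≤ C vol g(B(y,2r))` -/
def DiamBd {n : ℕ} (C : ℝ) (V : Set (E n)) (g : E n → E n) : Prop :=
  ∀ (y : E n) (r : ℝ), 0 < r → closedBall y (2 * r) ⊆ V → ∀ y₁ ∈ closedBall y r,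
    ∀ y₂ ∈ closedBall y r,
      ENNReal.ofReal (dist (g y₁) (g y₂)) ^ n ≤ ENNReal.ofReal C * volume (g '' closedBall y (2 * r))

/-- DIAM: the capacity inequality for `h` bounds diameters by volumes for the inverse `g`. -/
def SpecDiam : Prop :=
  ∀ (n : ℕ) (k : ℝ), 2 ≤ n → 0 ≤ k → ∃ C : ℝ, 0 < C ∧ ∀ (U : Set (E n)) (h g : E n → E n),
    Hom U h g → CI n k U h → DiamBd C (h '' U) g

/-- ACLINV: `DiamBd` implies absolute continuity on almost every line. -/
def SpecAclInv : Prop :=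
  ∀ (n : ℕ) (C : ℝ) (V : Set (E n)) (g : E n → E n), 2 ≤ n → 0 < C → IsOpen V →
    ContinuousOn g V → InjOn g V → DiamBd C V g → ACL V g

/-- STEPANOV: the theorem of Stepanov. -/
def SpecStepanov : Prop :=
  ∀ (n : ℕ) (g : E n → E n), ∀ᵐ y : E n,
    (∃ C δ : ℝ, 0 < δ ∧ ∀ y' ∈ ball y δ, dist (g y') (g y) ≤ C * dist y' y) →
      DifferentiableAt ℝ g y

/-- DIFF: `DiamBd` implies differentiability almost everywhere and the analytic inequality with some
constant. -/
def SpecDiff : Prop :=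
  ∀ (n : ℕ) (C : ℝ) (V : Set (E n)) (g : E n → E n), 1 ≤ n → 0 < C → IsOpen V →
    ContinuousOn g V → InjOn g V → DiamBd C V g →
    ∀ᵐ y : E n, y ∈ V → DifferentiableAt ℝ g y ∧
      ‖fderiv ℝ g y‖ ^ n ≤ C * 2 ^ n * (volume (ball (0 : E n) 1)).toReal * |(fderiv ℝ g y).det|

/-- INVQC: the analytic properties of `h` give the capacity inequality for `h` and its inverse. -/
def SpecInvQc : Prop :=
  ∀ (n : ℕ) (k : ℝ) (U : Set (E n)) (h g : E n → E n), 2 ≤ n → 0 < k → Hom U h g → ACL U h →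
    (∀ᵐ x : E n, x ∈ U → DifferentiableAt ℝ h x ∧ (fderiv ℝ h x).det ≠ 0 ∧
      ‖fderiv ℝ h x‖ * ‖(fderiv ℝ h x).inverse‖ ≤ k) → QCI n k U h g

end Pool.Agent.Lib.MPd8b51b
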