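import Pool.Agent.Lib.MP_d8b51b_an.Defs
import Pool.Agent.Lib.MP_d8b51b_an.Spec
import Pool.Agent.Lib.MP_d8b51b_an.Spec2

section
set_option autoImplicit false

/-!
# MP_d8b51b_an: basic lemmas
-/

namespace Pool.Agent.Lib.MPd8b51b

open MeasureTheory Metric Set
open scoped ENNReal

variable {n : ℕ}

/-! ## volumes of balls and the volume radius -/

lemma wn_pos (n : ℕ) : 0 < volume (ball (0 : E n) 1) := measure_ball_pos _ _ one_pos

lemma wn_ne_zero (n : ℕ) : volume (ball (0 : E n) 1) ≠ 0 := (wn_pos n).ne'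

lemma wn_ne_top (n : ℕ) : volume (ball (0 : E n) 1) ≠ ∞ := measure_ball_lt_top.ne

lemma wn_toReal_pos (n : ℕ) : 0 < (volume (ball (0 : E n) 1)).toReal :=
  ENNReal.toReal_pos (wn_ne_zero n) (wn_ne_top n)

lemma vol_ball {r : ℝ} (x : E n) (hr : 0 < r) :
    volume (ball x r) = ENNReal.ofReal r ^ n * volume (ball (0 : E n) 1) := by
  rw [Measure.addHaar_ball_of_pos _ _ hr, finrank_euclideanSpace, Fintype.card_fin,
    ENNReal.ofReal_pow hr.le]

lemma vol_closedBall {r : ℝ} (x : E n) (hr : 0 < r) :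
    volume (closedBall x r) = ENNReal.ofReal r ^ n * volume (ball (0 : E n) 1) := by
  rw [Measure.addHaar_closedBall _ _ hr.le, finrank_euclideanSpace, Fintype.card_fin,
    ENNReal.ofReal_pow hr.le]

lemma vr_nonneg (S : Set (E n)) : 0 ≤ vr S := by
  unfold vr
  positivity

lemma vr_pow (hn : 1 ≤ n) (S : Set (E n)) :
    vr S ^ n = (volume S).toReal / (volume (ball (0 : E n) 1)).toReal := by
  unfold vr
  rw [← Real.rpow_natCast, ← Real.rpow_mul (by positivity), one_div,
    inv_mul_cancel₀ (by positivity), Real.rpow_one]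

/-- the volume in terms of the volume radius -/
lemma volume_eq (hn : 1 ≤ n) {S : Set (E n)} (hS : volume S ≠ ∞) :
    volume S = ENNReal.ofReal (vr S) ^ n * volume (ball (0 : E n) 1) := by
  rw [← ENNReal.ofReal_pow (vr_nonneg S), vr_pow hn, ENNReal.ofReal_div_of_pos (wn_toReal_pos n),
    ENNReal.ofReal_toReal hS, ENNReal.ofReal_toReal (wn_ne_top n),
    ENNReal.div_mul_cancel (wn_ne_zero n) (wn_ne_top n)]

lemma vr_mono {S T : Set (E n)} (h : S ⊆ T) (hT : volume T ≠ ∞) : vr S ≤ vr T := by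
  unfold vr
  have h1 : (volume S).toReal ≤ (volume T).toReal := ENNReal.toReal_mono hT (measure_mono h)
  exact Real.rpow_le_rpow (by positivity) (div_le_div_of_nonneg_right h1 (wn_toReal_pos n).le)
    (by positivity)

lemma vr_le_iff (hn : 1 ≤ n) {S : Set (E n)} (hS : volume S ≠ ∞) {c : ℝ} (hc : 0 ≤ c) :
    vr S ≤ c ↔ volume S ≤ ENNReal.ofReal c ^ n * volume (ball (0 : E n) 1) := by
  rw [volume_eq hn hS, ENNReal.mul_le_mul_iff_left (wn_ne_zero n) (wn_ne_top n),
    ENNReal.pow_le_pow_left_iff (by omega), ENNReal.ofReal_le_ofReal_iff hc]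

lemma le_vr_iff (hn : 1 ≤ n) {S : Set (E n)} (hS : volume S ≠ ∞) {c : ℝ} :
    c ≤ vr S ↔ ENNReal.ofReal c ^ n * volume (ball (0 : E n) 1) ≤ volume S := by
  rw [volume_eq hn hS, ENNReal.mul_le_mul_iff_left (wn_ne_zero n) (wn_ne_top n),
    ENNReal.pow_le_pow_left_iff (by omega), ENNReal.ofReal_le_ofReal_iff (vr_nonneg S)]

lemma vr_le_mul_iff (hn : 1 ≤ n) {S T : Set (E n)} (hS : volume S ≠ ∞) (hT : volume T ≠ ∞) {c : ℝ}
    (hc : 0 ≤ c) : vr S ≤ c * vr T ↔ volume S ≤ ENNReal.ofReal c ^ n * volume T := by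
  rw [vr_le_iff hn hS (mul_nonneg hc (vr_nonneg T)), ENNReal.ofReal_mul hc, mul_pow, mul_assoc,
    ← volume_eq hn hT]

lemma vr_closedBall (hn : 1 ≤ n) (x : E n) {r : ℝ} (hr : 0 < r) : vr (closedBall x r) = r := by
  unfold vr
  rw [vol_closedBall x hr, ENNReal.toReal_mul, ENNReal.toReal_pow, ENNReal.toReal_ofReal hr.le,
    mul_div_cancel_right₀ _ (wn_toReal_pos n).ne', ← Real.rpow_natCast, ← Real.rpow_mul hr.le,
    mul_one_div_cancel (by positivity), Real.rpow_one]

lemma vr_ball (hn : 1 ≤ n) (x : E n) {r : ℝ} (hr : 0 < r) : vr (ball x r) = r := by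
  unfold vr
  rw [vol_ball x hr, ENNReal.toReal_mul, ENNReal.toReal_pow, ENNReal.toReal_ofReal hr.le,
    mul_div_cancel_right₀ _ (wn_toReal_pos n).ne', ← Real.rpow_natCast, ← Real.rpow_mul hr.le,
    mul_one_div_cancel (by positivity), Real.rpow_one]

/-- a ball contained in a closed ball has smaller radius -/
lemma radius_le_of_ball_subset (hn : 1 ≤ n) {x y : E n} {r s : ℝ} (hs : 0 ≤ s)
    (h : ball x r ⊆ closedBall y s) : r ≤ s := by
  rcases le_or_gt r 0 with hr | hr
  · linarith
  rcases hs.eq_or_lt with rfl | hs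
  · exfalso
    have h1 : volume (ball x r) ≤ volume (closedBall y (0 : ℝ)) := measure_mono h
    have : Nonempty (Fin n) := ⟨⟨0, hn⟩⟩
    have : Nontrivial (E n) := by
      rw [← Module.finrank_pos_iff (R := ℝ), finrank_euclideanSpace, Fintype.card_fin]
      omega
    rw [closedBall_zero, measure_singleton] at h1
    exact (measure_ball_pos volume x hr).ne' (le_antisymm h1 zero_le)
  · rw [← vr_ball hn x hr, ← vr_closedBall hn y hs]
    exact vr_mono h measure_closedBall_lt_top.ne

/-! ## `Hom` -/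

namespace Hom

variable {U : Set (E n)} {h g : E n → E n}

lemma injOn (H : Hom U h g) : InjOn h U := fun x hx y hy hxy => by
  rw [← H.left_inv x hx, ← H.left_inv y hy, hxy]

lemma right_inv (H : Hom U h g) {y : E n} (hy : y ∈ h '' U) : h (g y) = y := by
  obtain ⟨x, hx, rfl⟩ := hy
  rw [H.left_inv x hx]

lemma image_image (H : Hom U h g) {S : Set (E n)} (hS : S ⊆ U) : g '' (h '' S) = S := by
  ext x
  constructor
  · rintro ⟨_, ⟨x', hx', rfl⟩, rfl⟩
    rwa [H.left_inv x' (hS hx')]
  · intro hx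
    exact ⟨h x, ⟨x, hx, rfl⟩, H.left_inv x (hS hx)⟩

lemma symm (H : Hom U h g) : Hom (h '' U) g h where
  isOpen := H.isOpen_image
  isOpen_image := by rw [H.image_image subset_rfl]; exact H.isOpen
  cont := H.cont_inv
  cont_inv := by rw [H.image_image subset_rfl]; exact H.cont
  left_inv := fun y hy => H.right_inv hy

lemma isOpen_image_of (H : Hom U h g) {V : Set (E n)} (hV : IsOpen V) (hVU : V ⊆ U) :
    IsOpen (h '' V) := by
  have h1 : h '' V = h '' U ∩ g ⁻¹' V := by
    ext y
    constructor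
    · rintro ⟨x, hx, rfl⟩
      exact ⟨⟨x, hVU hx, rfl⟩, by simpa [H.left_inv x (hVU hx)] using hx⟩
    · rintro ⟨⟨x, hx, rfl⟩, hx'⟩
      exact ⟨x, by simpa [H.left_inv x hx] using hx', rfl⟩
  rw [h1]
  exact H.cont_inv.isOpen_inter_preimage H.isOpen_image hV

lemma isCompact_image (H : Hom U h g) {C : Set (E n)} (hC : IsCompact C) (hCU : C ⊆ U) :
    IsCompact (h '' C) := hC.image_of_continuousOn (H.cont.mono hCU)

lemma volume_image_ne_top (H : Hom U h g) {S C : Set (E n)} (hSC : S ⊆ C) (hC : IsCompact C)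
    (hCU : C ⊆ U) : volume (h '' S) ≠ ∞ :=
  ((measure_mono (image_mono hSC)).trans_lt (H.isCompact_image hC hCU).measure_lt_top).ne

lemma mono (H : Hom U h g) {V : Set (E n)} (hV : IsOpen V) (hVU : V ⊆ U) : Hom V h g where
  isOpen := hV
  isOpen_image := H.isOpen_image_of hV hVU
  cont := H.cont.mono hVU
  cont_inv := H.cont_inv.mono (image_mono hVU)
  left_inv := fun x hx => H.left_inv x (hVU hx)

end Hom

/-! ## `QCI` -/

namespace QCI

lemma hom {k : ℝ} {U : Set (E n)} {h g : E n → E n} (H : QCI n k U h g) : Hom U h g :=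
  ⟨H.isOpen, H.isOpen_image, H.cont, H.cont_inv, H.left_inv⟩

variable {k : ℝ} {U : Set (E n)} {h g : E n → E n}

lemma injOn (H : QCI n k U h g) : InjOn h U := fun x hx y hy hxy => by
  rw [← H.left_inv x hx, ← H.left_inv y hy, hxy]

lemma right_inv (H : QCI n k U h g) {y : E n} (hy : y ∈ h '' U) : h (g y) = y := by
  obtain ⟨x, hx, rfl⟩ := hy
  rw [H.left_inv x hx]

lemma image_image (H : QCI n k U h g) {S : Set (E n)} (hS : S ⊆ U) : g '' (h '' S) = S := by
  ext x
  constructor
  · rintro ⟨_, ⟨x', hx', rfl⟩, rfl⟩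
    rwa [H.left_inv x' (hS hx')]
  · intro hx
    exact ⟨h x, ⟨x, hx, rfl⟩, H.left_inv x (hS hx)⟩

lemma symm (H : QCI n k U h g) : QCI n k (h '' U) g h where
  isOpen := H.isOpen_image
  isOpen_image := by rw [H.image_image subset_rfl]; exact H.isOpen
  cont := H.cont_inv
  cont_inv := by rw [H.image_image subset_rfl]; exact H.cont
  left_inv := fun y hy => H.right_inv hy
  ci := H.ci_inv
  ci_inv := by rw [H.image_image subset_rfl]; exact H.ci

lemma isOpen_image_of (H : QCI n k U h g) {V : Set (E n)} (hV : IsOpen V) (hVU : V ⊆ U) :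
    IsOpen (h '' V) := by
  have h1 : h '' V = h '' U ∩ g ⁻¹' V := by
    ext y
    constructor
    · rintro ⟨x, hx, rfl⟩
      exact ⟨⟨x, hVU hx, rfl⟩, by simpa [H.left_inv x (hVU hx)] using hx⟩
    · rintro ⟨⟨x, hx, rfl⟩, hx'⟩
      exact ⟨x, by simpa [H.left_inv x hx] using hx', rfl⟩
  rw [h1]
  exact H.cont_inv.isOpen_inter_preimage H.isOpen_image hV

lemma isCompact_image (H : QCI n k U h g) {C : Set (E n)} (hC : IsCompact C) (hCU : C ⊆ U) :
    IsCompact (h '' C) := hC.image_of_continuousOn (H.cont.mono hCU)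

lemma volume_image_ne_top (H : QCI n k U h g) {S C : Set (E n)} (hSC : S ⊆ C) (hC : IsCompact C)
    (hCU : C ⊆ U) : volume (h '' S) ≠ ∞ :=
  ((measure_mono (image_mono hSC)).trans_lt (H.isCompact_image hC hCU).measure_lt_top).ne

end QCI

lemma CI.mono {k : ℝ} {U V : Set (E n)} {h : E n → E n} (H : CI n k U h) (hVU : V ⊆ U) :
    CI n k V h := fun C hC => H C (hC.trans hVU)

lemma CI.congr {k : ℝ} {U : Set (E n)} {h h' : E n → E n} (H : CI n k U h)
    (hh : ∀ x ∈ U, h x = h' x) : CI n k U h' := by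
  intro C hC hC' θ hθ hθ0 ε hε
  obtain ⟨F, hF, hF1, hF2⟩ := H C hC hC' θ hθ hθ0 ε hε
  refine ⟨F, hF, fun x hx => ?_, ?_⟩
  · rw [← hh x (hC hx)]
    exact hF1 x hx
  · have : h' '' C = h '' C := image_congr fun x hx => (hh x (hC hx)).symm
    rwa [this]

lemma QCI.mono {k : ℝ} {U V : Set (E n)} {h g : E n → E n} (H : QCI n k U h g) (hV : IsOpen V)
    (hVU : V ⊆ U) : QCI n k V h g where
  isOpen := hV
  isOpen_image := H.isOpen_image_of hV hVU
  cont := H.cont.mono hVU
  cont_inv := H.cont_inv.mono (image_mono hVU)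
  left_inv := fun x hx => H.left_inv x (hVU hx)
  ci := H.ci.mono hVU
  ci_inv := H.ci_inv.mono (image_mono hVU)

lemma QCI.congr_inv {k : ℝ} {U : Set (E n)} {h g g' : E n → E n} (H : QCI n k U h g)
    (hg : ∀ x ∈ U, g' (h x) = x) : QCI n k U h g' where
  isOpen := H.isOpen
  isOpen_image := H.isOpen_image
  cont := H.cont
  cont_inv := by
    refine H.cont_inv.congr ?_
    rintro _ ⟨x, hx, rfl⟩
    rw [hg x hx, H.left_inv x hx]
  left_inv := hg
  ci := H.ci
  ci_inv := by
    refine H.ci_inv.congr ?_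
    rintro _ ⟨x, hx, rfl⟩
    rw [hg x hx, H.left_inv x hx]

/-! ## `LQ` -/

namespace LQ

variable {k : ℝ} {X : Set (E n)} {f : E n → E n}

lemma mono (H : LQ n k X f) {Y : Set (E n)} (hY : IsOpen Y) (hYX : Y ⊆ X) : LQ n k Y f where
  isOpen := hY
  loc_inj := fun x hx => by
    obtain ⟨V, hV, hxV, hVX, hinj⟩ := H.loc_inj x (hYX hx)
    exact ⟨V ∩ Y, hV.inter hY, ⟨hxV, hx⟩, inter_subset_right, hinj.mono inter_subset_left⟩
  qci := fun V hV hVY hinj => H.qci V hV (hVY.trans hYX) hinj

lemma continuousOn (H : LQ n k X f) : ContinuousOn f X := by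
  intro x hx
  obtain ⟨V, hV, hxV, hVX, hinj⟩ := H.loc_inj x hx
  obtain ⟨g, hg⟩ := H.qci V hV hVX hinj
  exact ((hg.cont x hxV).continuousAt (hV.mem_nhds hxV)).continuousWithinAt

lemma isOpen_image (H : LQ n k X f) {V : Set (E n)} (hV : IsOpen V) (hVX : V ⊆ X) :
    IsOpen (f '' V) := by
  rw [isOpen_iff_mem_nhds]
  rintro _ ⟨x, hx, rfl⟩
  obtain ⟨W, hW, hxW, hWX, hinj⟩ := H.loc_inj x (hVX hx)
  obtain ⟨g, hg⟩ := H.qci W hW hWX hinj
  have h1 : IsOpen (f '' (V ∩ W)) := hg.isOpen_image_of (hV.inter hW) inter_subset_right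
  exact Filter.mem_of_superset (h1.mem_nhds ⟨x, ⟨hx, hxW⟩, rfl⟩) (image_mono inter_subset_left)

end LQ

/-! ## `EnOn` -/

lemma EnOn.mono {C C' : Set (E n)} {v : E n → ℝ} {e e' : ℝ≥0∞} (H : EnOn n C v e) (hC : C' ⊆ C)
    (he : e ≤ e') : EnOn n C' v e' := by
  intro ε hε
  obtain ⟨w, hw, hw1, hw2⟩ := H ε hε
  refine ⟨w, hw, fun x hx => hw1 x (hC hx), ?_⟩
  exact (lintegral_mono_set hC).trans (hw2.trans (add_le_add_left he _))

lemma EnOn.congr {C : Set (E n)} {v v' : E n → ℝ} {e : ℝ≥0∞} (H : EnOn n C v e)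
    (hv : ∀ x ∈ C, v x = v' x) : EnOn n C v' e := by
  intro ε hε
  obtain ⟨w, hw, hw1, hw2⟩ := H ε hε
  exact ⟨w, hw, fun x hx => by rw [← hv x hx]; exact hw1 x hx, hw2⟩

end Pool.Agent.Lib.MPd8b51b
end

section
set_option autoImplicit false

/-!
# MP_d8b51b_an: module BAD (most triangles lift)
-/

namespace Pool.Agent.Lib.MPd8b51b

open MeasureTheory Metric Set
open scoped ENNReal

namespace Bad

variable {n : ℕ}

/-- the derivative of `pt` with respect to the coordinates -/
noncomputable def ptD (y y' w : E n) (u τ : ℝ) : ℝ × ℝ →L[ℝ] E n :=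
  (ContinuousLinearMap.fst ℝ ℝ ℝ).smulRight ((1 - τ) • (y' - y)) +
    (ContinuousLinearMap.snd ℝ ℝ ℝ).smulRight (w - ((1 - u) • y + u • y'))

lemma hasFDerivAt_pt (y y' w : E n) (x : ℝ × ℝ) :
    HasFDerivAt (fun x : ℝ × ℝ => pt y y' w x.1 x.2) (ptD y y' w x.1 x.2) x := by
  have h1 : HasFDerivAt (fun x : ℝ × ℝ => x.1) (ContinuousLinearMap.fst ℝ ℝ ℝ) x := hasFDerivAt_fst
  have h2 : HasFDerivAt (fun x : ℝ × ℝ => x.2) (ContinuousLinearMap.snd ℝ ℝ ℝ) x := hasFDerivAt_snd
  have h3 := (((h1.const_sub 1).smul_const y).add (h1.smul_const y'))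
  have h4 := ((h2.const_sub 1).smul h3).add (h2.smul_const w)
  refine h4.congr_fderiv ?_
  ext v
  · simp [ptD, smul_sub, sub_smul]
    ring
  · simp [ptD, smul_sub, sub_smul]
    ring

lemma contDiff_pt (y y' w : E n) : ContDiff ℝ 1 (fun x : ℝ × ℝ => pt y y' w x.1 x.2) := by
  unfold pt
  fun_prop

lemma norm_ptD_le (y y' w : E n) (u τ : ℝ) (hτ : τ ∈ Icc (0 : ℝ) 1) (hu : u ∈ Icc (0 : ℝ) 1) :
    ‖ptD y y' w u τ‖ ≤ dist w y + 2 * dist y y' := by
  refine ContinuousLinearMap.opNorm_le_bound _ (by positivity) fun x => ?_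
  have h1 : ‖x.1‖ ≤ ‖x‖ := norm_fst_le x
  have h2 : ‖x.2‖ ≤ ‖x‖ := norm_snd_le x
  have h3 : ‖(1 - τ) • (y' - y)‖ ≤ dist y y' := by
    rw [norm_smul, Real.norm_of_nonneg (by linarith [hτ.2]), dist_comm, dist_eq_norm]
    exact mul_le_of_le_one_left (norm_nonneg _) (by linarith [hτ.1])
  have h4 : ‖w - ((1 - u) • y + u • y')‖ ≤ dist w y + dist y y' := by
    have e : w - ((1 - u) • y + u • y') = (w - y) + u • (y - y') := by module
    rw [e]
    refine (norm_add_le _ _).trans ?_
    rw [norm_smul, Real.norm_of_nonneg hu.1, ← dist_eq_norm, ← dist_eq_norm]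
    gcongr
    exact mul_le_of_le_one_left dist_nonneg hu.2
  have e : ptD y y' w u τ x = x.1 • ((1 - τ) • (y' - y)) + x.2 • (w - ((1 - u) • y + u • y')) := by
    simp [ptD]
  rw [e]
  refine (norm_add_le _ _).trans ?_
  rw [norm_smul x.1, norm_smul x.2]
  calc ‖x.1‖ * ‖(1 - τ) • (y' - y)‖ + ‖x.2‖ * ‖w - ((1 - u) • y + u • y')‖
      ≤ ‖x‖ * dist y y' + ‖x‖ * (dist w y + dist y y') := by gcongr
    _ = (dist w y + 2 * dist y y') * ‖x‖ := by ring

/-- change of variables for the apex -/
lemma lintegral_pt (G : E n → ℝ≥0∞) (y y' : E n) (u : ℝ) {τ : ℝ} (hτ : 0 < τ) :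
    ∫⁻ w, G (pt y y' w u τ) = ENNReal.ofReal ((τ ^ n)⁻¹) * ∫⁻ x, G x := by
  have h1 : ∀ w, pt y y' w u τ = (1 - τ) • ((1 - u) • y + u • y') + τ • w := fun w => rfl
  simp only [h1]
  set a := (1 - τ) • ((1 - u) • y + u • y')
  have h2 : ∫⁻ w, G (a + τ • w) = ∫⁻ x, G (a + x) ∂(Measure.map (fun w : E n => τ • w) volume) := by
    have := (Homeomorph.smul (isUnit_iff_ne_zero.2 hτ.ne').unit : E n ≃ₜ E n).toMeasurableEquiv
    exact ((Homeomorph.smul (isUnit_iff_ne_zero.2 hτ.ne').unit : E n ≃ₜ E n).measurableEmbedding.lintegral_map (fun x => G (a + x))).symm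
  rw [h2]
  have h3 := Measure.map_addHaar_smul (volume : Measure (E n)) hτ.ne'
  rw [h3, lintegral_smul_measure, lintegral_add_left_eq_self, finrank_euclideanSpace, Fintype.card_fin,
    abs_of_pos (by positivity), smul_eq_mul]

/-- The main estimate: a set of apices `w` for which a rectangle is mapped into the compact set `Cm`
and `φ ∘ g` takes the values `0` and `1` there. -/
lemma main_est {k C c₀ ε' δ : ℝ} (hc₀ : 0 < c₀) (hδ : 0 < δ)
    (hM : ∀ (v : ℝ × ℝ → ℝ) (a b : ℝ), ContDiff ℝ 1 v → c₀ ≤ b - a → b - a ≤ 1 →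
      ∀ x₁ ∈ Icc (0 : ℝ) 1 ×ˢ Icc a b, ∀ x₂ ∈ Icc (0 : ℝ) 1 ×ˢ Icc a b,
        ENNReal.ofReal |v x₁ - v x₂| ^ n ≤
          ENNReal.ofReal C ^ n * ∫⁻ x in Icc (0 : ℝ) 1 ×ˢ Icc a b, ‖fderiv ℝ v x‖ₑ ^ n)
    {D : Set (E n)} {g : E n → E n} (hCI : CI n k D g) (hε' : 0 < ε')
    {φ : E n → ℝ} (hφ : ContDiff ℝ 1 φ) (hφu : ∀ a b, ‖a - b‖ ≤ δ → |φ a - φ b| ≤ 1 / 4)
    {Cm : Set (E n)} (hCm : IsCompact Cm) (hCmD : Cm ⊆ D) (hvol : volume (g '' Cm) ≠ ∞)
    {y y' : E n} {L : ℝ} {B : Set (E n)}
    (hL : ∀ w ∈ B, dist w y + 2 * dist y y' ≤ L)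
    (hB : ∀ w ∈ B, ∃ τ₁ ∈ Icc (2 * c₀) 1,
      (∀ u ∈ Icc (0 : ℝ) 1, ∀ τ ∈ Icc c₀ τ₁, pt y y' w u τ ∈ Cm) ∧
      (∃ u ∈ Icc (0 : ℝ) 1, ∃ τ ∈ Icc c₀ τ₁, φ (g (pt y y' w u τ)) = 0) ∧
      ∃ u ∈ Icc (0 : ℝ) 1, ∃ τ ∈ Icc c₀ τ₁, φ (g (pt y y' w u τ)) = 1) :
    ENNReal.ofReal (1 / 2) ^ n * volume B ≤
      (ENNReal.ofReal C ^ n * ENNReal.ofReal L ^ n * ENNReal.ofReal (c₀⁻¹) ^ n) *
        (ENNReal.ofReal k ^ n * (∫⁻ y, ‖fderiv ℝ φ y‖ₑ ^ n) + ENNReal.ofReal ε') := by
  rcases B.eq_empty_or_nonempty with rfl | ⟨w₀, hw₀⟩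
  · simp
  have hL0 : 0 ≤ L := le_trans (by positivity) (hL w₀ hw₀)
  set K₁ : ℝ := (ENNReal.ofReal k ^ n * volume (g '' Cm)).toReal with hK₁
  have hK₁t : ENNReal.ofReal k ^ n * volume (g '' Cm) ≠ ∞ :=
    ENNReal.mul_ne_top (ENNReal.pow_ne_top ENNReal.ofReal_ne_top) hvol
  have hK₁0 : 0 ≤ K₁ := ENNReal.toReal_nonneg
  have hε₁ : 0 < ε' / (K₁ + 1) := by positivity
  obtain ⟨F, hF, hF1, hF2⟩ := hCI Cm hCmD hCm (fun a => ‖fderiv ℝ φ a‖)
    (hφ.continuous_fderiv (by norm_num)).norm (fun _ => norm_nonneg _) (min (ε' / (K₁ + 1)) δ)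
    (lt_min hε₁ hδ)
  set G : E n → ℝ≥0∞ := Cm.indicator
    (fun p => (‖fderiv ℝ φ (F p)‖ₑ * ‖fderiv ℝ F p‖ₑ) ^ n) with hG
  have hGm : Measurable G := by
    refine Measurable.indicator ?_ hCm.measurableSet
    have h1 : Continuous fun p => ‖fderiv ℝ φ (F p)‖ₑ :=
      ((hφ.continuous_fderiv (by norm_num)).comp hF.continuous).enorm
    have h2 : Continuous fun p => ‖fderiv ℝ F p‖ₑ := (hF.continuous_fderiv (by norm_num)).enorm
    exact (h1.measurable.mul h2.measurable).pow_const n
  have hGint : ∫⁻ p, G p ≤ ENNReal.ofReal k ^ n * (∫⁻ y, ‖fderiv ℝ φ y‖ₑ ^ n) +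
      ENNReal.ofReal ε' := by
    rw [hG, lintegral_indicator hCm.measurableSet]
    have h1 : ∀ p, (‖fderiv ℝ φ (F p)‖ₑ * ‖fderiv ℝ F p‖ₑ) ^ n =
        (ENNReal.ofReal ‖fderiv ℝ φ (F p)‖ * ‖fderiv ℝ F p‖ₑ) ^ n := fun p => by
      rw [ofReal_norm]
    simp_rw [h1]
    have h2 : ∫⁻ y in g '' Cm, ENNReal.ofReal ‖fderiv ℝ φ y‖ ^ n ≤
        ∫⁻ y, ‖fderiv ℝ φ y‖ₑ ^ n := by
      refine (setLIntegral_le_lintegral _ _).trans (le_of_eq ?_)
      simp_rw [ofReal_norm]
    refine hF2.trans ?_
    refine add_le_add (mul_le_mul_right h2 _) (ENNReal.ofReal_le_ofReal ?_)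
    calc min (ε' / (K₁ + 1)) δ ≤ ε' / (K₁ + 1) := min_le_left _ _
      _ ≤ ε' := by
          rw [div_le_iff₀ (by positivity)]
          nlinarith
  set J : E n → ℝ≥0∞ := fun w => ENNReal.ofReal C ^ n * (ENNReal.ofReal L ^ n *
    ∫⁻ x in Icc (0 : ℝ) 1 ×ˢ Icc c₀ 1, G (pt y y' w x.1 x.2)) with hJ
  have hcont : Continuous fun z : E n × (ℝ × ℝ) => pt y y' z.1 z.2.1 z.2.2 := by
    unfold pt
    fun_prop
  have hGm2 : Measurable fun z : E n × (ℝ × ℝ) => G (pt y y' z.1 z.2.1 z.2.2) :=
    hGm.comp hcont.measurable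
  have hJm : Measurable J := by
    refine (Measurable.lintegral_prod_right ?_).const_mul _ |>.const_mul _
    exact hGm2
  -- pointwise lower bound on `B`
  have hlow : ∀ w ∈ B, ENNReal.ofReal (1 / 2) ^ n ≤ J w := by
    intro w hw
    obtain ⟨τ₁, hτ₁, hin, ⟨u0, hu0, t0, ht0, h0⟩, u1, hu1, t1, ht1, h1⟩ := hB w hw
    set v : ℝ × ℝ → ℝ := fun x => φ (F (pt y y' w x.1 x.2)) with hv
    have hvC : ContDiff ℝ 1 v := hφ.comp (hF.comp (contDiff_pt y y' w))
    have hM' := hM v c₀ τ₁ hvC (by linarith [hτ₁.1]) (by linarith [hτ₁.2]) (u1, t1) ⟨hu1, ht1⟩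
      (u0, t0) ⟨hu0, ht0⟩
    have hclose : ∀ u ∈ Icc (0 : ℝ) 1, ∀ τ ∈ Icc c₀ τ₁,
        |v (u, τ) - φ (g (pt y y' w u τ))| ≤ 1 / 4 := by
      intro u hu τ hτ
      exact hφu _ _ ((hF1 _ (hin u hu τ hτ)).trans (min_le_right _ _))
    have e1 := hclose u1 hu1 t1 ht1
    have e0 := hclose u0 hu0 t0 ht0
    rw [h1] at e1
    rw [h0] at e0
    have hhalf : 1 / 2 ≤ |v (u1, t1) - v (u0, t0)| := by
      have h2 := abs_le.1 e1
      have h3 := abs_le.1 e0
      have : 1 / 2 ≤ v (u1, t1) - v (u0, t0) := by linarith [h2.1, h3.2]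
      exact this.trans (le_abs_self _)
    have hstep : ENNReal.ofReal (1 / 2) ^ n ≤ ENNReal.ofReal C ^ n *
        ∫⁻ x in Icc (0 : ℝ) 1 ×ˢ Icc c₀ τ₁, ‖fderiv ℝ v x‖ₑ ^ n :=
      (pow_le_pow_left' (ENNReal.ofReal_le_ofReal hhalf) n).trans hM'
    refine hstep.trans ?_
    simp only [hJ]
    refine mul_le_mul_right ?_ _
    rw [← lintegral_const_mul]
    swap
    · exact hGm.comp (contDiff_pt y y' w).continuous.measurable
    calc ∫⁻ x in Icc (0 : ℝ) 1 ×ˢ Icc c₀ τ₁, ‖fderiv ℝ v x‖ₑ ^ n
        ≤ ∫⁻ x in Icc (0 : ℝ) 1 ×ˢ Icc c₀ τ₁,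
            ENNReal.ofReal L ^ n * G (pt y y' w x.1 x.2) := by
          refine setLIntegral_mono' (measurableSet_Icc.prod measurableSet_Icc) ?_
          rintro ⟨u, τ⟩ ⟨hu, hτ⟩
          have hmem := hin u hu τ hτ
          rw [hG]
          simp only [indicator_of_mem hmem]
          rw [← mul_pow]
          refine pow_le_pow_left' ?_ n
          have hd : HasFDerivAt v ((fderiv ℝ φ (F (pt y y' w u τ))).comp
              ((fderiv ℝ F (pt y y' w u τ)).comp (ptD y y' w u τ))) (u, τ) := by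
            have a1 := (hφ.differentiable (by norm_num) (F (pt y y' w u τ))).hasFDerivAt
            have a2 := (hF.differentiable (by norm_num) (pt y y' w u τ)).hasFDerivAt
            have a3 := hasFDerivAt_pt y y' w (u, τ)
            exact a1.comp (u, τ) (a2.comp (u, τ) a3)
          rw [hd.fderiv]
          have hPn : ‖ptD y y' w u τ‖ ≤ L :=
            (norm_ptD_le y y' w u τ ⟨by linarith [hτ.1], by linarith [hτ.2, hτ₁.2]⟩ hu).trans
              (hL w hw)
          generalize fderiv ℝ φ (F (pt y y' w u τ)) = a₁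
          generalize fderiv ℝ F (pt y y' w u τ) = a₂
          generalize ptD y y' w u τ = a₃ at hPn
          have hle : ‖a₁.comp (a₂.comp a₃)‖ ≤ L * (‖a₁‖ * ‖a₂‖) := by
            refine (ContinuousLinearMap.opNorm_comp_le _ _).trans ?_
            calc ‖a₁‖ * ‖a₂.comp a₃‖ ≤ ‖a₁‖ * (‖a₂‖ * L) := by
                  gcongr
                  refine (ContinuousLinearMap.opNorm_comp_le _ _).trans ?_
                  gcongr
              _ = _ := by ring
          calc ‖a₁.comp (a₂.comp a₃)‖ₑ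
              = ENNReal.ofReal ‖a₁.comp (a₂.comp a₃)‖ := (ofReal_norm _).symm
            _ ≤ ENNReal.ofReal (L * (‖a₁‖ * ‖a₂‖)) := ENNReal.ofReal_le_ofReal hle
            _ = _ := by
              rw [ENNReal.ofReal_mul hL0, ENNReal.ofReal_mul (norm_nonneg _), ofReal_norm,
                ofReal_norm]
      _ ≤ ∫⁻ x in Icc (0 : ℝ) 1 ×ˢ Icc c₀ 1,
            ENNReal.ofReal L ^ n * G (pt y y' w x.1 x.2) :=
          lintegral_mono_set (prod_mono subset_rfl (Icc_subset_Icc_right hτ₁.2))
  -- integrate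
  have hint : ∫⁻ w, J w ≤ ENNReal.ofReal C ^ n * (ENNReal.ofReal L ^ n *
      (ENNReal.ofReal (c₀⁻¹) ^ n * ∫⁻ p, G p)) := by
    rw [hJ]
    rw [lintegral_const_mul, lintegral_const_mul]
    rotate_left
    · exact Measurable.lintegral_prod_right hGm2
    · exact (Measurable.lintegral_prod_right hGm2).const_mul _
    gcongr
    rw [lintegral_lintegral_swap hGm2.aemeasurable]
    calc ∫⁻ x in Icc (0 : ℝ) 1 ×ˢ Icc c₀ 1, ∫⁻ w, G (pt y y' w x.1 x.2)
        ≤ ∫⁻ x in Icc (0 : ℝ) 1 ×ˢ Icc c₀ 1, ENNReal.ofReal (c₀⁻¹) ^ n * ∫⁻ p, G p := by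
          refine setLIntegral_mono' (measurableSet_Icc.prod measurableSet_Icc) ?_
          rintro ⟨u, τ⟩ ⟨hu, hτ⟩
          have hτ0 : 0 < τ := lt_of_lt_of_le hc₀ hτ.1
          simp only
          rw [lintegral_pt G y y' u hτ0]
          gcongr
          rw [← ENNReal.ofReal_pow (by positivity)]
          refine ENNReal.ofReal_le_ofReal ?_
          rw [inv_pow]
          exact inv_anti₀ (by positivity) (pow_le_pow_left₀ hc₀.le hτ.1 n)
      _ = (ENNReal.ofReal (c₀⁻¹) ^ n * ∫⁻ p, G p) *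
            volume (Icc (0 : ℝ) 1 ×ˢ Icc c₀ 1) := by
          rw [lintegral_const, Measure.restrict_apply MeasurableSet.univ, univ_inter]
      _ ≤ (ENNReal.ofReal (c₀⁻¹) ^ n * ∫⁻ p, G p) * 1 := by
          gcongr
          rw [Measure.volume_eq_prod, Measure.prod_prod, Real.volume_Icc, Real.volume_Icc]
          rw [sub_zero, ENNReal.ofReal_one, one_mul]
          exact ENNReal.ofReal_le_one.2 (by linarith)
      _ = _ := mul_one _
  calc ENNReal.ofReal (1 / 2) ^ n * volume B
      ≤ ENNReal.ofReal (1 / 2) ^ n * volume {w | ENNReal.ofReal (1 / 2) ^ n ≤ J w} := by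
        gcongr
        exact hlow
    _ ≤ ∫⁻ w, J w := mul_meas_ge_le_lintegral hJm _
    _ ≤ _ := hint
    _ = (ENNReal.ofReal C ^ n * ENNReal.ofReal L ^ n * ENNReal.ofReal (c₀⁻¹) ^ n) *
          ∫⁻ p, G p := by ring
    _ ≤ _ := by gcongr

/-- points of the triangle over `[y, y']` near the base -/
lemma dist_pt_le (y y' w : E n) {u τ : ℝ} (hu : u ∈ Icc (0 : ℝ) 1) (hτ : τ ∈ Icc (0 : ℝ) 1) :
    dist (pt y y' w u τ) y ≤ dist y y' + τ * dist w y := by
  have e : pt y y' w u τ - y = ((1 - τ) * u) • (y' - y) + τ • (w - y) := by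
    unfold pt
    module
  rw [dist_eq_norm, e]
  refine (norm_add_le _ _).trans ?_
  rw [norm_smul, norm_smul, Real.norm_of_nonneg (mul_nonneg (by linarith [hτ.2]) hu.1),
    Real.norm_of_nonneg hτ.1, ← dist_eq_norm, ← dist_eq_norm, dist_comm y' y]
  gcongr
  exact mul_le_of_le_one_left dist_nonneg (mul_le_one₀ (by linarith [hτ.1]) hu.1 hu.2)

lemma pt_mem_of_convex {S : Set (E n)} (hS : Convex ℝ S) {y y' p : E n} (hy : y ∈ S) (hy' : y' ∈ S)
    (hp : p ∈ S) {u τ : ℝ} (hu : u ∈ Icc (0 : ℝ) 1) (hτ : τ ∈ Icc (0 : ℝ) 1) :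
    pt y y' p u τ ∈ S := by
  unfold pt
  refine hS ?_ hp (by linarith [hτ.2]) hτ.1 (by ring)
  exact hS hy hy' (by linarith [hu.2]) hu.1 (by ring)

end Bad

open Bad in
/-- BAD: the set of apices whose triangle does not lift is small. -/
theorem specBad (hLog : SpecLog) (hSect : SpecSect) (hMor : SpecMorrey2) : SpecBad := by
  intro k N η hk hN hη
  set c₀ : ℝ := 1 / (8 * (N + 1)) with hc₀d
  have hN1 : 0 < N + 1 := by linarith
  have hc₀ : 0 < c₀ := by positivity
  have hc₀2 : 2 * c₀ * (N + 1) = 1 / 4 := by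
    rw [hc₀d]; field_simp; norm_num
  have hc₀1 : 2 * c₀ ≤ 1 := by nlinarith
  obtain ⟨C, hC, hMC⟩ := hMor c₀ hc₀
  have hCpos : 0 < C := by linarith
  set A : ℝ := 2 * C * (N + 1) * c₀⁻¹ * k with hA
  have hApos : 0 < A := by positivity
  have hmin : 0 < min 1 η := lt_min one_pos hη
  set ε : ℝ := min 1 η / (2 * A) with hεd
  have hε : 0 < ε := by positivity
  have hAε : A * ε = min 1 η / 2 := by
    rw [hεd]; field_simp
  obtain ⟨M, hM1, hψ⟩ := hLog ε hε
  refine ⟨3 * M + 8, by linarith, ?_⟩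
  intro n hn f x₀ ρ hρ hLQ z y y' y₀ r hz hfz hr hyy' hyy₀ hball hinj
  obtain ⟨ψ, hψC, hψ01, hψ1, hψ0, hψe⟩ := hψ n (by omega) x₀ (3 * ρ) (by positivity)
  have hMρ : ρ < M * ρ := by nlinarith
  have hzx : dist z x₀ < 2 * ρ := hz
  have hXz : z ∈ ball x₀ ((3 * M + 8) * ρ) := by
    rw [mem_ball]; nlinarith
  obtain ⟨g, hDo, hgc, hgf, hgo, hgV, hsub, hleave⟩ := hSect n f (ball x₀ ((3 * M + 8) * ρ))
    isOpen_ball hLQ.continuousOn hLQ.loc_inj (fun V hV hVX => hLQ.isOpen_image hV hVX) z y y'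
    hXz hfz
  set X := ball x₀ ((3 * M + 8) * ρ) with hX
  set D : Set (E n) := {p | Lft f X z y y' p} with hD
  -- the capacity inequality for `g` on `D`
  have hgDX : g '' D ⊆ X := by
    rintro _ ⟨p, hp, rfl⟩
    exact (hgf p hp).1
  have hinjD : InjOn f (g '' D) := by
    rintro _ ⟨p, hp, rfl⟩ _ ⟨q, hq, rfl⟩ hpq
    rw [(hgf p hp).2, (hgf q hq).2] at hpq
    rw [hpq]
  obtain ⟨g', hQ⟩ := hLQ.qci (g '' D) hgo hgDX hinjD
  have himg : f '' (g '' D) = D := by
    ext p
    constructor
    · rintro ⟨_, ⟨q, hq, rfl⟩, rfl⟩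
      rw [(hgf q hq).2]
      exact hq
    · intro hp
      exact ⟨g p, ⟨p, hp, rfl⟩, (hgf p hp).2⟩
  have hCI : CI n k D g := by
    have h1 := hQ.ci_inv
    rw [himg] at h1
    refine h1.congr fun p hp => ?_
    have h2 := hQ.left_inv (g p) ⟨p, hp, rfl⟩
    rwa [(hgf p hp).2] at h2
  -- the test function
  set φ : E n → ℝ := fun a => 1 - ψ a with hφd
  have hφ : ContDiff ℝ 1 φ := contDiff_const.sub hψC
  have hφe : ∫⁻ a, ‖fderiv ℝ φ a‖ₑ ^ n ≤ ENNReal.ofReal ε ^ n * volume (ball (0 : E n) 1) := by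
    refine le_trans (le_of_eq ?_) hψe
    refine lintegral_congr fun a => ?_
    have : fderiv ℝ φ a = - fderiv ℝ ψ a := by
      rw [hφd]
      exact fderiv_const_sub 1
    rw [this, enorm_neg]
  have hsupp : HasCompactSupport ψ :=
    HasCompactSupport.intro (isCompact_closedBall x₀ (M * (3 * ρ))) fun x hx =>
      hψ0 x fun hx' => hx (ball_subset_closedBall hx')
  obtain ⟨δ', hδ', hδu⟩ := Metric.uniformContinuous_iff.1
    (hsupp.uniformContinuous_of_continuous hψC.continuous) (1 / 4) (by norm_num)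
  have hφu : ∀ a b, ‖a - b‖ ≤ δ' / 2 → |φ a - φ b| ≤ 1 / 4 := by
    intro a b hab
    have h1 : dist a b < δ' := by
      rw [dist_eq_norm]
      linarith
    have h2 := hδu h1
    rw [Real.dist_eq] at h2
    have e : φ a - φ b = -(ψ a - ψ b) := by
      simp only [hφd]; ring
    rw [e, abs_neg]
    exact h2.le
  -- points of `ball y r`
  have hy'r : y' ∈ ball y r := by
    rw [mem_ball, dist_comm]; linarith
  have hin : ∀ p ∈ ball y r, Lft f X z y y' p ∧ g p ∈ ball z (ρ / 16) := by
    intro p hp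
    have hVX : ball z (ρ / 16) ⊆ X := by
      intro a ha
      rw [mem_ball] at ha
      rw [hX, mem_ball]
      calc dist a x₀ ≤ dist a z + dist z x₀ := dist_triangle _ _ _
        _ < (3 * M + 8) * ρ := by nlinarith
    have hVinj : InjOn f (ball z (ρ / 16)) := hinj.mono (ball_subset_ball (by linarith))
    have hzV : z ∈ ball z (ρ / 16) := mem_ball_self (by linarith)
    have htri : ∀ u ∈ Icc (0 : ℝ) 1, ∀ τ ∈ Icc (0 : ℝ) 1, pt y y' p u τ ∈ f '' ball z (ρ / 16) :=
      fun u hu τ hτ => hball (pt_mem_of_convex (convex_ball y r) (mem_ball_self hr) hy'r hp hu hτ)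
    exact ⟨⟨_, isOpen_ball, hVX, hVinj, hzV, htri⟩, hgV p _ isOpen_ball hVX hVinj hzV htri⟩
  have hbase : ∀ w ∈ ball y₀ (r / 2), ∀ u ∈ Icc (0 : ℝ) 1, ∀ τ ∈ Icc (0 : ℝ) (2 * c₀),
      pt y y' w u τ ∈ ball y r := by
    intro w hw u hu τ hτ
    rw [mem_ball] at hw ⊢
    have h1 := dist_pt_le y y' w hu ⟨hτ.1, hτ.2.trans hc₀1⟩
    have h2 : dist w y ≤ (N + 1) * r := by
      calc dist w y ≤ dist w y₀ + dist y₀ y := dist_triangle _ _ _
        _ ≤ (N + 1) * r := by rw [dist_comm y₀ y]; linarith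
    have h3 : τ * dist w y ≤ 2 * c₀ * ((N + 1) * r) :=
      mul_le_mul hτ.2 h2 dist_nonneg (by positivity)
    have h4 : 2 * c₀ * ((N + 1) * r) = r / 4 := by
      rw [← mul_assoc, hc₀2]; ring
    linarith
  have hzC : ∀ a ∈ ball z (ρ / 16), a ∈ closedBall x₀ (3 * ρ) := by
    intro a ha
    rw [mem_ball] at ha
    rw [mem_closedBall]
    calc dist a x₀ ≤ dist a z + dist z x₀ := dist_triangle _ _ _
      _ ≤ 3 * ρ := by linarith
  -- compact exhaustion of `D`
  have : LocallyCompactSpace D := hDo.locallyCompactSpace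
  let K : CompactExhaustion D := CompactExhaustion.choice D
  let Cm : ℕ → Set (E n) := fun m => Subtype.val '' K m
  have hCmc : ∀ m, IsCompact (Cm m) := fun m => (K.isCompact m).image continuous_subtype_val
  have hCmD : ∀ m, Cm m ⊆ D := by
    rintro m _ ⟨p, -, rfl⟩
    exact p.2
  have hCmono : Monotone Cm := fun a b hab => image_mono (K.subset hab)
  set B : Set (E n) := {w ∈ ball y₀ (r / 2) | ¬ Lft f X z y y' w} with hB
  let Bm : ℕ → Set (E n) := fun m => {w ∈ ball y₀ (r / 2) | ∃ τ₁ ∈ Icc (2 * c₀) 1,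
      (∀ u ∈ Icc (0 : ℝ) 1, ∀ τ ∈ Icc c₀ τ₁, pt y y' w u τ ∈ Cm m) ∧
      (∃ u ∈ Icc (0 : ℝ) 1, ∃ τ ∈ Icc c₀ τ₁, φ (g (pt y y' w u τ)) = 0) ∧
      ∃ u ∈ Icc (0 : ℝ) 1, ∃ τ ∈ Icc c₀ τ₁, φ (g (pt y y' w u τ)) = 1}
  have hBmono : Monotone Bm := by
    rintro a b hab w ⟨hw, τ₁, hτ₁, h1, h2, h3⟩
    exact ⟨hw, τ₁, hτ₁, fun u hu τ hτ => hCmono hab (h1 u hu τ hτ), h2, h3⟩
  have hBsub : B ⊆ ⋃ m, Bm m := by
    rintro w ⟨hw, hnl⟩
    obtain ⟨τ₁, hτ₁, hl, u, hu, τ, hτ, hgC⟩ := hleave w hnl
      (fun u hu => (hin _ (hbase w hw u hu 0 ⟨le_rfl, by positivity⟩)).1)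
      (closedBall x₀ (M * (3 * ρ))) (isCompact_closedBall _ _) (by
        intro a ha
        rw [mem_closedBall] at ha
        rw [hX, mem_ball]
        nlinarith)
    have hττ : 2 * c₀ < τ := by
      by_contra hcon
      push Not at hcon
      have h1 := (hin _ (hbase w hw u hu τ ⟨hτ.1, hcon⟩)).2
      have h2 := hzC _ h1
      refine hgC (closedBall_subset_closedBall ?_ h2)
      nlinarith
    have hτ₁2 : 2 * c₀ ≤ τ₁ := (hττ.le).trans hτ.2
    -- the compact rectangle
    have hcomp : IsCompact ((fun x : ℝ × ℝ => pt y y' w x.1 x.2) '' (Icc (0 : ℝ) 1 ×ˢ Icc c₀ τ₁)) :=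
      (isCompact_Icc.prod isCompact_Icc).image (contDiff_pt y y' w).continuous
    have hsubD : (fun x : ℝ × ℝ => pt y y' w x.1 x.2) '' (Icc (0 : ℝ) 1 ×ˢ Icc c₀ τ₁) ⊆ D := by
      rintro _ ⟨⟨a, b⟩, ⟨ha, hb⟩, rfl⟩
      exact hl a ha b ⟨hc₀.le.trans hb.1, hb.2⟩
    have hval : Subtype.val '' ((Subtype.val : D → E n) ⁻¹'
        ((fun x : ℝ × ℝ => pt y y' w x.1 x.2) '' (Icc (0 : ℝ) 1 ×ˢ Icc c₀ τ₁))) =
        (fun x : ℝ × ℝ => pt y y' w x.1 x.2) '' (Icc (0 : ℝ) 1 ×ˢ Icc c₀ τ₁) := by
      rw [Subtype.image_preimage_coe, inter_eq_right.2 hsubD]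
    obtain ⟨m, hm⟩ := K.exists_superset_of_isCompact (Subtype.isCompact_iff.2 (hval ▸ hcomp))
    have hm' : (fun x : ℝ × ℝ => pt y y' w x.1 x.2) '' (Icc (0 : ℝ) 1 ×ˢ Icc c₀ τ₁) ⊆ Cm m := by
      rw [← hval]
      exact image_mono hm
    refine mem_iUnion.2 ⟨m, hw, τ₁, ⟨hτ₁2, hτ₁.2⟩, ?_, ?_, ?_⟩
    · intro a ha b hb
      exact hm' ⟨(a, b), ⟨ha, hb⟩, rfl⟩
    · refine ⟨0, ⟨le_rfl, zero_le_one⟩, 2 * c₀, ⟨by linarith, hτ₁2⟩, ?_⟩
      have h1 := (hin _ (hbase w hw 0 ⟨le_rfl, zero_le_one⟩ (2 * c₀) ⟨by positivity, le_rfl⟩)).2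
      simp only [hφd]
      rw [hψ1 _ (hzC _ h1), sub_self]
    · refine ⟨u, hu, τ, ⟨by linarith, hτ.2⟩, ?_⟩
      simp only [hφd]
      rw [hψ0 _ (fun h => hgC (ball_subset_closedBall h)), sub_zero]
  -- the estimate for each `m`
  have hest : ∀ m, ENNReal.ofReal (1 / 2) ^ n * volume (Bm m) ≤
      (ENNReal.ofReal C ^ n * ENNReal.ofReal ((N + 1) * r) ^ n * ENNReal.ofReal (c₀⁻¹) ^ n) *
        (ENNReal.ofReal k ^ n * (ENNReal.ofReal ε ^ n * volume (ball (0 : E n) 1))) := by
    intro m
    have h1 : ∀ ε' : ℝ, 0 < ε' → ENNReal.ofReal (1 / 2) ^ n * volume (Bm m) ≤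
      (ENNReal.ofReal C ^ n * ENNReal.ofReal ((N + 1) * r) ^ n * ENNReal.ofReal (c₀⁻¹) ^ n) *
        (ENNReal.ofReal k ^ n * (∫⁻ y, ‖fderiv ℝ φ y‖ₑ ^ n) + ENNReal.ofReal ε') := by
      intro ε' hε'
      refine main_est hc₀ (half_pos hδ') (fun v a b => hMC n hn v a b) hCI hε' hφ hφu (hCmc m)
        (hCmD m) ?_ ?_ fun w hw => hw.2
      · exact ((measure_mono ((image_mono (hCmD m)).trans hgDX)).trans_lt measure_ball_lt_top).ne
      rintro w ⟨hw, -⟩
      rw [mem_ball] at hw
      calc dist w y + 2 * dist y y' ≤ (dist w y₀ + dist y₀ y) + 2 * dist y y' := by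
            gcongr
            exact dist_triangle _ _ _
        _ ≤ (N + 1) * r := by rw [dist_comm y₀ y]; linarith
    have h2 : Filter.Tendsto (fun ε' : ℝ =>
      (ENNReal.ofReal C ^ n * ENNReal.ofReal ((N + 1) * r) ^ n * ENNReal.ofReal (c₀⁻¹) ^ n) *
        (ENNReal.ofReal k ^ n * (∫⁻ y, ‖fderiv ℝ φ y‖ₑ ^ n) + ENNReal.ofReal ε'))
        (nhdsWithin 0 (Ioi 0)) (nhds
      ((ENNReal.ofReal C ^ n * ENNReal.ofReal ((N + 1) * r) ^ n * ENNReal.ofReal (c₀⁻¹) ^ n) *
        (ENNReal.ofReal k ^ n * (∫⁻ y, ‖fderiv ℝ φ y‖ₑ ^ n) + ENNReal.ofReal 0))) := by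
      refine ENNReal.Tendsto.const_mul ?_ (Or.inr ?_)
      · refine tendsto_const_nhds.add ?_
        exact (ENNReal.continuous_ofReal.tendsto 0).mono_left nhdsWithin_le_nhds
      · exact ENNReal.mul_ne_top (ENNReal.mul_ne_top (ENNReal.pow_ne_top ENNReal.ofReal_ne_top)
          (ENNReal.pow_ne_top ENNReal.ofReal_ne_top)) (ENNReal.pow_ne_top ENNReal.ofReal_ne_top)
    have h3 := ge_of_tendsto h2 (Filter.eventually_of_mem self_mem_nhdsWithin
      fun ε' hε' => h1 ε' hε')
    rw [ENNReal.ofReal_zero, add_zero] at h3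
    refine h3.trans ?_
    gcongr
  have hfin : ∀ m, volume (Bm m) ≤ ENNReal.ofReal η * volume (ball y₀ (r / 2)) := by
    intro m
    have h1 := hest m
    have e1 : (ENNReal.ofReal C ^ n * ENNReal.ofReal ((N + 1) * r) ^ n *
        ENNReal.ofReal (c₀⁻¹) ^ n) *
        (ENNReal.ofReal k ^ n * (ENNReal.ofReal ε ^ n * volume (ball (0 : E n) 1))) =
        ENNReal.ofReal (1 / 2) ^ n *
          (ENNReal.ofReal (min 1 η * (r / 2)) ^ n * volume (ball (0 : E n) 1)) := by
      rw [← mul_assoc (ENNReal.ofReal (1 / 2) ^ n), ← mul_assoc (ENNReal.ofReal k ^ n),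
        ← mul_assoc, ← mul_pow, ← mul_pow, ← mul_pow, ← mul_pow, ← mul_pow,
        ← ENNReal.ofReal_mul (by positivity), ← ENNReal.ofReal_mul (by positivity),
        ← ENNReal.ofReal_mul (by positivity), ← ENNReal.ofReal_mul (by positivity),
        ← ENNReal.ofReal_mul (by positivity)]
      congr 3
      have : C * ((N + 1) * r) * c₀⁻¹ * (k * ε) = (A * ε) * r / 2 := by
        rw [hA]; ring
      rw [this, hAε]
      ring
    rw [e1] at h1
    have hhalf : ENNReal.ofReal (1 / 2) ^ n ≠ 0 := by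
      refine pow_ne_zero n ?_
      simp
    have hhalf' : ENNReal.ofReal (1 / 2) ^ n ≠ ∞ := ENNReal.pow_ne_top ENNReal.ofReal_ne_top
    have h2 := (ENNReal.mul_le_mul_iff_right hhalf hhalf').1 h1
    refine h2.trans ?_
    rw [vol_ball y₀ (half_pos hr), ENNReal.ofReal_mul hmin.le, mul_pow, mul_assoc]
    gcongr
    calc ENNReal.ofReal (min 1 η) ^ n ≤ ENNReal.ofReal (min 1 η) ^ 1 :=
          pow_le_pow_right_of_le_one' (ENNReal.ofReal_le_one.2 (min_le_left _ _)) (by omega)
      _ ≤ ENNReal.ofReal η := by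
          rw [pow_one]
          exact ENNReal.ofReal_le_ofReal (min_le_right _ _)
  calc volume B ≤ volume (⋃ m, Bm m) := measure_mono hBsub
    _ = ⨆ m, volume (Bm m) := hBmono.measure_iUnion
    _ ≤ ENNReal.ofReal η * volume (ball y₀ (r / 2)) := iSup_le hfin

end Pool.Agent.Lib.MPd8b51b
end

section
set_option autoImplicit false

/-!
# MP_d8b51b_an: CHAIN, a uniformly controlled chain between two points
-/

namespace Pool.Agent.Lib.MPd8b51b.Chain

open MeasureTheory Metric Set Filter Topology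
open scoped ENNReal

variable {n : ℕ}

lemma dist_lineMap (p q : E n) (a b : ℝ) :
    dist (p + a • (q - p)) (p + b • (q - p)) = |a - b| * dist p q := by
  rw [dist_eq_norm, add_sub_add_left_eq_sub, ← sub_smul, norm_smul, Real.norm_eq_abs,
    ← dist_eq_norm, dist_comm q p]

theorem specChain (hMed : SpecMed) (hCmp : SpecCmp) (hInr : SpecInr) (hVol : SpecVol)
    (hMor : SpecMor) : SpecChain := by
  intro k hk
  obtain ⟨C, hC1, hC⟩ := hCmp k hk
  obtain ⟨c, hc, hInr⟩ := hInr k hk
  obtain ⟨Q, hQ1, hVol⟩ := hVol k hk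
  obtain ⟨M, C', hM, hC'1, hMor⟩ := hMor k hk
  set Λ : ℝ := (2 * C) ^ 4096 with hΛ
  have hΛ1 : 1 ≤ Λ := one_le_pow₀ (by linarith)
  have hΛ0 : 0 < Λ := by linarith
  -- choice of `j`
  obtain ⟨j, hj⟩ : ∃ j : ℕ, C' * (1 / 2) ^ j * (Q * 2 * Λ) ≤ c / (4 * Λ) := by
    have h1 : Tendsto (fun j : ℕ => C' * (1 / 2 : ℝ) ^ j * (Q * 2 * Λ)) atTop
        (𝓝 (C' * 0 * (Q * 2 * Λ))) :=
      ((tendsto_pow_atTop_nhds_zero_of_lt_one (by norm_num) (by norm_num)).const_mul _).mul_const _
    have h2 : C' * 0 * (Q * 2 * Λ) < c / (4 * Λ) := by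
      rw [mul_zero, zero_mul]
      positivity
    exact ((h1.eventually_lt_const h2).exists).imp fun _ h => h.le
  have hMj : (0 : ℝ) < M ^ j := by positivity
  obtain ⟨N₀, hN₀⟩ := exists_nat_ge (2048 * M ^ j)
  refine ⟨max 2 N₀, le_max_left _ _, ?_⟩
  set N : ℕ := max 2 N₀ with hN
  have hN2 : 2 ≤ N := le_max_left _ _
  have hNr : 2048 * M ^ j ≤ N := hN₀.trans (by exact_mod_cast le_max_right _ _)
  have hNpos : (0 : ℝ) < N := by
    have : 0 < N := by omega
    exact_mod_cast this
  intro n hn f x₀ ρ hρ hf p hp q hq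
  have hn1 : 1 ≤ n := by omega
  -- notation
  set t : ℝ := ρ / 16 with ht
  have ht0 : 0 < t := by positivity
  have hρt : ρ / 8 = 2 * t := by rw [ht]; ring
  rw [hρt] at hf
  set z : ℝ → E n := fun u => p + u • (q - p) with hz
  have hz0 : z 0 = p := by simp [hz]
  have hz1 : z 1 = q := by simp [hz]
  have hpq : dist p q < 64 * t := by
    rw [mem_ball] at hp hq
    have := dist_triangle_right p q x₀
    rw [ht]
    linarith
  have hzmem : ∀ u ∈ Icc (0 : ℝ) 1, z u ∈ ball x₀ (2 * ρ) := by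
    intro u hu
    have h1 : z u = (1 - u) • p + u • q := by
      simp only [hz, smul_sub, sub_smul, one_smul]
      abel
    rw [h1]
    exact (convex_ball x₀ (2 * ρ)) hp hq (by linarith [hu.2]) hu.1 (by ring)
  have hdist : ∀ a b : ℝ, dist (z a) (z b) = |a - b| * dist p q := fun a b => dist_lineMap p q a b
  have hballt : ∀ x : E n, closedBall x t ⊆ ball x (2 * t) := fun x =>
    closedBall_subset_ball (by linarith)
  -- typical sizes
  have hS : ∀ u : ℝ, ∃ S : ℝ, u ∈ Icc (0 : ℝ) 1 →
      0 < S ∧ Low n f (z u) t S ∧ High n f (z u) t (2 * S) := by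
    intro u
    by_cases hu : u ∈ Icc (0 : ℝ) 1
    · obtain ⟨g, H⟩ := hf (z u) (hzmem u hu)
      obtain ⟨S, hS⟩ := hMed n f (z u) t hn1 ht0 (H.cont.mono (hballt _)) (H.injOn.mono (hballt _))
      exact ⟨S, fun _ => hS⟩
    · exact ⟨0, fun h => absurd h hu⟩
  choose S hS using hS
  have hstep : ∀ a ∈ Icc (0 : ℝ) 1, ∀ b ∈ Icc (0 : ℝ) 1, dist (z a) (z b) ≤ t / 64 →
      S b ≤ 2 * C * S a := by
    intro a ha b hb hab
    obtain ⟨g, H⟩ := hf (z a) (hzmem a ha)
    obtain ⟨ha0, -, haH⟩ := hS a ha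
    obtain ⟨hb0, hbL, -⟩ := hS b hb
    have h1 : closedBall (z b) t ⊆ ball (z a) (2 * t) := by
      intro y hy
      rw [mem_closedBall] at hy
      rw [mem_ball]
      have := dist_triangle y (z b) (z a)
      rw [dist_comm (z b)] at this
      linarith
    have := hC n (ball (z a) (2 * t)) f g hn H (z a) (z b) t (2 * S a) (S b) ht0 (by positivity)
      hb0 (hballt _) h1 hab haH hbL
    linarith
  have hcomp : ∀ a ∈ Icc (0 : ℝ) 1, ∀ b ∈ Icc (0 : ℝ) 1, S b ≤ Λ * S a := by
    intro a ha b hb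
    have hmem : ∀ i : ℕ, i ≤ 4096 → a + (i / 4096 : ℝ) * (b - a) ∈ Icc (0 : ℝ) 1 := by
      intro i hi
      have h0 : (0 : ℝ) ≤ i / 4096 := by positivity
      have h1 : (i / 4096 : ℝ) ≤ 1 := by
        rw [div_le_one (by norm_num)]
        exact_mod_cast hi
      have := (convex_Icc (0 : ℝ) 1) ha hb (a := 1 - (i / 4096 : ℝ)) (b := (i / 4096 : ℝ))
        (by linarith) h0 (by ring)
      have heq : (1 - (i / 4096 : ℝ)) • a + (i / 4096 : ℝ) • b = a + (i / 4096 : ℝ) * (b - a) := by
        simp only [smul_eq_mul]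
        ring
      rwa [heq] at this
    have hind : ∀ i : ℕ, i ≤ 4096 → S (a + (i / 4096 : ℝ) * (b - a)) ≤ (2 * C) ^ i * S a := by
      intro i
      induction i with
      | zero => intro _; simp
      | succ i ih =>
        intro hi
        have h1 := hstep _ (hmem i (by omega)) _ (hmem (i + 1) hi) (by
          rw [hdist]
          have h2 : a + (i / 4096 : ℝ) * (b - a) - (a + (((i + 1 : ℕ) : ℝ) / 4096) * (b - a)) =
              -((b - a) / 4096) := by
            push_cast
            ring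
          rw [h2, abs_neg, abs_div]
          have h3 : |b - a| ≤ 1 := by
            rw [abs_le]
            constructor <;> linarith [ha.1, ha.2, hb.1, hb.2]
          have h4 : |(4096 : ℝ)| = 4096 := by norm_num
          rw [h4]
          have h5 : |b - a| / 4096 * dist p q ≤ 1 / 4096 * dist p q := by
            gcongr
          linarith)
        refine h1.trans ?_
        calc 2 * C * S (a + (i / 4096 : ℝ) * (b - a)) ≤ 2 * C * ((2 * C) ^ i * S a) := by
              have := ih (by omega)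
              gcongr
          _ = (2 * C) ^ (i + 1) * S a := by rw [pow_succ]; ring
    have h1 := hind 4096 le_rfl
    have h2 : a + (((4096 : ℕ) : ℝ) / 4096) * (b - a) = b := by
      push_cast
      ring
    rwa [h2] at h1
  -- the chain
  have h01 : (0 : ℝ) ∈ Icc (0 : ℝ) 1 := ⟨le_rfl, zero_le_one⟩
  have hS0 : 0 < S 0 := (hS 0 h01).1
  have hiN : ∀ i : ℕ, i ≤ N → (i / N : ℝ) ∈ Icc (0 : ℝ) 1 := by
    intro i hi
    refine ⟨by positivity, ?_⟩
    rw [div_le_one hNpos]
    exact_mod_cast hi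
  have hdN : ∀ i : ℕ, dist (z (i / N : ℝ)) (z (((i + 1 : ℕ) : ℝ) / N)) ≤ t / 32 / M ^ j := by
    intro i
    rw [hdist]
    have h1 : (i / N : ℝ) - ((i + 1 : ℕ) : ℝ) / N = -(1 / N) := by
      push_cast
      field_simp
      ring
    rw [h1, abs_neg, abs_of_pos (by positivity)]
    calc 1 / (N : ℝ) * dist p q ≤ 1 / (2048 * M ^ j) * (64 * t) := by gcongr
      _ = t / 32 / M ^ j := by
        field_simp
        norm_num
  have htM : t / 32 / M ^ j ≤ t / 32 := div_le_self (by positivity) (one_le_pow₀ hM.le)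
  refine ⟨fun i => z (i / N : ℝ), c * S 0 / Λ, by positivity, ?_, ?_, ?_, ?_, ?_, ?_⟩
  · simp [hz0]
  · simp only
    rw [div_self hNpos.ne', hz1]
  · intro i hi
    exact hzmem _ (hiN i hi)
  · intro i hi
    have := hdN i
    simp only
    linarith
  · intro i hi
    simp only
    obtain ⟨g, H⟩ := hf (z (i / N : ℝ)) (hzmem _ (hiN i hi.le))
    obtain ⟨hSi, -, hH⟩ := hS _ (hiN i hi.le)
    set zi := z (i / N : ℝ) with hzi
    have hsub1 : closedBall zi (8 * (t / 32)) ⊆ ball zi (2 * t) :=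
      closedBall_subset_ball (by linarith)
    have h1 := hMor n (ball zi (2 * t)) f g hn H zi (t / 32) (by positivity) hsub1 j zi
      (mem_closedBall_self (by positivity)) (z (((i + 1 : ℕ) : ℝ) / N))
      (by rw [mem_closedBall, dist_comm]; exact hdN i)
    have h2 := hVol n (ball zi (2 * t)) f g hn H zi (t / 4) (2 * S (i / N : ℝ)) (by positivity)
      (by positivity) (by rw [mul_div_cancel₀ _ (by norm_num : (4 : ℝ) ≠ 0)]; exact hballt zi)
      (by rw [mul_div_cancel₀ _ (by norm_num : (4 : ℝ) ≠ 0)]; exact hH)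
    have h3 : 8 * (t / 32) = t / 4 := by ring
    rw [h3] at h1
    have h4 := hcomp 0 h01 _ (hiN i hi.le)
    calc dist (f zi) (f (z (((i + 1 : ℕ) : ℝ) / N)))
        ≤ C' * (1 / 2) ^ j * vr (f '' ball zi (t / 4)) := h1
      _ ≤ C' * (1 / 2) ^ j * (Q * (2 * (Λ * S 0))) := by
          gcongr
          refine h2.trans ?_
          gcongr
      _ = C' * (1 / 2) ^ j * (Q * 2 * Λ) * S 0 := by ring
      _ ≤ c / (4 * Λ) * S 0 := by gcongr
      _ = c * S 0 / Λ / 4 := by
        field_simp
  · intro i hi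
    simp only
    obtain ⟨g, H⟩ := hf (z (i / N : ℝ)) (hzmem _ (hiN i hi))
    obtain ⟨hSi, hL, -⟩ := hS _ (hiN i hi)
    have h1 := hInr n (ball (z (i / N : ℝ)) (2 * t)) f g hn H (z (i / N : ℝ)) t _ ht0 hSi
      (hballt _) hL
    refine (ball_subset_ball ?_).trans h1
    have h2 := hcomp _ (hiN i hi) 0 h01
    rw [div_le_iff₀ hΛ0]
    calc c * S 0 ≤ c * (Λ * S (i / N : ℝ)) := by gcongr
      _ = c * S (i / N : ℝ) * Λ := by ring

end Pool.Agent.Lib.MPd8b51b.Chain
end

section
set_option autoImplicit false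

/-!
# MP_d8b51b_an: module CMP
-/

namespace Pool.Agent.Lib.MPd8b51b

open MeasureTheory Metric Set Filter
open scoped ENNReal Topology

theorem specCmp (hG : SpecGrow) (hM : SpecMor) (hV : SpecVol) (hMed : SpecMed) (hI : SpecInr) :
    SpecCmp := by
  intro k hk
  obtain ⟨M, hM1, hG⟩ := hG k hk
  obtain ⟨M', C, -, hC1, hMor⟩ := hM k hk
  obtain ⟨Q, hQ1, hVol⟩ := hV k hk
  obtain ⟨c, hc0, hInr⟩ := hI k hk
  have hM0 : 0 < M := by linarith
  refine ⟨max 1 (2 * M ^ 7 * (C * Q / c)), le_max_left _ _, ?_⟩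
  intro n U h g hn H z z' t S S' ht hS hS' hzU hz'U hzz hhigh hlow
  refine le_trans ?_ (mul_le_mul_of_nonneg_right (le_max_right _ _) hS.le)
  -- the image of a small ball is small
  have h1 : vr (h '' ball z (t / 4)) ≤ Q * S := by
    have e : 4 * (t / 4) = t := by ring
    exact hVol n U h g hn H z (t / 4) S (by positivity) hS (by rwa [e]) (by rwa [e])
  have h2 : ∀ x ∈ closedBall z (t / 32), dist (h x) (h z) ≤ C * Q * S := by
    intro x hx
    have h3 := hMor n U h g hn H z (t / 32) (by positivity)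
      ((closedBall_subset_closedBall (by linarith)).trans hzU) 0 x (by simpa using hx) z
      (by
        rw [pow_zero, div_one]
        exact mem_closedBall_self (by positivity))
    have e : 8 * (t / 32) = t / 4 := by ring
    rw [pow_zero, mul_one, e] at h3
    calc dist (h x) (h z) ≤ C * vr (h '' ball z (t / 4)) := h3
      _ ≤ C * (Q * S) := by gcongr
      _ = C * Q * S := by ring
  -- the typical size at scale `t / 64`
  have hz'U64 : closedBall z' (t / 64) ⊆ U :=
    (closedBall_subset_closedBall (by linarith)).trans hz'U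
  obtain ⟨S2, hS2, hlow2, hhigh2⟩ := hMed n h z' (t / 64) (by omega) (by positivity)
    (H.cont.mono hz'U64) (H.injOn.mono hz'U64)
  have h3 : c * S2 ≤ C * Q * S := by
    refine radius_le_of_ball_subset (by omega) (x := h z') (y := h z) (by positivity) ?_
    refine (hInr n U h g hn H z' (t / 64) S2 (by positivity) hS2 hz'U64 hlow2).trans ?_
    rintro _ ⟨x, hx, rfl⟩
    refine h2 x ?_
    rw [mem_ball] at hx
    rw [mem_closedBall]
    have := dist_triangle x z' z
    rw [dist_comm z' z] at this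
    linarith
  -- the comparison at `z'`
  have h4 : S' ≤ M ^ 7 * (2 * S2) := by
    by_contra hcon
    rw [not_le] at hcon
    obtain ⟨y, hy⟩ := hhigh2
    -- seven steps
    have hiter : ∀ i : ℕ, i ≤ 7 →
        volume {x ∈ closedBall z' t | dist (h x) y ≤ 2 * S2} ≤
          ((1 / 2) ^ n) ^ i * volume {x ∈ closedBall z' t | dist (h x) y ≤ M ^ i * (2 * S2)} := by
      intro i
      induction i with
      | zero => intro _; simp
      | succ i ih =>
        intro hi
        have h5 := ih (by omega)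
        have h6 : M * (M ^ i * (2 * S2)) = M ^ (i + 1) * (2 * S2) := by ring
        have h7 : M ^ (i + 1) * (2 * S2) ≤ S' := by
          refine le_trans ?_ hcon.le
          have : M ^ (i + 1) ≤ M ^ 7 := pow_le_pow_right₀ hM1.le hi
          gcongr
        have h8 := (hG n U h g hn H).1 z' t ht hz'U y (M ^ i * (2 * S2)) (by positivity) (by
          rw [h6]
          refine (measure_mono ?_).trans (hlow y)
          intro x hx
          exact ⟨hx.1, hx.2.trans_le h7⟩)
        rw [h6] at h8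
        have h9 : volume {x ∈ closedBall z' t | dist (h x) y < M ^ (i + 1) * (2 * S2)} ≤
            volume {x ∈ closedBall z' t | dist (h x) y ≤ M ^ (i + 1) * (2 * S2)} :=
          measure_mono fun x hx => ⟨hx.1, le_of_lt hx.2⟩
        calc volume {x ∈ closedBall z' t | dist (h x) y ≤ 2 * S2}
            ≤ ((1 / 2) ^ n) ^ i *
                volume {x ∈ closedBall z' t | dist (h x) y ≤ M ^ i * (2 * S2)} := h5
          _ ≤ ((1 / 2) ^ n) ^ i * ((1 / 2) ^ n *
                volume {x ∈ closedBall z' t | dist (h x) y < M ^ (i + 1) * (2 * S2)}) :=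
              mul_le_mul' le_rfl h8
          _ ≤ ((1 / 2) ^ n) ^ i * ((1 / 2) ^ n *
                volume {x ∈ closedBall z' t | dist (h x) y ≤ M ^ (i + 1) * (2 * S2)}) :=
              mul_le_mul' le_rfl (mul_le_mul' le_rfl h9)
          _ = _ := by ring
    have hseven : volume {x ∈ closedBall z' t | dist (h x) y ≤ 2 * S2} ≤
        ((1 / 2) ^ n) ^ 7 * (volume (closedBall z' t) / 2) := by
      refine (hiter 7 le_rfl).trans (mul_le_mul' le_rfl ?_)
      refine (measure_mono ?_).trans (hlow y)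
      intro x hx
      exact ⟨hx.1, lt_of_le_of_lt hx.2 hcon⟩
    have hlower : volume (closedBall z' (t / 64)) / 2 ≤
        volume {x ∈ closedBall z' t | dist (h x) y ≤ 2 * S2} := by
      have hsub : {x ∈ closedBall z' (t / 64) | dist (h x) y ≤ 2 * S2} ⊆
          {x ∈ closedBall z' t | dist (h x) y ≤ 2 * S2} := fun x hx =>
        ⟨closedBall_subset_closedBall (by linarith) hx.1, hx.2⟩
      refine le_trans ?_ (measure_mono hsub)
      have hfin : volume (closedBall z' (t / 64)) ≠ ∞ := measure_closedBall_lt_top.ne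
      have h5 : volume (closedBall z' (t / 64)) ≤
          volume {x ∈ closedBall z' (t / 64) | dist (h x) y ≤ 2 * S2} +
            volume (closedBall z' (t / 64)) / 2 := by
        refine le_trans ?_ (add_le_add le_rfl hy)
        refine le_trans (measure_mono ?_) (measure_union_le _ _)
        intro x hx
        rcases le_or_gt (dist (h x) y) (2 * S2) with hx1 | hx1
        · exact Or.inl ⟨hx, hx1⟩
        · exact Or.inr ⟨hx, hx1⟩
      have h6 : volume (closedBall z' (t / 64)) / 2 + volume (closedBall z' (t / 64)) / 2 =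
          volume (closedBall z' (t / 64)) := ENNReal.add_halves _
      rw [← h6] at h5
      have h7 : volume (closedBall z' (t / 64)) / 2 ≠ ∞ := ENNReal.div_ne_top hfin (by norm_num)
      rw [h6] at h5
      exact (ENNReal.add_le_add_iff_right h7).1 (by rw [h6]; exact h5)
    have hcmp := hlower.trans hseven
    rw [vol_closedBall z' ht, vol_closedBall z' (by positivity : 0 < t / 64)] at hcmp
    have hw := wn_toReal_pos n
    have hreal := ENNReal.toReal_mono (by
      refine ENNReal.mul_ne_top (by simp) (ENNReal.div_ne_top (ENNReal.mul_ne_top (by simp)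
        (wn_ne_top n)) (by norm_num))) hcmp
    simp only [ENNReal.toReal_mul, ENNReal.toReal_div, ENNReal.toReal_pow, ENNReal.toReal_one,
      ENNReal.toReal_ofNat, ENNReal.toReal_ofReal ht.le,
      ENNReal.toReal_ofReal (by positivity : 0 ≤ t / 64)] at hreal
    have hlt : ((1 : ℝ) / 128) ^ n < (1 / 64) ^ n :=
      pow_lt_pow_left₀ (by norm_num) (by norm_num) (by omega)
    have e1 : (t / 64) ^ n = (1 / 64) ^ n * t ^ n := by
      rw [← mul_pow]
      congr 1
      ring
    have e2 : (((1 : ℝ) / 2) ^ n) ^ 7 = (1 / 128) ^ n := by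
      rw [← pow_mul, mul_comm n 7, pow_mul]
      norm_num
    rw [e1, e2] at hreal
    have hpos : 0 < t ^ n * (volume (ball (0 : E n) 1)).toReal / 2 := by positivity
    nlinarith
  have h5 : S2 ≤ C * Q / c * S := by
    rw [div_mul_eq_mul_div, le_div_iff₀ hc0]
    linarith
  calc S' ≤ M ^ 7 * (2 * S2) := h4
    _ ≤ M ^ 7 * (2 * (C * Q / c * S)) := by gcongr
    _ = 2 * M ^ 7 * (C * Q / c) * S := by ring

end Pool.Agent.Lib.MPd8b51b
end

section
set_option autoImplicit false

/-!
# MP_d8b51b_an: module COMP (energy of a composition)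
-/

namespace Pool.Agent.Lib.MPd8b51b

open MeasureTheory Metric Set Filter
open scoped ENNReal Topology

theorem specComp : SpecComp := by
  intro n k U h hn hk hCI hcont C hCU hC ψ hψ ε hε
  have hψd : Differentiable ℝ ψ := hψ.differentiable one_ne_zero
  have hψc : Continuous (fderiv ℝ ψ) := hψ.continuous_fderiv one_ne_zero
  -- uniform continuity near `h '' C`
  have hKc : IsCompact (h '' C) := hC.image_of_continuousOn (hcont.mono hCU)
  have hunif := hKc.uniformContinuousAt_of_continuousAt ψ (fun a _ => hψ.continuous.continuousAt)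
    (Metric.dist_mem_uniformity hε)
  obtain ⟨δ, hδ, hδ'⟩ := Metric.mem_uniformity_dist.1 hunif
  have hm : 0 < min (δ / 2) ε := lt_min (by linarith) hε
  obtain ⟨F, hF, hF1, hF2⟩ := hCI C hCU hC (fun y => ‖fderiv ℝ ψ y‖) hψc.norm
    (fun y => norm_nonneg _) _ hm
  have hFd : Differentiable ℝ F := hF.differentiable one_ne_zero
  refine ⟨fun x => ψ (F x), hψ.comp hF, fun x hx => ?_, ?_⟩
  · have h1 : dist (h x) (F x) < δ := by
      rw [dist_comm, dist_eq_norm]
      exact (hF1 x hx).trans_lt ((min_le_left _ _).trans_lt (by linarith))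
    have h2 : dist (ψ (h x)) (ψ (F x)) < ε := hδ' h1 ⟨x, hx, rfl⟩
    rw [dist_comm, Real.dist_eq] at h2
    exact h2.le
  · refine (lintegral_mono fun x => ?_).trans (hF2.trans ?_)
    · have h3 : fderiv ℝ (fun x => ψ (F x)) x = (fderiv ℝ ψ (F x)).comp (fderiv ℝ F x) :=
        fderiv_fun_comp x (hψd (F x)) (hFd x)
      have h4 : ‖fderiv ℝ (fun x => ψ (F x)) x‖ₑ ≤
          ENNReal.ofReal ‖fderiv ℝ ψ (F x)‖ * ‖fderiv ℝ F x‖ₑ := by
        rw [h3, ofReal_norm, ← ofReal_norm, ← ofReal_norm, ← ofReal_norm,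
          ← ENNReal.ofReal_mul (norm_nonneg _)]
        exact ENNReal.ofReal_le_ofReal (ContinuousLinearMap.opNorm_comp_le _ _)
      exact pow_le_pow_left₀ zero_le h4 n
    · refine add_le_add (le_of_eq ?_) (ENNReal.ofReal_le_ofReal (min_le_right _ _))
      simp only [ofReal_norm]

end Pool.Agent.Lib.MPd8b51b
end

section
set_option autoImplicit false

/-!
# MP_d8b51b_an: DIAM, diameters are bounded by volumes for the inverse map
-/

namespace Pool.Agent.Lib.MPd8b51b.Diam

open MeasureTheory Metric Set Filter Topology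
open scoped ENNReal

variable {n : ℕ}

/-- if `w` has large oscillation on half of a ball around `x`, then some concentric dyadic ball
carries a lot of energy -/
lemma big_energy (hP : SpecPair) (hT : SpecTel) (hn : 2 ≤ n) {q : ℝ} (hq0 : 0 < q) (hq1 : q < 1)
    (hqn : q ^ n = 1 / 2) {w : E n → ℝ} (hw : ContDiff ℝ 1 w) {x : E n} {R : ℝ} (hR : 0 < R)
    (hhalf : volume {z ∈ closedBall x R | ‖w z - w x‖ < 98 / 100} ≤
      volume (closedBall x R) / 2) :
    ∃ j : ℕ, ENNReal.ofReal ((1 - q) / 32) ^ n * volume (ball (0 : E n) 1) *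
      ENNReal.ofReal ((1 / 2) ^ j) <
      ∫⁻ z in closedBall x (R * (1 / 2) ^ j), ‖fderiv ℝ w z‖ₑ ^ n := by
  by_contra hcon
  push Not at hcon
  have hn1 : 1 ≤ n := by omega
  set τ : ℝ := (1 - q) / 32 with hτ
  have hτ0 : 0 < τ := by
    rw [hτ]
    have : 0 < 1 - q := by linarith
    positivity
  set α : ℕ → ℝ := fun j => 4 * τ * q ^ j with hα
  have hsum : 2 * ∑' j, α j = 1 / 4 := by
    have h1q : (1 - q) ≠ 0 := by linarith
    rw [hα, tsum_mul_left, tsum_geometric_of_lt_one hq0.le hq1, hτ]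
    field_simp
    norm_num
  have hvol0 : volume (closedBall x R) ≠ 0 := (measure_closedBall_pos _ _ hR).ne'
  have hvolt : volume (closedBall x R) ≠ ∞ := measure_closedBall_lt_top.ne
  have key := hT (E n) volume ℝ (closedBall x R) w n x α hn1
    (by rw [finrank_euclideanSpace, Fintype.card_fin]) (convex_closedBall _ _)
    (isCompact_closedBall _ _) (measure_closedBall_pos _ _ hR) (mem_closedBall_self hR.le)
    hw.continuous.continuousOn (fun j => by positivity)
    ((summable_geometric_of_lt_one hq0.le hq1).mul_left _) ?_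
  · rw [hsum] at key
    -- lower bound
    set A : Set (E n) := {z ∈ closedBall x R | 98 / 100 ≤ ‖w z - w x‖} with hA
    have h1 : volume (closedBall x R) / 2 ≤ volume A := by
      have h2 : volume (closedBall x R) ≤ volume A + volume (closedBall x R) / 2 := by
        calc volume (closedBall x R) ≤
            volume (A ∪ {z ∈ closedBall x R | ‖w z - w x‖ < 98 / 100}) := by
              refine measure_mono fun z hz => ?_
              rcases le_or_gt (98 / 100) ‖w z - w x‖ with h | h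
              · exact Or.inl ⟨hz, h⟩
              · exact Or.inr ⟨hz, h⟩
          _ ≤ volume A + volume {z ∈ closedBall x R | ‖w z - w x‖ < 98 / 100} :=
              measure_union_le _ _
          _ ≤ _ := by gcongr
      have h3 : volume (closedBall x R) = volume (closedBall x R) / 2 +
          volume (closedBall x R) / 2 := (ENNReal.add_halves _).symm
      have h4 : volume (closedBall x R) / 2 + volume (closedBall x R) / 2 ≤
          volume A + volume (closedBall x R) / 2 := by rwa [← h3]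
      exact (ENNReal.add_le_add_iff_right (by finiteness)).1 h4
    have hAm : MeasurableSet A := by
      refine measurableSet_closedBall.inter ?_
      exact measurableSet_le measurable_const (hw.continuous.sub continuous_const).norm.measurable
    have h5 : ENNReal.ofReal (98 / 100) ^ n * (volume (closedBall x R) / 2) ≤
        ENNReal.ofReal (1 / 4) ^ n * volume (closedBall x R) := by
      refine le_trans ?_ key
      calc ENNReal.ofReal (98 / 100) ^ n * (volume (closedBall x R) / 2)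
          ≤ ENNReal.ofReal (98 / 100) ^ n * volume A := by gcongr
        _ = ∫⁻ z in A, ENNReal.ofReal (98 / 100) ^ n := by rw [setLIntegral_const]
        _ ≤ ∫⁻ z in A, ‖w z - w x‖ₑ ^ n := by
            refine setLIntegral_mono' hAm fun z hz => ?_
            gcongr
            rw [← ofReal_norm]
            exact ENNReal.ofReal_le_ofReal hz.2
        _ ≤ _ := lintegral_mono_set fun z hz => hz.1
    have h6 : ENNReal.ofReal ((98 / 100) ^ n / 2) * volume (closedBall x R) ≤
        ENNReal.ofReal ((1 / 4) ^ n) * volume (closedBall x R) := by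
      refine le_trans (le_of_eq ?_) (h5.trans (le_of_eq ?_))
      · rw [ENNReal.ofReal_div_of_pos (by norm_num), ENNReal.ofReal_pow (by norm_num)]
        simp only [div_eq_mul_inv, ENNReal.ofReal_ofNat]
        ring
      · rw [ENNReal.ofReal_pow (by norm_num)]
    rw [ENNReal.mul_le_mul_iff_left hvol0 hvolt, ENNReal.ofReal_le_ofReal_iff (by positivity)] at h6
    have h7 : (1 / 4 : ℝ) ^ n = (1 / 2) ^ n * (1 / 2) ^ n := by
      rw [← mul_pow]; norm_num
    have h8 : (1 / 2 : ℝ) ^ n ≤ 1 / 2 := by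
      calc (1 / 2 : ℝ) ^ n ≤ (1 / 2) ^ 1 := pow_le_pow_of_le_one (by norm_num) (by norm_num) hn1
        _ = 1 / 2 := pow_one _
    have h9 : (1 / 2 : ℝ) ^ n < (98 / 100) ^ n := by
      apply pow_lt_pow_left₀ (by norm_num) (by norm_num) (by omega)
    have h10 : (0 : ℝ) < (1 / 2) ^ n := by positivity
    nlinarith
  · intro j
    set c : ℝ := (1 / 2) ^ j with hc
    have hc0 : 0 < c := by positivity
    set K : Set (E n) := AffineMap.homothety x c '' closedBall x R with hK
    have hKsub : K ⊆ closedBall x (R * c) := by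
      rintro _ ⟨y, hy, rfl⟩
      rw [mem_closedBall] at hy ⊢
      rw [AffineMap.homothety_apply, vsub_eq_sub, vadd_eq_add, dist_eq_norm, add_sub_cancel_right,
        norm_smul, Real.norm_of_nonneg hc0.le, ← dist_eq_norm]
      nlinarith
    have hKc : IsCompact K := (isCompact_closedBall _ _).image (AffineMap.homothety_continuous x c)
    have hKconv : Convex ℝ K := (convex_closedBall x R).affine_image _
    have hvolK : volume K = ENNReal.ofReal (c * R) ^ n * volume (ball (0 : E n) 1) := by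
      rw [hK, Measure.addHaar_image_homothety, finrank_euclideanSpace, Fintype.card_fin,
        vol_closedBall _ hR, abs_of_pos (by positivity), ENNReal.ofReal_pow hc0.le,
        ENNReal.ofReal_mul hc0.le, mul_pow, mul_assoc]
    have hdiam : Metric.ediam K ≤ ENNReal.ofReal (2 * (c * R)) := by
      refine Metric.ediam_le_of_forall_dist_le fun y hy z hz => ?_
      have h1 := hKsub hy
      have h2 := hKsub hz
      rw [mem_closedBall] at h1 h2
      have := dist_triangle_right y z x
      linarith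
    have hcq : ENNReal.ofReal c = ENNReal.ofReal (q ^ j) ^ n := by
      rw [← ENNReal.ofReal_pow (by positivity), ← pow_mul, mul_comm j n, pow_mul, hqn]
    calc ∫⁻ y in K, (∫⁻ y' in K, ‖w y - w y'‖ₑ ^ n)
        ≤ 2 ^ n * Metric.ediam K ^ n * volume K * ∫⁻ x in K, ‖fderiv ℝ w x‖ₑ ^ n := by
          have := hP (E n) volume ℝ K w n hn1 hKconv hKc hw
          rwa [finrank_euclideanSpace, Fintype.card_fin] at this
      _ ≤ 2 ^ n * ENNReal.ofReal (2 * (c * R)) ^ n * volume K *
          (ENNReal.ofReal τ ^ n * volume (ball (0 : E n) 1) * ENNReal.ofReal c) := by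
          gcongr
          exact (lintegral_mono_set hKsub).trans (hcon j)
      _ = ENNReal.ofReal (α j) ^ n * volume K *
          (ENNReal.ofReal (c * R) ^ n * volume (ball (0 : E n) 1)) := by
          rw [hcq]
          have h1 : (2 : ℝ≥0∞) ^ n = ENNReal.ofReal 2 ^ n := by simp
          have h2 : ENNReal.ofReal 2 * ENNReal.ofReal (2 * (c * R)) * (ENNReal.ofReal τ *
              ENNReal.ofReal (q ^ j)) = ENNReal.ofReal (α j) * ENNReal.ofReal (c * R) := by
            rw [← ENNReal.ofReal_mul (by norm_num), ← ENNReal.ofReal_mul hτ0.le,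
              ← ENNReal.ofReal_mul (by positivity), ← ENNReal.ofReal_mul (by positivity)]
            congr 1
            rw [hα]
            ring
          calc 2 ^ n * ENNReal.ofReal (2 * (c * R)) ^ n * volume K *
                (ENNReal.ofReal τ ^ n * volume (ball (0 : E n) 1) * ENNReal.ofReal (q ^ j) ^ n)
              = (ENNReal.ofReal 2 * ENNReal.ofReal (2 * (c * R)) * (ENNReal.ofReal τ *
                ENNReal.ofReal (q ^ j))) ^ n * volume K * volume (ball (0 : E n) 1) := by
                rw [h1]; ring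
            _ = _ := by rw [h2]; ring
      _ = ENNReal.ofReal (α j) ^ n * volume K ^ 2 := by rw [← hvolK]; ring

/-- Vitali covering of a continuum: the distance of two points is at most ten times the sum of the
radii of disjoint balls -/
lemma chain_le {D : Set (E n)} (hD : IsCompact D) (hDc : IsPreconnected D) {ρ : E n → ℝ}
    {R : ℝ} (hρ0 : ∀ x ∈ D, 0 < ρ x) (hρR : ∀ x ∈ D, ρ x ≤ R) {a b : E n} (ha : a ∈ D)
    (hb : b ∈ D) :
    ∃ u : Finset (E n), (∀ x ∈ u, x ∈ D) ∧
      (u : Set (E n)).PairwiseDisjoint (fun x => closedBall x (ρ x)) ∧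
      ENNReal.ofReal (dist a b) ≤ 10 * ∑ x ∈ u, ENNReal.ofReal (ρ x) := by
  obtain ⟨t, htD, ht⟩ := hD.elim_nhds_subcover (fun x => closedBall x (ρ x))
    (fun x hx => closedBall_mem_nhds x (hρ0 x hx))
  obtain ⟨u, hut, hud, hu⟩ := Vitali.exists_disjoint_subfamily_covering_enlargement_closedBall
    (t : Set (E n)) (fun x => x) ρ R (fun x hx => hρR x (htD x hx)) 5 (by norm_num)
  have huf : u.Finite := t.finite_toSet.subset hut
  refine ⟨huf.toFinset, fun x hx => htD x (hut (huf.mem_toFinset.1 hx)), by simpa using hud, ?_⟩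
  have h1 : Icc 0 (dist a b) ⊆ ⋃ c ∈ huf.toFinset,
      Icc (dist c a - 5 * ρ c) (dist c a + 5 * ρ c) := by
    intro s hs
    have h2 := hDc.intermediate_value ha hb (f := fun z => dist z a)
      (continuous_id.dist continuous_const).continuousOn
    obtain ⟨z, hz, rfl⟩ := h2 (by simpa [dist_comm b a] using hs)
    obtain ⟨c, hc, hzc⟩ := mem_iUnion₂.1 (ht hz)
    obtain ⟨b', hb', hsub⟩ := hu c hc
    have h3 := hsub hzc
    rw [mem_iUnion₂]
    refine ⟨b', huf.mem_toFinset.2 hb', ?_⟩
    rw [mem_closedBall] at h3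
    have h4 := abs_dist_sub_le z b' a
    rw [abs_le] at h4
    constructor
    · simp only
      linarith
    · simp only
      linarith
  have h5 : ENNReal.ofReal (dist a b) = volume (Icc 0 (dist a b)) := by
    rw [Real.volume_Icc, sub_zero]
  rw [h5]
  refine (measure_mono h1).trans ((measure_biUnion_finset_le _ _).trans ?_)
  rw [Finset.mul_sum]
  refine Finset.sum_le_sum fun c _ => ?_
  rw [Real.volume_Icc]
  have h6 : (10 : ℝ≥0∞) = ENNReal.ofReal 10 := by simp
  rw [h6, ← ENNReal.ofReal_mul (by norm_num)]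
  refine ENNReal.ofReal_le_ofReal ?_
  linarith

theorem specDiam (hP : SpecPair) (hT : SpecTel) (hLin : SpecLin) (hE : SpecExt) : SpecDiam := by
  intro n k hn hk
  have hn1 : 1 ≤ n := by omega
  have hnR : (n : ℝ) ≠ 0 := by
    have : n ≠ 0 := by omega
    exact_mod_cast this
  set wn : ℝ := (volume (ball (0 : E n) 1)).toReal with hwn
  have hwn0 : 0 < wn := wn_toReal_pos n
  have hwnE : volume (ball (0 : E n) 1) = ENNReal.ofReal wn := by
    rw [hwn, ENNReal.ofReal_toReal (wn_ne_top n)]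
  set q : ℝ := (1 / 2 : ℝ) ^ (1 / (n : ℝ)) with hq
  have hq0 : 0 < q := by positivity
  have hq1 : q < 1 := Real.rpow_lt_one (by norm_num) (by norm_num) (by positivity)
  have hqn : q ^ n = 1 / 2 := by
    rw [hq, ← Real.rpow_natCast, ← Real.rpow_mul (by norm_num), one_div_mul_cancel hnR,
      Real.rpow_one]
  set τ : ℝ := (1 - q) / 32 with hτ
  have hτ0 : 0 < τ := by
    rw [hτ]
    have : 0 < 1 - q := by linarith
    positivity
  set κ : ℝ := τ ^ n * wn with hκ
  have hκ0 : 0 < κ := by positivity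
  set e : ℝ := (16 * k) ^ n * wn with he
  have he0 : 0 ≤ e := by positivity
  refine ⟨(10 * (e + 1) / κ) ^ n * (2 / wn), by positivity, ?_⟩
  intro U h g H hCI y r hr hsub y₁ hy₁ y₂ hy₂
  have Hs : Hom (h '' U) g h := H.symm
  have hgU : g '' (h '' U) = U := H.image_image subset_rfl
  obtain ⟨ψ, hψ, hψ01, hψ1, hψ0, hψD⟩ := hLin n y r (3 / 2 * r) hr (by linarith)
  obtain ⟨hcont, hen⟩ := hE n k (h '' U) g h hn1 hk Hs (by rw [hgU]; exact hCI) y (3 / 2 * r)
    (2 * r) (by positivity) (by linarith) hsub ψ (fun _ => 1) univ hψ contDiff_const hψ01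
    (fun _ => ⟨zero_le_one, le_rfl⟩) (fun a ha => hψ0 a fun ha' => ha (ball_subset_closedBall ha'))
    isClosed_univ (fun a ha => absurd (mem_univ a) ha)
  set u : E n → ℝ := (g '' ball y (2 * r)).indicator (fun z => ψ (h z) * 1) with hu
  -- the continuum
  have hrr : closedBall y r ⊆ closedBall y (2 * r) := closedBall_subset_closedBall (by linarith)
  set D : Set (E n) := g '' closedBall y r with hD
  have hDcomp : IsCompact D := Hs.isCompact_image (isCompact_closedBall y r) (hrr.trans hsub)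
  have hDconn : IsPreconnected D := (convex_closedBall y r).isPreconnected.image g
    (Hs.cont.mono (hrr.trans hsub))
  have hu1 : ∀ x ∈ D, u x = 1 := by
    rintro _ ⟨a, ha, rfl⟩
    have ha2 : a ∈ ball y (2 * r) := by
      rw [mem_ball]
      rw [mem_closedBall] at ha
      linarith
    rw [hu, indicator_of_mem (mem_image_of_mem g ha2),
      Hs.left_inv a (hsub (ball_subset_closedBall ha2)), hψ1 a ha]
    simp
  have hu0 : ∀ x, x ∉ g '' ball y (2 * r) → u x = 0 := fun x hx => indicator_of_notMem hx _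
  -- the volume and the radius
  set m : ℝ≥0∞ := volume (g '' closedBall y (2 * r)) with hm
  have hmtop : m ≠ ∞ := Hs.volume_image_ne_top subset_rfl (isCompact_closedBall y _) hsub
  have hm0 : m ≠ 0 := by
    have h1 : IsOpen (g '' ball y (2 * r)) :=
      Hs.isOpen_image_of isOpen_ball (ball_subset_closedBall.trans hsub)
    have h2 : (g '' ball y (2 * r)).Nonempty := (nonempty_ball.2 (by positivity)).image g
    have h3 := h1.measure_pos volume h2
    exact (h3.trans_le (measure_mono (image_mono ball_subset_closedBall))).ne'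
  have hmR : 0 < m.toReal := ENNReal.toReal_pos hm0 hmtop
  set R : ℝ := (2 * m.toReal / wn) ^ (1 / (n : ℝ)) with hR
  have hR0 : 0 < R := by positivity
  have hRn : R ^ n = 2 * m.toReal / wn := by
    rw [hR, ← Real.rpow_natCast, ← Real.rpow_mul (by positivity), one_div_mul_cancel hnR,
      Real.rpow_one]
  have hvolR : ∀ x : E n, volume (closedBall x R) = 2 * m := by
    intro x
    rw [vol_closedBall x hR0, ← ENNReal.ofReal_pow hR0.le, hRn, hwnE,
      ← ENNReal.ofReal_mul (by positivity), div_mul_cancel₀ _ hwn0.ne',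
      ENNReal.ofReal_mul (by norm_num), ENNReal.ofReal_toReal hmtop]
    simp
  -- the big ball
  obtain ⟨R₀, hR₀⟩ := hDcomp.isBounded.subset_closedBall (0 : E n)
  set K : Set (E n) := closedBall (0 : E n) (R₀ + R) with hK
  have hKsub : ∀ x ∈ D, closedBall x R ⊆ K := by
    intro x hx z hz
    have h1 := hR₀ hx
    rw [mem_closedBall] at h1 hz ⊢
    have := dist_triangle z x 0
    linarith
  obtain ⟨w, hw, hwu, hwe⟩ := hen K (isCompact_closedBall _ _) (1 / 100) (by norm_num)
  -- energy bound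
  have hene : ∫⁻ x in K, ‖fderiv ℝ w x‖ₑ ^ n ≤ ENNReal.ofReal (e + 1) := by
    refine hwe.trans ?_
    rw [ENNReal.ofReal_add he0 zero_le_one]
    gcongr
    · have h00 : ∀ z : E n, ‖fderiv ℝ (fun _ : E n => (1 : ℝ)) z‖ₑ ^ n = 0 := by
        intro z
        rw [fderiv_fun_const, Pi.zero_apply, ← ofReal_norm, norm_zero,
          ENNReal.ofReal_zero, zero_pow (by omega)]
      rw [lintegral_congr h00, lintegral_zero, add_zero]
      have h1 : ∫⁻ a in {a ∈ closedBall y (2 * r) | g a ∈ univ}, ‖fderiv ℝ ψ a‖ₑ ^ n ≤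
          ENNReal.ofReal 8 ^ n * volume (ball (0 : E n) 1) := by
        calc ∫⁻ a in {a ∈ closedBall y (2 * r) | g a ∈ univ}, ‖fderiv ℝ ψ a‖ₑ ^ n
            ≤ ∫⁻ a in closedBall y (2 * r), ‖fderiv ℝ ψ a‖ₑ ^ n :=
              lintegral_mono_set fun a ha => ha.1
          _ ≤ ∫⁻ a in closedBall y (2 * r), ENNReal.ofReal (4 / r) ^ n := by
              refine lintegral_mono fun a => ?_
              gcongr
              rw [← ofReal_norm]
              refine ENNReal.ofReal_le_ofReal ((hψD a).trans (le_of_eq ?_))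
              field_simp
              norm_num
          _ = ENNReal.ofReal (4 / r) ^ n *
              (ENNReal.ofReal (2 * r) ^ n * volume (ball (0 : E n) 1)) := by
              rw [setLIntegral_const, vol_closedBall y (by positivity)]
          _ = _ := by
              rw [← mul_assoc, ← mul_pow, ← ENNReal.ofReal_mul (by positivity)]
              congr 3
              field_simp
              norm_num
      calc 2 ^ n * (ENNReal.ofReal k ^ n *
            ∫⁻ a in {a ∈ closedBall y (2 * r) | g a ∈ univ}, ‖fderiv ℝ ψ a‖ₑ ^ n)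
          ≤ ENNReal.ofReal 2 ^ n * (ENNReal.ofReal k ^ n *
            (ENNReal.ofReal 8 ^ n * volume (ball (0 : E n) 1))) := by
            have h2 : (2 : ℝ≥0∞) ^ n = ENNReal.ofReal 2 ^ n := by simp
            rw [h2]
            gcongr
        _ = (ENNReal.ofReal 2 * ENNReal.ofReal k * ENNReal.ofReal 8) ^ n *
            volume (ball (0 : E n) 1) := by ring
        _ = ENNReal.ofReal e := by
            rw [← ENNReal.ofReal_mul (by norm_num), ← ENNReal.ofReal_mul (by positivity),
              ← ENNReal.ofReal_pow (by positivity), hwnE, ← ENNReal.ofReal_mul (by positivity), he]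
            congr 3
            ring
    · norm_num
  -- large energy around every point of the continuum
  have hj : ∀ x : E n, ∃ j : ℕ, x ∈ D → ENNReal.ofReal κ * ENNReal.ofReal ((1 / 2) ^ j) <
      ∫⁻ z in closedBall x (R * (1 / 2) ^ j), ‖fderiv ℝ w z‖ₑ ^ n := by
    intro x
    by_cases hx : x ∈ D
    · obtain ⟨j, hj⟩ := big_energy hP hT hn hq0 hq1 hqn hw hR0 (x := x) (by
        rw [hvolR x]
        have h1 : {z ∈ closedBall x R | ‖w z - w x‖ < 98 / 100} ⊆ g '' closedBall y (2 * r) := by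
          rintro z ⟨hz, hz'⟩
          by_contra hcon
          have h2 : u z = 0 := hu0 z fun h3 => hcon (image_mono ball_subset_closedBall h3)
          have h3 := hwu z (hKsub x hx hz)
          have h4 := hwu x (hKsub x hx (mem_closedBall_self hR0.le))
          rw [h2, sub_zero] at h3
          rw [hu1 x hx] at h4
          rw [Real.norm_eq_abs, abs_lt] at hz'
          rw [abs_le] at h3 h4
          linarith
        refine (measure_mono h1).trans (le_of_eq ?_)
        rw [← hm, mul_comm, ENNReal.mul_div_cancel_right (by norm_num) (by norm_num)])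
      refine ⟨j, fun _ => ?_⟩
      have h5 : ENNReal.ofReal κ = ENNReal.ofReal τ ^ n * volume (ball (0 : E n) 1) := by
        rw [hκ, ENNReal.ofReal_mul (by positivity), ENNReal.ofReal_pow hτ0.le, hwnE]
      rw [h5]
      exact hj
    · exact ⟨0, fun h => absurd h hx⟩
  choose j hj using hj
  have hhalf1 : ∀ i : ℕ, (1 / 2 : ℝ) ^ i ≤ 1 := fun i => pow_le_one₀ (by norm_num) (by norm_num)
  obtain ⟨F, hFD, hFdisj, hFle⟩ := chain_le hDcomp hDconn (ρ := fun x => R * (1 / 2) ^ j x)
    (R := R) (fun x _ => by positivity) (fun x _ => by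
      have := hhalf1 (j x)
      nlinarith) (mem_image_of_mem g hy₁) (mem_image_of_mem g hy₂)
  have hterm : ∀ x ∈ F, ENNReal.ofReal (R * (1 / 2) ^ j x) ≤ ENNReal.ofReal (R / κ) *
      ∫⁻ z in closedBall x (R * (1 / 2) ^ j x), ‖fderiv ℝ w z‖ₑ ^ n := by
    intro x hx
    have h1 : ENNReal.ofReal (R * (1 / 2) ^ j x) = ENNReal.ofReal (R / κ) *
        (ENNReal.ofReal κ * ENNReal.ofReal ((1 / 2) ^ j x)) := by
      rw [← ENNReal.ofReal_mul hκ0.le, ← ENNReal.ofReal_mul (by positivity)]
      congr 1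
      field_simp
    rw [h1]
    gcongr
    exact (hj x (hFD x hx)).le
  have hsum : ∑ x ∈ F, ENNReal.ofReal (R * (1 / 2) ^ j x) ≤
      ENNReal.ofReal (R / κ) * ENNReal.ofReal (e + 1) := by
    calc ∑ x ∈ F, ENNReal.ofReal (R * (1 / 2) ^ j x)
        ≤ ∑ x ∈ F, ENNReal.ofReal (R / κ) *
          ∫⁻ z in closedBall x (R * (1 / 2) ^ j x), ‖fderiv ℝ w z‖ₑ ^ n :=
          Finset.sum_le_sum hterm
      _ = ENNReal.ofReal (R / κ) * ∫⁻ z in ⋃ x ∈ F, closedBall x (R * (1 / 2) ^ j x),
          ‖fderiv ℝ w z‖ₑ ^ n := by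
          rw [← Finset.mul_sum, lintegral_biUnion_finset hFdisj
            (fun x _ => measurableSet_closedBall)]
      _ ≤ ENNReal.ofReal (R / κ) * ∫⁻ z in K, ‖fderiv ℝ w z‖ₑ ^ n := by
          gcongr
          refine iUnion₂_subset fun x hx => ?_
          refine (closedBall_subset_closedBall ?_).trans (hKsub x (hFD x hx))
          have := hhalf1 (j x)
          nlinarith
      _ ≤ _ := by gcongr
  have hfin : ENNReal.ofReal (dist (g y₁) (g y₂)) ≤ ENNReal.ofReal (10 * (e + 1) / κ * R) := by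
    refine hFle.trans ?_
    calc 10 * ∑ x ∈ F, ENNReal.ofReal (R * (1 / 2) ^ j x)
        ≤ 10 * (ENNReal.ofReal (R / κ) * ENNReal.ofReal (e + 1)) := by gcongr
      _ = _ := by
        have h6 : (10 : ℝ≥0∞) = ENNReal.ofReal 10 := by simp
        rw [h6, ← ENNReal.ofReal_mul (by positivity), ← ENNReal.ofReal_mul (by norm_num)]
        congr 1
        ring
  calc ENNReal.ofReal (dist (g y₁) (g y₂)) ^ n ≤ ENNReal.ofReal (10 * (e + 1) / κ * R) ^ n := by
        gcongr
    _ = ENNReal.ofReal ((10 * (e + 1) / κ) ^ n * (2 / wn) * m.toReal) := by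
        rw [← ENNReal.ofReal_pow (by positivity), mul_pow, hRn]
        congr 1
        ring
    _ = _ := by
        rw [ENNReal.ofReal_mul (by positivity), ENNReal.ofReal_toReal hmtop]

end Pool.Agent.Lib.MPd8b51b.Diam
end

section
set_option autoImplicit false

/-!
# MP_d8b51b_an: DIFF
-/

namespace Pool.Agent.Lib.MPd8b51b

open MeasureTheory Metric Set Filter Topology
open scoped ENNReal NNReal Pointwise

namespace Diff

variable {n : ℕ}

/-- the measure `A ↦ vol (g '' (A ∩ K))` -/
lemma exists_measure {K : Set (E n)} (hK : IsCompact K) {g : E n → E n} (hg : ContinuousOn g K)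
    (hinj : InjOn g K) : ∃ ν : Measure (E n), IsFiniteMeasure ν ∧
      ∀ A : Set (E n), MeasurableSet A → ν A = volume (g '' (K ∩ A)) := by
  have hKm : MeasurableSet K := hK.isClosed.measurableSet
  have hemb : MeasurableEmbedding (K.domRestrict g) := hg.measurableEmbedding hKm hinj
  have hval : MeasurableEmbedding (Subtype.val : K → E n) := MeasurableEmbedding.subtype_coe hKm
  have hA : ∀ A : Set (E n), MeasurableSet A →
      (((volume : Measure (E n)).comap (K.domRestrict g)).map Subtype.val) A =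
        volume (g '' (K ∩ A)) := by
    intro A hA
    rw [Measure.map_apply measurable_subtype_coe hA, hemb.comap_apply]
    congr 1
    ext y
    constructor
    · rintro ⟨x, hx, rfl⟩
      exact ⟨x, ⟨x.2, hx⟩, rfl⟩
    · rintro ⟨x, hx, rfl⟩
      exact ⟨⟨x, hx.1⟩, hx.2, rfl⟩
  refine ⟨_, ⟨?_⟩, hA⟩
  rw [hA univ MeasurableSet.univ, inter_univ]
  exact (hK.image_of_continuousOn hg).measure_lt_top

lemma local_diff (hS : SpecStepanov) (hn : 1 ≤ n) {C : ℝ} (hC : 0 < C) {V : Set (E n)}
    {g : E n → E n} (hg : ContinuousOn g V) (hinj : InjOn g V) (hD : DiamBd C V g)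
    {v : E n} {ρ : ℝ} (hρ : 0 < ρ) (hsub : closedBall v (3 * ρ) ⊆ V) :
    ∀ᵐ y : E n, y ∈ ball v ρ → DifferentiableAt ℝ g y := by
  obtain ⟨ν, hνf, hν⟩ := exists_measure (isCompact_closedBall v (3 * ρ)) (hg.mono hsub)
    (hinj.mono hsub)
  filter_upwards [hS n g, Besicovitch.ae_tendsto_rnDeriv ν (volume : Measure (E n)),
    Measure.rnDeriv_lt_top ν (volume : Measure (E n))] with y hy1 hy2 hy3 hyv
  refine hy1 ?_
  set D := ν.rnDeriv volume y with hDdef
  have h1 : ∀ᶠ r in 𝓝[>] (0 : ℝ), ν (closedBall y r) / volume (closedBall y r) < D + 1 :=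
    hy2.eventually (gt_mem_nhds (ENNReal.lt_add_right hy3.ne one_ne_zero))
  rw [eventually_nhdsWithin_iff, Metric.eventually_nhds_iff] at h1
  obtain ⟨δ, hδ, h1⟩ := h1
  -- the constant
  set Q : ℝ≥0∞ := ENNReal.ofReal C * ((D + 1) * (2 ^ n * volume (ball (0 : E n) 1))) with hQ
  have hQt : Q ≠ ∞ := by
    have := wn_ne_top n
    have h3 := hy3.ne
    rw [hQ]
    finiteness
  set L : ℝ := max 1 Q.toReal with hL
  have hL1 : 1 ≤ L := le_max_left _ _
  have hQL : Q ≤ ENNReal.ofReal L := by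
    rw [← ENNReal.ofReal_toReal hQt]
    exact ENNReal.ofReal_le_ofReal (le_max_right _ _)
  refine ⟨L, min (δ / 2) ρ, by positivity, fun y' hy' => ?_⟩
  rcases (dist_nonneg (x := y') (y := y)).eq_or_lt with h0 | h0
  · have : y' = y := dist_eq_zero.1 h0.symm
    rw [this, dist_self, dist_self, mul_zero]
  rw [mem_ball] at hy'
  set r := dist y' y with hr
  have hrδ : 2 * r < δ := by
    have := hy'.trans_le (min_le_left _ _)
    linarith
  have hrρ : r < ρ := hy'.trans_le (min_le_right _ _)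
  have hball : closedBall y (2 * r) ⊆ closedBall v (3 * ρ) := by
    refine closedBall_subset_closedBall' ?_
    rw [mem_ball] at hyv
    linarith
  have h2 := h1 (y := 2 * r) (by rw [Real.dist_eq, sub_zero, abs_of_pos (by linarith)]; exact hrδ)
    (mem_Ioi.2 (by linarith))
  have hB0 : volume (closedBall y (2 * r)) ≠ 0 :=
    (measure_closedBall_pos _ _ (by linarith)).ne'
  have hBt : volume (closedBall y (2 * r)) ≠ ∞ := measure_closedBall_lt_top.ne
  have h3 : ν (closedBall y (2 * r)) ≤ (D + 1) * volume (closedBall y (2 * r)) :=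
    (ENNReal.div_le_iff hB0 hBt).1 h2.le
  rw [hν _ isClosed_closedBall.measurableSet, inter_eq_right.2 hball] at h3
  have h4 := hD y r h0 (hball.trans hsub) y' (mem_closedBall.2 le_rfl) y
    (mem_closedBall_self h0.le)
  have h5 : ENNReal.ofReal (dist (g y') (g y)) ^ n ≤ ENNReal.ofReal (L * r) ^ n := by
    calc ENNReal.ofReal (dist (g y') (g y)) ^ n
        ≤ ENNReal.ofReal C * ((D + 1) * volume (closedBall y (2 * r))) := by
          refine h4.trans ?_
          gcongr
      _ = Q * ENNReal.ofReal r ^ n := by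
          rw [vol_closedBall _ (by linarith), hQ, ENNReal.ofReal_mul (by norm_num),
            ENNReal.ofReal_ofNat, mul_pow]
          ring
      _ ≤ ENNReal.ofReal L * ENNReal.ofReal r ^ n := by gcongr
      _ ≤ ENNReal.ofReal L ^ n * ENNReal.ofReal r ^ n := by
          gcongr
          refine le_self_pow₀ ?_ (by omega)
          rw [← ENNReal.ofReal_one]
          exact ENNReal.ofReal_le_ofReal hL1
      _ = ENNReal.ofReal (L * r) ^ n := by
          rw [ENNReal.ofReal_mul (by linarith), mul_pow]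
  have h6 := (ENNReal.pow_le_pow_left_iff (by omega)).1 h5
  exact (ENNReal.ofReal_le_ofReal_iff (by positivity)).1 h6

/-- the analytic inequality at a point of differentiability -/
lemma pt_ineq (hn : 1 ≤ n) {C : ℝ} (hC : 0 < C) {V : Set (E n)} (hV : IsOpen V)
    {g : E n → E n} (hD : DiamBd C V g) {y : E n} (hy : y ∈ V) (hd : DifferentiableAt ℝ g y) :
    ‖fderiv ℝ g y‖ ^ n ≤ C * 2 ^ n * (volume (ball (0 : E n) 1)).toReal *
      |(fderiv ℝ g y).det| := by
  set A := fderiv ℝ g y with hA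
  set S : Set (E n) := A '' closedBall (0 : E n) 1 with hS
  have hSc : IsCompact S := (isCompact_closedBall _ _).image A.continuous
  have key : ∀ ε : ℝ, 0 < ε → ∀ v ∈ closedBall (0 : E n) 1,
      ENNReal.ofReal (‖A v‖ - ε) ^ n ≤ ENNReal.ofReal C * 2 ^ n * volume (cthickening ε S) := by
    intro ε hε v hv
    have h1 := hd.hasFDerivAt
    rw [hasFDerivAt_iff_isLittleO, Asymptotics.isLittleO_iff] at h1
    have h2 := (h1 hε).and (hV.mem_nhds hy)
    rw [Metric.eventually_nhds_iff] at h2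
    obtain ⟨δ, hδ, h2⟩ := h2
    set r := δ / 4 with hr
    have hr0 : 0 < r := by positivity
    have h3 : ∀ x ∈ closedBall y (2 * r), ‖g x - g y - A (x - y)‖ ≤ ε * ‖x - y‖ ∧ x ∈ V := by
      intro x hx
      refine h2 ?_
      rw [mem_closedBall] at hx
      linarith
    have hvn : ‖v‖ ≤ 1 := by simpa using hv
    have h4 := hD y r hr0 (fun x hx => (h3 x hx).2) (y + r • v)
      (by
        rw [mem_closedBall, dist_eq_norm, add_sub_cancel_left, norm_smul,
          Real.norm_of_nonneg hr0.le]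
        exact mul_le_of_le_one_right hr0.le hvn) y (mem_closedBall_self hr0.le)
    -- volume of the image
    have h5 : volume (g '' closedBall y (2 * r)) ≤
        ENNReal.ofReal (2 * r) ^ n * volume (cthickening ε S) := by
      have h6 : g '' closedBall y (2 * r) ⊆
          (fun x => -g y + x) ⁻¹' ((2 * r) • cthickening ε S) := by
        rintro _ ⟨x, hx, rfl⟩
        rw [mem_preimage, mem_smul_set]
        refine ⟨(2 * r)⁻¹ • (-g y + g x), ?_, ?_⟩
        · refine mem_cthickening_of_dist_le _ (A ((2 * r)⁻¹ • (x - y))) ε S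
            ⟨(2 * r)⁻¹ • (x - y), ?_, rfl⟩ ?_
          · rw [mem_closedBall, dist_zero_right, norm_smul, norm_inv,
              Real.norm_of_nonneg (by positivity), inv_mul_le_iff₀ (by positivity), mul_one,
              ← dist_eq_norm]
            exact hx
          · rw [dist_eq_norm, map_smul, ← smul_sub, norm_smul, norm_inv,
              Real.norm_of_nonneg (by positivity), inv_mul_le_iff₀ (by positivity)]
            have h7 := (h3 x hx).1
            have h8 : -g y + g x - A (x - y) = g x - g y - A (x - y) := by abel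
            rw [h8]
            refine h7.trans ?_
            rw [mul_comm]
            gcongr
            rw [← dist_eq_norm]
            exact hx
        · rw [smul_inv_smul₀ (by positivity)]
      refine (measure_mono h6).trans ?_
      rw [measure_preimage_add, Measure.addHaar_smul_of_nonneg _ (by positivity),
        finrank_euclideanSpace, Fintype.card_fin, ENNReal.ofReal_pow (by positivity)]
    have h9 : r * (‖A v‖ - ε) ≤ dist (g (y + r • v)) (g y) := by
      have hx : y + r • v ∈ closedBall y (2 * r) := by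
        rw [mem_closedBall, dist_eq_norm, add_sub_cancel_left, norm_smul,
          Real.norm_of_nonneg hr0.le]
        nlinarith
      have h10 := (h3 _ hx).1
      rw [add_sub_cancel_left, norm_smul, Real.norm_of_nonneg hr0.le, map_smul] at h10
      rw [dist_eq_norm]
      have h11 : ‖r • A v‖ ≤ ‖g (y + r • v) - g y‖ + ‖g (y + r • v) - g y - r • A v‖ := by
        calc ‖r • A v‖ = ‖(g (y + r • v) - g y) - (g (y + r • v) - g y - r • A v)‖ := by
              congr 1; abel
          _ ≤ _ := norm_sub_le _ _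
      rw [norm_smul, Real.norm_of_nonneg hr0.le] at h11
      have h12 : ε * (r * ‖v‖) ≤ r * ε := by
        have := mul_le_mul_of_nonneg_left hvn (by positivity : 0 ≤ ε * r)
        linarith
      linarith
    have hr0' : ENNReal.ofReal r ^ n ≠ 0 := pow_ne_zero _ (by simpa using hr0)
    have hrt' : ENNReal.ofReal r ^ n ≠ ∞ := by finiteness
    refine (ENNReal.mul_le_mul_iff_right hr0' hrt').1 ?_
    calc ENNReal.ofReal r ^ n * ENNReal.ofReal (‖A v‖ - ε) ^ n
        = ENNReal.ofReal (r * (‖A v‖ - ε)) ^ n := by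
          rw [← mul_pow, ← ENNReal.ofReal_mul hr0.le]
      _ ≤ ENNReal.ofReal (dist (g (y + r • v)) (g y)) ^ n := by
          gcongr
      _ ≤ ENNReal.ofReal C * (ENNReal.ofReal (2 * r) ^ n * volume (cthickening ε S)) := by
          refine h4.trans ?_
          gcongr
      _ = ENNReal.ofReal r ^ n * (ENNReal.ofReal C * 2 ^ n * volume (cthickening ε S)) := by
          rw [ENNReal.ofReal_mul (by norm_num), ENNReal.ofReal_ofNat, mul_pow]
          ring
  -- limit
  have hlim : ∀ v ∈ closedBall (0 : E n) 1,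
      ENNReal.ofReal ‖A v‖ ^ n ≤ ENNReal.ofReal C * 2 ^ n * volume S := by
    intro v hv
    have hl1 : Tendsto (fun ε : ℝ => ENNReal.ofReal (‖A v‖ - ε) ^ n) (𝓝[>] 0)
        (𝓝 (ENNReal.ofReal ‖A v‖ ^ n)) := by
      have h1 : Tendsto (fun ε : ℝ => ‖A v‖ - ε) (𝓝[>] 0) (𝓝 ‖A v‖) := by
        have : Tendsto (fun ε : ℝ => ‖A v‖ - ε) (𝓝 0) (𝓝 (‖A v‖ - 0)) :=
          (continuous_const.sub continuous_id).tendsto 0
        rw [sub_zero] at this
        exact this.mono_left nhdsWithin_le_nhds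
      exact ((ENNReal.continuous_pow n).tendsto _).comp
        ((ENNReal.continuous_ofReal.tendsto _).comp h1)
    have hl2 : Tendsto (fun ε : ℝ => ENNReal.ofReal C * 2 ^ n * volume (cthickening ε S)) (𝓝[>] 0)
        (𝓝 (ENNReal.ofReal C * 2 ^ n * volume S)) := by
      refine ENNReal.Tendsto.const_mul ?_ (Or.inr (by finiteness))
      exact (tendsto_measure_cthickening_of_isCompact hSc).mono_left nhdsWithin_le_nhds
    refine le_of_tendsto_of_tendsto hl1 hl2 ?_
    filter_upwards [self_mem_nhdsWithin] with ε hε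
    exact key ε hε v hv
  have hSv : volume S = ENNReal.ofReal |A.det| * volume (ball (0 : E n) 1) := by
    rw [hS, Measure.addHaar_image_continuousLinearMap, vol_closedBall _ one_pos,
      ENNReal.ofReal_one, one_pow, one_mul]
  set W := (volume (ball (0 : E n) 1)).toReal with hW
  have hW0 : 0 < W := wn_toReal_pos n
  set M : ℝ := C * 2 ^ n * W * |A.det| with hM
  have hM0 : 0 ≤ M := by positivity
  have hreal : ∀ v ∈ closedBall (0 : E n) 1, ‖A v‖ ^ n ≤ M := by
    intro v hv
    have h1 := hlim v hv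
    have h2 : (2 : ℝ≥0∞) ^ n = ENNReal.ofReal (2 ^ n) := by
      rw [ENNReal.ofReal_pow (by norm_num), ENNReal.ofReal_ofNat]
    rw [hSv, ← ENNReal.ofReal_toReal (wn_ne_top n), ← hW, ← ENNReal.ofReal_pow (norm_nonneg _),
      ← ENNReal.ofReal_mul (by positivity), h2, ← ENNReal.ofReal_mul hC.le,
      ← ENNReal.ofReal_mul (by positivity), ENNReal.ofReal_le_ofReal_iff (by positivity)] at h1
    refine h1.trans (le_of_eq ?_)
    rw [hM]
    ring
  have hn0 : (n : ℝ) ≠ 0 := by exact_mod_cast (by omega : n ≠ 0)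
  have hc : ‖A‖ ≤ M ^ (1 / (n : ℝ)) := by
    refine ContinuousLinearMap.opNorm_le_of_unit_norm (by positivity) fun v hv => ?_
    have h1 := hreal v (by simp [hv])
    calc ‖A v‖ = (‖A v‖ ^ n) ^ (1 / (n : ℝ)) := by
          rw [← Real.rpow_natCast, ← Real.rpow_mul (norm_nonneg _), mul_one_div_cancel hn0,
            Real.rpow_one]
      _ ≤ M ^ (1 / (n : ℝ)) := Real.rpow_le_rpow (by positivity) h1 (by positivity)
  calc ‖A‖ ^ n ≤ (M ^ (1 / (n : ℝ))) ^ n := by gcongr
    _ = M := by
      rw [← Real.rpow_natCast, ← Real.rpow_mul hM0, one_div_mul_cancel hn0, Real.rpow_one]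

end Diff

theorem specDiff (hS : SpecStepanov) : SpecDiff := by
  intro n C V g hn hC hV hg hinj hD
  have h1 : ∀ᵐ y : E n, y ∈ V → DifferentiableAt ℝ g y := by
    rw [ae_iff]
    refine measure_null_of_locally_null _ fun x hx => ?_
    have hxV : x ∈ V := by
      by_contra hc
      exact hx fun h => absurd h hc
    obtain ⟨ρ, hρ, hsub⟩ := Metric.nhds_basis_closedBall.mem_iff.1 (hV.mem_nhds hxV)
    have h2 := Diff.local_diff hS hn hC hg hinj hD (v := x) (ρ := ρ / 3) (by positivity)
      (by rwa [mul_div_cancel₀ ρ (by norm_num : (3 : ℝ) ≠ 0)])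
    rw [ae_iff] at h2
    refine ⟨{a | ¬(a ∈ ball x (ρ / 3) → DifferentiableAt ℝ g a)}, ?_, h2⟩
    rw [mem_nhdsWithin]
    refine ⟨ball x (ρ / 3), isOpen_ball, mem_ball_self (by positivity), ?_⟩
    rintro a ⟨ha, ha2⟩ h3
    exact ha2 fun _ => h3 ha
  filter_upwards [h1] with y hy hyV
  exact ⟨hy hyV, Diff.pt_ineq hn hC hV hD hyV (hy hyV)⟩

end Pool.Agent.Lib.MPd8b51b
end

section
set_option autoImplicit false

/-!
# MP_d8b51b_an: module EXT
-/

namespace Pool.Agent.Lib.MPd8b51b

open MeasureTheory Metric Set Filter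
open scoped ENNReal Topology

namespace Ext

lemma uniform {n : ℕ} {ψ : E n → ℝ} (hψ : Continuous ψ) {x : E n} {r' : ℝ}
    (hψs : ∀ a, a ∉ closedBall x r' → ψ a = 0) : UniformContinuous ψ := by
  have hc : HasCompactSupport ψ := by
    apply HasCompactSupport.intro (isCompact_closedBall x r') hψs
  exact hc.uniformContinuous_of_continuous hψ

lemma add_pow_le_two (a b : ℝ≥0∞) (n : ℕ) : (a + b) ^ n ≤ 2 ^ n * (a ^ n + b ^ n) := by
  have h1 : a + b ≤ 2 * max a b := by
    rw [two_mul]
    exact add_le_add (le_max_left _ _) (le_max_right _ _)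
  calc (a + b) ^ n ≤ (2 * max a b) ^ n := pow_le_pow_left' h1 n
    _ = 2 ^ n * (max a b) ^ n := mul_pow _ _ _
    _ ≤ 2 ^ n * (a ^ n + b ^ n) := by
        gcongr
        rcases le_total a b with hab | hab
        · rw [max_eq_right hab]; exact le_add_self
        · rw [max_eq_left hab]; exact le_self_add

end Ext

open Ext in
theorem specExt : SpecExt := by
  intro n k U h g hn hk H hCI x r' r hr' hr hU ψ χ D hψ hχ hψ01 hχ01 hψs hD hχD
  have hballU : ball x r ⊆ U := ball_subset_closedBall.trans hU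
  have hNopen : IsOpen (h '' ball x r) := H.isOpen_image_of isOpen_ball hballU
  have hNU : h '' ball x r ⊆ h '' U := image_mono hballU
  have hgN : ∀ y ∈ h '' ball x r, g y ∈ ball x r := by
    rintro _ ⟨a, ha, rfl⟩
    rwa [H.left_inv a (hballU ha)]
  -- a function vanishing outside a compact subset
  have hout : ∀ (s : ℝ), s < r → ∀ y, y ∉ h '' ball x r → ∀ᶠ y' in 𝓝 y, y' ∉ h '' closedBall x s := by
    intro s hs y hy
    have hc : IsCompact (h '' closedBall x s) :=
      H.isCompact_image (isCompact_closedBall x s) ((closedBall_subset_closedBall hs.le).trans hU)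
    refine hc.isClosed.isOpen_compl.mem_nhds ?_
    intro hy'
    exact hy (image_mono (closedBall_subset_ball hs) hy')
  have hgout : ∀ (s : ℝ), ∀ y ∈ h '' ball x r, y ∉ h '' closedBall x s → s < dist (g y) x := by
    intro s y hy hy'
    by_contra hcon
    rw [not_lt] at hcon
    exact hy' ⟨g y, hcon, H.right_inv (hNU hy)⟩
  refine ⟨?_, ?_⟩
  · rw [continuous_iff_continuousAt]
    intro y
    by_cases hy : y ∈ h '' ball x r
    · have h1 : ContinuousOn (fun y => ψ (g y) * χ y) (h '' ball x r) :=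
        (hψ.continuous.comp_continuousOn (H.cont_inv.mono hNU)).mul hχ.continuous.continuousOn
      have h2 : ContinuousOn ((h '' ball x r).indicator (fun y => ψ (g y) * χ y)) (h '' ball x r) :=
        h1.congr (fun y hy => indicator_of_mem hy _)
      exact h2.continuousAt (hNopen.mem_nhds hy)
    · have h1 : (fun _ : E n => (0 : ℝ)) =ᶠ[𝓝 y]
          ((h '' ball x r).indicator (fun y => ψ (g y) * χ y)) := by
        filter_upwards [hout r' hr y hy] with y' hy'
        by_cases hy2 : y' ∈ h '' ball x r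
        · rw [indicator_of_mem hy2]
          have := hgout r' y' hy2 hy'
          rw [hψs _ (by rw [mem_closedBall, not_le]; exact this), zero_mul]
        · rw [indicator_of_notMem hy2]
      exact continuousAt_const.congr h1
  · intro K hK ε hε
    have huc := uniform hψ.continuous hψs
    rw [Metric.uniformContinuous_iff] at huc
    obtain ⟨δ, hδ, huc⟩ := huc ε hε
    -- the compact set on which `g` is approximated
    have hC1 : IsCompact (h '' closedBall x r ∩ D) :=
      (H.isCompact_image (isCompact_closedBall x r) hU).inter_right hD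
    have hC1U : h '' closedBall x r ∩ D ⊆ h '' U := inter_subset_left.trans (image_mono hU)
    set θ : E n → ℝ := fun a => ‖fderiv ℝ ψ a‖ with hθ
    have hθc : Continuous θ := (hψ.continuous_fderiv one_ne_zero).norm
    set ε' : ℝ := min (min ((r - r') / 2) (δ / 2)) (ε / 2 ^ n) with hε'
    have hε'0 : 0 < ε' := by
      have : 0 < (2 : ℝ) ^ n := by positivity
      refine lt_min (lt_min (by linarith) (by linarith)) (by positivity)
    have hε'1 : ε' ≤ (r - r') / 2 := (min_le_left _ _).trans (min_le_left _ _)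
    have hε'2 : ε' < δ := by
      have : ε' ≤ δ / 2 := (min_le_left _ _).trans (min_le_right _ _)
      linarith
    have hε'3 : 2 ^ n * ε' ≤ ε := by
      have h1 : ε' ≤ ε / 2 ^ n := min_le_right _ _
      have h2 : (0 : ℝ) < 2 ^ n := by positivity
      calc 2 ^ n * ε' ≤ 2 ^ n * (ε / 2 ^ n) := by gcongr
        _ = ε := by field_simp
    obtain ⟨F, hF, hF1, hF2⟩ := hCI _ hC1U hC1 θ hθc (fun a => norm_nonneg _) ε' hε'0
    have hgC1 : g '' (h '' closedBall x r ∩ D) ⊆ {a ∈ closedBall x r | h a ∈ D} := by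
      rintro _ ⟨_, ⟨⟨a, ha, rfl⟩, haD⟩, rfl⟩
      rw [H.left_inv a (hU ha)]
      exact ⟨ha, haD⟩
    set w : E n → ℝ := (h '' ball x r).indicator (fun y => ψ (F y) * χ y) with hw
    have hwin : ∀ y ∈ h '' ball x r, w =ᶠ[𝓝 y] fun y => ψ (F y) * χ y := by
      intro y hy
      filter_upwards [hNopen.mem_nhds hy] with y' hy'
      rw [hw, indicator_of_mem hy']
    have hwout : ∀ y, y ∉ h '' ball x r → w =ᶠ[𝓝 y] fun _ => (0 : ℝ) := by
      intro y hy
      filter_upwards [hout ((r + r') / 2) (by linarith) y hy] with y' hy'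
      by_cases hy2 : y' ∈ h '' ball x r
      · rw [hw, indicator_of_mem hy2]
        by_cases hyD : y' ∈ D
        · have h1 := hgout _ y' hy2 hy'
          have h2 := hF1 y' ⟨image_mono ball_subset_closedBall hy2, hyD⟩
          rw [← dist_eq_norm] at h2
          have h3 : r' < dist (F y') x := by
            have := dist_triangle (g y') (F y') x
            rw [dist_comm (g y') (F y')] at this
            linarith
          rw [hψs _ (by rw [mem_closedBall, not_le]; exact h3), zero_mul]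
        · rw [hχD y' hyD, mul_zero]
      · rw [hw, indicator_of_notMem hy2]
    refine ⟨w, ?_, ?_, ?_⟩
    · rw [contDiff_iff_contDiffAt]
      intro y
      by_cases hy : y ∈ h '' ball x r
      · exact ((hψ.comp hF).mul hχ).contDiffAt.congr_of_eventuallyEq (hwin y hy)
      · exact contDiffAt_const.congr_of_eventuallyEq (hwout y hy)
    · intro y _
      by_cases hy : y ∈ h '' ball x r
      · rw [hw, indicator_of_mem hy, indicator_of_mem hy]
        by_cases hyD : y ∈ D
        · have h2 := hF1 y ⟨image_mono ball_subset_closedBall hy, hyD⟩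
          rw [← dist_eq_norm] at h2
          have h3 := huc (lt_of_le_of_lt h2 hε'2)
          rw [Real.dist_eq] at h3
          rw [← sub_mul, abs_mul, abs_of_nonneg (hχ01 y).1]
          calc |ψ (F y) - ψ (g y)| * χ y ≤ ε * 1 :=
                mul_le_mul h3.le (hχ01 y).2 (hχ01 y).1 hε.le
            _ = ε := mul_one ε
        · rw [hχD y hyD, mul_zero, mul_zero, sub_zero, abs_zero]
          exact hε.le
      · rw [hw, indicator_of_notMem hy, indicator_of_notMem hy, sub_zero, abs_zero]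
        exact hε.le
    · -- the energy
      have hmeas : MeasurableSet (h '' closedBall x r ∩ D) := hC1.measurableSet
      have hpt : ∀ y, ‖fderiv ℝ w y‖ₑ ^ n ≤
          2 ^ n * ((h '' closedBall x r ∩ D).indicator
            (fun y => (ENNReal.ofReal (θ (F y)) * ‖fderiv ℝ F y‖ₑ) ^ n) y +
              ‖fderiv ℝ χ y‖ₑ ^ n) := by
        intro y
        by_cases hy : y ∈ h '' ball x r
        · rw [(hwin y hy).fderiv_eq]
          by_cases hyD : y ∈ D
          · rw [indicator_of_mem (show y ∈ h '' closedBall x r ∩ D from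
              ⟨image_mono ball_subset_closedBall hy, hyD⟩)]
            refine le_trans (pow_le_pow_left' ?_ n) (add_pow_le_two _ _ n)
            have hd1 : DifferentiableAt ℝ (fun y => ψ (F y)) y :=
              (hψ.comp hF).differentiable one_ne_zero |>.differentiableAt
            have hd2 : DifferentiableAt ℝ χ y := (hχ.differentiable one_ne_zero).differentiableAt
            have hd3 : fderiv ℝ (fun y => ψ (F y)) y = (fderiv ℝ ψ (F y)).comp (fderiv ℝ F y) :=
              fderiv_comp y (hψ.differentiable one_ne_zero).differentiableAt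
                (hF.differentiable one_ne_zero).differentiableAt
            have hd4 : fderiv ℝ (fun y => ψ (F y) * χ y) y =
                ψ (F y) • fderiv ℝ χ y + χ y • fderiv ℝ (fun y => ψ (F y)) y :=
              fderiv_fun_mul hd1 hd2
            rw [hd4, hd3, add_comm]
            have hnn : ‖χ y • (fderiv ℝ ψ (F y)).comp (fderiv ℝ F y) + ψ (F y) • fderiv ℝ χ y‖ ≤
                θ (F y) * ‖fderiv ℝ F y‖ + ‖fderiv ℝ χ y‖ := by
              refine (norm_add_le _ _).trans (add_le_add ?_ ?_)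
              · rw [norm_smul, Real.norm_eq_abs, abs_of_nonneg (hχ01 y).1]
                calc χ y * ‖(fderiv ℝ ψ (F y)).comp (fderiv ℝ F y)‖
                    ≤ 1 * (‖fderiv ℝ ψ (F y)‖ * ‖fderiv ℝ F y‖) := by
                      gcongr
                      · exact (hχ01 y).2
                      · exact ContinuousLinearMap.opNorm_comp_le _ _
                  _ = _ := by rw [one_mul]
              · rw [norm_smul, Real.norm_eq_abs, abs_of_nonneg (hψ01 (F y)).1]
                calc ψ (F y) * ‖fderiv ℝ χ y‖ ≤ 1 * ‖fderiv ℝ χ y‖ := by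
                      gcongr
                      exact (hψ01 (F y)).2
                  _ = _ := by rw [one_mul]
            rw [← ofReal_norm, ← ofReal_norm, ← ofReal_norm,
              ← ENNReal.ofReal_mul (norm_nonneg _), ← ENNReal.ofReal_add (by positivity)
                (norm_nonneg _)]
            exact ENNReal.ofReal_le_ofReal hnn
          · have h1 : (fun y => ψ (F y) * χ y) =ᶠ[𝓝 y] fun _ => (0 : ℝ) := by
              filter_upwards [hD.isOpen_compl.mem_nhds hyD] with y' hy'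
              rw [hχD y' hy', mul_zero]
            have h0 : fderiv ℝ (fun y => ψ (F y) * χ y) y = 0 := by
              rw [h1.fderiv_eq, fderiv_const_apply]
            have h2 : ‖fderiv ℝ (fun y => ψ (F y) * χ y) y‖ₑ = 0 := by
              rw [h0, ← ofReal_norm, norm_zero, ENNReal.ofReal_zero]
            rw [h2, zero_pow (by omega)]
            exact zero_le
        · have h0 : fderiv ℝ w y = 0 := by
            rw [(hwout y hy).fderiv_eq, fderiv_const_apply]
          have h2 : ‖fderiv ℝ w y‖ₑ = 0 := by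
            rw [h0, ← ofReal_norm, norm_zero, ENNReal.ofReal_zero]
          rw [h2, zero_pow (by omega)]
          exact zero_le
      have hmχ : Measurable (fun y => ‖fderiv ℝ χ y‖ₑ ^ n) :=
        ((hχ.continuous_fderiv one_ne_zero).enorm.measurable.pow_const n)
      calc ∫⁻ y in K, ‖fderiv ℝ w y‖ₑ ^ n ≤ ∫⁻ y, ‖fderiv ℝ w y‖ₑ ^ n :=
            setLIntegral_le_lintegral _ _
        _ ≤ ∫⁻ y, 2 ^ n * ((h '' closedBall x r ∩ D).indicator
            (fun y => (ENNReal.ofReal (θ (F y)) * ‖fderiv ℝ F y‖ₑ) ^ n) y +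
              ‖fderiv ℝ χ y‖ₑ ^ n) := lintegral_mono hpt
        _ = 2 ^ n * ((∫⁻ y in h '' closedBall x r ∩ D,
              (ENNReal.ofReal (θ (F y)) * ‖fderiv ℝ F y‖ₑ) ^ n) + ∫⁻ y, ‖fderiv ℝ χ y‖ₑ ^ n) := by
            rw [lintegral_const_mul' _ _ (by simp), lintegral_add_right _ hmχ,
              lintegral_indicator hmeas]
        _ ≤ 2 ^ n * ((ENNReal.ofReal k ^ n *
              (∫⁻ a in {a ∈ closedBall x r | h a ∈ D}, ‖fderiv ℝ ψ a‖ₑ ^ n) + ENNReal.ofReal ε') +
                ∫⁻ y, ‖fderiv ℝ χ y‖ₑ ^ n) := by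
            refine mul_le_mul' le_rfl (add_le_add ?_ le_rfl)
            refine hF2.trans (add_le_add (mul_le_mul' le_rfl ?_) le_rfl)
            refine (lintegral_mono_set hgC1).trans (le_of_eq ?_)
            refine lintegral_congr fun a => ?_
            rw [hθ, ofReal_norm]
        _ = 2 ^ n * (ENNReal.ofReal k ^ n *
              (∫⁻ a in {a ∈ closedBall x r | h a ∈ D}, ‖fderiv ℝ ψ a‖ₑ ^ n) +
                ∫⁻ y, ‖fderiv ℝ χ y‖ₑ ^ n) + 2 ^ n * ENNReal.ofReal ε' := by ring
        _ ≤ _ := by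
            gcongr
            have : (2 : ℝ≥0∞) ^ n = ENNReal.ofReal (2 ^ n) := by
              rw [ENNReal.ofReal_pow (by norm_num), ENNReal.ofReal_ofNat]
            rw [this, ← ENNReal.ofReal_mul (by positivity)]
            exact ENNReal.ofReal_le_ofReal hε'3

end Pool.Agent.Lib.MPd8b51b
end

section
set_option autoImplicit false

/-!
# MP_d8b51b_an: GROW, the three growth lemmas
-/

namespace Pool.Agent.Lib.MPd8b51b.Grow

open MeasureTheory Metric Set
open scoped ENNReal

variable {n : ℕ}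

/-- NEST with small energy -/
lemma nest_half (hN : SpecNest) (hn : 1 ≤ n) (c : E n) {ρ : ℝ} (hρ : 0 < ρ) (v : E n → ℝ) {δ : ℝ}
    (hδ : 1600 * δ ≤ 1 / 2) (hv : ContinuousOn v (closedBall c ρ))
    (he : EnOn n (closedBall c ρ) v (ENNReal.ofReal δ ^ n * volume (ball (0 : E n) 1)))
    (hhalf : volume {x ∈ closedBall c ρ | 0 < v x} ≤ volume (closedBall c ρ) / 2) :
    volume {x ∈ closedBall c ρ | 1 ≤ v x} ≤
      (1 / 2) ^ n * volume {x ∈ closedBall c ρ | 0 < v x} := by
  have h1 := hN n hn c ρ hρ v _ hv he hhalf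
  have h2 : (1600 : ℝ≥0∞) ^ n * (ENNReal.ofReal δ ^ n * volume (ball (0 : E n) 1)) *
      volume {x ∈ closedBall c ρ | 0 < v x} = volume (ball (0 : E n) 1) *
      ((1600 * ENNReal.ofReal δ) ^ n * volume {x ∈ closedBall c ρ | 0 < v x}) := by
    rw [mul_pow]; ring
  rw [h2, ENNReal.mul_le_mul_iff_right (wn_ne_zero n) (wn_ne_top n)] at h1
  refine h1.trans ?_
  have h3 : (1600 : ℝ≥0∞) * ENNReal.ofReal δ ≤ 1 / 2 := by
    have : (1600 : ℝ≥0∞) = ENNReal.ofReal 1600 := by simp
    rw [this, ← ENNReal.ofReal_mul (by norm_num)]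
    calc ENNReal.ofReal (1600 * δ) ≤ ENNReal.ofReal (1 / 2) := ENNReal.ofReal_le_ofReal hδ
      _ = 1 / 2 := by
        rw [ENNReal.ofReal_div_of_pos (by norm_num)]; simp
  gcongr

lemma enOn_one_sub {C : Set (E n)} {v : E n → ℝ} {e : ℝ≥0∞} (H : EnOn n C v e) :
    EnOn n C (fun x => 1 - v x) e := by
  intro ε hε
  obtain ⟨w, hw, hw1, hw2⟩ := H ε hε
  refine ⟨fun x => 1 - w x, contDiff_const.sub hw, fun x hx => ?_, ?_⟩
  · have : (1 - w x) - (1 - v x) = -(w x - v x) := by ring
    rw [this, abs_neg]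
    exact hw1 x hx
  · have : ∀ x, fderiv ℝ (fun x => 1 - w x) x = - fderiv ℝ w x := by
      intro x
      rw [fderiv_const_sub]
    simpa [this] using hw2

/-- energy of `ψ ∘ h` -/
lemma energy_comp (hC : SpecComp) {k ε : ℝ} (hk : 0 ≤ k) (hn : 1 ≤ n)
    {U : Set (E n)} {h g : E n → E n} (H : QCI n k U h g) {C : Set (E n)} (hCU : C ⊆ U)
    (hCc : IsCompact C) {ψ : E n → ℝ} (hψ : ContDiff ℝ 1 ψ)
    (hψe : ∫⁻ x, ‖fderiv ℝ ψ x‖ₑ ^ n ≤ ENNReal.ofReal ε ^ n * volume (ball (0 : E n) 1)) :
    EnOn n C (fun x => ψ (h x)) (ENNReal.ofReal (k * ε) ^ n * volume (ball (0 : E n) 1)) := by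
  refine (hC n k U h hn hk H.ci H.cont C hCU hCc ψ hψ).mono subset_rfl ?_
  rw [ENNReal.ofReal_mul hk, mul_pow, mul_assoc]
  gcongr
  exact (setLIntegral_le_lintegral _ _).trans hψe

theorem specGrow (hN : SpecNest) (hL : SpecLog) (hC : SpecComp) (hE : SpecExt) : SpecGrow := by
  intro k hk
  obtain ⟨M₀, hM₀, hlog⟩ := hL (1 / (6400 * k)) (by positivity)
  refine ⟨2 * M₀, by linarith, ?_⟩
  intro n U h g hn H
  have hn1 : 1 ≤ n := by omega
  have hkε : k * (1 / (6400 * k)) = 1 / 6400 := by field_simp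
  refine ⟨?_, ?_, ?_⟩
  · -- (dom)
    intro c ρ hρ hcU y s hs hhalf
    obtain ⟨ψ, hψ, hψ01, hψ1, hψ0, hψe⟩ := hlog n hn y s hs
    have he := energy_comp hC hk.le hn1 H hcU (isCompact_closedBall c ρ) hψ hψe
    rw [hkε] at he
    have hsub : {x ∈ closedBall c ρ | 0 < ψ (h x)} ⊆
        {x ∈ closedBall c ρ | dist (h x) y < 2 * M₀ * s} := by
      rintro x ⟨hx, hx0⟩
      refine ⟨hx, ?_⟩
      by_contra hcon
      have : h x ∉ ball y (M₀ * s) := by
        rw [mem_ball]
        intro hlt
        apply hcon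
        nlinarith
      rw [hψ0 _ this] at hx0
      exact lt_irrefl _ hx0
    have h1 := nest_half hN hn1 c hρ (fun x => ψ (h x)) (by norm_num)
      (hψ.continuous.comp_continuousOn (H.cont.mono hcU)) he
      ((measure_mono hsub).trans hhalf)
    refine (measure_mono ?_).trans (h1.trans ?_)
    · rintro x ⟨hx, hx1⟩
      exact ⟨hx, (hψ1 _ (mem_closedBall.2 hx1)).ge⟩
    · gcongr
  · -- (out)
    intro c ρ hρ hcU y s hs hhalf
    obtain ⟨ψ, hψ, hψ01, hψ1, hψ0, hψe⟩ := hlog n hn y s hs
    have he := enOn_one_sub (energy_comp hC hk.le hn1 H hcU (isCompact_closedBall c ρ) hψ hψe)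
    rw [hkε] at he
    have hsub : {x ∈ closedBall c ρ | 0 < 1 - ψ (h x)} ⊆
        {x ∈ closedBall c ρ | s < dist (h x) y} := by
      rintro x ⟨hx, hx0⟩
      refine ⟨hx, ?_⟩
      by_contra hcon
      have : h x ∈ closedBall y s := by
        rw [mem_closedBall]
        exact not_lt.1 hcon
      rw [hψ1 _ this] at hx0
      simp at hx0
    have h1 := nest_half hN hn1 c hρ (fun x => 1 - ψ (h x)) (by norm_num)
      (continuousOn_const.sub (hψ.continuous.comp_continuousOn (H.cont.mono hcU))) he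
      ((measure_mono hsub).trans hhalf)
    refine (measure_mono ?_).trans (h1.trans ?_)
    · rintro x ⟨hx, hx1⟩
      refine ⟨hx, ?_⟩
      have : h x ∉ ball y (M₀ * s) := by
        rw [mem_ball, not_lt]
        nlinarith
      simp [hψ0 _ this]
    · gcongr
  · -- (im)
    intro x s hs hxU
    obtain ⟨ψ, hψ, hψ01, hψ1, hψ0, hψe⟩ := hlog n hn x s hs
    have hM₀s : s < M₀ * s := by nlinarith
    have hball : ∀ a, a ∉ closedBall x (M₀ * s) → ψ a = 0 := fun a ha =>
      hψ0 a (fun ha' => ha (ball_subset_closedBall ha'))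
    obtain ⟨hcont, hen⟩ := hE n k U h g hn1 hk.le H.hom H.ci_inv x (M₀ * s) (2 * M₀ * s) (by positivity)
      (by nlinarith) hxU ψ (fun _ => 1) univ hψ contDiff_const hψ01
      (fun _ => ⟨zero_le_one, le_rfl⟩) hball isClosed_univ (fun y hy => absurd (mem_univ y) hy)
    set r := 2 * M₀ * s with hr
    set v : E n → ℝ := (h '' ball x r).indicator (fun y => ψ (g y) * 1) with hv
    -- a huge ball
    have hKc : IsCompact (h '' closedBall x r) := H.isCompact_image (isCompact_closedBall x r) hxU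
    obtain ⟨R₀, hR₀⟩ := hKc.isBounded.subset_closedBall (0 : E n)
    set R := max R₀ 1 with hR
    have hR1 : 0 < R := lt_of_lt_of_le one_pos (le_max_right _ _)
    have hsubR : h '' closedBall x r ⊆ closedBall 0 R :=
      hR₀.trans (closedBall_subset_closedBall (le_max_left _ _))
    have hvolR : volume (h '' ball x r) ≤ volume (closedBall (0 : E n) (2 * R)) / 2 := by
      rw [ENNReal.le_div_iff_mul_le (by simp) (by simp)]
      calc volume (h '' ball x r) * 2 ≤ volume (closedBall (0 : E n) R) * 2 := by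
            gcongr
            exact (image_mono ball_subset_closedBall).trans hsubR
        _ ≤ volume (closedBall (0 : E n) (2 * R)) := by
            rw [vol_closedBall _ hR1, vol_closedBall _ (by positivity : 0 < 2 * R),
              ENNReal.ofReal_mul (by norm_num : (0 : ℝ) ≤ 2), mul_pow, mul_comm _ (2 : ℝ≥0∞),
              ← mul_assoc]
            gcongr
            calc (2 : ℝ≥0∞) = 2 ^ 1 := by simp
              _ ≤ 2 ^ n := by gcongr; exact one_le_two
              _ = ENNReal.ofReal 2 ^ n := by simp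
    have hpos : {y ∈ closedBall (0 : E n) (2 * R) | 0 < v y} ⊆ h '' ball x r := by
      rintro y ⟨-, hy⟩
      by_contra hcon
      rw [hv, indicator_of_notMem hcon] at hy
      exact lt_irrefl _ hy
    have hen' : EnOn n (closedBall (0 : E n) (2 * R)) v
        (ENNReal.ofReal (1 / 3200) ^ n * volume (ball (0 : E n) 1)) := by
      refine (hen _ (isCompact_closedBall _ _)).mono subset_rfl ?_
      have h0 : ∫⁻ y, ‖fderiv ℝ (fun _ : E n => (1 : ℝ)) y‖ₑ ^ n = 0 := by
        have h00 : ∀ y : E n, ‖fderiv ℝ (fun _ : E n => (1 : ℝ)) y‖ₑ ^ n = 0 := by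
          intro y
          rw [fderiv_fun_const, Pi.zero_apply, ← ofReal_norm, norm_zero,
            ENNReal.ofReal_zero, zero_pow (by omega)]
        rw [lintegral_congr h00, lintegral_zero]
      rw [h0, add_zero]
      have h3 : (1 / 3200 : ℝ) = 2 * (k * (1 / (6400 * k))) := by rw [hkε]; norm_num
      rw [h3, ENNReal.ofReal_mul (by norm_num : (0 : ℝ) ≤ 2), ENNReal.ofReal_mul hk.le, mul_pow,
        mul_pow, mul_assoc, mul_assoc]
      have h4 : ENNReal.ofReal 2 = 2 := by simp
      rw [h4]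
      gcongr
      exact (setLIntegral_le_lintegral _ _).trans hψe
    have h1 := nest_half hN hn1 (0 : E n) (by positivity : 0 < 2 * R) v (by norm_num)
      hcont.continuousOn hen' ((measure_mono hpos).trans hvolR)
    refine (measure_mono ?_).trans (h1.trans ?_)
    · rintro _ ⟨a, ha, rfl⟩
      have har : a ∈ ball x r := by
        rw [mem_ball]
        rw [mem_closedBall] at ha
        nlinarith
      refine ⟨?_, ?_⟩
      · exact closedBall_subset_closedBall (by linarith) (hsubR ⟨a, ball_subset_closedBall har, rfl⟩)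
      · rw [hv, indicator_of_mem (mem_image_of_mem h har),
          H.left_inv a (hxU (ball_subset_closedBall har)), hψ1 a ha]
        simp
    · gcongr

end Pool.Agent.Lib.MPd8b51b.Grow
end

section
set_option autoImplicit false

/-!
# MP_d8b51b_an: module INR
-/

namespace Pool.Agent.Lib.MPd8b51b

open MeasureTheory Metric Set Filter
open scoped ENNReal Topology

namespace Inr

lemma ofReal_half : ENNReal.ofReal (1 / 2) = 1 / 2 := by
  rw [ENNReal.ofReal_div_of_pos (by norm_num), ENNReal.ofReal_one, ENNReal.ofReal_ofNat]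

variable {n : ℕ}

/-- the ball around `h z` of radius the distance to the image of the sphere is in the image -/
lemma ball_subset_image {k : ℝ} {U : Set (E n)} {h g : E n → E n} (H : QCI n k U h g) {z : E n}
    {t d : ℝ} (ht : 0 < t) (hU : closedBall z t ⊆ U)
    (hd : ∀ x ∈ sphere z t, d ≤ dist (h z) (h x)) : ball (h z) d ⊆ h '' ball z t := by
  rcases le_or_gt d 0 with hd0 | hd0
  · rw [ball_eq_empty.2 hd0]
    exact empty_subset _
  have hopen : IsOpen (h '' ball z t) :=
    H.isOpen_image_of isOpen_ball (ball_subset_closedBall.trans hU)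
  refine (convex_ball (h z) d).isPreconnected.subset_of_closure_inter_subset hopen
    ⟨h z, mem_ball_self hd0, ⟨z, mem_ball_self ht, rfl⟩⟩ ?_
  rintro y ⟨hy1, hy2⟩
  have hcl : closure (h '' ball z t) ⊆ h '' closedBall z t :=
    closure_minimal (image_mono ball_subset_closedBall)
      (H.isCompact_image (isCompact_closedBall z t) hU).isClosed
  obtain ⟨x, hx, rfl⟩ := hcl hy1
  rcases (mem_closedBall.1 hx).lt_or_eq with hx1 | hx1
  · exact ⟨x, hx1, rfl⟩
  · exfalso
    have := hd x hx1
    rw [mem_ball, dist_comm] at hy2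
    linarith

end Inr

open Inr in
theorem specInr (hG : SpecGrow) (hM : SpecMor) : SpecInr := by
  intro k hk
  obtain ⟨M, hM1, hG⟩ := hG k hk
  obtain ⟨M', C, -, hC1, hMor⟩ := hM k hk
  -- the number of steps per factor `M`
  obtain ⟨p, hp⟩ : ∃ p : ℕ, ((8 : ℝ) / 9) ^ p < 1 / M :=
    exists_pow_lt_of_lt_one (by positivity) (by norm_num)
  obtain ⟨j, hj⟩ : ∃ j : ℕ, 2 * p * C < 2 ^ j := by
    obtain ⟨j, hj⟩ := pow_unbounded_of_one_lt (2 * p * C) (one_lt_two (α := ℝ))
    exact ⟨j, hj⟩
  have hM0 : 0 < M := by linarith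
  refine ⟨1 / (2 * M ^ j), by positivity, ?_⟩
  intro n U h g hn H z t S ht hS hU hlow
  -- distance to the image of the sphere
  have hne : (sphere z t).Nonempty := by
    have : Nontrivial (E n) := by
      rw [← Module.finrank_pos_iff (R := ℝ), finrank_euclideanSpace, Fintype.card_fin]
      omega
    exact NormedSpace.sphere_nonempty.2 ht.le
  have hsU : sphere z t ⊆ U := sphere_subset_closedBall.trans hU
  obtain ⟨xq, hxq, hmin⟩ := (isCompact_sphere z t).exists_isMinOn hne
    (f := fun x => dist (h z) (h x))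
    ((continuous_const.dist continuous_id).comp_continuousOn (H.cont.mono hsU))
  set q := h xq with hq
  set d := dist (h z) q with hd
  have hzU : z ∈ U := hU (mem_closedBall_self ht.le)
  have hd0 : 0 < d := by
    rw [hd, dist_pos]
    intro heq
    have h1 : z = xq := H.injOn hzU (hsU hxq) heq
    rw [h1, mem_sphere, dist_self] at hxq
    linarith
  have hball : ball (h z) d ⊆ h '' ball z t :=
    ball_subset_image H ht hU (fun x hx => hmin hx)
  refine (ball_subset_ball ?_).trans hball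
  by_contra hcon
  rw [not_le, div_mul_eq_mul_div, one_mul, lt_div_iff₀ (by positivity)] at hcon
  have hlarge : 2 * d * M ^ j ≤ S := by nlinarith
  clear hcon
  -- the function beta
  set W : ℝ → Set (E n) := fun s => {x ∈ closedBall z t | dist (h x) q ≤ s} with hW
  have hWK : ∀ s, W s ⊆ closedBall z t := fun s x hx => hx.1
  have hWfin : ∀ s, volume (W s) ≠ ∞ := fun s =>
    ((measure_mono (hWK s)).trans_lt measure_closedBall_lt_top).ne
  set β : ℝ → ℝ := fun s => vr (W s) with hβ
  have hβ0 : ∀ s, 0 ≤ β s := fun s => vr_nonneg _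
  have hβmono : ∀ s s', s ≤ s' → β s ≤ β s' := fun s s' hss =>
    vr_mono (fun x hx => ⟨hx.1, hx.2.trans hss⟩) (hWfin s')
  have hβt : ∀ s, β s ≤ t := by
    intro s
    rw [← vr_closedBall (n := n) (by omega) z ht]
    exact vr_mono (hWK s) measure_closedBall_lt_top.ne
  have hβhalf : ∀ s, 0 < s → M * s ≤ S → β s ≤ 1 / 2 * β (M * s) := by
    intro s hs hMs
    rw [hβ, vr_le_mul_iff (by omega) (hWfin s) (hWfin _) (by norm_num), ofReal_half]
    have h1 : volume {x ∈ closedBall z t | dist (h x) q < M * s} ≤ volume (closedBall z t) / 2 := by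
      refine (measure_mono ?_).trans (hlow q)
      intro x hx
      exact ⟨hx.1, hx.2.trans_le hMs⟩
    refine ((hG n U h g hn H).1 z t ht hU q s hs h1).trans ?_
    gcongr
    intro x hx
    exact ⟨hx.1, le_of_lt hx.2⟩
  -- the points approaching `q`
  set u : E n := (1 / d) • (h z - q) with hu
  have hunorm : ‖u‖ = 1 := by
    rw [hu, norm_smul, ← dist_eq_norm, ← hd, Real.norm_eq_abs, abs_of_pos (by positivity)]
    field_simp
  set Z : ℝ → E n := fun a => g (q + a • u) with hZ
  have hdist : ∀ a b : ℝ, dist (q + a • u) (q + b • u) = |a - b| := by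
    intro a b
    rw [dist_add_left, dist_eq_norm, ← sub_smul, norm_smul, hunorm, mul_one, Real.norm_eq_abs]
  have hqd : q + d • u = h z := by
    rw [hu, smul_smul, mul_one_div_cancel hd0.ne', one_smul]
    abel
  have hsub : ∀ a, 0 < a → a ≤ d → ball (q + a • u) a ⊆ ball (h z) d := by
    intro a ha had
    apply ball_subset_ball'
    rw [← hqd, hdist, abs_of_nonpos (by linarith)]
    linarith
  have hQ : QCI n k (h '' U) g h := H.symm
  have hbU : ∀ a, 0 < a → a ≤ d → ball (q + a • u) a ⊆ h '' U := fun a ha had =>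
    (hsub a ha had).trans (hball.trans (image_mono (ball_subset_closedBall.trans hU)))
  have hgW : ∀ a, 0 < a → a ≤ d → g '' ball (q + a • u) a ⊆ W (2 * a) := by
    rintro a ha had _ ⟨y, hy, rfl⟩
    obtain ⟨x, hx, hxy⟩ := hball (hsub a ha had hy)
    rw [← hxy, H.left_inv x (hU (ball_subset_closedBall hx))]
    refine ⟨ball_subset_closedBall hx, ?_⟩
    rw [hxy]
    have h1 : dist y (q + a • u) < a := hy
    have h2 : dist (q + a • u) q = a := by
      have := hdist a 0
      rwa [zero_smul, add_zero, sub_zero, abs_of_pos ha] at this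
    have := dist_triangle y (q + a • u) q
    linarith
  have hstep : ∀ a, 0 < a → a ≤ d → dist (Z a) (Z (8 / 9 * a)) ≤ C * β (2 * a) := by
    intro a ha had
    have h1 := hMor n (h '' U) g h hn hQ (q + a • u) (a / 9) (by positivity)
      ((closedBall_subset_ball (by linarith)).trans (hbU a ha had)) 0
      (q + a • u) (by
        rw [pow_zero, div_one]
        exact mem_closedBall_self (by positivity))
      (q + (8 / 9 * a) • u) (by
        rw [pow_zero, div_one, mem_closedBall, hdist, abs_of_nonpos (by linarith)]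
        linarith)
    rw [pow_zero, mul_one] at h1
    refine h1.trans ?_
    have h2 : vr (g '' ball (q + a • u) (8 * (a / 9))) ≤ β (2 * a) := by
      refine vr_mono ((image_mono (ball_subset_ball (by linarith))).trans (hgW a ha had)) (hWfin _)
    gcongr
  have hsteps : ∀ m : ℕ, ∀ a, 0 < a → a ≤ d →
      dist (Z a) (Z ((8 / 9) ^ m * a)) ≤ m * (C * β (2 * a)) := by
    intro m a ha had
    induction m with
    | zero => rw [pow_zero, one_mul, dist_self, Nat.cast_zero, zero_mul]
    | succ m ih =>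
      have hle : ((8 : ℝ) / 9) ^ m ≤ 1 := pow_le_one₀ (by norm_num) (by norm_num)
      have hpos : 0 < ((8 : ℝ) / 9) ^ m * a := by positivity
      have h1 : ((8 : ℝ) / 9) ^ m * a ≤ a := by nlinarith
      have h2 := hstep (((8 : ℝ) / 9) ^ m * a) hpos (h1.trans had)
      have h3 : β (2 * (((8 : ℝ) / 9) ^ m * a)) ≤ β (2 * a) := hβmono _ _ (by linarith)
      have h4 : (8 : ℝ) / 9 * ((8 / 9) ^ m * a) = (8 / 9) ^ (m + 1) * a := by ring
      rw [h4] at h2
      have h5 := dist_triangle (Z a) (Z ((8 / 9) ^ m * a)) (Z ((8 / 9) ^ (m + 1) * a))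
      have h6 : C * β (2 * (((8 : ℝ) / 9) ^ m * a)) ≤ C * β (2 * a) := by gcongr
      push_cast
      linarith
  -- the sequence `a_l`
  set A : ℕ → ℝ := fun l => ((8 / 9) ^ p) ^ l * d with hA
  have hr0 : (0 : ℝ) < (8 / 9) ^ p := by positivity
  have hr1 : ((8 : ℝ) / 9) ^ p < 1 := by
    refine hp.trans ?_
    rw [div_lt_one hM0]
    exact hM1
  have hA0 : ∀ l, 0 < A l := fun l => by positivity
  have hAd : ∀ l, A l ≤ d := by
    intro l
    have : (((8 : ℝ) / 9) ^ p) ^ l ≤ 1 := pow_le_one₀ hr0.le hr1.le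
    calc A l = ((8 / 9) ^ p) ^ l * d := rfl
      _ ≤ 1 * d := by gcongr
      _ = d := one_mul d
  have hAsucc : ∀ l, A (l + 1) = (8 / 9) ^ p * A l := by
    intro l
    simp only [hA]
    ring
  have hMA : ∀ l, M * A (l + 1) ≤ A l := by
    intro l
    rw [hAsucc, ← mul_assoc]
    have h1 : M * (8 / 9) ^ p ≤ 1 := by
      have := mul_le_mul_of_nonneg_left hp.le hM0.le
      rwa [mul_one_div_cancel hM0.ne'] at this
    calc M * (8 / 9) ^ p * A l ≤ 1 * A l := mul_le_mul_of_nonneg_right h1 (hA0 l).le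
      _ = A l := one_mul _
  have h2dS : 2 * d ≤ S := by
    have h1 : 1 ≤ M ^ j := one_le_pow₀ hM1.le
    nlinarith
  have hβA : ∀ l, β (2 * A l) ≤ (1 / 2) ^ l * β (2 * d) := by
    intro l
    induction l with
    | zero => simp [hA]
    | succ l ih =>
      have h1 : M * (2 * A (l + 1)) ≤ 2 * A l := by linarith [hMA l]
      have h2 := hβhalf (2 * A (l + 1)) (by linarith [hA0 (l + 1)])
        (h1.trans ((mul_le_mul_of_nonneg_left (hAd l) (by norm_num)).trans h2dS))
      have h3 := hβmono _ _ h1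
      rw [pow_succ]
      linarith
  have hZA : ∀ l, dist (Z d) (Z (A l)) ≤ p * (C * β (2 * d)) * (2 - 2 * (1 / 2) ^ l) := by
    intro l
    induction l with
    | zero => simp [hA]
    | succ l ih =>
      have h1 := hsteps p (A l) (hA0 l) (hAd l)
      rw [← hAsucc] at h1
      have h2 : (p : ℝ) * (C * β (2 * A l)) ≤ p * (C * ((1 / 2) ^ l * β (2 * d))) := by
        gcongr
        exact hβA l
      have h3 := dist_triangle (Z d) (Z (A l)) (Z (A (l + 1)))
      have h4 : (p : ℝ) * (C * β (2 * d)) * (2 - 2 * (1 / 2) ^ l) +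
          p * (C * ((1 / 2) ^ l * β (2 * d))) =
          p * (C * β (2 * d)) * (2 - 2 * (1 / 2) ^ (l + 1)) := by
        rw [pow_succ]
        ring
      linarith
  -- the limit
  have hqU : q ∈ h '' U := ⟨xq, hsU hxq, rfl⟩
  have hcont : ContinuousAt g q := (H.cont_inv q hqU).continuousAt (H.isOpen_image.mem_nhds hqU)
  have hA_lim : Tendsto A atTop (𝓝 0) := by
    have h1 := (tendsto_pow_atTop_nhds_zero_of_lt_one hr0.le hr1).mul_const d
    rwa [zero_mul] at h1
  have hlim1 : Tendsto (fun l => q + A l • u) atTop (𝓝 q) := by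
    have h1 : Tendsto (fun l => q + A l • u) atTop (𝓝 (q + (0 : ℝ) • u)) :=
      tendsto_const_nhds.add (hA_lim.smul_const u)
    rwa [zero_smul, add_zero] at h1
  have hlim : Tendsto (fun l => Z (A l)) atTop (𝓝 xq) := by
    have h1 : Tendsto (fun l => g (q + A l • u)) atTop (𝓝 (g q)) := hcont.tendsto.comp hlim1
    rwa [hq, H.left_inv xq (hsU hxq)] at h1
  have hZd : Z d = z := by
    simp only [hZ]
    rw [hqd, H.left_inv z hzU]
  have hβd0 : 0 ≤ β (2 * d) := hβ0 _
  have hfin : dist z xq ≤ 2 * p * C * β (2 * d) := by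
    have h1 : Tendsto (fun l => dist (Z d) (Z (A l))) atTop (𝓝 (dist (Z d) xq)) :=
      tendsto_const_nhds.dist hlim
    rw [← hZd]
    refine le_of_tendsto h1 (Eventually.of_forall fun l => ?_)
    refine (hZA l).trans ?_
    have h2 : (0 : ℝ) ≤ (1 / 2) ^ l := by positivity
    have h3 : 0 ≤ (p : ℝ) * (C * β (2 * d)) := by positivity
    nlinarith
  -- the growth between `2 d` and `S`
  have hβj : ∀ i : ℕ, i ≤ j → β (2 * d) ≤ (1 / 2) ^ i * β (2 * d * M ^ i) := by
    intro i
    induction i with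
    | zero => intro _; simp
    | succ i ih =>
      intro hi
      have h0 := ih (by omega)
      have h1 : 2 * d * M ^ (i + 1) ≤ S := by
        refine le_trans ?_ hlarge
        have : M ^ (i + 1) ≤ M ^ j := pow_le_pow_right₀ hM1.le hi
        gcongr
      have h2 := hβhalf (2 * d * M ^ i) (by positivity) (by
        have : M * (2 * d * M ^ i) = 2 * d * M ^ (i + 1) := by ring
        rw [this]; exact h1)
      have h3 : M * (2 * d * M ^ i) = 2 * d * M ^ (i + 1) := by ring
      rw [h3] at h2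
      have h4 : (0 : ℝ) ≤ (1 / 2) ^ i := by positivity
      calc β (2 * d) ≤ (1 / 2) ^ i * β (2 * d * M ^ i) := h0
        _ ≤ (1 / 2) ^ i * (1 / 2 * β (2 * d * M ^ (i + 1))) := by gcongr
        _ = (1 / 2) ^ (i + 1) * β (2 * d * M ^ (i + 1)) := by ring
  have h1 := hβj j le_rfl
  have h2 : β (2 * d) ≤ (1 / 2) ^ j * t := by
    refine h1.trans ?_
    gcongr
    exact hβt _
  have h3 : dist z xq = t := by
    rw [dist_comm]
    exact hxq
  rw [h3] at hfin
  have h4 : t ≤ 2 * p * C * ((1 / 2) ^ j * t) := by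
    refine hfin.trans ?_
    have : (0 : ℝ) ≤ 2 * p * C := by positivity
    gcongr
  have h5 : (2 : ℝ) ^ j * (1 / 2) ^ j = 1 := by
    rw [← mul_pow]
    norm_num
  have h6 : (2 : ℝ) ^ j * t ≤ 2 * p * C * t := by
    calc (2 : ℝ) ^ j * t ≤ 2 ^ j * (2 * p * C * ((1 / 2) ^ j * t)) := by gcongr
      _ = 2 * p * C * t * (2 ^ j * (1 / 2) ^ j) := by ring
      _ = 2 * p * C * t := by rw [h5, mul_one]
  have h7 : (2 : ℝ) ^ j ≤ 2 * p * C := le_of_mul_le_mul_right h6 ht
  linarith

end Pool.Agent.Lib.MPd8b51b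
end

section
set_option autoImplicit false

/-!
# MP_d8b51b_an: INVQC, the analytic properties of `h` give the capacity inequality for `h` and its
inverse
-/

namespace Pool.Agent.Lib.MPd8b51b

open MeasureTheory Metric Set
open scoped ENNReal

namespace InvQc

variable {n : ℕ}

/-- `|det A| ≤ ‖A‖^n` -/
lemma abs_det_le (A : E n →L[ℝ] E n) : |A.det| ≤ ‖A‖ ^ n := by
  have h1 : volume (A '' closedBall (0 : E n) 1) ≤ volume (closedBall (0 : E n) ‖A‖) := by
    refine measure_mono ?_
    rintro _ ⟨x, hx, rfl⟩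
    rw [mem_closedBall_zero_iff] at hx ⊢
    calc ‖A x‖ ≤ ‖A‖ * ‖x‖ := A.le_opNorm x
      _ ≤ ‖A‖ * 1 := by gcongr
      _ = ‖A‖ := mul_one _
  rw [Measure.addHaar_image_continuousLinearMap, Measure.addHaar_closedBall _ _ (norm_nonneg _),
    Measure.addHaar_closedBall _ _ zero_le_one, finrank_euclideanSpace, Fintype.card_fin,
    one_pow, ENNReal.ofReal_one, one_mul,
    ENNReal.mul_le_mul_iff_left (wn_ne_zero n) (wn_ne_top n),
    ENNReal.ofReal_le_ofReal_iff (by positivity)] at h1
  exact h1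

lemma norm_pow_le {k : ℝ} {A B : E n →L[ℝ] E n} (hAB : A ∘L B = .id ℝ (E n))
    (hk : ‖A‖ * ‖B‖ ≤ k) : ‖A‖ ^ n ≤ k ^ n * |A.det| := by
  have h1 : |A.det| * |B.det| = 1 := by
    rw [← abs_mul]
    have : A.det * B.det = 1 := by
      have h2 : (A ∘L B).det = A.det * B.det := by
        simp only [ContinuousLinearMap.det, ContinuousLinearMap.toLinearMap_comp, LinearMap.det_comp]
      rw [← h2, hAB]
      simp [ContinuousLinearMap.det]
    rw [this, abs_one]
  have h2 : |B.det| ≤ ‖B‖ ^ n := abs_det_le B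
  calc ‖A‖ ^ n = ‖A‖ ^ n * (|A.det| * |B.det|) := by rw [h1, mul_one]
    _ ≤ ‖A‖ ^ n * (|A.det| * ‖B‖ ^ n) := by gcongr
    _ = (‖A‖ * ‖B‖) ^ n * |A.det| := by rw [mul_pow]; ring
    _ ≤ k ^ n * |A.det| := by gcongr

lemma comp_inverse {A : E n →L[ℝ] E n} (hA : A.det ≠ 0) :
    A ∘L A.inverse = .id ℝ (E n) ∧ A.inverse ∘L A = .id ℝ (E n) := by
  obtain ⟨e, he⟩ : ∃ e : E n ≃L[ℝ] E n, (e : E n →L[ℝ] E n) = A :=
    ⟨_, A.coe_toContinuousLinearEquivOfDetNeZero hA⟩
  rw [← he, ContinuousLinearMap.inverse_equiv]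
  exact ⟨by ext x : 1; simp, by ext x : 1; simp⟩

end InvQc

open InvQc in
theorem specInvQc (hM : SpecMoll) (hD : SpecDiam) (hA : SpecAclInv) (hF : SpecDiff) :
    SpecInvQc := by
  intro n k U h g hn hk H hacl hae
  have hn1 : 1 ≤ n := by omega
  -- the capacity inequality for `h`
  have hCI : CI n k U h := by
    refine hM n k U h hn1 hk.le H.isOpen H.cont H.injOn hacl ?_
    filter_upwards [hae] with x hx hxU
    obtain ⟨h1, h2, h3⟩ := hx hxU
    exact ⟨h1, norm_pow_le (comp_inverse h2).1 h3⟩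
  obtain ⟨C, hC, hCD⟩ := hD n k hn hk.le
  have hDB : DiamBd C (h '' U) g := hCD U h g H hCI
  have haclg : ACL (h '' U) g :=
    hA n C (h '' U) g hn hC H.isOpen_image H.cont_inv H.symm.injOn hDB
  have hdiff := hF n C (h '' U) g hn1 hC H.isOpen_image H.cont_inv H.symm.injOn hDB
  -- the exceptional set
  set N : Set (E n) := {x | ¬ (x ∈ U → DifferentiableAt ℝ h x ∧ (fderiv ℝ h x).det ≠ 0 ∧
    ‖fderiv ℝ h x‖ * ‖(fderiv ℝ h x).inverse‖ ≤ k)} with hN
  have hN0 : volume N = 0 := hae
  set N' := toMeasurable volume N with hN'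
  have hN'0 : volume N' = 0 := by rw [hN', measure_toMeasurable, hN0]
  have hNN' : N ⊆ N' := subset_toMeasurable _ _
  have hN'm : MeasurableSet N' := measurableSet_toMeasurable _ _
  set bad : Set (E n) := (h '' U ∩ g ⁻¹' N') ∩ {y | DifferentiableAt ℝ g y} with hbad
  have hbadm : MeasurableSet bad := by
    refine MeasurableSet.inter ?_ (measurableSet_of_differentiableAt ℝ g)
    have h1 : Measurable ((h '' U).domRestrict g) :=
      (continuousOn_iff_continuous_domRestrict.1 H.cont_inv).measurable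
    have h2 : MeasurableSet ((h '' U).domRestrict g ⁻¹' N') := h1 hN'm
    have h3 := H.isOpen_image.measurableSet.subtype_image h2
    convert h3 using 1
    ext y
    constructor
    · rintro ⟨hy, hy'⟩
      exact ⟨⟨y, hy⟩, hy', rfl⟩
    · rintro ⟨⟨y', hy'⟩, hy'', rfl⟩
      exact ⟨hy', hy''⟩
  have hint : ∫⁻ y in bad, ENNReal.ofReal |(fderiv ℝ g y).det| = 0 := by
    have h1 := lintegral_abs_det_fderiv_eq_addHaar_image volume hbadm
      (f := g) (f' := fderiv ℝ g) (fun y hy => hy.2.hasFDerivAt.hasFDerivWithinAt)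
      (H.symm.injOn.mono fun y hy => hy.1.1)
    rw [h1]
    refine le_antisymm ((measure_mono ?_).trans hN'0.le) zero_le
    rintro _ ⟨y, hy, rfl⟩
    exact hy.1.2
  have hdet0 : ∀ᵐ y : E n, y ∈ bad → (fderiv ℝ g y).det = 0 := by
    have h2 : Measurable fun y => ENNReal.ofReal |(fderiv ℝ g y).det| := by
      refine ENNReal.measurable_ofReal.comp ?_
      exact (continuous_abs.comp ContinuousLinearMap.continuous_det).measurable.comp
        (measurable_fderiv ℝ g)
    rw [lintegral_eq_zero_iff h2] at hint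
    have h3 := (ae_restrict_iff' hbadm).1 hint
    filter_upwards [h3] with y hy hyb
    have h4 : |(fderiv ℝ g y).det| ≤ 0 := ENNReal.ofReal_eq_zero.1 (hy hyb)
    exact abs_nonpos_iff.1 h4
  have hCIg : CI n k (h '' U) g := by
    refine hM n k (h '' U) g hn1 hk.le H.isOpen_image H.cont_inv H.symm.injOn haclg ?_
    filter_upwards [hdiff, hdet0] with y hy hyd hyU
    obtain ⟨h1, h2⟩ := hy hyU
    refine ⟨h1, ?_⟩
    by_cases hd : (fderiv ℝ g y).det = 0
    · rw [hd, abs_zero, mul_zero] at h2 ⊢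
      exact h2
    · have hyN : g y ∉ N := by
        intro hyN
        exact hd (hyd ⟨⟨hyU, hNN' hyN⟩, h1⟩)
      have hgyU : g y ∈ U := by
        obtain ⟨x, hx, rfl⟩ := hyU
        rwa [H.left_inv x hx]
      have h3 : DifferentiableAt ℝ h (g y) ∧ (fderiv ℝ h (g y)).det ≠ 0 ∧
          ‖fderiv ℝ h (g y)‖ * ‖(fderiv ℝ h (g y)).inverse‖ ≤ k := by
        by_contra hcon
        exact hyN fun hh => hcon (hh hgyU)
      obtain ⟨h4, h5, h6⟩ := h3
      -- the chain rule
      have h7 : (fderiv ℝ h (g y)) ∘L (fderiv ℝ g y) = .id ℝ (E n) := by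
        have h8 : HasFDerivAt (h ∘ g) ((fderiv ℝ h (g y)) ∘L (fderiv ℝ g y)) y :=
          h4.hasFDerivAt.comp y h1.hasFDerivAt
        have h9 : HasFDerivAt (h ∘ g) (.id ℝ (E n)) y := by
          refine (hasFDerivAt_id y).congr_of_eventuallyEq ?_
          filter_upwards [H.isOpen_image.mem_nhds hyU] with y' hy'
          exact H.right_inv hy'
        exact h8.unique h9
      have h10 : (fderiv ℝ h (g y)).inverse = fderiv ℝ g y := by
        have h11 := (comp_inverse h5).2
        calc (fderiv ℝ h (g y)).inverse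
            = (fderiv ℝ h (g y)).inverse ∘L ((fderiv ℝ h (g y)) ∘L (fderiv ℝ g y)) := by
              rw [h7, ContinuousLinearMap.comp_id]
          _ = ((fderiv ℝ h (g y)).inverse ∘L (fderiv ℝ h (g y))) ∘L (fderiv ℝ g y) := by
              rw [ContinuousLinearMap.comp_assoc]
          _ = fderiv ℝ g y := by rw [h11, ContinuousLinearMap.id_comp]
      have h12 : (fderiv ℝ g y) ∘L (fderiv ℝ h (g y)) = .id ℝ (E n) := by
        rw [← h10]
        exact (comp_inverse h5).2
      rw [h10, mul_comm] at h6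
      exact norm_pow_le h12 h6
  exact ⟨H.isOpen, H.isOpen_image, H.cont, H.cont_inv, H.left_inv, hCI, hCIg⟩

end Pool.Agent.Lib.MPd8b51b
end

section
set_option autoImplicit false

/-!
# MP_d8b51b_an, modules LOG and LIN: cut-off functions
-/

namespace Pool.Agent.Lib.MPd8b51b

open MeasureTheory Metric Set
open scoped ENNReal NNReal

namespace Log

/-- the density of the step function -/
noncomputable def ph (t : ℝ) : ℝ := 6 * (max 0 t * max 0 (1 - t))

lemma ph_cont : Continuous ph := by unfold ph; fun_prop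

lemma ph_nonneg (t : ℝ) : 0 ≤ ph t := by unfold ph; positivity

lemma ph_le (t : ℝ) : ph t ≤ 3 / 2 := by
  unfold ph
  rcases le_total t 0 with h | h
  · rw [max_eq_left h]; norm_num
  rcases le_total (1 - t) 0 with h' | h'
  · rw [max_eq_left h']; norm_num
  rw [max_eq_right h, max_eq_right h']
  nlinarith [sq_nonneg (t - 1 / 2)]

lemma ph_zero_left {t : ℝ} (h : t ≤ 0) : ph t = 0 := by
  unfold ph; rw [max_eq_left h]; ring

lemma ph_zero_right {t : ℝ} (h : 1 ≤ t) : ph t = 0 := by
  unfold ph; rw [max_eq_left (show 1 - t ≤ 0 by linarith)]; ring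

lemma ph_int : ∫ t in (0 : ℝ)..1, ph t = 1 := by
  have h : ∫ t in (0 : ℝ)..1, ph t = ∫ t in (0 : ℝ)..1, (6 * t - 6 * t ^ 2) := by
    apply intervalIntegral.integral_congr
    intro t ht
    rw [uIcc_of_le zero_le_one] at ht
    simp only [ph]
    rw [max_eq_right ht.1, max_eq_right (show 0 ≤ 1 - t by linarith [ht.2])]
    ring
  rw [h, intervalIntegral.integral_sub (Continuous.intervalIntegrable (by fun_prop) _ _)
      (Continuous.intervalIntegrable (by fun_prop) _ _),
    intervalIntegral.integral_const_mul, intervalIntegral.integral_const_mul, integral_id,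
    integral_pow]
  norm_num

/-- the step function: `1` for `u ≤ 0`, `0` for `1 ≤ u` -/
noncomputable def th (u : ℝ) : ℝ := 1 - ∫ t in (0 : ℝ)..u, ph t

lemma th_hasDerivAt (u : ℝ) : HasDerivAt th (-ph u) u := by
  unfold th
  exact (ph_cont.integral_hasStrictDerivAt 0 u).hasDerivAt.const_sub 1

lemma th_deriv (u : ℝ) : deriv th u = -ph u := (th_hasDerivAt u).deriv

lemma th_contDiff : ContDiff ℝ 1 th := by
  rw [contDiff_one_iff_deriv]
  refine ⟨fun u => (th_hasDerivAt u).differentiableAt, ?_⟩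
  have : deriv th = fun u => -ph u := funext th_deriv
  rw [this]
  exact ph_cont.neg

lemma th_left {u : ℝ} (h : u ≤ 0) : th u = 1 := by
  unfold th
  rw [intervalIntegral.integral_congr (g := fun _ => (0 : ℝ)), intervalIntegral.integral_zero,
    sub_zero]
  intro t ht
  rw [uIcc_of_ge h] at ht
  exact ph_zero_left ht.2

lemma th_right {u : ℝ} (h : 1 ≤ u) : th u = 0 := by
  unfold th
  rw [← intervalIntegral.integral_add_adjacent_intervals (b := 1)
    (ph_cont.intervalIntegrable _ _) (ph_cont.intervalIntegrable _ _), ph_int,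
    intervalIntegral.integral_congr (a := 1) (g := fun _ => (0 : ℝ)),
    intervalIntegral.integral_zero]
  · ring
  intro t ht
  rw [uIcc_of_le h] at ht
  exact ph_zero_right ht.1

lemma th_anti : Antitone th := by
  apply antitone_of_deriv_nonpos th_contDiff.differentiable_one
  intro u
  rw [th_deriv]
  linarith [ph_nonneg u]

lemma th_nonneg (u : ℝ) : 0 ≤ th u := by
  rcases le_total u 1 with h | h
  · rw [← th_right le_rfl]; exact th_anti h
  · rw [th_right h]

lemma th_le_one (u : ℝ) : th u ≤ 1 := by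
  rcases le_total u 0 with h | h
  · rw [th_left h]
  · rw [← th_left le_rfl]; exact th_anti h

lemma th_deriv_le (u : ℝ) : ‖deriv th u‖ ≤ 3 / 2 := by
  rw [th_deriv, norm_neg, Real.norm_of_nonneg (ph_nonneg u)]
  exact ph_le u

lemma th_lip : LipschitzWith (3 / 2) th := by
  apply lipschitzWith_of_nnnorm_deriv_le th_contDiff.differentiable_one
  intro u
  have := th_deriv_le u
  exact_mod_cast this

variable {n : ℕ}

lemma contDiffAt_dist {c x : E n} (h : x ≠ c) : ContDiffAt ℝ 1 (fun y : E n => dist y c) x := by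
  have h1 : ContDiffAt ℝ 1 (fun y : E n => y - c) x := (contDiff_id.sub contDiff_const).contDiffAt
  have h2 := h1.norm ℝ (sub_ne_zero.mpr h)
  simpa only [dist_eq_norm] using h2

lemma fderiv_dist_le (c x : E n) : ‖fderiv ℝ (fun y : E n => dist y c) x‖ ≤ 1 := by
  have h : LipschitzWith 1 fun y : E n => dist y c := LipschitzWith.dist_left c
  simpa using norm_fderiv_le_of_lipschitz ℝ h (x₀ := x)

/-- the composition of the step function with a function of the distance -/
lemma contDiff_comp {c : E n} {s : ℝ} (hs : 0 < s) {L : ℝ → ℝ}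
    (hL : ∀ r, 0 < r → ContDiffAt ℝ 1 L r) (hL0 : ∀ r, 0 ≤ r → r < s → L r ≤ 0) :
    ContDiff ℝ 1 fun x : E n => th (L (dist x c)) := by
  rw [contDiff_iff_contDiffAt]
  intro x
  rcases eq_or_ne x c with rfl | h
  · have h1 : (fun y : E n => th (L (dist y x))) =ᶠ[nhds x] fun _ => 1 := by
      filter_upwards [ball_mem_nhds x hs] with y hy
      exact th_left (hL0 _ dist_nonneg hy)
    exact contDiffAt_const.congr_of_eventuallyEq h1
  · have h1 : ContDiffAt ℝ 1 (fun y : E n => L (dist y c)) x :=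
      ContDiffAt.comp x (hL _ (dist_pos.mpr h)) (contDiffAt_dist h)
    exact th_contDiff.contDiffAt.comp x h1

/-- dyadic shells -/
lemma exists_shell {s : ℝ} : ∀ J : ℕ, 0 < J → ∀ r : ℝ, s ≤ r → r ≤ 2 ^ J * s →
    ∃ j < J, 2 ^ j * s ≤ r ∧ r ≤ 2 ^ (j + 1) * s := by
  intro J
  induction J with
  | zero => intro h; omega
  | succ J ih =>
    intro _ r h1 h2
    rcases Nat.eq_zero_or_pos J with rfl | hJ
    · exact ⟨0, by omega, by simpa using h1, by simpa using h2⟩
    rcases le_total r (2 ^ J * s) with h | h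
    · obtain ⟨j, hj, hj'⟩ := ih hJ r h1 h
      exact ⟨j, by omega, hj'⟩
    · exact ⟨J, by omega, h, h2⟩

/-- derivative of the logarithmic cut-off -/
lemma norm_fderiv_le {c x : E n} {s m : ℝ} (hs : 0 < s) (hm : 0 < m) (hx : x ≠ c) :
    ‖fderiv ℝ (fun x : E n => th (Real.log (dist x c / s) / m)) x‖ ≤ 3 / 2 / (m * dist x c) := by
  have hr : 0 < dist x c := dist_pos.mpr hx
  have h1 : HasFDerivAt (fun y : E n => dist y c) (fderiv ℝ (fun y : E n => dist y c) x) x :=
    ((contDiffAt_dist hx).differentiableAt one_ne_zero).hasFDerivAt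
  have h2 : HasDerivAt (fun r : ℝ => Real.log (r / s) / m) ((m * dist x c)⁻¹) (dist x c) := by
    have h3 : HasDerivAt (fun r : ℝ => r / s) (1 / s) (dist x c) := (hasDerivAt_id _).div_const s
    have h4 := (h3.log (by positivity)).div_const m
    have e1 : 1 / s / (dist x c / s) / m = (m * dist x c)⁻¹ := by
      field_simp
    rwa [e1] at h4
  have h3 := (HasDerivAt.comp (h₂ := th) (h := fun r : ℝ => Real.log (r / s) / m) (dist x c)
    (th_hasDerivAt (Real.log (dist x c / s) / m)) h2).comp_hasFDerivAt x h1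
  have h4 : HasFDerivAt (fun x : E n => th (Real.log (dist x c / s) / m)) _ x := h3
  rw [h4.fderiv, norm_smul]
  calc _ ≤ 3 / 2 * (m * dist x c)⁻¹ * 1 := by
        rw [norm_mul, norm_neg, Real.norm_of_nonneg (ph_nonneg _),
          Real.norm_of_nonneg (by positivity : 0 ≤ (m * dist x c)⁻¹)]
        gcongr
        · exact ph_le _
        · exact fderiv_dist_le c x
    _ = _ := by rw [mul_one, div_eq_mul_inv (3 / 2 : ℝ)]

lemma fderiv_eq_zero {f : E n → ℝ} {x : E n} {a : ℝ} (h : f =ᶠ[nhds x] fun _ => a) :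
    fderiv ℝ f x = 0 := by
  rw [h.fderiv_eq]
  exact fderiv_const_apply a

end Log

open Log in
/-- LOG. -/
theorem specLog : SpecLog := by
  intro ε hε
  obtain ⟨K, hK⟩ : ∃ K : ℕ, 5 / ε ≤ K := exists_nat_ge _
  have hKpos : 0 < (K : ℝ) := lt_of_lt_of_le (by positivity) hK
  have hK0 : 0 < K := by exact_mod_cast hKpos
  set J : ℕ := K ^ 2 with hJ
  have hJ0 : 0 < J := by positivity
  refine ⟨2 ^ J, one_lt_pow₀ (by norm_num) hJ0.ne', ?_⟩
  intro n hn c s hs
  set m : ℝ := Real.log (2 ^ J) with hm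
  have hm' : m = J * Real.log 2 := by rw [hm, Real.log_pow]
  have hm0 : 0 < m := Real.log_pos (one_lt_pow₀ (by norm_num) hJ0.ne')
  refine ⟨fun x => th (Real.log (dist x c / s) / m), ?_, fun x => ⟨th_nonneg _, th_le_one _⟩,
    ?_, ?_, ?_⟩
  · apply contDiff_comp (L := fun r => Real.log (r / s) / m) hs
    · intro r hr
      have h1 : ContDiffAt ℝ 1 (fun r : ℝ => r / s) r := (contDiff_id.div_const s).contDiffAt
      exact (h1.log (by positivity)).div_const m
    · intro r hr hr'
      apply div_nonpos_of_nonpos_of_nonneg _ hm0.le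
      exact Real.log_nonpos (by positivity) ((div_le_one hs).mpr hr'.le)
  · intro x hx
    apply th_left
    apply div_nonpos_of_nonpos_of_nonneg _ hm0.le
    exact Real.log_nonpos (by positivity) ((div_le_one hs).mpr (mem_closedBall.mp hx))
  · intro x hx
    apply th_right
    rw [one_le_div hm0, hm]
    rw [mem_ball, not_lt] at hx
    apply Real.log_le_log (by positivity)
    rwa [le_div_iff₀ hs]
  · -- the energy
    set A : ℕ → Set (E n) := fun j => {x | 2 ^ j * s ≤ dist x c ∧ dist x c ≤ 2 ^ (j + 1) * s}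
      with hA
    have hAm : ∀ j, MeasurableSet (A j) := fun j =>
      ((isClosed_le continuous_const (continuous_id.dist continuous_const)).inter
        (isClosed_le (continuous_id.dist continuous_const) continuous_const)).measurableSet
    have hpt : ∀ x : E n, ‖fderiv ℝ (fun x : E n => th (Real.log (dist x c / s) / m)) x‖ₑ ^ n ≤
        ∑ j ∈ Finset.range J, (A j).indicator
          (fun _ => ENNReal.ofReal (3 / 2 / (m * (2 ^ j * s))) ^ n) x := by
      intro x
      have hn0 : n ≠ 0 := by omega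
      rcases lt_or_ge (dist x c) s with h | h
      · rw [fderiv_eq_zero (a := 1)]
        · rw [← ofReal_norm, norm_zero, ENNReal.ofReal_zero, zero_pow hn0]
          exact zero_le
        filter_upwards [isOpen_ball.mem_nhds (mem_ball.mpr h)] with y hy
        apply th_left
        apply div_nonpos_of_nonpos_of_nonneg _ hm0.le
        exact Real.log_nonpos (by positivity) ((div_le_one hs).mpr (mem_ball.mp hy).le)
      rcases lt_or_ge (2 ^ J * s) (dist x c) with h' | h'
      · rw [fderiv_eq_zero (a := 0)]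
        · rw [← ofReal_norm, norm_zero, ENNReal.ofReal_zero, zero_pow hn0]
          exact zero_le
        have hop : IsOpen {y : E n | 2 ^ J * s < dist y c} :=
          isOpen_lt continuous_const (continuous_id.dist continuous_const)
        filter_upwards [hop.mem_nhds h'] with y hy
        apply th_right
        rw [one_le_div hm0, hm]
        apply Real.log_le_log (by positivity)
        rw [le_div_iff₀ hs]
        exact le_of_lt hy
      · obtain ⟨j, hj, hj1, hj2⟩ := exists_shell J hJ0 _ h h'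
        have hxc : x ≠ c := dist_pos.mp (lt_of_lt_of_le hs h)
        have hxA : x ∈ A j := ⟨hj1, hj2⟩
        calc ‖fderiv ℝ (fun x : E n => th (Real.log (dist x c / s) / m)) x‖ₑ ^ n
            ≤ ENNReal.ofReal (3 / 2 / (m * (2 ^ j * s))) ^ n := by
              rw [← ofReal_norm]
              gcongr
              refine (norm_fderiv_le hs hm0 hxc).trans ?_
              gcongr
          _ = (A j).indicator
                (fun _ => ENNReal.ofReal (3 / 2 / (m * (2 ^ j * s))) ^ n) x := by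
              rw [indicator_of_mem hxA]
          _ ≤ _ := Finset.single_le_sum (f := fun j => (A j).indicator
                (fun _ => ENNReal.ofReal (3 / 2 / (m * (2 ^ j * s))) ^ n) x)
                (fun _ _ => zero_le) (Finset.mem_range.mpr hj)
    refine (lintegral_mono hpt).trans ?_
    rw [lintegral_finsetSum _ fun j _ => measurable_const.indicator (hAm j)]
    have hj : ∀ j ∈ Finset.range J, ∫⁻ x, (A j).indicator
          (fun _ => ENNReal.ofReal (3 / 2 / (m * (2 ^ j * s))) ^ n) x ≤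
        ENNReal.ofReal (3 / m) ^ n * volume (ball (0 : E n) 1) := by
      intro j _
      rw [lintegral_indicator_const (hAm j)]
      have h1 : volume (A j) ≤ ENNReal.ofReal (2 ^ (j + 1) * s) ^ n *
          volume (ball (0 : E n) 1) := by
        rw [← vol_closedBall c (by positivity)]
        exact measure_mono fun x hx => mem_closedBall.mpr hx.2
      calc _ ≤ ENNReal.ofReal (3 / 2 / (m * (2 ^ j * s))) ^ n *
            (ENNReal.ofReal (2 ^ (j + 1) * s) ^ n * volume (ball (0 : E n) 1)) := by gcongr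
        _ = _ := by
            rw [← mul_assoc, ← mul_pow, ← ENNReal.ofReal_mul (by positivity)]
            congr 3
            rw [pow_succ]
            field_simp
    refine (Finset.sum_le_sum hj).trans ?_
    rw [Finset.sum_const, Finset.card_range, nsmul_eq_mul, ← mul_assoc]
    refine mul_le_mul_left ?_ _
    have h2 : (J : ℝ≥0∞) = ENNReal.ofReal (J : ℝ) := by simp
    rw [h2, ← ENNReal.ofReal_pow (by positivity), ← ENNReal.ofReal_pow hε.le,
      ← ENNReal.ofReal_mul (by positivity)]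
    apply ENNReal.ofReal_le_ofReal
    have hlog : 3 / 5 < Real.log 2 := by
      have := Real.log_two_gt_d9
      linarith
    have h3 : 3 / m ≤ 5 / (K : ℝ) ^ 2 := by
      rw [hm', hJ, div_le_div_iff₀ (by positivity) (by positivity)]
      push_cast
      nlinarith [sq_nonneg (K : ℝ), pow_pos hKpos 2]
    have h4 : 5 / (K : ℝ) ≤ ε := by
      rw [div_le_iff₀ hKpos]
      rw [div_le_iff₀ hε] at hK
      linarith
    have hK1 : (1 : ℝ) ≤ K := by exact_mod_cast hK0
    have h5 : 1 / (K : ℝ) ≤ 1 := by rw [div_le_one hKpos]; exact hK1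
    have h6 : (1 / (K : ℝ)) ^ n ≤ (1 / (K : ℝ)) ^ 2 :=
      pow_le_pow_of_le_one (by positivity) h5 hn
    calc (J : ℝ) * (3 / m) ^ n ≤ (K : ℝ) ^ 2 * (5 / (K : ℝ) ^ 2) ^ n := by
          rw [hJ]
          push_cast
          gcongr
      _ = (K : ℝ) ^ 2 * ((5 / K) ^ n * (1 / K) ^ n) := by
          rw [← mul_pow]
          congr 2
          field_simp
      _ ≤ (K : ℝ) ^ 2 * ((5 / K) ^ n * (1 / K) ^ 2) :=
          mul_le_mul_of_nonneg_left (mul_le_mul_of_nonneg_left h6 (by positivity)) (by positivity)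
      _ = (5 / K) ^ n := by field_simp
      _ ≤ ε ^ n := by gcongr

open Log in
/-- LIN. -/
theorem specLin : SpecLin := by
  intro n c a b ha hab
  have hba : 0 < b - a := by linarith
  refine ⟨fun x => th ((dist x c - a) / (b - a)), ?_, fun x => ⟨th_nonneg _, th_le_one _⟩,
    ?_, ?_, ?_⟩
  · apply contDiff_comp (L := fun r => (r - a) / (b - a)) ha
    · intro r _
      exact ((contDiff_id.sub contDiff_const).div_const _).contDiffAt
    · intro r _ hr
      exact div_nonpos_of_nonpos_of_nonneg (by linarith) hba.le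
  · intro x hx
    apply th_left
    exact div_nonpos_of_nonpos_of_nonneg (by linarith [mem_closedBall.mp hx]) hba.le
  · intro x hx
    apply th_right
    rw [one_le_div hba]
    rw [mem_ball, not_lt] at hx
    linarith
  · intro x
    have h1 : LipschitzWith (3 / 2 * ‖(b - a)⁻¹‖₊) fun x : E n => th ((dist x c - a) / (b - a)) := by
      apply th_lip.comp
      have h2 : LipschitzWith 1 fun y : E n => dist y c := LipschitzWith.dist_left c
      apply LipschitzWith.of_dist_le_mul
      intro y z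
      have h3 := h2.dist_le_mul y z
      rw [Real.dist_eq] at h3 ⊢
      rw [show (dist y c - a) / (b - a) - (dist z c - a) / (b - a) =
        (b - a)⁻¹ * (dist y c - dist z c) by field_simp; ring, abs_mul, coe_nnnorm,
        Real.norm_eq_abs]
      gcongr
      simpa using h3
    refine (norm_fderiv_le_of_lipschitz ℝ h1).trans ?_
    rw [NNReal.coe_mul, coe_nnnorm, Real.norm_of_nonneg (by positivity), ← div_eq_mul_inv]
    gcongr
    norm_num

end Pool.Agent.Lib.MPd8b51b
end
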