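import Pool.Agent.Lib.MP_d8b51b_an.Spec2
import Pool.Agent.Lib.MP_d8b51b_an.Log

set_option autoImplicit false

/-!
# MP_d8b51b_an: ACLINV, `DiamBd` implies absolute continuity on almost every line
-/

namespace Pool.Agent.Lib.MPd8b51b.AclInv

open MeasureTheory Metric Set Filter Topology
open scoped ENNReal

/-! ## averages of increments -/

/-- the increment over an interval is bounded by the average of the small increments -/
lemma avg {F : Type} [NormedAddCommGroup F] [NormedSpace ℝ F] [CompleteSpace F] (f : ℝ → F)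
    (hf : Continuous f) {α β : ℝ} (hαβ : α < β) {η : ℝ} (hη : 0 < η) :
    ∃ δ₀ : ℝ, 0 < δ₀ ∧ ∀ δ : ℝ, 0 < δ → δ < δ₀ → ENNReal.ofReal (dist (f α) (f β)) ≤
      (∫⁻ s in Ioc α (β - δ), ‖f (s + δ) - f s‖ₑ / ENNReal.ofReal δ) + ENNReal.ofReal η := by
  obtain ⟨δ₁, hδ₁, h1⟩ := Metric.continuous_iff.1 hf α (η / 2) (by positivity)
  obtain ⟨δ₂, hδ₂, h2⟩ := Metric.continuous_iff.1 hf β (η / 2) (by positivity)
  refine ⟨min δ₁ (min δ₂ (β - α)), by
    have : 0 < β - α := sub_pos.2 hαβ
    positivity, ?_⟩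
  intro δ hδ hδ₀
  have hd1 : δ < δ₁ := hδ₀.trans_le (min_le_left _ _)
  have hd2 : δ < δ₂ := hδ₀.trans_le ((min_le_right _ _).trans (min_le_left _ _))
  have hd3 : δ < β - α := hδ₀.trans_le ((min_le_right _ _).trans (min_le_right _ _))
  have hint : ∀ a b : ℝ, IntervalIntegrable f volume a b := fun a b => hf.intervalIntegrable a b
  have hf' : Continuous fun s => f (s + δ) := hf.comp (continuous_id.add continuous_const)
  have hI : (∫ s in α..(β - δ), (f (s + δ) - f s)) =
      (∫ s in (β - δ)..β, f s) - ∫ s in α..(α + δ), f s := by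
    rw [intervalIntegral.integral_sub (hf'.intervalIntegrable _ _) (hint _ _),
      intervalIntegral.integral_comp_add_right (fun s => f s), sub_add_cancel,
      intervalIntegral.integral_interval_sub_interval_comm' (hint _ _) (hint _ _) (hint _ _)]
  have hA : ‖(∫ s in α..(α + δ), f s) - δ • f α‖ ≤ η / 2 * δ := by
    have h3 : δ • f α = ∫ s in α..(α + δ), f α := by simp
    rw [h3, ← intervalIntegral.integral_sub (hint _ _) intervalIntegrable_const]
    have := intervalIntegral.norm_integral_le_of_norm_le_const (a := α) (b := α + δ) (C := η / 2)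
      (f := fun s => f s - f α) (by
        intro s hs
        rw [uIoc_of_le (by linarith)] at hs
        rw [← dist_eq_norm]
        exact (h1 s (by rw [Real.dist_eq, abs_of_pos (by linarith [hs.1])]; linarith [hs.2])).le)
    rwa [add_sub_cancel_left, abs_of_pos hδ] at this
  have hB : ‖(∫ s in (β - δ)..β, f s) - δ • f β‖ ≤ η / 2 * δ := by
    have h3 : δ • f β = ∫ s in (β - δ)..β, f β := by simp
    rw [h3, ← intervalIntegral.integral_sub (hint _ _) intervalIntegrable_const]
    have := intervalIntegral.norm_integral_le_of_norm_le_const (a := β - δ) (b := β) (C := η / 2)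
      (f := fun s => f s - f β) (by
        intro s hs
        rw [uIoc_of_le (by linarith)] at hs
        rw [← dist_eq_norm]
        refine (h2 s ?_).le
        rw [Real.dist_eq, abs_lt]
        constructor <;> linarith [hs.1, hs.2])
    have h4 : β - (β - δ) = δ := by ring
    rwa [h4, abs_of_pos hδ] at this
  have hN : δ * dist (f α) (f β) ≤ ‖∫ s in α..(β - δ), (f (s + δ) - f s)‖ + δ * η := by
    rw [hI]
    set X := ∫ s in (β - δ)..β, f s
    set Y := ∫ s in α..(α + δ), f s
    have h5 : δ • f β - δ • f α = (X - Y) - (X - δ • f β) + (Y - δ • f α) := by abel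
    calc δ * dist (f α) (f β) = ‖δ • f β - δ • f α‖ := by
          rw [← smul_sub, norm_smul, Real.norm_of_nonneg hδ.le, dist_comm, dist_eq_norm]
      _ ≤ ‖X - Y‖ + ‖X - δ • f β‖ + ‖Y - δ • f α‖ := by
          rw [h5]
          exact (norm_add_le _ _).trans (add_le_add_left (norm_sub_le _ _) _)
      _ ≤ ‖X - Y‖ + δ * η := by linarith
  have hδ' : ENNReal.ofReal δ ≠ 0 := by simpa using hδ
  have hne : ‖∫ s in α..(β - δ), (f (s + δ) - f s)‖ₑ ≤
      ∫⁻ s in Ioc α (β - δ), ‖f (s + δ) - f s‖ₑ := by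
    rw [intervalIntegral.integral_of_le (by linarith)]
    exact enorm_integral_le_lintegral_enorm _
  have hdiv : (∫⁻ s in Ioc α (β - δ), ‖f (s + δ) - f s‖ₑ / ENNReal.ofReal δ) =
      (∫⁻ s in Ioc α (β - δ), ‖f (s + δ) - f s‖ₑ) / ENNReal.ofReal δ := by
    simp only [div_eq_mul_inv]
    rw [lintegral_mul_const' _ _ (by simpa using hδ)]
  rw [hdiv]
  have hmul : ENNReal.ofReal δ * ENNReal.ofReal (dist (f α) (f β)) ≤
      (∫⁻ s in Ioc α (β - δ), ‖f (s + δ) - f s‖ₑ) + ENNReal.ofReal δ * ENNReal.ofReal η := by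
    rw [← ENNReal.ofReal_mul hδ.le, ← ENNReal.ofReal_mul hδ.le]
    refine (ENNReal.ofReal_le_ofReal hN).trans ?_
    rw [ENNReal.ofReal_add (norm_nonneg _) (by positivity), ofReal_norm]
    gcongr
  calc ENNReal.ofReal (dist (f α) (f β))
      = (ENNReal.ofReal δ * ENNReal.ofReal (dist (f α) (f β))) / ENNReal.ofReal δ := by
        rw [mul_comm, ENNReal.mul_div_cancel_right hδ' ENNReal.ofReal_ne_top]
    _ ≤ ((∫⁻ s in Ioc α (β - δ), ‖f (s + δ) - f s‖ₑ) + ENNReal.ofReal δ * ENNReal.ofReal η) /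
        ENNReal.ofReal δ := by gcongr
    _ = _ := by
      rw [ENNReal.add_div, mul_comm (ENNReal.ofReal δ) (ENNReal.ofReal η),
        ENNReal.mul_div_cancel_right hδ' ENNReal.ofReal_ne_top]

lemma young {n : ℕ} (hn : 2 ≤ n) (X : ℝ≥0∞) {l : ℝ} (hl : 1 ≤ l) :
    X ≤ ENNReal.ofReal l + X ^ n / ENNReal.ofReal l := by
  rcases le_total X (ENNReal.ofReal l) with h | h
  · exact h.trans le_self_add
  · refine le_trans ?_ le_add_self
    have hl0 : ENNReal.ofReal l ≠ 0 := by
      simp
      linarith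
    rw [ENNReal.le_div_iff_mul_le (Or.inl hl0) (Or.inl ENNReal.ofReal_ne_top)]
    have h1 : 1 ≤ X := le_trans (by
      rw [← ENNReal.ofReal_one]
      exact ENNReal.ofReal_le_ofReal hl) h
    calc X * ENNReal.ofReal l ≤ X * X := by gcongr
      _ = X ^ 2 := by ring
      _ ≤ X ^ n := pow_le_pow_right₀ h1 hn

variable {n : ℕ}

/-- a measurable inverse on a compact set -/
lemma exists_inv {K : Set (E n)} (hK : IsCompact K) {g : E n → E n} (hg : ContinuousOn g K)
    (hinj : InjOn g K) : ∃ h : E n → E n, Measurable h ∧ ∀ y ∈ K, h (g y) = y := by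
  obtain ⟨h, hh, hh'⟩ := (hg.measurableEmbedding hK.measurableSet hinj).exists_measurable_extend
    (measurable_subtype_coe (p := fun x => x ∈ K)) (fun _ => ⟨0⟩)
  exact ⟨h, hh, fun y hy => congrFun hh' ⟨y, hy⟩⟩

/-- the set of pairs at distance at most `2 δ` -/
def P (h : E n → E n) (δ : ℝ) : Set (E n × E n) := {p | dist p.1 (h p.2) ≤ 2 * δ}

lemma measurableSet_P {h : E n → E n} (hh : Measurable h) (δ : ℝ) : MeasurableSet (P h δ) :=
  measurableSet_le (measurable_fst.dist (hh.comp measurable_snd)) measurable_const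

/-- the density `vol (T ∩ h⁻¹ (ball z (2 δ)))` -/
noncomputable def G (h : E n → E n) (T : Set (E n)) (δ : ℝ) (z : E n) : ℝ≥0∞ :=
  (volume.restrict T) (Prod.mk z ⁻¹' (P h δ))

lemma measurable_G {h : E n → E n} (hh : Measurable h) (T : Set (E n)) (δ : ℝ) :
    Measurable (G h T δ) := measurable_measure_prodMk_left (measurableSet_P hh δ)

lemma lintegral_G {h : E n → E n} (hh : Measurable h) (T : Set (E n)) {δ : ℝ} (hδ : 0 < δ) :
    ∫⁻ z, G h T δ z = ENNReal.ofReal (2 * δ) ^ n * volume (ball (0 : E n) 1) * volume T := by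
  unfold G
  rw [← Measure.prod_apply (measurableSet_P hh δ), Measure.prod_apply_symm (measurableSet_P hh δ)]
  have : ∀ y : E n, volume ((fun x => (x, y)) ⁻¹' P h δ) =
      ENNReal.ofReal (2 * δ) ^ n * volume (ball (0 : E n) 1) := by
    intro y
    rw [← vol_closedBall (h y) (by positivity : 0 < 2 * δ)]
    rfl
  simp only [this, lintegral_const, Measure.restrict_apply_univ]

/-- the line integrals -/
noncomputable def Φ (h : E n → E n) (T : Set (E n)) (c : ℝ≥0∞) (δ : ℝ) (e : E n) (L : ℝ)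
    (x : E n) : ℝ≥0∞ :=
  ∫⁻ s in Icc (-L) L, c * G h T δ (x + s • e)

lemma measurable_line (e : E n) : Measurable fun p : E n × ℝ => p.1 + p.2 • e :=
  (continuous_fst.add (continuous_snd.smul continuous_const)).measurable

lemma measurable_Φ {h : E n → E n} (hh : Measurable h) (T : Set (E n)) (c : ℝ≥0∞) (δ : ℝ)
    (e : E n) (L : ℝ) : Measurable (Φ h T c δ e L) := by
  have : Measurable fun p : E n × ℝ => c * G h T δ (p.1 + p.2 • e) :=
    ((measurable_G hh T δ).comp (measurable_line e)).const_mul c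
  exact this.lintegral_prod_right'

lemma lintegral_Φ {h : E n → E n} (hh : Measurable h) (T : Set (E n)) (c : ℝ≥0∞) {δ : ℝ}
    (hδ : 0 < δ) (e : E n) (L : ℝ) : ∫⁻ x, Φ h T c δ e L x =
      c * (ENNReal.ofReal (2 * δ) ^ n * volume (ball (0 : E n) 1) * volume T) *
        volume (Icc (-L) L) := by
  unfold Φ
  have hm : Measurable fun p : E n × ℝ => c * G h T δ (p.1 + p.2 • e) :=
    ((measurable_G hh T δ).comp (measurable_line e)).const_mul c
  rw [lintegral_lintegral_swap hm.aemeasurable]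
  have : ∀ s : ℝ, ∫⁻ x : E n, c * G h T δ (x + s • e) =
      c * (ENNReal.ofReal (2 * δ) ^ n * volume (ball (0 : E n) 1) * volume T) := by
    intro s
    rw [lintegral_add_right_eq_self (fun x => c * G h T δ x),
      lintegral_const_mul _ (measurable_G hh T δ), lintegral_G hh T hδ]
  simp only [this, lintegral_const, Measure.restrict_apply_univ]

/-- the absolute continuity on one line -/
lemma ac_line (hn : 2 ≤ n) {C : ℝ} {V : Set (E n)} {g h : E n → E n}
    (hg : ContinuousOn g V) (hD : DiamBd C V g) {v : E n} {ρ : ℝ} (hρ : 0 < ρ)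
    (hK : closedBall v (3 * ρ) ⊆ V) (hh : Measurable h)
    (hh' : ∀ y ∈ closedBall v (3 * ρ), h (g y) = y) {δ : ℕ → ℝ} (hδ0 : ∀ m, 0 < δ m)
    (hδρ : ∀ m, δ m ≤ ρ) (hδlim : Tendsto δ atTop (𝓝 0)) {e : E n} (he : ‖e‖ = 1) {x : E n}
    (hx : ∀ L : ℕ, liminf (fun m => Φ h (g '' closedBall v (3 * ρ))
      (ENNReal.ofReal C / ENNReal.ofReal (δ m) ^ n) (δ m) e L x) atTop < ∞) {a b : ℝ}
    (hab : ∀ s ∈ uIcc a b, x + s • e ∈ ball v ρ) :
    AbsolutelyContinuousOnInterval (fun s : ℝ => g (x + s • e)) a b := by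
  set T := g '' closedBall v (3 * ρ) with hT
  -- the bound
  obtain ⟨L, hL⟩ := exists_nat_ge (max |a| |b|)
  obtain ⟨B, hB0, hB, -⟩ := ENNReal.lt_iff_exists_real_btwn.1 (hx L)
  have hfreq := frequently_lt_of_liminf_lt (by isBoundedDefault) hB
  -- the clamped function
  set cl : ℝ → ℝ := fun s => max (min a b) (min s (max a b)) with hcl
  have hclc : Continuous cl := by fun_prop
  have hclmem : ∀ s, cl s ∈ uIcc a b := by
    intro s
    rw [uIcc, mem_Icc]
    refine ⟨le_max_left _ _, max_le (min_le_max) (min_le_right _ _)⟩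
  have hcleq : ∀ s ∈ uIcc a b, cl s = s := by
    intro s hs
    rw [uIcc, mem_Icc] at hs
    simp only [hcl]
    rw [min_eq_left hs.2, max_eq_right hs.1]
  have hWV : ball v ρ ⊆ V := (ball_subset_closedBall.trans
    (closedBall_subset_closedBall (by linarith))).trans hK
  set F : ℝ → E n := fun s => g (x + s • e) with hF
  set f : ℝ → E n := fun s => g (x + cl s • e) with hf
  have hfc : Continuous f := hg.comp_continuous
    (continuous_const.add (hclc.smul continuous_const)) (fun s => hWV (hab _ (hclmem s)))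
  have hfF : ∀ s ∈ uIcc a b, f s = F s := by
    intro s hs
    simp only [hf, hF, hcleq s hs]
  rw [absolutelyContinuousOnInterval_iff]
  intro ε hε
  set l : ℝ := max 1 (4 * B / ε) with hl
  have hl1 : 1 ≤ l := le_max_left _ _
  have hl0 : 0 < l := by linarith
  have hBl : B / l ≤ ε / 4 := by
    rw [div_le_iff₀ hl0]
    have : 4 * B / ε ≤ l := le_max_right _ _
    rw [div_le_iff₀ hε] at this
    linarith
  refine ⟨ε / (4 * l), by positivity, ?_⟩
  intro Ev hE hlen
  set N := Ev.1 with hN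
  set η : ℝ := ε / (4 * (N + 1)) with hη
  have hη0 : 0 < η := by positivity
  have hmem : ∀ i ∈ Finset.range N, (Ev.2 i).1 ∈ uIcc a b ∧ (Ev.2 i).2 ∈ uIcc a b := hE.1
  have hdisj : (Finset.range N : Set ℕ).PairwiseDisjoint
      (fun i => uIoc (Ev.2 i).1 (Ev.2 i).2) := hE.2
  set α : ℕ → ℝ := fun i => min (Ev.2 i).1 (Ev.2 i).2 with hα
  set β : ℕ → ℝ := fun i => max (Ev.2 i).1 (Ev.2 i).2 with hβ
  have hαmem : ∀ i ∈ Finset.range N, α i ∈ uIcc a b ∧ β i ∈ uIcc a b := by
    intro i hi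
    obtain ⟨h1, h2⟩ := hmem i hi
    simp only [hα, hβ]
    rcases le_total (Ev.2 i).1 (Ev.2 i).2 with h | h
    · rw [min_eq_left h, max_eq_right h]; exact ⟨h1, h2⟩
    · rw [min_eq_right h, max_eq_left h]; exact ⟨h2, h1⟩
  have hdistα : ∀ i, dist (F (Ev.2 i).1) (F (Ev.2 i).2) = dist (F (α i)) (F (β i)) := by
    intro i
    simp only [hα, hβ]
    rcases le_total (Ev.2 i).1 (Ev.2 i).2 with h | h
    · rw [min_eq_left h, max_eq_right h]
    · rw [min_eq_right h, max_eq_left h, dist_comm]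
  have hev : ∀ᶠ m in atTop, ∀ i ∈ Finset.range N,
      ENNReal.ofReal (dist (F (Ev.2 i).1) (F (Ev.2 i).2)) ≤
      (∫⁻ s in Ioc (α i) (β i - δ m), ‖f (s + δ m) - f s‖ₑ / ENNReal.ofReal (δ m)) +
        ENNReal.ofReal η := by
    rw [eventually_all_finset]
    intro i hi
    rcases (min_le_max : α i ≤ β i).eq_or_lt with h | h
    · refine Eventually.of_forall fun m => ?_
      have h' : α i = β i := h
      rw [hdistα, h', dist_self, ENNReal.ofReal_zero]
      exact zero_le
    · obtain ⟨δ₀, hδ₀, hav⟩ := avg f hfc h hη0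
      filter_upwards [hδlim.eventually_lt_const hδ₀] with m hm
      rw [hdistα, ← hfF _ (hαmem i hi).1, ← hfF _ (hαmem i hi).2]
      exact hav (δ m) (hδ0 m) hm
  obtain ⟨m, hmΦ, hm⟩ := (hfreq.and_eventually hev).exists
  -- fix the scale
  have hd0 : 0 < δ m := hδ0 m
  set d : ℝ := δ m with hd
  set c : ℝ≥0∞ := ENNReal.ofReal C / ENNReal.ofReal d ^ n with hc
  set I : ℕ → Set ℝ := fun i => Ioc (α i) (β i - d) with hI
  have hIuIoc : ∀ i, I i ⊆ uIoc (Ev.2 i).1 (Ev.2 i).2 := by
    intro i s hs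
    rw [uIoc, mem_Ioc]
    exact ⟨hs.1, by linarith [hs.2]⟩
  have hIab : ∀ i ∈ Finset.range N, ∀ s ∈ I i, s ∈ uIcc a b ∧ s + d ∈ uIcc a b := by
    intro i hi s hs
    obtain ⟨h1, h2⟩ := hαmem i hi
    rw [uIcc, mem_Icc] at h1 h2 ⊢
    constructor
    · exact ⟨h1.1.trans hs.1.le, by linarith [hs.2, h2.2]⟩
    · rw [mem_Icc]
      exact ⟨by linarith [hs.1, h1.1], by linarith [hs.2, h2.2]⟩
  have hpt : ∀ i ∈ Finset.range N, ∀ s ∈ I i, ‖f (s + d) - f s‖ₑ / ENNReal.ofReal d ≤
      ENNReal.ofReal l + c * G h T d (x + s • e) / ENNReal.ofReal l := by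
    intro i hi s hs
    obtain ⟨hs1, hs2⟩ := hIab i hi s hs
    refine (young hn _ hl1).trans ?_
    gcongr
    rw [hfF _ hs1, hfF _ hs2]
    have hz := hab s hs1
    have hsub : closedBall (x + s • e) (2 * d) ⊆ closedBall v (3 * ρ) := by
      intro y hy
      rw [mem_closedBall] at hy ⊢
      rw [mem_ball] at hz
      have := dist_triangle y (x + s • e) v
      linarith [hδρ m]
    have h1 := hD (x + s • e) d hd0 (hsub.trans hK) (x + (s + d) • e) (by
      rw [mem_closedBall, dist_eq_norm, add_sub_add_left_eq_sub, ← sub_smul, add_sub_cancel_left,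
        norm_smul, he, mul_one, Real.norm_of_nonneg hd0.le]) (x + s • e)
      (mem_closedBall_self hd0.le)
    have h2 : volume (g '' closedBall (x + s • e) (2 * d)) ≤ G h T d (x + s • e) := by
      unfold G
      rw [Measure.restrict_apply (measurable_prodMk_left (measurableSet_P hh d))]
      refine measure_mono ?_
      rintro _ ⟨y, hy, rfl⟩
      refine ⟨?_, mem_image_of_mem g (hsub hy)⟩
      change dist (x + s • e) (h (g y)) ≤ 2 * d
      rw [hh' y (hsub hy), dist_comm]
      exact hy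
    have h3 : (‖F (s + d) - F s‖ₑ / ENNReal.ofReal d) ^ n =
        ENNReal.ofReal (dist (F (s + d)) (F s)) ^ n / ENNReal.ofReal d ^ n := by
      rw [div_eq_mul_inv, mul_pow, ← ENNReal.inv_pow, ← div_eq_mul_inv, dist_eq_norm, ofReal_norm]
    rw [h3, hc, mul_comm, ← mul_div_assoc]
    gcongr
    refine h1.trans ?_
    rw [mul_comm]
    gcongr
  have hint : ∀ i ∈ Finset.range N,
      (∫⁻ s in I i, ‖f (s + d) - f s‖ₑ / ENNReal.ofReal d) ≤
      ENNReal.ofReal l * ENNReal.ofReal (dist (Ev.2 i).1 (Ev.2 i).2) +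
        (∫⁻ s in I i, c * G h T d (x + s • e)) / ENNReal.ofReal l := by
    intro i hi
    calc (∫⁻ s in I i, ‖f (s + d) - f s‖ₑ / ENNReal.ofReal d)
        ≤ ∫⁻ s in I i, (ENNReal.ofReal l + c * G h T d (x + s • e) / ENNReal.ofReal l) :=
          setLIntegral_mono' measurableSet_Ioc fun s hs => hpt i hi s hs
      _ = ENNReal.ofReal l * volume (I i) +
          (∫⁻ s in I i, c * G h T d (x + s • e)) / ENNReal.ofReal l := by
          rw [lintegral_add_left measurable_const, setLIntegral_const]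
          congr 1
          simp only [div_eq_mul_inv]
          rw [lintegral_mul_const' _ _ (by simpa using hl0)]
      _ ≤ _ := by
          gcongr
          rw [hI, Real.volume_Ioc]
          refine ENNReal.ofReal_le_ofReal ?_
          rw [Real.dist_eq, ← max_sub_min_eq_abs']
          simp only [hα, hβ]
          linarith
  have hsumI : ∑ i ∈ Finset.range N, ∫⁻ s in I i, c * G h T d (x + s • e) ≤
      ENNReal.ofReal B := by
    rw [← lintegral_biUnion_finset (hdisj.mono hIuIoc) (fun i _ => measurableSet_Ioc)]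
    refine le_trans ?_ hmΦ.le
    refine lintegral_mono_set ?_
    intro s hs
    rw [mem_iUnion₂] at hs
    obtain ⟨i, hi, hs⟩ := hs
    have h1 := (hIab i hi s hs).1
    rw [uIcc, mem_Icc] at h1
    have h2 : |a| ≤ L := (le_max_left _ _).trans hL
    have h3 : |b| ≤ L := (le_max_right _ _).trans hL
    rw [abs_le] at h2 h3
    constructor
    · exact (le_min h2.1 h3.1).trans h1.1
    · exact h1.2.trans (max_le h2.2 h3.2)
  have hfin : ENNReal.ofReal (∑ i ∈ Finset.range N, dist (F (Ev.2 i).1) (F (Ev.2 i).2)) ≤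
      ENNReal.ofReal (l * ∑ i ∈ Finset.range N, dist (Ev.2 i).1 (Ev.2 i).2 + B / l + N * η) := by
    rw [ENNReal.ofReal_sum_of_nonneg (fun _ _ => dist_nonneg)]
    calc ∑ i ∈ Finset.range N, ENNReal.ofReal (dist (F (Ev.2 i).1) (F (Ev.2 i).2))
        ≤ ∑ i ∈ Finset.range N, (ENNReal.ofReal l * ENNReal.ofReal (dist (Ev.2 i).1 (Ev.2 i).2) +
          (∫⁻ s in I i, c * G h T d (x + s • e)) / ENNReal.ofReal l + ENNReal.ofReal η) := by
          refine Finset.sum_le_sum fun i hi => (hm i hi).trans ?_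
          gcongr
          exact hint i hi
      _ = ENNReal.ofReal l * ENNReal.ofReal (∑ i ∈ Finset.range N, dist (Ev.2 i).1 (Ev.2 i).2) +
          (∑ i ∈ Finset.range N, ∫⁻ s in I i, c * G h T d (x + s • e)) / ENNReal.ofReal l +
          N * ENNReal.ofReal η := by
          rw [Finset.sum_add_distrib, Finset.sum_add_distrib, ← Finset.mul_sum,
            ENNReal.ofReal_sum_of_nonneg (fun _ _ => dist_nonneg)]
          simp only [div_eq_mul_inv, ← Finset.sum_mul, Finset.sum_const, Finset.card_range,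
            nsmul_eq_mul]
      _ ≤ ENNReal.ofReal l * ENNReal.ofReal (∑ i ∈ Finset.range N, dist (Ev.2 i).1 (Ev.2 i).2) +
          ENNReal.ofReal B / ENNReal.ofReal l + N * ENNReal.ofReal η := by gcongr
      _ = _ := by
          have hs0 : 0 ≤ ∑ i ∈ Finset.range N, dist (Ev.2 i).1 (Ev.2 i).2 :=
            Finset.sum_nonneg fun _ _ => dist_nonneg
          rw [← ENNReal.ofReal_mul hl0.le, ← ENNReal.ofReal_div_of_pos hl0,
            ENNReal.ofReal_add (by positivity) (by positivity),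
            ENNReal.ofReal_add (by positivity) (by positivity),
            ENNReal.ofReal_mul (Nat.cast_nonneg N), ENNReal.ofReal_natCast]
  have hs0 : 0 ≤ ∑ i ∈ Finset.range N, dist (Ev.2 i).1 (Ev.2 i).2 :=
    Finset.sum_nonneg fun _ _ => dist_nonneg
  rw [ENNReal.ofReal_le_ofReal_iff (by positivity)] at hfin
  have h1 : l * ∑ i ∈ Finset.range N, dist (Ev.2 i).1 (Ev.2 i).2 ≤ ε / 4 := by
    calc l * ∑ i ∈ Finset.range N, dist (Ev.2 i).1 (Ev.2 i).2 ≤ l * (ε / (4 * l)) := by gcongr
      _ = ε / 4 := by field_simp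
  have h2 : N * η ≤ ε / 4 := by
    rw [hη]
    have : (N : ℝ) / (N + 1) ≤ 1 := by
      rw [div_le_one (by positivity)]
      linarith
    calc (N : ℝ) * (ε / (4 * (N + 1))) = ε / 4 * (N / (N + 1)) := by
          field_simp
      _ ≤ ε / 4 * 1 := by gcongr
      _ = ε / 4 := mul_one _
  linarith

theorem specAclInv (hLoc : SpecLoc) : SpecAclInv := by
  intro n C V g hn hC hV hg hinj hD
  refine hLoc n V g hV hg fun v hv => ?_
  obtain ⟨r, hr, hrV⟩ := Metric.isOpen_iff.1 hV v hv
  set ρ : ℝ := r / 4 with hρ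
  have hρ0 : 0 < ρ := by positivity
  have hK : closedBall v (3 * ρ) ⊆ V := (closedBall_subset_ball (by rw [hρ]; linarith)).trans hrV
  refine ⟨ball v ρ, isOpen_ball, mem_ball_self hρ0, ?_⟩
  intro i
  obtain ⟨h, hh, hh'⟩ := exists_inv (isCompact_closedBall v (3 * ρ)) (hg.mono hK) (hinj.mono hK)
  set T := g '' closedBall v (3 * ρ) with hT
  have hTfin : volume T ≠ ∞ :=
    ((isCompact_closedBall v (3 * ρ)).image_of_continuousOn (hg.mono hK)).measure_lt_top.ne
  set δ : ℕ → ℝ := fun m => ρ * (1 / ((m : ℝ) + 1)) with hδ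
  have hδ0 : ∀ m, 0 < δ m := fun m => by simp only [hδ]; positivity
  have hδρ : ∀ m, δ m ≤ ρ := by
    intro m
    simp only [hδ]
    have : 1 / ((m : ℝ) + 1) ≤ 1 := by
      rw [div_le_one (by positivity)]
      have : (0 : ℝ) ≤ m := Nat.cast_nonneg m
      linarith
    nlinarith
  have hδlim : Tendsto δ atTop (𝓝 0) := by
    have := (tendsto_one_div_add_atTop_nhds_zero_nat (𝕜 := ℝ)).const_mul ρ
    rwa [mul_zero] at this
  set e : E n := EuclideanSpace.single i (1 : ℝ) with he
  have hen : ‖e‖ = 1 := by simp [he]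
  set c : ℕ → ℝ≥0∞ := fun m => ENNReal.ofReal C / ENNReal.ofReal (δ m) ^ n with hc
  have hae : ∀ᵐ x : E n, ∀ L : ℕ, liminf (fun m => Φ h T (c m) (δ m) e L x) atTop < ∞ := by
    rw [ae_all_iff]
    intro L
    refine ae_lt_top (Measurable.liminf fun m => measurable_Φ hh T (c m) (δ m) e L) ?_
    have hle : ∀ m, ∫⁻ x, Φ h T (c m) (δ m) e L x = ENNReal.ofReal C *
        (2 ^ n * volume (ball (0 : E n) 1) * volume T) * volume (Icc (-(L : ℝ)) L) := by
      intro m
      rw [lintegral_Φ hh T (c m) (hδ0 m) e L]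
      congr 1
      have h0 : ENNReal.ofReal (δ m) ^ n ≠ 0 := pow_ne_zero _ (by simpa using hδ0 m)
      have h1 : ENNReal.ofReal (δ m) ^ n ≠ ∞ := by finiteness
      simp only [hc]
      rw [ENNReal.ofReal_mul (by norm_num : (0 : ℝ) ≤ 2), mul_pow]
      have h2 : ENNReal.ofReal 2 = 2 := by simp
      rw [h2, mul_comm (2 ^ n) (ENNReal.ofReal (δ m) ^ n), mul_assoc (ENNReal.ofReal (δ m) ^ n),
        mul_assoc (ENNReal.ofReal (δ m) ^ n), ← mul_assoc (ENNReal.ofReal C / _),
        ENNReal.div_mul_cancel h0 h1]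
    refine ((lintegral_liminf_le fun m => measurable_Φ hh T (c m) (δ m) e L).trans_lt ?_).ne
    simp only [hle, liminf_const]
    have h2 : (2 : ℝ≥0∞) ^ n ≠ ∞ := by finiteness
    have h3 : volume (Icc (-(L : ℝ)) L) ≠ ∞ := measure_Icc_lt_top.ne
    exact (ENNReal.mul_ne_top (ENNReal.mul_ne_top ENNReal.ofReal_ne_top
      (ENNReal.mul_ne_top (ENNReal.mul_ne_top h2 (wn_ne_top n)) hTfin)) h3).lt_top
  filter_upwards [hae] with x hx a b hab
  exact ac_line hn hg hD hρ0 hK hh hh' hδ0 hδρ hδlim hen hx hab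

end Pool.Agent.Lib.MPd8b51b.AclInv
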