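import Pool.Agent.Lib.MP_d8b51b_an.Spec2
import Pool.Agent.Lib.MP_d8b51b_an.Log

set_option autoImplicit false

/-!
# MP_d8b51b_an: the class `Q'_k`, the injectivity radii, and the reduction to `SpecMain`
-/

namespace Pool.Agent.Lib.MPd8b51b

open MeasureTheory Metric Set
open scoped ENNReal

/-- `f` is a quasiconformal map of the open set `U` (analytic definition): a homeomorphism of `U`
onto an open subset of `ℝⁿ`, absolutely continuous on almost every line segment in `U` parallel to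
a coordinate axis, differentiable almost everywhere, and `‖f'‖^n ≤ K |det f'|` almost everywhere for
some constant `K`. -/
structure QuasiconformalOn (n : ℕ) (U : Set (E n)) (f : E n → E n) : Prop where
  isOpen : IsOpen U
  isOpenEmbedding : Topology.IsOpenEmbedding (U.domRestrict f)
  acl : ACL U f
  quasi : ∃ K : ℝ, ∀ᵐ x : E n, x ∈ U →
    DifferentiableAt ℝ f x ∧ ‖fderiv ℝ f x‖ ^ n ≤ K * |(fderiv ℝ f x).det|

/-- the coefficient of quasiconformality of `f` in the unit ball: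
`k_f = ess sup ‖f'(x)‖ ‖f'(x)⁻¹‖` -/
noncomputable def coeffQc (n : ℕ) (f : E n → E n) : ℝ≥0∞ :=
  essSup (fun x : E n => ‖fderiv ℝ f x‖ₑ * ‖(fderiv ℝ f x).inverse‖ₑ)
    (volume.restrict (ball (0 : E n) 1))

/-- the class `Q'_k` of the maps `f` of the unit ball to `ℝⁿ` that are quasiconformal on a
neighbourhood of each point, with coefficient of quasiconformality `k_f < k` -/
structure QPrime (n : ℕ) (k : ℝ) (f : E n → E n) : Prop where
  loc_qc : ∀ x ∈ ball (0 : E n) 1, ∃ U ⊆ ball (0 : E n) 1, x ∈ U ∧ QuasiconformalOn n U f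
  invertible : ∀ᵐ x : E n, x ∈ ball (0 : E n) 1 →
    DifferentiableAt ℝ f x ∧ (fderiv ℝ f x).det ≠ 0
  coeff_lt : coeffQc n f < ENNReal.ofReal k

/-- the injectivity radius `r_f` -/
noncomputable def injRadius (n : ℕ) (f : E n → E n) : ℝ :=
  sSup {ρ : ℝ | 0 < ρ ∧ ρ ≤ 1 ∧ InjOn f (ball (0 : E n) ρ)}

/-- the injectivity radius `r(n, k)` of the class `Q'_k` in dimension `n` -/
noncomputable def classRadius (n : ℕ) (k : ℝ) : ℝ :=
  sInf {r : ℝ | ∃ f : E n → E n, QPrime n k f ∧ r = injRadius n f}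

/-- the dimension-free injectivity radius `R(k) = inf_{n ≥ 3} r(n, k)` -/
noncomputable def dimFreeRadius (k : ℝ) : ℝ :=
  sInf {r : ℝ | ∃ n : ℕ, 3 ≤ n ∧ r = classRadius n k}

namespace QuasiconformalOn

variable {n : ℕ} {U : Set (E n)} {f : E n → E n}

lemma injOn (H : QuasiconformalOn n U f) : InjOn f U :=
  Set.injOn_iff_injective.2 H.isOpenEmbedding.injective

lemma continuousOn (H : QuasiconformalOn n U f) : ContinuousOn f U :=
  continuousOn_iff_continuous_domRestrict.2 H.isOpenEmbedding.continuous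

lemma isOpen_image (H : QuasiconformalOn n U f) {W : Set (E n)} (hW : IsOpen W) (hWU : W ⊆ U) :
    IsOpen (f '' W) := by
  have h1 : IsOpen ((U.domRestrict f) '' (Subtype.val ⁻¹' W)) :=
    H.isOpenEmbedding.isOpenMap _ (hW.preimage continuous_subtype_val)
  convert h1 using 1
  ext y
  constructor
  · rintro ⟨x, hx, rfl⟩
    exact ⟨⟨x, hWU hx⟩, hx, rfl⟩
  · rintro ⟨⟨x, hxU⟩, hx, rfl⟩
    exact ⟨x, hx, rfl⟩

end QuasiconformalOn

/-- the identity is in the class -/
lemma qPrime_id {n : ℕ} (hn : 1 ≤ n) {k : ℝ} (hk : 1 < k) : QPrime n k (fun x : E n => x) := by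
  have hn' : Nontrivial (E n) := by
    rw [← Module.finrank_pos_iff (R := ℝ), finrank_euclideanSpace, Fintype.card_fin]
    omega
  have hfd : ∀ x : E n, fderiv ℝ (fun x : E n => x) x = .id ℝ (E n) := fun x => fderiv_fun_id
  have hdet : (ContinuousLinearMap.id ℝ (E n)).det = 1 := by
    simp [ContinuousLinearMap.det]
  have hinv : (ContinuousLinearMap.id ℝ (E n)).inverse = .id ℝ (E n) :=
    ContinuousLinearMap.inverse_id
  refine ⟨fun x hx => ⟨ball 0 1, subset_rfl, hx, isOpen_ball, ?_, ?_, ⟨1, ?_⟩⟩, ?_, ?_⟩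
  · exact isOpen_ball.isOpenEmbedding_subtypeVal
  · intro i
    refine Filter.Eventually.of_forall fun x a b _ => ?_
    have hL : LipschitzWith 1 fun s : ℝ => x + s • EuclideanSpace.single i (1 : ℝ) := by
      refine LipschitzWith.of_dist_le_mul fun s t => ?_
      rw [dist_add_left, dist_eq_norm, ← sub_smul, norm_smul]
      simp [Real.dist_eq]
    exact (hL.lipschitzOnWith (s := uIcc a b)).absolutelyContinuousOnInterval
  · refine Filter.Eventually.of_forall fun x _ => ⟨differentiableAt_fun_id, ?_⟩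
    rw [hfd, hdet, ContinuousLinearMap.norm_id]
    simp
  · refine Filter.Eventually.of_forall fun x _ => ⟨differentiableAt_fun_id, ?_⟩
    rw [hfd, hdet]
    exact one_ne_zero
  · have h1 : coeffQc n (fun x : E n => x) ≤ 1 := by
      refine essSup_le_of_ae_le _ (Filter.Eventually.of_forall fun x => ?_)
      simp only [hfd, hinv]
      rw [← ofReal_norm, ContinuousLinearMap.norm_id]
      simp
    exact h1.trans_lt (by rw [← ENNReal.ofReal_one]; exact (ENNReal.ofReal_lt_ofReal_iff (by linarith)).2 hk)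

/-- the class `Q'_k` satisfies `LQ` -/
lemma QPrime.lq (hL : SpecLoc) (hI : SpecInvQc) {n : ℕ} (hn : 2 ≤ n) {k : ℝ} (hk : 1 < k)
    {f : E n → E n} (H : QPrime n k f) : LQ n k (ball 0 1) f := by
  refine ⟨isOpen_ball, fun x hx => ?_, fun V hV hVX hinj => ?_⟩
  · obtain ⟨U, hUB, hxU, hU⟩ := H.loc_qc x hx
    exact ⟨U, hU.isOpen, hxU, hUB, hU.injOn⟩
  · set g : E n → E n := Function.invFunOn f V with hg
    have hgf : ∀ x ∈ V, g (f x) = x := fun x hx => hinj.leftInvOn_invFunOn hx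
    have hopen : ∀ W : Set (E n), IsOpen W → W ⊆ V → IsOpen (f '' W) := by
      intro W hW hWV
      rw [isOpen_iff_mem_nhds]
      rintro _ ⟨x, hx, rfl⟩
      obtain ⟨U, hUB, hxU, hU⟩ := H.loc_qc x (hVX (hWV hx))
      exact Filter.mem_of_superset
        ((hU.isOpen_image (hW.inter hU.isOpen) inter_subset_right).mem_nhds ⟨x, ⟨hx, hxU⟩, rfl⟩)
        (image_mono inter_subset_left)
    have hcont : ContinuousOn f V := by
      intro x hx
      obtain ⟨U, hUB, hxU, hU⟩ := H.loc_qc x (hVX hx)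
      exact ((hU.continuousOn x hxU).continuousAt (hU.isOpen.mem_nhds hxU)).continuousWithinAt
    have hcontg : ContinuousOn g (f '' V) := by
      rw [_root_.continuousOn_iff']
      intro W hW
      refine ⟨f '' (V ∩ W), hopen _ (hV.inter hW) inter_subset_left, ?_⟩
      ext y
      constructor
      · rintro ⟨hy1, x, hx, rfl⟩
        refine ⟨⟨x, ⟨hx, ?_⟩, rfl⟩, x, hx, rfl⟩
        rwa [mem_preimage, hgf x hx] at hy1
      · rintro ⟨⟨x, ⟨hxV, hxW⟩, rfl⟩, hy2⟩
        exact ⟨by rwa [mem_preimage, hgf x hxV], hy2⟩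
    have hHom : Hom V f g := ⟨hV, hopen V hV subset_rfl, hcont, hcontg, hgf⟩
    have hacl : ACL V f := by
      refine hL n V f hV hcont fun x hx => ?_
      obtain ⟨U, hUB, hxU, hU⟩ := H.loc_qc x (hVX hx)
      exact ⟨U, hU.isOpen, hxU, hU.acl⟩
    refine ⟨g, hI n k V f g hn (by linarith) hHom hacl ?_⟩
    have h1 : ∀ᵐ x : E n, x ∈ ball (0 : E n) 1 →
        ‖fderiv ℝ f x‖ₑ * ‖(fderiv ℝ f x).inverse‖ₑ ≤ coeffQc n f :=
      (ae_restrict_iff' measurableSet_ball).1 (ENNReal.ae_le_essSup _)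
    filter_upwards [H.invertible, h1] with x hx1 hx2 hxV
    obtain ⟨h2, h3⟩ := hx1 (hVX hxV)
    refine ⟨h2, h3, ?_⟩
    have h4 : ‖fderiv ℝ f x‖ₑ * ‖(fderiv ℝ f x).inverse‖ₑ ≤ ENNReal.ofReal k :=
      (hx2 (hVX hxV)).trans H.coeff_lt.le
    rw [← ofReal_norm, ← ofReal_norm, ← ENNReal.ofReal_mul (norm_nonneg _),
      ENNReal.ofReal_le_ofReal_iff (by linarith)] at h4
    exact h4

/-- the uniform injectivity radius for the class `Q'_k` -/
theorem uniform_injOn (hMain : SpecMain) (hL : SpecLoc) (hI : SpecInvQc) (k : ℝ) (hk : 1 < k) :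
    ∃ c : ℝ, 0 < c ∧ ∀ n : ℕ, 3 ≤ n → ∀ f : E n → E n, QPrime n k f → InjOn f (ball 0 c) := by
  obtain ⟨c, hc, h⟩ := hMain k (by linarith)
  exact ⟨c, hc, fun n hn f hf => h n hn f (hf.lq hL hI (by omega) hk)⟩

/-- the dimension-free injectivity radius is positive -/
theorem dimFreeRadius_pos (hMain : SpecMain) (hL : SpecLoc) (hI : SpecInvQc) (k : ℝ)
    (hk : 1 < k) : 0 < dimFreeRadius k := by
  obtain ⟨c, hc, h⟩ := uniform_injOn hMain hL hI k hk
  have hm : 0 < min c 1 := lt_min hc one_pos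
  refine hm.trans_le ?_
  refine le_csInf ⟨_, 3, le_rfl, rfl⟩ ?_
  rintro _ ⟨n, hn, rfl⟩
  refine le_csInf ⟨_, _, qPrime_id (by omega) hk, rfl⟩ ?_
  rintro _ ⟨f, hf, rfl⟩
  refine le_csSup ⟨1, fun ρ hρ => hρ.2.1⟩ ⟨hm, min_le_right _ _, ?_⟩
  exact (h n hn f hf).mono (ball_subset_ball (min_le_left _ _))

end Pool.Agent.Lib.MPd8b51b
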