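import Mathlib

set_option autoImplicit false

/-!
# MP_d8b51b_an: dimension-free injectivity radius for locally quasiconformal maps: definitions

All capacity inequalities are used only up to factors `C ^ n`.
-/

namespace Pool.Agent.Lib.MPd8b51b

open MeasureTheory Metric Set
open scoped ENNReal

/-- Euclidean `n`-space -/
abbrev E (n : ℕ) := EuclideanSpace ℝ (Fin n)

/-- the volume radius of a set: the radius of the ball with the same volume (if it is finite) -/
noncomputable def vr {n : ℕ} (S : Set (E n)) : ℝ :=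
  ((volume S).toReal / (volume (ball (0 : E n) 1)).toReal) ^ (1 / (n : ℝ))

/-- `v` has `n`-energy at most `e` on the compact set `C`, in the sense of approximation by `C¹`
functions (uniformly on `C`). -/
def EnOn (n : ℕ) (C : Set (E n)) (v : E n → ℝ) (e : ℝ≥0∞) : Prop :=
  ∀ ε : ℝ, 0 < ε → ∃ w : E n → ℝ, ContDiff ℝ 1 w ∧ (∀ x ∈ C, |w x - v x| ≤ ε) ∧
    ∫⁻ x in C, ‖fderiv ℝ w x‖ₑ ^ n ≤ e + ENNReal.ofReal ε

/-- The capacity (change of variables) inequality for the injective map `h` on the open set `U`: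
`∫_C (θ(h) |Dh|)^n ≤ k^n ∫_{h(C)} θ^n`, in the sense of approximation by `C¹` maps. -/
def CI (n : ℕ) (k : ℝ) (U : Set (E n)) (h : E n → E n) : Prop :=
  ∀ C : Set (E n), C ⊆ U → IsCompact C → ∀ θ : E n → ℝ, Continuous θ → (∀ y, 0 ≤ θ y) →
    ∀ ε : ℝ, 0 < ε → ∃ F : E n → E n, ContDiff ℝ 1 F ∧ (∀ x ∈ C, ‖F x - h x‖ ≤ ε) ∧
      ∫⁻ x in C, (ENNReal.ofReal (θ (F x)) * ‖fderiv ℝ F x‖ₑ) ^ n ≤
        ENNReal.ofReal k ^ n * (∫⁻ y in h '' C, ENNReal.ofReal (θ y) ^ n) + ENNReal.ofReal ε

/-- `h` is a homeomorphism of the open set `U` onto the open set `h '' U` with inverse `g`, and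
both satisfy the capacity inequality with constant `k ^ n`. -/
structure QCI (n : ℕ) (k : ℝ) (U : Set (E n)) (h g : E n → E n) : Prop where
  isOpen : IsOpen U
  isOpen_image : IsOpen (h '' U)
  cont : ContinuousOn h U
  cont_inv : ContinuousOn g (h '' U)
  left_inv : ∀ x ∈ U, g (h x) = x
  ci : CI n k U h
  ci_inv : CI n k (h '' U) g

/-- `h` is a homeomorphism of the open set `U` onto the open set `h '' U` with inverse `g`. -/
structure Hom {n : ℕ} (U : Set (E n)) (h g : E n → E n) : Prop where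
  isOpen : IsOpen U
  isOpen_image : IsOpen (h '' U)
  cont : ContinuousOn h U
  cont_inv : ContinuousOn g (h '' U)
  left_inv : ∀ x ∈ U, g (h x) = x

/-- `f` is locally injective on the open set `X`, and each restriction of `f` to an open subset on
which it is injective satisfies `QCI`. -/
structure LQ (n : ℕ) (k : ℝ) (X : Set (E n)) (f : E n → E n) : Prop where
  isOpen : IsOpen X
  loc_inj : ∀ x ∈ X, ∃ V : Set (E n), IsOpen V ∧ x ∈ V ∧ V ⊆ X ∧ InjOn f V
  qci : ∀ V : Set (E n), IsOpen V → V ⊆ X → InjOn f V → ∃ g : E n → E n, QCI n k V f g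

/-- at most half of the closed ball is mapped into each open ball of radius `S` -/
def Low (n : ℕ) (h : E n → E n) (z : E n) (t S : ℝ) : Prop :=
  ∀ y : E n, volume {x ∈ closedBall z t | dist (h x) y < S} ≤ volume (closedBall z t) / 2

/-- at least half of the closed ball is mapped into some closed ball of radius `S` -/
def High (n : ℕ) (h : E n → E n) (z : E n) (t S : ℝ) : Prop :=
  ∃ y : E n, volume {x ∈ closedBall z t | S < dist (h x) y} ≤ volume (closedBall z t) / 2

/-- the point of the triangle with base `[y, y']` and apex `w` with coordinates `(u, τ)` -/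
noncomputable def pt {n : ℕ} (y y' w : E n) (u τ : ℝ) : E n :=
  (1 - τ) • ((1 - u) • y + u • y') + τ • w

/-- the triangle with vertices `y, y', p` lifts to `X`, starting from `z` over `y` -/
def Lft {n : ℕ} (f : E n → E n) (X : Set (E n)) (z y y' p : E n) : Prop :=
  ∃ V : Set (E n), IsOpen V ∧ V ⊆ X ∧ InjOn f V ∧ z ∈ V ∧
    ∀ u ∈ Icc (0 : ℝ) 1, ∀ τ ∈ Icc (0 : ℝ) 1, pt y y' p u τ ∈ f '' V

end Pool.Agent.Lib.MPd8b51b
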