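import Pool.Agent.Lib.MP_d8b51b_an.Spec
import Pool.Agent.Lib.MP_d8b51b_an.Log

section
set_option autoImplicit false

/-!
# MP_d8b51b_an: MAIN (assembly)
-/

namespace Pool.Agent.Lib.MPd8b51b

open MeasureTheory Metric Set
open scoped ENNReal

variable {n : ℕ}

/-- uniqueness of lifts over a preconnected set -/
lemma lift_unique {k : ℝ} {X : Set (E n)} {f : E n → E n} (hf : LQ n k X f) {V V' : Set (E n)}
    (hV : IsOpen V) (hVX : V ⊆ X) (hVi : InjOn f V) (hV' : IsOpen V') (hVX' : V' ⊆ X)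
    (hVi' : InjOn f V') {S : Set (E n)} (hS : IsPreconnected S) (hSV : S ⊆ f '' V)
    (hSV' : S ⊆ f '' V') {x₀ : E n} (hx₀ : x₀ ∈ V) (hx₀' : x₀ ∈ V') (hfx₀ : f x₀ ∈ S)
    {a a' : E n} (ha : a ∈ V) (ha' : a' ∈ V') (haS : f a ∈ S) (haa : f a = f a') : a = a' := by
  set U : Set (E n) := f '' (V ∩ V') with hU
  set W : Set (E n) := {s | ∃ O O' : Set (E n), IsOpen O ∧ IsOpen O' ∧ O ⊆ V ∧ O' ⊆ V' ∧
    Disjoint O O' ∧ s ∈ f '' O ∧ s ∈ f '' O'} with hW
  have hUo : IsOpen U := hf.isOpen_image (hV.inter hV') (inter_subset_left.trans hVX)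
  have hWo : IsOpen W := by
    rw [isOpen_iff_mem_nhds]
    rintro s ⟨O, O', hO, hO', hOV, hOV', hd, hs, hs'⟩
    have h1 : IsOpen (f '' O) := hf.isOpen_image hO (hOV.trans hVX)
    have h2 : IsOpen (f '' O') := hf.isOpen_image hO' (hOV'.trans hVX')
    exact Filter.mem_of_superset ((h1.inter h2).mem_nhds ⟨hs, hs'⟩)
      (fun t ht => ⟨O, O', hO, hO', hOV, hOV', hd, ht.1, ht.2⟩)
  have hcov : S ⊆ U ∪ W := by
    intro s hs
    obtain ⟨b, hb, hbs⟩ := hSV hs
    obtain ⟨b', hb', hbs'⟩ := hSV' hs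
    by_cases hbb : b = b'
    · left
      exact ⟨b, ⟨hb, hbb ▸ hb'⟩, hbs⟩
    · right
      obtain ⟨O, O', hO, hO', hbO, hbO', hd⟩ := t2_separation hbb
      exact ⟨O ∩ V, O' ∩ V', hO.inter hV, hO'.inter hV', inter_subset_right, inter_subset_right,
        hd.mono inter_subset_left inter_subset_left, ⟨b, ⟨hbO, hb⟩, hbs⟩, ⟨b', ⟨hbO', hb'⟩, hbs'⟩⟩
  have hdisj : ∀ s, s ∈ U → s ∉ W := by
    rintro s ⟨x, ⟨hx, hx'⟩, rfl⟩ ⟨O, O', -, -, hOV, hOV', hd, ⟨b, hb, hbs⟩, ⟨b', hb', hbs'⟩⟩
    have e1 : b = x := hVi (hOV hb) hx hbs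
    have e2 : b' = x := hVi' (hOV' hb') hx' hbs'
    exact Set.disjoint_left.1 hd hb (by rw [e1, ← e2]; exact hb')
  have haU : f a ∈ U := by
    by_contra hcon
    have haW : f a ∈ W := (hcov haS).resolve_left hcon
    obtain ⟨s, hs, hsU, hsW⟩ := hS U W hUo hWo hcov ⟨f x₀, hfx₀, x₀, ⟨hx₀, hx₀'⟩, rfl⟩
      ⟨f a, haS, haW⟩
    exact hdisj s hsU hsW
  obtain ⟨x, ⟨hx, hx'⟩, hxa⟩ := haU
  have e1 : x = a := hVi hx ha hxa
  have e2 : x = a' := hVi' hx' ha' (hxa.trans haa)
  rw [← e1, ← e2]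

lemma pt_zero_tau (y y' w : E n) (τ : ℝ) : pt y y' w 0 τ = (1 - τ) • y + τ • w := by
  simp [pt]

lemma pt_one_tau (y y' w : E n) (τ : ℝ) : pt y y' w 1 τ = (1 - τ) • y' + τ • w := by
  simp [pt]

lemma pt_u_zero (y y' w : E n) (u : ℝ) : pt y y' w u 0 = (1 - u) • y + u • y' := by
  simp [pt]

/-- MAIN -/
theorem specMain (hC : SpecChain) (hZ : SpecZalc) (hB : SpecBad) : SpecMain := by
  intro k hk
  obtain ⟨N, hN2, hN⟩ := hC k hk
  have hN0 : (0 : ℝ) ≤ N := Nat.cast_nonneg N
  obtain ⟨R, hR8, hR⟩ := hB k (N + 1) (1 / (N + 2)) hk (by linarith) (by positivity)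
  have hR0 : 0 < R := by linarith
  set c : ℝ := min (1 / 32) (1 / (16 * R)) with hc
  have hc0 : 0 < c := by
    rw [hc]
    exact lt_min (by norm_num) (by positivity)
  refine ⟨c, hc0, fun n hn f hf => ?_⟩
  by_contra hcon
  obtain ⟨x₀, ρ, hρ, h1, h2⟩ := hZ n f c hc0 (min_le_left _ _)
    (fun x hx => by
      obtain ⟨V, hV, hxV, -, hi⟩ := hf.loc_inj x hx
      exact ⟨V, hV, hxV, hi⟩) hcon
  have hRρ : R * ρ ≤ ρ / (16 * c) := by
    rw [le_div_iff₀ (by positivity)]
    have : c ≤ 1 / (16 * R) := min_le_right _ _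
    have h3 : c * (16 * R) ≤ 1 := by rwa [le_div_iff₀ (by positivity)] at this
    nlinarith
  set X : Set (E n) := ball x₀ (R * ρ) with hXdef
  have hXc : ∀ x ∈ X, x ∈ closedBall x₀ (ρ / (16 * c)) := fun x hx =>
    mem_closedBall.2 ((mem_ball.1 hx).le.trans hRρ)
  have hX : X ⊆ ball 0 1 := fun x hx => (h1 x (hXc x hx)).1 (mem_ball_self (by positivity))
  have hLQ : LQ n k X f := hf.mono isOpen_ball hX
  have h2X : ball x₀ (2 * ρ) ⊆ X := ball_subset_ball (by nlinarith)
  simp only [InjOn, not_forall] at h2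
  obtain ⟨p, hp, q, hq, hpq, hne⟩ := h2
  obtain ⟨z, r, hr, hz0, hzN, hzb, hzd, hfd, hzr⟩ := hN n (by omega) f x₀ ρ hρ
    (fun z hz => hf.qci _ isOpen_ball (h1 z (hXc z (h2X hz))).1 (h1 z (hXc z (h2X hz))).2)
    p hp q hq
  have hinj : ∀ i ≤ N, InjOn f (ball (z i) (ρ / 8)) := fun i hi =>
    (h1 (z i) (hXc _ (h2X (hzb i hi)))).2
  have hbX : ∀ i ≤ N, ball (z i) (ρ / 16) ⊆ X := by
    intro i hi x hx
    have h3 := mem_ball.1 (hzb i hi)
    have h4 := mem_ball.1 hx
    rw [hXdef, mem_ball]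
    have := dist_triangle x (z i) x₀
    nlinarith
  -- distances
  have hdist : ∀ i ≤ N, dist (f (z i)) (f (z 0)) ≤ i * (r / 4) := by
    intro i
    induction i with
    | zero => intro _; simp
    | succ i ih =>
      intro hi
      have h3 := ih (by omega)
      have h4 := hfd i (by omega)
      have h5 := dist_triangle (f (z (i + 1))) (f (z i)) (f (z 0))
      rw [dist_comm (f (z (i + 1))) (f (z i))] at h5
      push_cast
      nlinarith
  -- a good apex
  obtain ⟨w, hw⟩ : ∃ w : E n, ∀ i < N, Lft f X (z i) (f (z i)) (f (z (i + 1))) w := by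
    by_contra hno
    push Not at hno
    have hsub : ball (f (z 0)) (r / 2) ⊆ ⋃ i ∈ Finset.range N,
        {w ∈ ball (f (z 0)) (r / 2) | ¬ Lft f X (z i) (f (z i)) (f (z (i + 1))) w} := by
      intro w hw
      obtain ⟨i, hi, hi'⟩ := hno w
      simp only [mem_iUnion, Finset.mem_range]
      exact ⟨i, hi, hw, hi'⟩
    have hbad : ∀ i < N, volume {w ∈ ball (f (z 0)) (r / 2) |
        ¬ Lft f X (z i) (f (z i)) (f (z (i + 1))) w} ≤
        ENNReal.ofReal (1 / (N + 2)) * volume (ball (f (z 0)) (r / 2)) := by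
      intro i hi
      refine hR n hn f x₀ ρ hρ hLQ (z i) (f (z i)) (f (z (i + 1))) (f (z 0)) r (hzb i hi.le) rfl hr
        (hfd i hi) ?_ (hzr i hi.le) (hinj i hi.le)
      have h3 := hdist i hi.le
      have h4 : (i : ℝ) ≤ N := by exact_mod_cast hi.le
      nlinarith
    have hle : volume (ball (f (z 0)) (r / 2)) ≤
        (N : ℝ≥0∞) * (ENNReal.ofReal (1 / (N + 2)) * volume (ball (f (z 0)) (r / 2))) := by
      calc volume (ball (f (z 0)) (r / 2)) ≤ _ := measure_mono hsub
        _ ≤ ∑ i ∈ Finset.range N, volume {w ∈ ball (f (z 0)) (r / 2) |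
            ¬ Lft f X (z i) (f (z i)) (f (z (i + 1))) w} := measure_biUnion_finset_le _ _
        _ ≤ ∑ i ∈ Finset.range N, ENNReal.ofReal (1 / (N + 2)) *
            volume (ball (f (z 0)) (r / 2)) :=
          Finset.sum_le_sum fun i hi => hbad i (Finset.mem_range.1 hi)
        _ = _ := by rw [Finset.sum_const, Finset.card_range, nsmul_eq_mul]
    have hpos : volume (ball (f (z 0)) (r / 2)) ≠ 0 := (measure_ball_pos _ _ (by positivity)).ne'
    have htop : volume (ball (f (z 0)) (r / 2)) ≠ ∞ := measure_ball_lt_top.ne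
    rw [← mul_assoc] at hle
    have h5 : (N : ℝ≥0∞) * ENNReal.ofReal (1 / (N + 2)) < 1 := by
      rw [← ENNReal.ofReal_natCast, ← ENNReal.ofReal_mul hN0, ← ENNReal.ofReal_one,
        ENNReal.ofReal_lt_ofReal_iff one_pos, mul_one_div, div_lt_one (by positivity)]
      linarith
    have h6 : (N : ℝ≥0∞) * ENNReal.ofReal (1 / (N + 2)) * volume (ball (f (z 0)) (r / 2)) <
        1 * volume (ball (f (z 0)) (r / 2)) := ENNReal.mul_lt_mul_left hpos htop h5
    rw [one_mul] at h6
    exact absurd hle (not_le.2 h6)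
  choose! V hVo hVX hVi hzV hVT using hw
  have hendp : ∀ i < N, ∃ e ∈ V i, f e = w := by
    intro i hi
    have := hVT i hi 0 (by simp) 1 (by simp)
    rw [pt_zero_tau] at this
    obtain ⟨e, he, hfe⟩ := this
    exact ⟨e, he, by rw [hfe]; simp⟩
  choose! e heV hfe using hendp
  have hseg : ∀ a b : E n, IsPreconnected (segment ℝ a b) := fun a b =>
    (convex_segment a b).isPreconnected
  -- the next base point belongs to `V i`
  have hnext : ∀ i < N, z (i + 1) ∈ V i := by
    intro i hi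
    have hSV : segment ℝ (f (z i)) (f (z (i + 1))) ⊆ f '' V i := by
      intro s hs
      rw [segment_eq_image] at hs
      obtain ⟨u, hu, rfl⟩ := hs
      have := hVT i hi u hu 0 (by simp)
      rwa [pt_u_zero] at this
    have hSV' : segment ℝ (f (z i)) (f (z (i + 1))) ⊆ f '' ball (z i) (ρ / 16) := by
      refine ((convex_ball (f (z i)) r).segment_subset (mem_ball_self hr) ?_).trans (hzr i hi.le)
      rw [mem_ball, dist_comm]
      exact (hfd i hi).trans_lt (by linarith)
    obtain ⟨a, ha, hfa⟩ := hSV (right_mem_segment ℝ _ _)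
    obtain ⟨a', ha', hfa'⟩ := hSV' (right_mem_segment ℝ _ _)
    have h3 : a = a' := lift_unique hLQ (hVo i hi) (hVX i hi) (hVi i hi) isOpen_ball
      (hbX i hi.le) ((hinj i hi.le).mono (ball_subset_ball (by linarith))) (hseg _ _) hSV hSV'
      (hzV i hi) (mem_ball_self (by positivity)) (left_mem_segment ℝ _ _) ha ha'
      (by rw [hfa]; exact right_mem_segment ℝ _ _) (hfa.trans hfa'.symm)
    have h4 : a' = z (i + 1) := by
      refine hinj i hi.le (ball_subset_ball (by linarith) ha') ?_ hfa'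
      rw [mem_ball, dist_comm]
      exact (hzd i hi).trans (by linarith)
    rw [← h4, ← h3]
    exact ha
  have hright : ∀ i < N, segment ℝ (f (z (i + 1))) w ⊆ f '' V i := by
    intro i hi s hs
    rw [segment_eq_image] at hs
    obtain ⟨τ, hτ, rfl⟩ := hs
    have := hVT i hi 1 (by simp) τ hτ
    rwa [pt_one_tau] at this
  have hleft : ∀ i < N, segment ℝ (f (z i)) w ⊆ f '' V i := by
    intro i hi s hs
    rw [segment_eq_image] at hs
    obtain ⟨τ, hτ, rfl⟩ := hs
    have := hVT i hi 0 (by simp) τ hτ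
    rwa [pt_zero_tau] at this
  have hee : ∀ i, i < N → e i = e 0 := by
    intro i
    induction i with
    | zero => intro _; rfl
    | succ i ih =>
      intro hi
      have hi' : i < N := by omega
      rw [← ih hi']
      refine (lift_unique hLQ (hVo i hi') (hVX i hi') (hVi i hi') (hVo _ hi) (hVX _ hi) (hVi _ hi)
        (hseg (f (z (i + 1))) w) (hright i hi') (hleft _ hi) (hnext i hi') (hzV _ hi)
        (left_mem_segment ℝ _ _) (heV i hi') (heV _ hi) ?_ ?_).symm
      · rw [hfe i hi']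
        exact right_mem_segment ℝ _ _
      · rw [hfe i hi', hfe _ hi]
  obtain ⟨m, rfl⟩ : ∃ m, N = m + 1 := ⟨N - 1, by omega⟩
  have hm : m < m + 1 := Nat.lt_succ_self m
  have h0 : 0 < m + 1 := Nat.succ_pos m
  have hfpq : f (z (m + 1)) = f (z 0) := by rw [hz0, hzN]; exact hpq.symm
  have hfin : z 0 = z (m + 1) := by
    refine lift_unique hLQ (hVo 0 h0) (hVX 0 h0) (hVi 0 h0) (hVo m hm) (hVX m hm) (hVi m hm)
      (hseg (f (z 0)) w) (hleft 0 h0) ?_ (heV 0 h0) (hee m hm ▸ heV m hm) ?_ (hzV 0 h0)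
      (hnext m hm) (left_mem_segment ℝ _ _) hfpq.symm
    · rw [← hfpq]
      exact hright m hm
    · rw [hfe 0 h0]
      exact right_mem_segment ℝ _ _
  rw [hz0, hzN] at hfin
  exact hne hfin

end Pool.Agent.Lib.MPd8b51b
end

section
set_option autoImplicit false

/-!
# MP_d8b51b_an: module MED (existence of a typical size)
-/

namespace Pool.Agent.Lib.MPd8b51b

open MeasureTheory Metric Set Filter
open scoped ENNReal Topology

/-- points at distance at least `t / 2` have images at distance at least `m` -/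
lemma Med.exists_sep {n : ℕ} {h : E n → E n} {B : Set (E n)} {t : ℝ} (ht : 0 < t)
    (hBc : IsCompact B) (hcont : ContinuousOn h B) (hinj : InjOn h B) :
    ∃ m : ℝ, 0 < m ∧ ∀ x ∈ B, ∀ x' ∈ B, t / 2 ≤ dist x x' → m ≤ dist (h x) (h x') := by
  set P : Set (E n × E n) := (B ×ˢ B) ∩ {q : E n × E n | t / 2 ≤ dist q.1 q.2} with hPdef
  have hP : IsCompact P :=
    (hBc.prod hBc).inter_right (isClosed_le continuous_const (by fun_prop))
  have hφ : ContinuousOn (fun q : E n × E n => dist (h q.1) (h q.2)) P := by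
    have h1 : ContinuousOn (fun q : E n × E n => h q.1) P :=
      hcont.comp continuousOn_fst fun q hq => hq.1.1
    have h2 : ContinuousOn (fun q : E n × E n => h q.2) P :=
      hcont.comp continuousOn_snd fun q hq => hq.1.2
    exact continuous_dist.comp_continuousOn (h1.prodMk h2)
  rcases P.eq_empty_or_nonempty with he | he
  · refine ⟨1, one_pos, fun x hx x' hx' hxx' => ?_⟩
    have : (x, x') ∈ P := ⟨⟨hx, hx'⟩, hxx'⟩
    rw [he] at this
    exact absurd this (notMem_empty _)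
  · obtain ⟨q₀, hq₀, hmin⟩ := hP.exists_isMinOn he hφ
    refine ⟨dist (h q₀.1) (h q₀.2), ?_, fun x hx x' hx' hxx' => ?_⟩
    · rw [dist_pos]
      intro heq
      have h1 : q₀.1 = q₀.2 := hinj hq₀.1.1 hq₀.1.2 heq
      have h2 : t / 2 ≤ dist q₀.1 q₀.2 := hq₀.2
      rw [h1, dist_self] at h2
      linarith
    · have hq : (x, x') ∈ P := ⟨⟨hx, hx'⟩, hxx'⟩
      exact (isMinOn_iff.1 hmin) (x, x') hq

theorem specMed : SpecMed := by
  intro n h z t hn ht hcont hinj
  set B : Set (E n) := closedBall z t with hB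
  have hBc : IsCompact B := isCompact_closedBall z t
  have hBpos : 0 < volume B := measure_closedBall_pos volume z ht
  have hBtop : volume B ≠ ∞ := measure_closedBall_lt_top.ne
  have hBm : MeasurableSet B := isClosed_closedBall.measurableSet
  -- a small size
  have hlow : ∃ S₀ : ℝ, 0 < S₀ ∧ Low n h z t S₀ := by
    obtain ⟨m, hm, hmle⟩ := Med.exists_sep ht hBc hcont hinj
    refine ⟨m / 2, by positivity, fun y => ?_⟩
    rcases {x ∈ closedBall z t | dist (h x) y < m / 2}.eq_empty_or_nonempty with he | ⟨x₀, hx₀⟩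
    · rw [he, measure_empty]
      exact zero_le
    · have hsub : {x ∈ closedBall z t | dist (h x) y < m / 2} ⊆ closedBall x₀ (t / 2) := by
        intro x hx
        by_contra hcon
        rw [mem_closedBall, not_le] at hcon
        have h1 := hmle x hx.1 x₀ hx₀.1 hcon.le
        have h2 : dist (h x) (h x₀) < m := by
          calc dist (h x) (h x₀) ≤ dist (h x) y + dist y (h x₀) := dist_triangle _ _ _
            _ < m / 2 + m / 2 := add_lt_add hx.2 (by rw [dist_comm]; exact hx₀.2)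
            _ = m := by ring
        linarith
      refine (measure_mono hsub).trans ?_
      rw [vol_closedBall x₀ (by positivity : 0 < t / 2), vol_closedBall z ht,
        ENNReal.le_div_iff_mul_le (Or.inl two_ne_zero) (Or.inl ENNReal.ofNat_ne_top)]
      have h3 : ENNReal.ofReal (t / 2) ^ n * 2 ≤ ENNReal.ofReal t ^ n := by
        rw [ENNReal.ofReal_div_of_pos two_pos, ENNReal.ofReal_ofNat, div_eq_mul_inv, mul_pow]
        have h4 : ((2 : ℝ≥0∞)⁻¹) ^ n * 2 ≤ 1 := by
          calc ((2 : ℝ≥0∞)⁻¹) ^ n * 2 ≤ ((2 : ℝ≥0∞)⁻¹) ^ 1 * 2 := by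
                gcongr ?_ * 2
                exact pow_le_pow_of_le_one zero_le (by simp) hn
            _ = 1 := by rw [pow_one, ENNReal.inv_mul_cancel two_ne_zero ENNReal.ofNat_ne_top]
        calc ENNReal.ofReal t ^ n * (2 : ℝ≥0∞)⁻¹ ^ n * 2 =
            ENNReal.ofReal t ^ n * ((2 : ℝ≥0∞)⁻¹ ^ n * 2) := by ring
          _ ≤ ENNReal.ofReal t ^ n * 1 := by gcongr
          _ = _ := mul_one _
      calc ENNReal.ofReal (t / 2) ^ n * volume (ball (0 : E n) 1) * 2 =
          ENNReal.ofReal (t / 2) ^ n * 2 * volume (ball (0 : E n) 1) := by ring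
        _ ≤ _ := by gcongr
  obtain ⟨S₀, hS₀, hLow₀⟩ := hlow
  -- `Low` fails for large sizes
  obtain ⟨R, hR⟩ : ∃ R : ℝ, h '' B ⊆ ball 0 R := by
    obtain ⟨R, hR⟩ := (hBc.image_of_continuousOn hcont).isBounded.subset_ball (0 : E n)
    exact ⟨R, hR⟩
  obtain ⟨j₀, hj₀⟩ : ∃ j : ℕ, ¬ Low n h z t (2 ^ j * S₀) := by
    obtain ⟨j, hj⟩ := pow_unbounded_of_one_lt (R / S₀) (by norm_num : (1 : ℝ) < 2)
    refine ⟨j, fun hcon => ?_⟩
    have h1 := hcon 0
    have h2 : {x ∈ closedBall z t | dist (h x) 0 < 2 ^ j * S₀} = B := by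
      apply Set.Subset.antisymm (fun x hx => hx.1)
      intro x hx
      refine ⟨hx, ?_⟩
      have h3 : dist (h x) 0 < R := hR ⟨x, hx, rfl⟩
      rw [div_lt_iff₀ hS₀] at hj
      linarith
    rw [h2] at h1
    exact absurd (ENNReal.half_lt_self hBpos.ne' hBtop) (not_lt.2 h1)
  classical
  let P : ℕ → Prop := fun j => ¬ Low n h z t (2 ^ j * S₀)
  have hPex : ∃ j, P j := ⟨j₀, hj₀⟩
  have hj := Nat.find_spec hPex
  have hj0 : Nat.find hPex ≠ 0 := by
    intro h0
    rw [h0] at hj
    apply hj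
    simpa using hLow₀
  obtain ⟨i, hi⟩ := Nat.exists_eq_succ_of_ne_zero hj0
  have hLowi : Low n h z t (2 ^ i * S₀) := by
    have := Nat.find_min hPex (m := i) (by omega)
    exact not_not.1 this
  refine ⟨2 ^ i * S₀, by positivity, hLowi, ?_⟩
  rw [hi] at hj
  have hj' : ¬ Low n h z t (2 * (2 ^ i * S₀)) := by
    have e : (2 : ℝ) ^ (i.succ) * S₀ = 2 * (2 ^ i * S₀) := by rw [pow_succ]; ring
    rw [← e]
    exact hj
  unfold Low at hj'
  push Not at hj'
  obtain ⟨y, hy⟩ := hj'
  refine ⟨y, ?_⟩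
  set T := 2 * (2 ^ i * S₀) with hT
  have hAm : MeasurableSet {x ∈ closedBall z t | dist (h x) y < T} := by
    have h1 : ContinuousOn (fun x => dist (h x) y) B := continuous_dist.comp_continuousOn (hcont.prodMk continuousOn_const)
    obtain ⟨O, hO, hO'⟩ := continuousOn_iff'.1 h1 (Iio T) isOpen_Iio
    have h2 : {x ∈ closedBall z t | dist (h x) y < T} = O ∩ B := by
      rw [← hO']
      ext x
      constructor
      · rintro ⟨h3, h4⟩
        exact ⟨h4, h3⟩
      · rintro ⟨h4, h3⟩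
        exact ⟨h3, h4⟩
    rw [h2]
    exact hO.measurableSet.inter hBm
  have hsub : {x ∈ closedBall z t | T < dist (h x) y} ⊆
      B \ {x ∈ closedBall z t | dist (h x) y < T} := by
    rintro x ⟨hx, hx'⟩
    exact ⟨hx, fun hx2 => absurd hx2.2 (not_lt.2 hx'.le)⟩
  refine (measure_mono hsub).trans ?_
  have hAtop : volume {x ∈ closedBall z t | dist (h x) y < T} ≠ ∞ :=
    ((measure_mono (fun x hx => hx.1)).trans_lt (measure_closedBall_lt_top (x := z) (r := t))).ne
  rw [measure_sdiff (fun x hx => hx.1) hAm.nullMeasurableSet hAtop]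
  rw [tsub_le_iff_right]
  calc volume B = volume B / 2 + volume B / 2 := (ENNReal.add_halves _).symm
    _ ≤ _ := by gcongr

end Pool.Agent.Lib.MPd8b51b
end

section
set_option autoImplicit false

/-!
# MP_d8b51b_an: MOR, the dimension-free Morrey estimate
-/

namespace Pool.Agent.Lib.MPd8b51b.Mor

open MeasureTheory Metric Set Filter Topology
open scoped ENNReal

variable {n : ℕ}

/-- the pair inequality for `h` -/
lemma pair_h (hP : SpecPair) (hn : 1 ≤ n) {k : ℝ} {U : Set (E n)} {h g : E n → E n}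
    (H : QCI n k U h g) {K : Set (E n)} (hK : IsCompact K) (hKc : Convex ℝ K) (hKU : K ⊆ U) :
    ∫⁻ x in K, (∫⁻ y in K, ‖h x - h y‖ₑ ^ n) ≤
      2 ^ n * Metric.ediam K ^ n * volume K * (ENNReal.ofReal k ^ n * volume (h '' K)) := by
  have hstep : ∀ m : ℕ, ∃ F : E n → E n, ContDiff ℝ 1 F ∧
      (∀ x ∈ K, ‖F x - h x‖ ≤ 1 / ((m : ℝ) + 1)) ∧
      ∫⁻ x in K, ‖fderiv ℝ F x‖ₑ ^ n ≤
        ENNReal.ofReal k ^ n * volume (h '' K) + ENNReal.ofReal (1 / ((m : ℝ) + 1)) := by
    intro m
    obtain ⟨F, hF, hF1, hF2⟩ := H.ci K hKU hK (fun _ => 1) continuous_const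
      (fun _ => zero_le_one) (1 / ((m : ℝ) + 1)) (by positivity)
    refine ⟨F, hF, hF1, ?_⟩
    simpa using hF2
  choose F hF hF1 hF2 using hstep
  have hKm : MeasurableSet K := hK.measurableSet
  have hlim : ∀ x ∈ K, Tendsto (fun m => F m x) atTop (𝓝 (h x)) := by
    intro x hx
    rw [tendsto_iff_norm_sub_tendsto_zero]
    exact squeeze_zero (fun m => norm_nonneg _) (fun m => hF1 m x hx)
      tendsto_one_div_add_atTop_nhds_zero_nat
  have hmeas : ∀ m, Measurable (Function.uncurry fun x y : E n => ‖F m x - F m y‖ₑ ^ n) := by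
    intro m
    have : Continuous fun p : E n × E n => F m p.1 - F m p.2 :=
      ((hF m).continuous.comp continuous_fst).sub ((hF m).continuous.comp continuous_snd)
    exact (this.enorm.measurable.pow_const n)
  have hmeas' : ∀ m x, Measurable fun y : E n => ‖F m x - F m y‖ₑ ^ n := by
    intro m x
    have : Continuous fun y : E n => F m x - F m y := continuous_const.sub (hF m).continuous
    exact (this.enorm.measurable.pow_const n)
  have hin : ∀ x ∈ K, ∫⁻ y in K, ‖h x - h y‖ₑ ^ n ≤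
      liminf (fun m => ∫⁻ y in K, ‖F m x - F m y‖ₑ ^ n) atTop := by
    intro x hx
    calc ∫⁻ y in K, ‖h x - h y‖ₑ ^ n
        ≤ ∫⁻ y in K, liminf (fun m => ‖F m x - F m y‖ₑ ^ n) atTop := by
          refine setLIntegral_mono' hKm fun y hy => ?_
          have h1 : Tendsto (fun m => ‖F m x - F m y‖ₑ ^ n) atTop (𝓝 (‖h x - h y‖ₑ ^ n)) := by
            have h2 := ((hlim x hx).sub (hlim y hy)).enorm
            exact ((ENNReal.continuous_pow n).tendsto _).comp h2
          rw [h1.liminf_eq]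
      _ ≤ _ := lintegral_liminf_le fun m => hmeas' m x
  calc ∫⁻ x in K, (∫⁻ y in K, ‖h x - h y‖ₑ ^ n)
      ≤ ∫⁻ x in K, liminf (fun m => ∫⁻ y in K, ‖F m x - F m y‖ₑ ^ n) atTop :=
        setLIntegral_mono' hKm fun x hx => hin x hx
    _ ≤ liminf (fun m => ∫⁻ x in K, ∫⁻ y in K, ‖F m x - F m y‖ₑ ^ n) atTop :=
        lintegral_liminf_le fun m => (hmeas m).lintegral_prod_right'
    _ ≤ liminf (fun m : ℕ => 2 ^ n * Metric.ediam K ^ n * volume K *
          (ENNReal.ofReal k ^ n * volume (h '' K) + ENNReal.ofReal (1 / ((m : ℝ) + 1)))) atTop := by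
        refine liminf_le_liminf (Eventually.of_forall fun m => ?_)
        have h1 := hP (E n) volume (E n) K (F m) n hn hKc hK (hF m)
        rw [finrank_euclideanSpace, Fintype.card_fin] at h1
        refine h1.trans ?_
        gcongr
        exact hF2 m
    _ = _ := by
        have h1 : Tendsto (fun m : ℕ => ENNReal.ofReal k ^ n * volume (h '' K) +
            ENNReal.ofReal (1 / ((m : ℝ) + 1))) atTop
            (𝓝 (ENNReal.ofReal k ^ n * volume (h '' K) + 0)) := by
          refine tendsto_const_nhds.add ?_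
          have := ENNReal.tendsto_ofReal (tendsto_one_div_add_atTop_nhds_zero_nat (𝕜 := ℝ))
          simpa using this
        have hdiam : Metric.ediam K ≠ ∞ := hK.isBounded.ediam_ne_top
        have h2 := ENNReal.Tendsto.const_mul (a := 2 ^ n * Metric.ediam K ^ n * volume K) h1
          (Or.inr (by
            have := hK.measure_lt_top (μ := volume).ne
            finiteness))
        rw [h2.liminf_eq, add_zero]

lemma add_pow_le (a b : ℝ≥0∞) : (a + b) ^ n ≤ 2 ^ n * (a ^ n + b ^ n) := by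
  rcases le_total a b with hab | hab
  · calc (a + b) ^ n ≤ (2 * b) ^ n := by
          gcongr
          rw [two_mul]
          gcongr
      _ = 2 ^ n * b ^ n := mul_pow _ _ _
      _ ≤ _ := by
        gcongr
        exact le_add_self
  · calc (a + b) ^ n ≤ (2 * a) ^ n := by
          gcongr
          rw [two_mul]
          gcongr
      _ = 2 ^ n * a ^ n := mul_pow _ _ _
      _ ≤ _ := by
        gcongr
        exact le_self_add

/-- the growth hypothesis -/
def Im (n : ℕ) (M : ℝ) (U : Set (E n)) (h : E n → E n) : Prop :=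
  ∀ (x : E n) (s : ℝ), 0 < s → closedBall x (M * s) ⊆ U →
    volume (h '' closedBall x s) ≤ (1 / 2) ^ n * volume (h '' ball x (M * s))

lemma Im.vr {k M : ℝ} {U : Set (E n)} {h g : E n → E n} (hn : 1 ≤ n) (hM : 1 < M)
    (H : QCI n k U h g) (hI : Im n M U h) (x : E n) {s : ℝ} (hs : 0 < s)
    (hU : closedBall x (M * s) ⊆ U) :
    vr (h '' closedBall x s) ≤ 1 / 2 * vr (h '' ball x (M * s)) := by
  have hle : s ≤ M * s := by nlinarith
  have h1 : volume (h '' closedBall x s) ≠ ∞ :=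
    H.volume_image_ne_top subset_rfl (isCompact_closedBall x s)
      ((closedBall_subset_closedBall hle).trans hU)
  have h2 : volume (h '' ball x (M * s)) ≠ ∞ :=
    H.volume_image_ne_top ball_subset_closedBall (isCompact_closedBall x _) hU
  rw [vr_le_mul_iff hn h1 h2 (by norm_num)]
  have h3 : ENNReal.ofReal (1 / 2) = 1 / 2 := by
    rw [ENNReal.ofReal_div_of_pos (by norm_num)]; simp
  rw [h3]
  exact hI x s hs hU

/-- decay of the volume radius of the images of balls around `x` -/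
lemma decay {k M : ℝ} {U : Set (E n)} {h g : E n → E n} (hn : 1 ≤ n) (hM : 1 < M)
    (H : QCI n k U h g) (hI : Im n M U h) {x₀ x : E n} {t : ℝ} (ht : 0 < t)
    (hU : closedBall x₀ (8 * t) ⊆ U) (hx : x ∈ closedBall x₀ t) (i : ℕ) :
    ∀ s : ℝ, 0 < s → M ^ i * s ≤ 4 * t →
      vr (h '' closedBall x s) ≤ (1 / 2) ^ i * vr (h '' ball x₀ (8 * t)) := by
  have hfin : volume (h '' ball x₀ (8 * t)) ≠ ∞ :=
    H.volume_image_ne_top ball_subset_closedBall (isCompact_closedBall x₀ _) hU
  have hsub : ∀ s : ℝ, s ≤ 4 * t → closedBall x s ⊆ ball x₀ (8 * t) := by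
    intro s hs y hy
    rw [mem_closedBall] at hx hy
    rw [mem_ball]
    have := dist_triangle y x x₀
    linarith
  induction i with
  | zero =>
    intro s hs hs'
    rw [pow_zero, one_mul] at hs' ⊢
    exact vr_mono (image_mono (hsub s hs')) hfin
  | succ i ih =>
    intro s hs hs'
    have h4 : M ^ i * (M * s) ≤ 4 * t := by
      rw [pow_succ] at hs'
      linarith
    have h5 : M * s ≤ 4 * t := by
      have : 1 ≤ M ^ i := one_le_pow₀ hM.le
      have hMs : 0 < M * s := by positivity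
      nlinarith
    have h6 : closedBall x (M * s) ⊆ U := (hsub _ h5).trans (ball_subset_closedBall.trans hU)
    calc vr (h '' closedBall x s) ≤ 1 / 2 * vr (h '' ball x (M * s)) := hI.vr hn hM H x hs h6
      _ ≤ 1 / 2 * vr (h '' closedBall x (M * s)) := by
          gcongr
          exact vr_mono (image_mono ball_subset_closedBall)
            (H.volume_image_ne_top subset_rfl (isCompact_closedBall x _) h6)
      _ ≤ 1 / 2 * ((1 / 2) ^ i * vr (h '' ball x₀ (8 * t))) := by
          gcongr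
          exact ih (M * s) (by positivity) h4
      _ = _ := by rw [pow_succ]; ring

lemma half_pow_div_le {L : ℕ} (hL : 1 ≤ L) (j : ℕ) :
    (1 / 2 : ℝ) ^ (j / L) ≤ 2 * (1 - 1 / (2 * L)) ^ j := by
  set q : ℝ := 1 - 1 / (2 * L) with hq
  have hL' : (1 : ℝ) ≤ L := by exact_mod_cast hL
  have hLp : (0 : ℝ) < L := by linarith
  have hle : 1 / (2 * (L : ℝ)) ≤ 1 / 2 := by
    apply one_div_le_one_div_of_le (by norm_num)
    linarith
  have hq0 : 1 / 2 ≤ q := by rw [hq]; linarith
  have hq1 : q ≤ 1 := by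
    have : 0 < 1 / (2 * (L : ℝ)) := by positivity
    rw [hq]; linarith
  have hbern : 1 / 2 ≤ q ^ L := by
    have := one_add_mul_le_pow (a := -(1 / (2 * (L : ℝ)))) (by linarith) L
    have h2 : 1 + (L : ℝ) * -(1 / (2 * (L : ℝ))) = 1 / 2 := by
      field_simp
      norm_num
    rw [h2] at this
    have h3 : 1 + -(1 / (2 * (L : ℝ))) = q := by rw [hq]; ring
    rwa [h3] at this
  have hmod : j % L < L := Nat.mod_lt _ hL
  have hsplit : q ^ j = (q ^ L) ^ (j / L) * q ^ (j % L) := by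
    rw [← pow_mul, ← pow_add, Nat.div_add_mod]
  have h1 : 1 / 2 ≤ q ^ (j % L) :=
    hbern.trans (pow_le_pow_of_le_one (by linarith) hq1 hmod.le)
  rw [hsplit]
  have h2 : (1 / 2 : ℝ) ^ (j / L) ≤ (q ^ L) ^ (j / L) := by gcongr
  have h3 : (0 : ℝ) ≤ (q ^ L) ^ (j / L) := by positivity
  nlinarith

/-- the average estimate at a point -/
lemma average (hP : SpecPair) (hT : SpecTel) {k : ℝ} (hk : 0 < k) {L : ℕ} (hL : 1 ≤ L)
    (hn : 2 ≤ n) {U : Set (E n)} {h g : E n → E n} (H : QCI n k U h g)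
    (hI : Im n (2 ^ L) U h) {x₀ x : E n} {t : ℝ} (ht : 0 < t)
    (hU : closedBall x₀ (8 * t) ⊆ U) (hx : x ∈ closedBall x₀ t) :
    ∫⁻ y in closedBall x₀ t, ‖h y - h x‖ₑ ^ n ≤
      ENNReal.ofReal (64 * L * k * vr (h '' ball x₀ (8 * t))) ^ n * volume (closedBall x₀ t) := by
  have hn1 : 1 ≤ n := by omega
  have hM : (1 : ℝ) < 2 ^ L := one_lt_pow₀ (by norm_num) (by omega)
  have hL' : (1 : ℝ) ≤ L := by exact_mod_cast hL
  have hLp : (0 : ℝ) < L := by linarith
  set V : ℝ := vr (h '' ball x₀ (8 * t)) with hV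
  have hV0 : 0 ≤ V := vr_nonneg _
  set q : ℝ := 1 - 1 / (2 * L) with hq
  have hle : 1 / (2 * (L : ℝ)) ≤ 1 / 2 := by
    apply one_div_le_one_div_of_le (by norm_num)
    linarith
  have hq0 : 0 ≤ q := by rw [hq]; linarith
  have hq1 : q < 1 := by
    have : 0 < 1 / (2 * (L : ℝ)) := by positivity
    rw [hq]; linarith
  set α : ℕ → ℝ := fun j => 16 * k * V * q ^ j with hα
  have hsum : ∑' j, α j = 32 * L * k * V := by
    rw [hα, tsum_mul_left, tsum_geometric_of_lt_one hq0 hq1, hq]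
    field_simp
    ring
  have hKt : closedBall x₀ t ⊆ U := (closedBall_subset_closedBall (by linarith)).trans hU
  have key := hT (E n) volume (E n) (closedBall x₀ t) h n x α hn1
    (by rw [finrank_euclideanSpace, Fintype.card_fin]) (convex_closedBall _ _)
    (isCompact_closedBall _ _) (measure_closedBall_pos _ _ ht) hx (H.cont.mono hKt)
    (fun j => by positivity) ((summable_geometric_of_lt_one hq0 hq1).mul_left _) ?_
  · rw [hsum] at key
    have : (2 : ℝ) * (32 * L * k * V) = 64 * L * k * V := by ring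
    rwa [this] at key
  · intro j
    set c : ℝ := (1 / 2) ^ j with hc
    have hc0 : 0 < c := by positivity
    have hc1 : c ≤ 1 := pow_le_one₀ (by norm_num) (by norm_num)
    set K : Set (E n) := AffineMap.homothety x c '' closedBall x₀ t with hK
    have hKsub : K ⊆ closedBall x (2 * c * t) := by
      rintro _ ⟨y, hy, rfl⟩
      rw [mem_closedBall] at hx hy ⊢
      rw [AffineMap.homothety_apply, vsub_eq_sub, vadd_eq_add, dist_eq_norm, add_sub_cancel_right,
        norm_smul, Real.norm_of_nonneg hc0.le]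
      have h1 : ‖y - x‖ ≤ 2 * t := by
        rw [← dist_eq_norm]
        have := dist_triangle_right y x x₀
        linarith
      nlinarith
    have hKc : IsCompact K := (isCompact_closedBall _ _).image (AffineMap.homothety_continuous x c)
    have hKconv : Convex ℝ K := (convex_closedBall x₀ t).affine_image _
    have h2ct : 2 * c * t ≤ 4 * t := by nlinarith
    have hKU' : closedBall x (2 * c * t) ⊆ U := by
      intro y hy
      apply hU
      rw [mem_closedBall] at hx hy ⊢
      have := dist_triangle y x x₀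
      linarith
    have hKU : K ⊆ U := hKsub.trans hKU'
    have hvolK : volume K = ENNReal.ofReal (c * t) ^ n * volume (ball (0 : E n) 1) := by
      rw [hK, Measure.addHaar_image_homothety, finrank_euclideanSpace, Fintype.card_fin,
        vol_closedBall _ ht, abs_of_pos (by positivity), ENNReal.ofReal_pow hc0.le,
        ENNReal.ofReal_mul hc0.le, mul_pow, mul_assoc]
    have hdiam : Metric.ediam K ≤ ENNReal.ofReal (4 * c * t) := by
      refine Metric.ediam_le_of_forall_dist_le fun y hy z hz => ?_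
      have h1 := hKsub hy
      have h2 := hKsub hz
      rw [mem_closedBall] at h1 h2
      have := dist_triangle_right y z x
      linarith
    have hi : (2 ^ L : ℝ) ^ (j / L) * (2 * c * t) ≤ 4 * t := by
      have h1 : (2 ^ L : ℝ) ^ (j / L) ≤ 2 ^ j := by
        rw [← pow_mul]
        exact pow_le_pow_right₀ (by norm_num) (Nat.mul_div_le j L)
      have h2 : (2 : ℝ) ^ j * c = 1 := by
        rw [hc, ← mul_pow]; norm_num
      calc (2 ^ L : ℝ) ^ (j / L) * (2 * c * t) ≤ 2 ^ j * (2 * c * t) := by gcongr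
        _ = (2 ^ j * c) * (2 * t) := by ring
        _ = 2 * t := by rw [h2, one_mul]
        _ ≤ 4 * t := by linarith
    have hdec := decay hn1 hM H hI ht hU hx (j / L) (2 * c * t) (by positivity) hi
    rw [← hV] at hdec
    have hhK : volume (h '' K) ≤ ENNReal.ofReal (2 * q ^ j * V) ^ n * volume (ball (0 : E n) 1) := by
      refine (measure_mono (image_mono hKsub)).trans ?_
      rw [← vr_le_iff hn1 (H.volume_image_ne_top subset_rfl (isCompact_closedBall x _) hKU')
        (by positivity)]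
      refine hdec.trans ?_
      gcongr
      exact half_pow_div_le hL j
    calc ∫⁻ y in K, (∫⁻ y' in K, ‖h y - h y'‖ₑ ^ n)
        ≤ 2 ^ n * Metric.ediam K ^ n * volume K * (ENNReal.ofReal k ^ n * volume (h '' K)) :=
          pair_h hP hn1 H hKc hKconv hKU
      _ ≤ 2 ^ n * ENNReal.ofReal (4 * c * t) ^ n * volume K * (ENNReal.ofReal k ^ n *
          (ENNReal.ofReal (2 * q ^ j * V) ^ n * volume (ball (0 : E n) 1))) := by gcongr
      _ = ENNReal.ofReal (α j) ^ n * volume K *
          (ENNReal.ofReal (c * t) ^ n * volume (ball (0 : E n) 1)) := by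
          have h1 : (2 : ℝ≥0∞) ^ n = ENNReal.ofReal 2 ^ n := by simp
          have h2 : ENNReal.ofReal 2 * ENNReal.ofReal (4 * c * t) * (ENNReal.ofReal k *
              ENNReal.ofReal (2 * q ^ j * V)) = ENNReal.ofReal (α j) * ENNReal.ofReal (c * t) := by
            rw [← ENNReal.ofReal_mul (by norm_num), ← ENNReal.ofReal_mul hk.le,
              ← ENNReal.ofReal_mul (by positivity), ← ENNReal.ofReal_mul (by positivity)]
            congr 1
            rw [hα]
            ring
          calc 2 ^ n * ENNReal.ofReal (4 * c * t) ^ n * volume K * (ENNReal.ofReal k ^ n *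
                (ENNReal.ofReal (2 * q ^ j * V) ^ n * volume (ball (0 : E n) 1)))
              = (ENNReal.ofReal 2 * ENNReal.ofReal (4 * c * t) * (ENNReal.ofReal k *
                ENNReal.ofReal (2 * q ^ j * V))) ^ n * volume K * volume (ball (0 : E n) 1) := by
                rw [h1]; ring
            _ = _ := by rw [h2]; ring
      _ = ENNReal.ofReal (α j) ^ n * volume K ^ 2 := by rw [← hvolK]; ring

lemma mor0 (hP : SpecPair) (hT : SpecTel) {k : ℝ} (hk : 0 < k) {L : ℕ} (hL : 1 ≤ L)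
    (hn : 2 ≤ n) {U : Set (E n)} {h g : E n → E n} (H : QCI n k U h g)
    (hI : Im n (2 ^ L) U h) {x₀ : E n} {t : ℝ} (ht : 0 < t)
    (hU : closedBall x₀ (8 * t) ⊆ U) {x₁ x₂ : E n} (hx₁ : x₁ ∈ closedBall x₀ t)
    (hx₂ : x₂ ∈ closedBall x₀ t) :
    dist (h x₁) (h x₂) ≤ 256 * L * k * vr (h '' ball x₀ (8 * t)) := by
  have hn1 : 1 ≤ n := by omega
  set V : ℝ := vr (h '' ball x₀ (8 * t)) with hV
  have hV0 : 0 ≤ V := vr_nonneg _
  set A : ℝ := 64 * L * k * V with hA
  have hA0 : 0 ≤ A := by positivity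
  have h1 := average hP hT hk hL hn H hI ht hU hx₁
  have h2 := average hP hT hk hL hn H hI ht hU hx₂
  rw [← hV, ← hA] at h1 h2
  have hvol0 : volume (closedBall x₀ t) ≠ 0 := (measure_closedBall_pos _ _ ht).ne'
  have hvolt : volume (closedBall x₀ t) ≠ ∞ := measure_closedBall_lt_top.ne
  have hKt : closedBall x₀ t ⊆ U := (closedBall_subset_closedBall (by linarith)).trans hU
  have h3 : ‖h x₁ - h x₂‖ₑ ^ n * volume (closedBall x₀ t) ≤
      ENNReal.ofReal (4 * A) ^ n * volume (closedBall x₀ t) := by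
    calc ‖h x₁ - h x₂‖ₑ ^ n * volume (closedBall x₀ t)
        = ∫⁻ y in closedBall x₀ t, ‖h x₁ - h x₂‖ₑ ^ n := by rw [setLIntegral_const]
      _ ≤ ∫⁻ y in closedBall x₀ t, 2 ^ n * (‖h y - h x₁‖ₑ ^ n + ‖h y - h x₂‖ₑ ^ n) := by
          refine lintegral_mono fun y => ?_
          refine le_trans ?_ (add_pow_le _ _)
          gcongr
          have : h x₁ - h x₂ = -(h y - h x₁) + (h y - h x₂) := by abel
          rw [this]
          refine (enorm_add_le _ _).trans ?_
          rw [enorm_neg]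
      _ = 2 ^ n * ((∫⁻ y in closedBall x₀ t, ‖h y - h x₁‖ₑ ^ n) +
          ∫⁻ y in closedBall x₀ t, ‖h y - h x₂‖ₑ ^ n) := by
          rw [lintegral_const_mul' _ _ (by finiteness), lintegral_add_left']
          have hc : ContinuousOn (fun y => ‖h y - h x₁‖ₑ ^ n) (closedBall x₀ t) := by
            have h5 : ContinuousOn (fun y => h y - h x₁) (closedBall x₀ t) :=
              (H.cont.mono hKt).sub continuousOn_const
            exact (ENNReal.continuous_pow n).comp_continuousOn h5.enorm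
          exact hc.aemeasurable measurableSet_closedBall
      _ ≤ 2 ^ n * (ENNReal.ofReal A ^ n * volume (closedBall x₀ t) +
          ENNReal.ofReal A ^ n * volume (closedBall x₀ t)) := by gcongr
      _ = 2 ^ n * 2 * ENNReal.ofReal A ^ n * volume (closedBall x₀ t) := by ring
      _ ≤ 2 ^ n * 2 ^ n * ENNReal.ofReal A ^ n * volume (closedBall x₀ t) := by
          gcongr
          calc (2 : ℝ≥0∞) = 2 ^ 1 := by simp
            _ ≤ 2 ^ n := by gcongr; exact one_le_two
      _ = ENNReal.ofReal (4 * A) ^ n * volume (closedBall x₀ t) := by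
          have : ENNReal.ofReal (4 * A) = 2 * 2 * ENNReal.ofReal A := by
            rw [ENNReal.ofReal_mul (by norm_num)]
            congr 1
            norm_num
          rw [this, mul_pow, mul_pow]
  rw [ENNReal.mul_le_mul_iff_left hvol0 hvolt, ENNReal.pow_le_pow_left_iff (by omega),
    ← ofReal_norm, ENNReal.ofReal_le_ofReal_iff (by positivity), ← dist_eq_norm] at h3
  refine h3.trans (le_of_eq ?_)
  rw [hA]
  ring

theorem specMor (hP : SpecPair) (hT : SpecTel) (hG : SpecGrow) : SpecMor := by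
  intro k hk
  obtain ⟨M₀, hM₀, hgrow⟩ := hG k hk
  obtain ⟨L, hL⟩ := pow_unbounded_of_one_lt M₀ (by norm_num : (1 : ℝ) < 2)
  have hL1 : 1 ≤ L := by
    rcases Nat.eq_zero_or_pos L with rfl | h
    · simp at hL
      linarith
    · exact h
  have hM : (1 : ℝ) < 2 ^ L := one_lt_pow₀ (by norm_num) (by omega)
  refine ⟨2 ^ L, max 1 (256 * L * k), hM, le_max_left _ _, ?_⟩
  intro n U h g hn H x₀ t ht hU j x₁ hx₁ x₂ hx₂
  have hn1 : 1 ≤ n := by omega
  have hI : Im n (2 ^ L) U h := by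
    intro x s hs hs'
    have h1 : M₀ * s ≤ 2 ^ L * s := by gcongr
    refine ((hgrow n U h g hn H).2.2 x s hs ((closedBall_subset_closedBall h1).trans hs')).trans ?_
    gcongr
  have hj : (0 : ℝ) < (2 ^ L) ^ j := by positivity
  have hsub : ∀ i : ℕ, closedBall x₀ (8 * (t / (2 ^ L) ^ i)) ⊆ U := by
    intro i
    refine (closedBall_subset_closedBall ?_).trans hU
    have : t / (2 ^ L) ^ i ≤ t := div_le_self ht.le (one_le_pow₀ hM.le)
    linarith
  have hdec : ∀ i : ℕ, vr (h '' ball x₀ (8 * (t / (2 ^ L) ^ i))) ≤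
      (1 / 2) ^ i * vr (h '' ball x₀ (8 * t)) := by
    intro i
    induction i with
    | zero => simp
    | succ i ih =>
      have h0 : 0 < t / (2 ^ L : ℝ) ^ (i + 1) := by positivity
      have heq : (2 ^ L : ℝ) * (8 * (t / (2 ^ L) ^ (i + 1))) = 8 * (t / (2 ^ L) ^ i) := by
        rw [pow_succ]
        field_simp
      have h1 := hI.vr hn1 hM H x₀ (s := 8 * (t / (2 ^ L) ^ (i + 1))) (by positivity)
        (by rw [heq]; exact hsub i)
      rw [heq] at h1
      calc vr (h '' ball x₀ (8 * (t / (2 ^ L) ^ (i + 1))))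
          ≤ vr (h '' closedBall x₀ (8 * (t / (2 ^ L) ^ (i + 1)))) :=
            vr_mono (image_mono ball_subset_closedBall)
              (H.volume_image_ne_top subset_rfl (isCompact_closedBall x₀ _) (hsub (i + 1)))
        _ ≤ 1 / 2 * vr (h '' ball x₀ (8 * (t / (2 ^ L) ^ i))) := h1
        _ ≤ 1 / 2 * ((1 / 2) ^ i * vr (h '' ball x₀ (8 * t))) := by gcongr
        _ = _ := by rw [pow_succ]; ring
  have h1 := mor0 hP hT hk hL1 hn H hI (t := t / (2 ^ L) ^ j) (by positivity) (hsub j) hx₁ hx₂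
  have hV0 : 0 ≤ vr (h '' ball x₀ (8 * t)) := vr_nonneg _
  calc dist (h x₁) (h x₂) ≤ 256 * L * k * vr (h '' ball x₀ (8 * (t / (2 ^ L) ^ j))) := h1
    _ ≤ max 1 (256 * L * k) * ((1 / 2) ^ j * vr (h '' ball x₀ (8 * t))) :=
        mul_le_mul (le_max_right _ _) (hdec j) (vr_nonneg _) (by positivity)
    _ = _ := by ring

end Pool.Agent.Lib.MPd8b51b.Mor
end

section
set_option autoImplicit false

/-!
# MP_d8b51b_an, module MORREY2: two-dimensional Morrey inequality, uniform in the exponent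
-/

namespace Pool.Agent.Lib.MPd8b51b

open MeasureTheory Metric Set
open scoped ENNReal

namespace Morrey2

lemma homothety_subset {V : Type} [NormedAddCommGroup V] [NormedSpace ℝ V] {K : Set V}
    (hK : Convex ℝ K) {x : V} (hx : x ∈ K) {r : ℝ} (h0 : 0 ≤ r) (h1 : r ≤ 1) :
    AffineMap.homothety x r '' K ⊆ K := by
  rintro _ ⟨y, hy, rfl⟩
  have h := hK.add_smul_sub_mem hx hy (show r ∈ Icc (0 : ℝ) 1 from ⟨h0, h1⟩)
  rw [AffineMap.homothety_apply]
  simpa [add_comm] using h

lemma ediam_homothety {V : Type} [NormedAddCommGroup V] [NormedSpace ℝ V] (K : Set V)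
    (x : V) {r : ℝ} (h0 : 0 ≤ r) :
    Metric.ediam (AffineMap.homothety x r '' K) ≤ ENNReal.ofReal r * Metric.ediam K := by
  apply Metric.ediam_le
  rintro _ ⟨y, hy, rfl⟩ _ ⟨z, hz, rfl⟩
  have h1 : AffineMap.homothety x r y - AffineMap.homothety x r z = r • (y - z) := by
    rw [AffineMap.homothety_apply, AffineMap.homothety_apply]
    simp only [vsub_eq_sub, vadd_eq_add]
    module
  rw [edist_eq_enorm_sub, h1, enorm_smul, ← edist_eq_enorm_sub, Real.enorm_eq_ofReal h0]
  gcongr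
  exact Metric.edist_le_ediam_of_mem hy hz

/-- the elementary inequality for the exponents -/
lemma real_ineq {D β c : ℝ} (hD : 1 ≤ D) (hβ : 0 ≤ β) (hc : 1 ≤ D * c) (hc0 : 0 < c) {n : ℕ}
    (hn : 3 ≤ n) (j : ℕ) :
    4 * ((1 / 2 : ℝ) ^ j) ^ n * β ^ n ≤
      (8 / 5 * D * β * (4 / 5) ^ j) ^ n * ((1 / 4) ^ j * c) := by
  have e1 : (8 / 5 * D * β * (4 / 5) ^ j : ℝ) =
      (1 / 2) ^ j * β * (D * (8 / 5) ^ (j + 1)) := by
    have : ((4 : ℝ) / 5) ^ j = (8 / 5) ^ j * (1 / 2) ^ j := by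
      rw [← mul_pow]; norm_num
    rw [this]; ring
  have h1 : (1 : ℝ) ≤ (8 / 5) ^ (j + 1) := one_le_pow₀ (by norm_num)
  have h2 : (1 : ℝ) ≤ D * (8 / 5) ^ (j + 1) := by nlinarith
  have h3 : (D * (8 / 5) ^ (j + 1)) ^ 3 ≤ (D * (8 / 5 : ℝ) ^ (j + 1)) ^ n :=
    pow_le_pow_right₀ h2 hn
  have h4 : D * 4 ^ (j + 1) ≤ (D * (8 / 5) ^ (j + 1)) ^ 3 := by
    rw [mul_pow, ← pow_mul, mul_comm (j + 1) 3, pow_mul]
    have h5 : (4 : ℝ) ^ (j + 1) ≤ ((8 / 5) ^ 3) ^ (j + 1) := by gcongr; norm_num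
    have h6 : D ≤ D ^ 3 := by
      have : D ^ 1 ≤ D ^ 3 := pow_le_pow_right₀ hD (by norm_num)
      simpa using this
    calc D * 4 ^ (j + 1) ≤ D ^ 3 * 4 ^ (j + 1) := by gcongr
      _ ≤ _ := by gcongr
  have h7 : 4 ≤ (D * (8 / 5 : ℝ) ^ (j + 1)) ^ n * ((1 / 4) ^ j * c) := by
    calc (4 : ℝ) ≤ 4 * (D * c) := by linarith
      _ = D * 4 ^ (j + 1) * ((1 / 4) ^ j * c) := by
          have : (4 : ℝ) ^ j * (1 / 4) ^ j = 1 := by rw [← mul_pow]; norm_num
          rw [pow_succ]
          linear_combination (-4 * D * c) * this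
      _ ≤ _ := by
          gcongr
          exact h4.trans h3
  rw [e1, mul_pow, mul_pow]
  have h8 : (0 : ℝ) ≤ ((1 / 2) ^ j) ^ n * β ^ n := by positivity
  nlinarith [mul_le_mul_of_nonneg_left h7 h8]

lemma finrank_two : Module.finrank ℝ (ℝ × ℝ) = 2 := by simp

end Morrey2

open Morrey2 in
/-- MORREY2. -/
theorem specMorrey2 (hP : SpecPair) (hT : SpecTel) : SpecMorrey2 := by
  intro c₀ hc₀
  have hD : (1 : ℝ) ≤ max 1 (1 / c₀) := le_max_left _ _
  have hDc : ∀ c : ℝ, c₀ ≤ c → 1 ≤ max 1 (1 / c₀) * c := by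
    intro c hc
    calc (1 : ℝ) = 1 / c₀ * c₀ := by field_simp
      _ ≤ max 1 (1 / c₀) * c := by
          gcongr
          exact le_max_right _ _
  generalize max 1 (1 / c₀) = D at hD hDc
  refine ⟨64 * D, by linarith, ?_⟩
  intro n hn v a b hv hab hab1 x₁ hx₁ x₂ hx₂
  set K : Set (ℝ × ℝ) := Icc (0 : ℝ) 1 ×ˢ Icc a b with hK
  have hba : 0 < b - a := by linarith
  have hKc : IsCompact K := isCompact_Icc.prod isCompact_Icc
  have hKconv : Convex ℝ K := (convex_Icc 0 1).prod (convex_Icc a b)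
  have hvol : volume K = ENNReal.ofReal (b - a) := by
    rw [hK, Measure.volume_eq_prod, Measure.prod_prod, Real.volume_Icc, Real.volume_Icc]
    simp
  have hvol0 : 0 < volume K := by rw [hvol]; exact ENNReal.ofReal_pos.mpr hba
  have hdiam : Metric.ediam K ≤ 1 := by
    apply Metric.ediam_le
    rintro ⟨y1, y2⟩ hy ⟨z1, z2⟩ hz
    simp only [hK, mem_prod, mem_Icc] at hy hz
    rw [Prod.edist_eq, edist_dist, edist_dist, Real.dist_eq, Real.dist_eq]
    apply max_le
    · rw [ENNReal.ofReal_le_one, abs_le]; constructor <;> linarith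
    · rw [ENNReal.ofReal_le_one, abs_le]; constructor <;> linarith
  set I := ∫⁻ x in K, ‖fderiv ℝ v x‖ₑ ^ n with hI
  have hIfin : I ≠ ∞ := by
    have h1 : Continuous fun x => ‖fderiv ℝ v x‖₊ ^ n :=
      ((hv.continuous_fderiv one_ne_zero).nnnorm).pow n
    have h2 := setLIntegral_lt_top_of_isCompact (μ := (volume : Measure (ℝ × ℝ)))
      hKc.measure_lt_top.ne hKc h1
    simp only [ENNReal.coe_pow] at h2
    exact h2.ne
  have hn0 : (n : ℝ) ≠ 0 := by positivity
  set β : ℝ := I.toReal ^ (1 / (n : ℝ)) with hβ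
  have hβ0 : 0 ≤ β := by positivity
  have hβn : β ^ n = I.toReal := by
    rw [hβ, ← Real.rpow_natCast, ← Real.rpow_mul ENNReal.toReal_nonneg, one_div,
      inv_mul_cancel₀ hn0, Real.rpow_one]
  have hIβ : I = ENNReal.ofReal (β ^ n) := by rw [hβn, ENNReal.ofReal_toReal hIfin]
  have key : ∀ x ∈ K, ∫⁻ y in K, ‖v y - v x‖ₑ ^ n ≤
      ENNReal.ofReal (16 * D * β) ^ n * volume K := by
    intro x hx
    have hsum : HasSum (fun j : ℕ => 8 / 5 * D * β * (4 / 5 : ℝ) ^ j) (8 * D * β) := by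
      have h := (hasSum_geometric_of_lt_one (r := (4 / 5 : ℝ)) (by norm_num)
        (by norm_num)).mul_left (8 / 5 * D * β)
      rwa [show ((1 : ℝ) - 4 / 5)⁻¹ = 5 by norm_num,
        show 8 / 5 * D * β * 5 = 8 * D * β by ring] at h
    have h := hT (ℝ × ℝ) volume ℝ K v n x (fun j : ℕ => 8 / 5 * D * β * (4 / 5 : ℝ) ^ j)
      (by omega) (by rw [finrank_two]; omega) hKconv hKc hvol0 hx
      hv.continuous.continuousOn (fun j => by positivity) hsum.summable ?_
    · rw [hsum.tsum_eq, show 2 * (8 * D * β) = 16 * D * β by ring] at h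
      exact h
    · intro j
      have hr0 : (0 : ℝ) ≤ (1 / 2) ^ j := by positivity
      have hr1 : ((1 : ℝ) / 2) ^ j ≤ 1 := pow_le_one₀ (by norm_num) (by norm_num)
      set Kj : Set (ℝ × ℝ) := AffineMap.homothety x ((1 / 2 : ℝ) ^ j) '' K with hKj
      have hKjc : IsCompact Kj := hKc.image (AffineMap.homothety_continuous _ _)
      have hKjconv : Convex ℝ Kj := hKconv.affine_image _
      have hKjK : Kj ⊆ K := homothety_subset hKconv hx hr0 hr1
      have hvolj : volume Kj = ENNReal.ofReal ((1 / 4) ^ j * (b - a)) := by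
        rw [hKj, Measure.addHaar_image_homothety, finrank_two, hvol, ← ENNReal.ofReal_mul
          (abs_nonneg _), abs_of_nonneg (by positivity)]
        congr 2
        rw [← pow_mul, mul_comm j 2, pow_mul]
        norm_num
      have hdj : Metric.ediam Kj ≤ ENNReal.ofReal ((1 / 2) ^ j) := by
        refine (ediam_homothety K x hr0).trans ?_
        calc _ ≤ ENNReal.ofReal ((1 / 2) ^ j) * 1 := by gcongr
          _ = _ := mul_one _
      have h1 := hP (ℝ × ℝ) volume ℝ Kj v n (by omega) hKjconv hKjc hv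
      refine h1.trans ?_
      rw [finrank_two, sq (volume Kj), ← mul_assoc]
      have h2 : (2 : ℝ≥0∞) ^ 2 * Metric.ediam Kj ^ n * volume Kj *
          ∫⁻ x in Kj, ‖fderiv ℝ v x‖ₑ ^ n ≤
          (4 * ENNReal.ofReal ((1 / 2) ^ j) ^ n * I) * volume Kj := by
        calc (2 : ℝ≥0∞) ^ 2 * Metric.ediam Kj ^ n * volume Kj *
            ∫⁻ x in Kj, ‖fderiv ℝ v x‖ₑ ^ n ≤
            (2 : ℝ≥0∞) ^ 2 * ENNReal.ofReal ((1 / 2) ^ j) ^ n * volume Kj * I := by
              gcongr
              exact lintegral_mono_set hKjK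
          _ = _ := by
              norm_num
              ring
      refine h2.trans ?_
      gcongr ?_ * volume Kj
      rw [hIβ, hvolj, ← ENNReal.ofReal_pow hr0, ← ENNReal.ofReal_pow (by positivity),
        show (4 : ℝ≥0∞) = ENNReal.ofReal 4 by simp, ← ENNReal.ofReal_mul (by norm_num),
        ← ENNReal.ofReal_mul (by positivity), ← ENNReal.ofReal_mul (by positivity)]
      exact ENNReal.ofReal_le_ofReal (real_ineq hD hβ0 (hDc _ hab) hba hn j)
  -- conclusion
  have hfin : volume K ≠ ∞ := hKc.measure_lt_top.ne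
  have hmeas : ∀ x : ℝ × ℝ, Measurable fun y => ‖v y - v x‖ₑ ^ n := fun x =>
    (hv.continuous.sub continuous_const).enorm.measurable.pow_const n
  have h1 : ENNReal.ofReal |v x₁ - v x₂| ^ n * volume K ≤
      (2 : ℝ≥0∞) ^ n * (ENNReal.ofReal (16 * D * β) ^ n * volume K +
        ENNReal.ofReal (16 * D * β) ^ n * volume K) := by
    calc ENNReal.ofReal |v x₁ - v x₂| ^ n * volume K
        = ∫⁻ y in K, ENNReal.ofReal |v x₁ - v x₂| ^ n := by
          rw [setLIntegral_const]
      _ ≤ ∫⁻ y in K, (2 : ℝ≥0∞) ^ n * (‖v y - v x₁‖ₑ ^ n + ‖v y - v x₂‖ₑ ^ n) := by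
          apply lintegral_mono
          intro y
          have h2 : ENNReal.ofReal |v x₁ - v x₂| ≤ ‖v y - v x₁‖ₑ + ‖v y - v x₂‖ₑ := by
            rw [← Real.norm_eq_abs, ofReal_norm]
            calc ‖v x₁ - v x₂‖ₑ = ‖(v x₁ - v y) + (v y - v x₂)‖ₑ := by congr 1; ring
              _ ≤ ‖v x₁ - v y‖ₑ + ‖v y - v x₂‖ₑ := enorm_add_le _ _
              _ = _ := by rw [← enorm_neg (v x₁ - v y), neg_sub]
          calc ENNReal.ofReal |v x₁ - v x₂| ^ n
              ≤ (‖v y - v x₁‖ₑ + ‖v y - v x₂‖ₑ) ^ n := by gcongr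
            _ ≤ (2 * max ‖v y - v x₁‖ₑ ‖v y - v x₂‖ₑ) ^ n := by
                gcongr
                rw [two_mul]
                exact add_le_add (le_max_left _ _) (le_max_right _ _)
            _ = 2 ^ n * max ‖v y - v x₁‖ₑ ‖v y - v x₂‖ₑ ^ n := mul_pow _ _ _
            _ ≤ 2 ^ n * (‖v y - v x₁‖ₑ ^ n + ‖v y - v x₂‖ₑ ^ n) := by
                gcongr
                rcases le_total ‖v y - v x₁‖ₑ ‖v y - v x₂‖ₑ with h | h
                · rw [max_eq_right h]; exact le_add_self
                · rw [max_eq_left h]; exact le_self_add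
      _ = (2 : ℝ≥0∞) ^ n * ((∫⁻ y in K, ‖v y - v x₁‖ₑ ^ n) +
            (∫⁻ y in K, ‖v y - v x₂‖ₑ ^ n)) := by
          rw [lintegral_const_mul' _ _ (by finiteness), lintegral_add_left (hmeas x₁)]
      _ ≤ _ := by
          gcongr
          · exact key x₁ hx₁
          · exact key x₂ hx₂
  have h2 : ENNReal.ofReal |v x₁ - v x₂| ^ n * volume K ≤
      (ENNReal.ofReal (64 * D) ^ n * I) * volume K := by
    refine h1.trans ?_
    rw [← two_mul, ← mul_assoc, ← mul_assoc]
    gcongr ?_ * volume K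
    have e1 : (64 * D * β : ℝ) = 4 * (16 * D * β) := by ring
    have hD0 : 0 ≤ 64 * D := by linarith
    rw [hIβ, ENNReal.ofReal_pow hβ0, ← mul_pow (ENNReal.ofReal (64 * D)),
      ← ENNReal.ofReal_mul hD0, e1, ENNReal.ofReal_mul (p := 4) (by norm_num),
      mul_pow (ENNReal.ofReal 4)]
    refine mul_le_mul_left ?_ _
    rw [show (2 : ℝ≥0∞) ^ n * 2 = 2 ^ (n + 1) by rw [pow_succ],
      show ENNReal.ofReal 4 = (2 : ℝ≥0∞) ^ 2 by norm_num, ← pow_mul]
    exact pow_le_pow_right₀ (by norm_num) (by omega)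
  exact (ENNReal.mul_le_mul_iff_left hvol0.ne' hfin).mp h2

end Pool.Agent.Lib.MPd8b51b
end

section
set_option autoImplicit false

/-!
# MP_d8b51b_an: NEST (nested decay, Vitali covering)
-/

namespace Pool.Agent.Lib.MPd8b51b

open MeasureTheory Metric Set Filter Topology
open scoped ENNReal

namespace Nest

variable {n : ℕ}

/-- `closedBall c ρ ∩ closedBall x (2t)` contains a closed ball of radius `t` -/
lemma fat {c x : E n} {ρ t : ℝ} (hx : x ∈ closedBall c ρ) (ht : 0 < t) (htρ : t ≤ ρ) :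
    ∃ z : E n, closedBall z t ⊆ closedBall c ρ ∩ closedBall x (2 * t) := by
  rw [mem_closedBall] at hx
  rcases le_or_gt (dist x c) t with hd | hd
  · refine ⟨c, subset_inter (closedBall_subset_closedBall htρ) ?_⟩
    refine closedBall_subset_closedBall' ?_
    rw [dist_comm]
    linarith
  · have hd0 : 0 < dist x c := ht.trans hd
    set z : E n := x + (t / dist x c) • (c - x) with hz
    have h1 : dist z x = t := by
      rw [hz, dist_eq_norm, add_sub_cancel_left, norm_smul, ← dist_eq_norm, dist_comm c x,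
        Real.norm_of_nonneg (by positivity)]
      field_simp
    have h2 : dist z c = dist x c - t := by
      have h3 : z - c = (1 - t / dist x c) • (x - c) := by
        rw [hz]
        module
      have h4 : 0 ≤ 1 - t / dist x c := by
        rw [sub_nonneg, div_le_one hd0]
        exact hd.le
      rw [dist_eq_norm, h3, norm_smul, Real.norm_of_nonneg h4, ← dist_eq_norm]
      field_simp
    refine ⟨z, subset_inter (closedBall_subset_closedBall' ?_) (closedBall_subset_closedBall' ?_)⟩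
    · rw [h2]
      linarith
    · rw [h1]
      linarith

lemma vol_fat {c x : E n} {ρ t : ℝ} (hx : x ∈ closedBall c ρ) (ht : 0 < t) (htρ : t ≤ ρ) :
    ENNReal.ofReal t ^ n * volume (ball (0 : E n) 1) ≤
      volume (closedBall c ρ ∩ closedBall x (2 * t)) := by
  obtain ⟨z, hz⟩ := fat hx ht htρ
  rw [← vol_closedBall z ht]
  exact measure_mono hz

/-- stopping time: choice of the scale -/
lemma scale {c : E n} {ρ : ℝ} (hρ : 0 < ρ) {S : Set (E n)} (hS : S ⊆ closedBall c ρ)
    (hop : ∀ x ∈ S, ∃ δ > 0, closedBall c ρ ∩ closedBall x δ ⊆ S)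
    (hhalf : volume S ≤ volume (closedBall c ρ) / 2) {x : E n} (hx : x ∈ S) :
    ∃ t : ℝ, 0 < t ∧ t ≤ ρ ∧
      volume (closedBall c ρ ∩ closedBall x t) ≤ 2 * volume (S ∩ closedBall x t) ∧
      2 * volume (S ∩ closedBall x (2 * t)) ≤ volume (closedBall c ρ ∩ closedBall x (2 * t)) := by
  classical
  have hex : ∃ j : ℕ, volume (closedBall c ρ ∩ closedBall x (ρ / 2 ^ j)) ≤
      2 * volume (S ∩ closedBall x (ρ / 2 ^ j)) := by
    obtain ⟨δ, hδ, hsub⟩ := hop x hx
    obtain ⟨j, hj⟩ := exists_pow_lt_of_lt_one (div_pos hδ hρ) (by norm_num : (1 / 2 : ℝ) < 1)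
    refine ⟨j, ?_⟩
    have h1 : ρ / 2 ^ j ≤ δ := by
      rw [one_div, inv_pow] at hj
      have h2 := (lt_div_iff₀ hρ).1 hj
      rw [div_eq_inv_mul]
      exact h2.le
    have h3 : closedBall c ρ ∩ closedBall x (ρ / 2 ^ j) ⊆ S ∩ closedBall x (ρ / 2 ^ j) := by
      intro y hy
      exact ⟨hsub ⟨hy.1, closedBall_subset_closedBall h1 hy.2⟩, hy.2⟩
    calc volume (closedBall c ρ ∩ closedBall x (ρ / 2 ^ j))
        ≤ volume (S ∩ closedBall x (ρ / 2 ^ j)) := measure_mono h3
      _ ≤ 2 * volume (S ∩ closedBall x (ρ / 2 ^ j)) := le_mul_of_one_le_left zero_le (by norm_num)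
  set j := Nat.find hex with hj
  have hjs := Nat.find_spec hex
  rw [← hj] at hjs
  refine ⟨ρ / 2 ^ j, by positivity, div_le_self hρ.le (one_le_pow₀ (by norm_num)), hjs, ?_⟩
  rcases Nat.eq_zero_or_pos j with h0 | hpos
  · rw [h0]
    have h1 : closedBall c ρ ⊆ closedBall x (2 * (ρ / 2 ^ 0)) := by
      refine closedBall_subset_closedBall' ?_
      have := hS hx
      rw [mem_closedBall, dist_comm] at this
      rw [pow_zero]
      linarith
    rw [inter_eq_left.2 (hS.trans h1), inter_eq_left.2 h1]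
    calc 2 * volume S ≤ 2 * (volume (closedBall c ρ) / 2) := by gcongr
      _ = volume (closedBall c ρ) := by
        rw [ENNReal.mul_div_cancel (by norm_num) (by norm_num)]
  · obtain ⟨i, hi⟩ : ∃ i, j = i + 1 := ⟨j - 1, by omega⟩
    have h1 := Nat.find_min hex (m := i) (by omega)
    rw [not_le] at h1
    have h2 : 2 * (ρ / 2 ^ j) = ρ / 2 ^ i := by
      rw [hi, pow_succ]
      field_simp
    rw [h2]
    exact h1.le

lemma meas_pos {c : E n} {ρ : ℝ} {v : E n → ℝ} (hv : ContinuousOn v (closedBall c ρ)) :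
    MeasurableSet {y ∈ closedBall c ρ | 0 < v y} := by
  obtain ⟨u', hu, hu2⟩ := (_root_.continuousOn_iff'.1 hv) (Ioi 0) isOpen_Ioi
  have : {y ∈ closedBall c ρ | 0 < v y} = u' ∩ closedBall c ρ := by
    rw [← hu2]
    ext y
    simp only [mem_ofPred_eq, mem_inter_iff, mem_preimage, mem_Ioi]
    tauto
  rw [this]
  exact hu.measurableSet.inter isClosed_closedBall.measurableSet

/-- the local estimate on one Vitali ball -/
lemma loc (hP : SpecPair) (hn : 1 ≤ n) {c x : E n} {ρ t : ℝ}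
    {v w : E n → ℝ} {e : ℝ≥0∞} {ε : ℝ} (hε : 0 < ε) (hε2 : ε < 1 / 2)
    (hv : ContinuousOn v (closedBall c ρ)) (hw : ContDiff ℝ 1 w)
    (hwv : ∀ y ∈ closedBall c ρ, |w y - v y| ≤ ε)
    (hwe : ∫⁻ y in closedBall c ρ, ‖fderiv ℝ w y‖ₑ ^ n ≤ e)
    (hx : x ∈ closedBall c ρ) (ht : 0 < t) (htρ : t ≤ ρ)
    (hA : volume (closedBall c ρ ∩ closedBall x t) ≤
      2 * volume ({y ∈ closedBall c ρ | 0 < v y} ∩ closedBall x t))
    (hB : 2 * volume ({y ∈ closedBall c ρ | 0 < v y} ∩ closedBall x (2 * t)) ≤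
      volume (closedBall c ρ ∩ closedBall x (2 * t))) :
    ENNReal.ofReal (1 - 2 * ε) ^ n * (volume (ball (0 : E n) 1) *
      volume ({y ∈ closedBall c ρ | 1 ≤ v y} ∩ closedBall x (5 * t))) ≤
      4 * 200 ^ n * e * volume ({y ∈ closedBall c ρ | 0 < v y} ∩ closedBall x t) := by
  set K := closedBall c ρ with hK
  set S := {y ∈ K | 0 < v y} with hS
  set w₀ := volume (ball (0 : E n) 1) with hw₀
  have hw₀0 : w₀ ≠ 0 := wn_ne_zero n
  have hw₀t : w₀ ≠ ∞ := wn_ne_top n
  have hKc : IsCompact K := isCompact_closedBall c ρ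
  have hSm : MeasurableSet S := meas_pos hv
  set Ki := K ∩ closedBall x (5 * t) with hKi
  set P := {y ∈ K | 1 ≤ v y} ∩ closedBall x (5 * t) with hP'
  set Q := (K ∩ closedBall x (2 * t)) \ S with hQ
  have hKic : IsCompact Ki := hKc.inter_right isClosed_closedBall
  have hPm : MeasurableSet P := by
    obtain ⟨u, hu, hu2⟩ := (continuousOn_iff_isClosed.1 hv) (Ici 1) isClosed_Ici
    have : {y ∈ K | 1 ≤ v y} = u ∩ K := by
      rw [← hu2]
      ext y
      simp only [mem_ofPred_eq, mem_inter_iff, mem_preimage, mem_Ici]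
      tauto
    rw [hP', this]
    exact (hu.measurableSet.inter hKc.isClosed.measurableSet).inter
      isClosed_closedBall.measurableSet
  have hQm : MeasurableSet Q :=
    (hKc.isClosed.measurableSet.inter isClosed_closedBall.measurableSet).diff hSm
  have hPK : P ⊆ Ki := fun y hy => ⟨hy.1.1, hy.2⟩
  have hQK : Q ⊆ Ki := fun y hy =>
    ⟨hy.1.1, closedBall_subset_closedBall (by linarith) hy.1.2⟩
  -- measure of `Q`
  have hfin : volume (K ∩ closedBall x (2 * t)) ≠ ∞ :=
    ((measure_mono inter_subset_left).trans_lt hKc.measure_lt_top).ne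
  have hQ1 : volume (K ∩ closedBall x (2 * t)) ≤ 2 * volume Q := by
    have h1 : volume (K ∩ closedBall x (2 * t)) = volume Q +
        volume (S ∩ closedBall x (2 * t)) := by
      rw [← measure_sdiff_add_inter (K ∩ closedBall x (2 * t)) hSm]
      congr 2
      ext y
      simp only [mem_inter_iff, hS, mem_ofPred_eq]
      tauto
    have hf2 : volume (S ∩ closedBall x (2 * t)) ≠ ∞ := by
      refine ((measure_mono ?_).trans_lt hfin.lt_top).ne
      exact inter_subset_inter_left _ (fun y hy => hy.1)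
    have h2 : volume (K ∩ closedBall x (2 * t)) + volume (K ∩ closedBall x (2 * t)) ≤
        2 * volume Q + volume (K ∩ closedBall x (2 * t)) := by
      calc volume (K ∩ closedBall x (2 * t)) + volume (K ∩ closedBall x (2 * t))
          = 2 * volume Q + 2 * volume (S ∩ closedBall x (2 * t)) := by
            rw [← two_mul]
            nth_rewrite 1 [h1]
            rw [mul_add]
        _ ≤ 2 * volume Q + volume (K ∩ closedBall x (2 * t)) := by gcongr
    exact (ENNReal.add_le_add_iff_right hfin).1 h2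
  have hQ2 : ENNReal.ofReal t ^ n * w₀ ≤ 2 * volume Q := (vol_fat hx ht htρ).trans hQ1
  -- measure of `S ∩ closedBall x t`
  have hS2 : ENNReal.ofReal t ^ n * w₀ ≤ 2 ^ n * (2 * volume (S ∩ closedBall x t)) := by
    have h1 := vol_fat hx (half_pos ht) (by linarith : t / 2 ≤ ρ)
    rw [mul_div_cancel₀ t (by norm_num : (2 : ℝ) ≠ 0)] at h1
    calc ENNReal.ofReal t ^ n * w₀ = 2 ^ n * (ENNReal.ofReal (t / 2) ^ n * w₀) := by
          rw [← mul_assoc, ← mul_pow]
          congr 2
          rw [← ENNReal.ofReal_ofNat 2, ← ENNReal.ofReal_mul (by norm_num)]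
          congr 1
          ring
      _ ≤ 2 ^ n * volume (K ∩ closedBall x t) := by gcongr
      _ ≤ 2 ^ n * (2 * volume (S ∩ closedBall x t)) := by gcongr
  -- PAIR
  have hpair := hP (E n) volume ℝ Ki w n hn ((convex_closedBall c ρ).inter (convex_closedBall _ _))
    hKic hw
  rw [finrank_euclideanSpace, Fintype.card_fin] at hpair
  have hlow : ENNReal.ofReal (1 - 2 * ε) ^ n * (volume P * volume Q) ≤
      ∫⁻ y in Ki, (∫⁻ z in Ki, ‖w y - w z‖ₑ ^ n) := by
    have h1 : ∀ y ∈ P, ENNReal.ofReal (1 - 2 * ε) ^ n * volume Q ≤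
        ∫⁻ z in Ki, ‖w y - w z‖ₑ ^ n := by
      intro y hy
      calc ENNReal.ofReal (1 - 2 * ε) ^ n * volume Q
          = ∫⁻ _ in Q, ENNReal.ofReal (1 - 2 * ε) ^ n := by rw [setLIntegral_const]
        _ ≤ ∫⁻ z in Q, ‖w y - w z‖ₑ ^ n := by
          refine setLIntegral_mono' hQm fun z hz => ?_
          refine pow_le_pow_left' ?_ n
          rw [Real.enorm_eq_ofReal_abs]
          refine ENNReal.ofReal_le_ofReal ?_
          have h2 := hwv y (hPK hy).1
          have h3 := hwv z (hQK hz).1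
          have h4 : 1 ≤ v y := hy.1.2
          have h5 : v z ≤ 0 := by
            by_contra h6
            exact hz.2 ⟨hz.1.1, not_le.1 h6⟩
          have h7 := abs_le.1 h2
          have h8 := abs_le.1 h3
          refine le_trans ?_ (le_abs_self _)
          linarith [h7.1, h8.2]
        _ ≤ ∫⁻ z in Ki, ‖w y - w z‖ₑ ^ n := lintegral_mono_set hQK
    calc ENNReal.ofReal (1 - 2 * ε) ^ n * (volume P * volume Q)
        = ∫⁻ _ in P, ENNReal.ofReal (1 - 2 * ε) ^ n * volume Q := by
          rw [setLIntegral_const]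
          ring
      _ ≤ ∫⁻ y in P, (∫⁻ z in Ki, ‖w y - w z‖ₑ ^ n) := setLIntegral_mono' hPm h1
      _ ≤ ∫⁻ y in Ki, (∫⁻ z in Ki, ‖w y - w z‖ₑ ^ n) := lintegral_mono_set hPK
  have hdiam : Metric.ediam Ki ≤ ENNReal.ofReal (10 * t) := by
    calc Metric.ediam Ki ≤ Metric.ediam (closedBall x (5 * t)) :=
          Metric.ediam_mono inter_subset_right
      _ ≤ 2 * ENNReal.ofReal (5 * t) := by
        rw [← Metric.closedEBall_ofReal (by linarith : (0 : ℝ) ≤ 5 * t)]
        exact Metric.ediam_closedEBall_le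
      _ = ENNReal.ofReal (10 * t) := by
        rw [← ENNReal.ofReal_ofNat 2, ← ENNReal.ofReal_mul (by norm_num)]
        congr 1
        ring
  have hvol : volume Ki ≤ ENNReal.ofReal (5 * t) ^ n * w₀ := by
    rw [← vol_closedBall x (by linarith : (0 : ℝ) < 5 * t)]
    exact measure_mono inter_subset_right
  have hup : ENNReal.ofReal (1 - 2 * ε) ^ n * (volume P * volume Q) ≤
      100 ^ n * ENNReal.ofReal t ^ n * (ENNReal.ofReal t ^ n * w₀) * e := by
    refine hlow.trans (hpair.trans ?_)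
    calc 2 ^ n * Metric.ediam Ki ^ n * volume Ki * ∫⁻ y in Ki, ‖fderiv ℝ w y‖ₑ ^ n
        ≤ 2 ^ n * ENNReal.ofReal (10 * t) ^ n * (ENNReal.ofReal (5 * t) ^ n * w₀) * e := by
          gcongr
          exact (lintegral_mono_set inter_subset_left).trans hwe
      _ = 100 ^ n * ENNReal.ofReal t ^ n * (ENNReal.ofReal t ^ n * w₀) * e := by
        rw [ENNReal.ofReal_mul (by norm_num), ENNReal.ofReal_mul (by norm_num),
          ENNReal.ofReal_ofNat, ENNReal.ofReal_ofNat, mul_pow, mul_pow,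
          show (100 : ℝ≥0∞) = 2 * 10 * 5 by norm_num, mul_pow, mul_pow]
        ring
  -- conclusion
  have htn0 : ENNReal.ofReal t ^ n * w₀ ≠ 0 :=
    mul_ne_zero (pow_ne_zero _ (by simpa using ht)) hw₀0
  have htnt : ENNReal.ofReal t ^ n * w₀ ≠ ∞ := ENNReal.mul_ne_top (by finiteness) hw₀t
  have h1 : ENNReal.ofReal (1 - 2 * ε) ^ n * volume P * (ENNReal.ofReal t ^ n * w₀) ≤
      2 * 100 ^ n * ENNReal.ofReal t ^ n * e * (ENNReal.ofReal t ^ n * w₀) := by
    calc ENNReal.ofReal (1 - 2 * ε) ^ n * volume P * (ENNReal.ofReal t ^ n * w₀)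
        ≤ ENNReal.ofReal (1 - 2 * ε) ^ n * volume P * (2 * volume Q) := by gcongr
      _ = 2 * (ENNReal.ofReal (1 - 2 * ε) ^ n * (volume P * volume Q)) := by ring
      _ ≤ 2 * (100 ^ n * ENNReal.ofReal t ^ n * (ENNReal.ofReal t ^ n * w₀) * e) := by gcongr
      _ = _ := by ring
  have h2 : ENNReal.ofReal (1 - 2 * ε) ^ n * volume P ≤
      2 * 100 ^ n * ENNReal.ofReal t ^ n * e :=
    (ENNReal.mul_le_mul_iff_left htn0 htnt).1 h1
  calc ENNReal.ofReal (1 - 2 * ε) ^ n * (w₀ * volume P)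
      = (ENNReal.ofReal (1 - 2 * ε) ^ n * volume P) * w₀ := by ring
    _ ≤ (2 * 100 ^ n * ENNReal.ofReal t ^ n * e) * w₀ := by gcongr
    _ = 2 * 100 ^ n * e * (ENNReal.ofReal t ^ n * w₀) := by ring
    _ ≤ 2 * 100 ^ n * e * (2 ^ n * (2 * volume (S ∩ closedBall x t))) := by gcongr
    _ = 4 * 200 ^ n * e * volume (S ∩ closedBall x t) := by
      rw [show (200 : ℝ≥0∞) = 100 * 2 by norm_num, mul_pow]
      ring

end Nest

theorem specNest (hP : SpecPair) : SpecNest := by
  intro n hn c ρ hρ v e hv hE hhalf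
  set K := closedBall c ρ with hK
  set S := {y ∈ K | 0 < v y} with hS
  have hKc : IsCompact K := isCompact_closedBall c ρ
  have hSK : S ⊆ K := fun y hy => hy.1
  have hSt : volume S ≠ ∞ := ((measure_mono hSK).trans_lt hKc.measure_lt_top).ne
  have hop : ∀ x ∈ S, ∃ δ > 0, closedBall c ρ ∩ closedBall x δ ⊆ S := by
    intro x hx
    have h1 : ∀ᶠ y in 𝓝[K] x, 0 < v y := (hv x hx.1).eventually (lt_mem_nhds hx.2)
    rw [eventually_nhdsWithin_iff, Metric.eventually_nhds_iff] at h1
    obtain ⟨δ, hδ, h2⟩ := h1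
    refine ⟨δ / 2, half_pos hδ, fun y hy => ⟨hy.1, h2 ?_ hy.1⟩⟩
    have := hy.2
    rw [mem_closedBall] at this
    linarith
  choose! T hT0 hTρ hTA hTB using fun x (hx : x ∈ S) => Nest.scale hρ hSK hop hhalf hx
  obtain ⟨u, huS, hdisj, hcov⟩ := Vitali.exists_disjoint_subfamily_covering_enlargement_closedBall
    S (fun x => x) T ρ (fun a ha => hTρ a ha) 5 (by norm_num)
  have hcount : u.Countable := by
    refine hdisj.countable_of_nonempty_interior fun a ha => ?_
    refine ⟨a, ?_⟩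
    refine mem_interior_iff_mem_nhds.2 (closedBall_mem_nhds a (hT0 a (huS ha)))
  have hSm : MeasurableSet S := Nest.meas_pos hv
  -- the estimate for each `ε`
  have main : ∀ ε : ℝ, 0 < ε → ε < 1 / 2 →
      ENNReal.ofReal (1 - 2 * ε) ^ n * (volume (ball (0 : E n) 1) *
        volume {x ∈ K | 1 ≤ v x}) ≤ 1600 ^ n * (e + ENNReal.ofReal ε) * volume S := by
    intro ε hε hε2
    obtain ⟨w, hw, hwv, hwe⟩ := hE ε hε
    have hsub : {x ∈ K | 1 ≤ v x} ⊆ ⋃ a ∈ u, ({y ∈ K | 1 ≤ v y} ∩ closedBall a (5 * T a)) := by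
      intro y hy
      have hyS : y ∈ S := ⟨hy.1, lt_of_lt_of_le one_pos hy.2⟩
      obtain ⟨b, hb, hb2⟩ := hcov y hyS
      refine mem_biUnion hb ⟨hy, hb2 (mem_closedBall_self (hT0 y hyS).le)⟩
    calc ENNReal.ofReal (1 - 2 * ε) ^ n * (volume (ball (0 : E n) 1) * volume {x ∈ K | 1 ≤ v x})
        ≤ ENNReal.ofReal (1 - 2 * ε) ^ n * (volume (ball (0 : E n) 1) *
          ∑' a : u, volume ({y ∈ K | 1 ≤ v y} ∩ closedBall (a : E n) (5 * T a))) := by
          gcongr
          refine (measure_mono hsub).trans ?_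
          exact measure_biUnion_le _ hcount _
      _ = ∑' a : u, ENNReal.ofReal (1 - 2 * ε) ^ n * (volume (ball (0 : E n) 1) *
          volume ({y ∈ K | 1 ≤ v y} ∩ closedBall (a : E n) (5 * T a))) := by
          rw [← ENNReal.tsum_mul_left, ← ENNReal.tsum_mul_left]
      _ ≤ ∑' a : u, 4 * 200 ^ n * (e + ENNReal.ofReal ε) *
          volume (S ∩ closedBall (a : E n) (T a)) := by
          refine ENNReal.tsum_le_tsum fun a => ?_
          exact Nest.loc hP hn hε hε2 hv hw hwv hwe (huS a.2).1 (hT0 _ (huS a.2))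
            (hTρ _ (huS a.2)) (hTA _ (huS a.2)) (hTB _ (huS a.2))
      _ = 4 * 200 ^ n * (e + ENNReal.ofReal ε) *
          ∑' a : u, volume (S ∩ closedBall (a : E n) (T a)) := by
          rw [ENNReal.tsum_mul_left]
      _ ≤ 4 * 200 ^ n * (e + ENNReal.ofReal ε) * volume S := by
          gcongr
          rw [← measure_biUnion (s := u) (f := fun a => S ∩ closedBall a (T a)) hcount]
          · exact measure_mono (iUnion₂_subset fun a _ => inter_subset_left)
          · intro a ha b hb hab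
            exact (hdisj ha hb hab).mono inter_subset_right inter_subset_right
          · intro a _
            exact hSm.inter isClosed_closedBall.measurableSet
      _ ≤ 1600 ^ n * (e + ENNReal.ofReal ε) * volume S := by
          gcongr
          have h4 : (4 : ℝ≥0∞) ≤ 8 ^ n := by
            calc (4 : ℝ≥0∞) ≤ 8 ^ 1 := by norm_num
              _ ≤ 8 ^ n := pow_le_pow_right₀ (by norm_num) hn
          calc (4 : ℝ≥0∞) * 200 ^ n ≤ 8 ^ n * 200 ^ n := by gcongr
            _ = 1600 ^ n := by rw [← mul_pow]; norm_num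
  -- limit
  have hfin : volume (ball (0 : E n) 1) * volume {x ∈ K | 1 ≤ v x} ≠ ∞ := by
    refine ENNReal.mul_ne_top (wn_ne_top n) ?_
    exact ((measure_mono (fun y hy => hy.1)).trans_lt hKc.measure_lt_top).ne
  have hl1 : Tendsto (fun ε : ℝ => ENNReal.ofReal (1 - 2 * ε) ^ n *
      (volume (ball (0 : E n) 1) * volume {x ∈ K | 1 ≤ v x})) (𝓝[>] 0)
      (𝓝 (1 * (volume (ball (0 : E n) 1) * volume {x ∈ K | 1 ≤ v x}))) := by
    refine ENNReal.Tendsto.mul_const ?_ (Or.inr hfin)
    have h1 : Tendsto (fun ε : ℝ => 1 - 2 * ε) (𝓝[>] 0) (𝓝 1) := by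
      have : Tendsto (fun ε : ℝ => 1 - 2 * ε) (𝓝 0) (𝓝 (1 - 2 * 0)) :=
        (continuous_const.sub (continuous_const.mul continuous_id)).tendsto 0
      rw [mul_zero, sub_zero] at this
      exact this.mono_left nhdsWithin_le_nhds
    have h2 := (ENNReal.continuous_ofReal.tendsto 1).comp h1
    rw [ENNReal.ofReal_one] at h2
    have h3 := (ENNReal.continuous_pow n).tendsto 1
    rw [one_pow] at h3
    exact h3.comp h2
  have hl2 : Tendsto (fun ε : ℝ => 1600 ^ n * (e + ENNReal.ofReal ε) * volume S) (𝓝[>] 0)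
      (𝓝 (1600 ^ n * (e + 0) * volume S)) := by
    refine ENNReal.Tendsto.mul_const ?_ (Or.inr hSt)
    refine ENNReal.Tendsto.const_mul ?_ (Or.inr (by finiteness))
    refine tendsto_const_nhds.add ?_
    have h2 := (ENNReal.continuous_ofReal.tendsto 0)
    rw [ENNReal.ofReal_zero] at h2
    exact h2.mono_left nhdsWithin_le_nhds
  rw [one_mul] at hl1
  rw [add_zero] at hl2
  refine le_of_tendsto_of_tendsto hl1 hl2 ?_
  have h3 : ∀ᶠ ε : ℝ in 𝓝[>] 0, ε < 1 / 2 :=
    nhdsWithin_le_nhds (Iio_mem_nhds (by norm_num))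
  filter_upwards [h3, self_mem_nhdsWithin] with ε h1 h2
  exact main ε h2 h1

end Pool.Agent.Lib.MPd8b51b
end

section
set_option autoImplicit false

/-!
# MP_d8b51b_an: VOL (the volume of the image is controlled by the typical size)
-/

namespace Pool.Agent.Lib.MPd8b51b

open MeasureTheory Metric Set Filter Topology
open scoped ENNReal

namespace Vol

variable {n : ℕ}

/-- one step of the iteration -/
lemma step (hN : SpecNest) (hLin : SpecLin) (hExt : SpecExt) (hn : 2 ≤ n) {k : ℝ} (hk : 0 < k)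
    {U : Set (E n)} {h g : E n → E n} (H : QCI n k U h g) {δ M₁ : ℝ} (hδ : 0 < δ) (hM₁ : 1 < M₁)
    (hlog : ∀ (c : E n) (s : ℝ), 0 < s →
      ∃ ψ : E n → ℝ, ContDiff ℝ 1 ψ ∧ (∀ x, 0 ≤ ψ x ∧ ψ x ≤ 1) ∧ (∀ x ∈ closedBall c s, ψ x = 1) ∧
      (∀ x, x ∉ ball c (M₁ * s) → ψ x = 0) ∧
      ∫⁻ x, ‖fderiv ℝ ψ x‖ₑ ^ n ≤ ENNReal.ofReal δ ^ n * volume (ball (0 : E n) 1))
    {z y₀ : E n} {t a b s : ℝ} (hU : closedBall z (2 * t) ⊆ U) (ha : 0 < a)
    (hab : a < b) (hb : b < 2 * t) (hs : 0 < s)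
    (hZ : ENNReal.ofReal (k * (2 / (b - a))) ^ n *
      volume {x ∈ closedBall z (2 * t) | s ≤ dist (h x) y₀} ≤
      ENNReal.ofReal δ ^ n * volume (ball (0 : E n) 1))
    (hsa : 4 * (M₁ * s) ≤ vr (h '' ball z a)) :
    vr (h '' ball z a) ≤ 12800 * δ * vr (h '' ball z b) := by
  have hn1 : 1 ≤ n := by omega
  set w₀ := volume (ball (0 : E n) 1) with hw₀
  have hw₀0 : w₀ ≠ 0 := wn_ne_zero n
  have hw₀t : w₀ ≠ ∞ := wn_ne_top n
  set V₀ := h '' closedBall z (2 * t) with hV₀
  have hV₀c : IsCompact V₀ := H.isCompact_image (isCompact_closedBall _ _) hU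
  have ha2 : ball z a ⊆ closedBall z (2 * t) :=
    (ball_subset_ball (by linarith)).trans ball_subset_closedBall
  have hb2 : ball z b ⊆ closedBall z (2 * t) :=
    (ball_subset_ball (by linarith)).trans ball_subset_closedBall
  have hat : volume (h '' ball z a) ≠ ∞ := H.volume_image_ne_top ha2 (isCompact_closedBall _ _) hU
  have hbt : volume (h '' ball z b) ≠ ∞ := H.volume_image_ne_top hb2 (isCompact_closedBall _ _) hU
  set α := vr (h '' ball z a) with hα
  set β := vr (h '' ball z b) with hβ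
  have hα0 : 0 ≤ α := vr_nonneg _
  have hβ0 : 0 ≤ β := vr_nonneg _
  obtain ⟨ψ, hψ, hψ01, hψ1, hψ0, hψd⟩ := hLin n z a b ha hab
  obtain ⟨χ₀, hχ₀, hχ01, hχ1, hχ0, hχe⟩ := hlog y₀ s hs
  set χ : E n → ℝ := fun y => 1 - χ₀ y with hχ
  have hχd : ContDiff ℝ 1 χ := contDiff_const.sub hχ₀
  have hχe' : ∫⁻ y, ‖fderiv ℝ χ y‖ₑ ^ n ≤ ENNReal.ofReal δ ^ n * w₀ := by
    refine le_trans (le_of_eq ?_) hχe
    refine lintegral_congr fun y => ?_
    rw [hχ, fderiv_const_sub, enorm_neg]
  set D : Set (E n) := {y | s ≤ dist y y₀} with hD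
  have hDc : IsClosed D := isClosed_le continuous_const (continuous_id.dist continuous_const)
  obtain ⟨hvc, hvE⟩ := hExt n k U h g hn1 hk.le H.hom H.ci_inv z b (2 * t) (ha.trans hab) hb hU ψ χ D hψ hχd
    hψ01 (fun y => ⟨by have := (hχ01 y).2; simp only [hχ]; linarith,
      by have := (hχ01 y).1; simp only [hχ]; linarith⟩)
    (fun x hx => hψ0 x fun hx' => hx (ball_subset_closedBall hx')) hDc
    (fun y hy => by
      have h1 : dist y y₀ < s := not_le.1 hy
      simp only [hχ]
      rw [hχ1 y (mem_closedBall.2 h1.le), sub_self])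
  set v := (h '' ball z (2 * t)).indicator (fun y => ψ (g y) * χ y) with hv
  -- the huge ball
  obtain ⟨R, hR0, hR⟩ := hV₀c.isBounded.subset_closedBall_lt 0 (0 : E n)
  have hR2 : V₀ ⊆ closedBall (0 : E n) (2 * R) :=
    hR.trans (closedBall_subset_closedBall (by linarith))
  have hpos : {y | 0 < v y} ⊆ h '' ball z b := by
    intro y hy
    have hy1 : y ∈ h '' ball z (2 * t) := by
      by_contra hc
      rw [mem_ofPred_eq, hv, indicator_of_notMem hc] at hy
      exact lt_irrefl _ hy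
    rw [mem_ofPred_eq, hv, indicator_of_mem hy1] at hy
    obtain ⟨x, hx, rfl⟩ := hy1
    have hxU : x ∈ U := hU (ball_subset_closedBall hx)
    rw [H.left_inv x hxU] at hy
    refine ⟨x, ?_, rfl⟩
    by_contra hc
    rw [hψ0 x hc, zero_mul] at hy
    exact lt_irrefl _ hy
  have hhalf : volume {x ∈ closedBall (0 : E n) (2 * R) | 0 < v x} ≤
      volume (closedBall (0 : E n) (2 * R)) / 2 := by
    rw [ENNReal.le_div_iff_mul_le (Or.inl (by norm_num)) (Or.inl (by norm_num))]
    calc volume {x ∈ closedBall (0 : E n) (2 * R) | 0 < v x} * 2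
        ≤ volume (closedBall (0 : E n) R) * 2 := by
          gcongr
          exact fun y hy => hR ((hpos hy.2).imp fun x hx => ⟨hb2 hx.1, hx.2⟩)
      _ ≤ volume (closedBall (0 : E n) R) * 2 ^ n := by
          gcongr
          calc (2 : ℝ≥0∞) = 2 ^ 1 := (pow_one _).symm
            _ ≤ 2 ^ n := pow_le_pow_right₀ (by norm_num) hn1
      _ = volume (closedBall (0 : E n) (2 * R)) := by
          rw [vol_closedBall _ hR0, vol_closedBall _ (by positivity), ENNReal.ofReal_mul (by norm_num),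
            ENNReal.ofReal_ofNat, mul_pow]
          ring
  have hnest := hN n hn1 0 (2 * R) (by positivity) v _ hvc.continuousOn
    (hvE _ (isCompact_closedBall _ _)) hhalf
  -- energy
  have hen : 2 ^ n * (ENNReal.ofReal k ^ n *
            (∫⁻ a in {a ∈ closedBall z (2 * t) | h a ∈ D}, ‖fderiv ℝ ψ a‖ₑ ^ n) +
          ∫⁻ y, ‖fderiv ℝ χ y‖ₑ ^ n) ≤ 2 ^ n * (2 * (ENNReal.ofReal δ ^ n * w₀)) := by
    rw [two_mul (ENNReal.ofReal δ ^ n * w₀)]
    refine mul_le_mul_right (add_le_add ?_ hχe') _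
    refine le_trans ?_ hZ
    rw [ENNReal.ofReal_mul hk.le, mul_pow, mul_assoc]
    refine mul_le_mul_right ?_ _
    calc ∫⁻ a in {a ∈ closedBall z (2 * t) | h a ∈ D}, ‖fderiv ℝ ψ a‖ₑ ^ n
        ≤ ∫⁻ _ in {a ∈ closedBall z (2 * t) | h a ∈ D}, ENNReal.ofReal (2 / (b - a)) ^ n := by
          refine lintegral_mono fun x => ?_
          refine pow_le_pow_left' ?_ n
          rw [← ofReal_norm]
          exact ENNReal.ofReal_le_ofReal (hψd x)
      _ = _ := by rw [setLIntegral_const]; rfl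
  -- lower bound
  have hlow : h '' ball z a ⊆ {x ∈ closedBall (0 : E n) (2 * R) | 1 ≤ v x} ∪ ball y₀ (M₁ * s) := by
    rintro _ ⟨x, hx, rfl⟩
    by_cases hc : h x ∈ ball y₀ (M₁ * s)
    · exact Or.inr hc
    · refine Or.inl ⟨hR2 ⟨x, ha2 hx, rfl⟩, ?_⟩
      have hx2 : x ∈ ball z (2 * t) := ball_subset_ball (by linarith) hx
      have : h x ∈ h '' ball z (2 * t) := ⟨x, hx2, rfl⟩
      rw [hv, indicator_of_mem this, H.left_inv x (hU (ha2 hx)), hψ1 x (ball_subset_closedBall hx),
        one_mul]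
      simp only [hχ]
      rw [hχ0 _ hc, sub_zero]
  have h1 : ENNReal.ofReal α ^ n * w₀ ≤
      volume {x ∈ closedBall (0 : E n) (2 * R) | 1 ≤ v x} + ENNReal.ofReal (α / 4) ^ n * w₀ := by
    rw [← volume_eq hn1 hat]
    calc volume (h '' ball z a) ≤ volume {x ∈ closedBall (0 : E n) (2 * R) | 1 ≤ v x} +
          volume (ball y₀ (M₁ * s)) := (measure_mono hlow).trans (measure_union_le _ _)
      _ ≤ _ := by
        rw [vol_ball y₀ (by positivity)]
        gcongr
        linarith
  have h2 : volume {x ∈ closedBall (0 : E n) (2 * R) | 0 < v x} ≤ ENNReal.ofReal β ^ n * w₀ := by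
    rw [← volume_eq hn1 hbt]
    exact measure_mono fun y hy => hpos hy.2
  have h3 : volume {x ∈ closedBall (0 : E n) (2 * R) | 1 ≤ v x} ≤
      2 * ENNReal.ofReal (3200 * δ * β) ^ n * w₀ := by
    have h4 : w₀ * volume {x ∈ closedBall (0 : E n) (2 * R) | 1 ≤ v x} ≤
        w₀ * (2 * ENNReal.ofReal (3200 * δ * β) ^ n * w₀) := by
      calc w₀ * volume {x ∈ closedBall (0 : E n) (2 * R) | 1 ≤ v x}
          ≤ 1600 ^ n * (2 ^ n * (2 * (ENNReal.ofReal δ ^ n * w₀))) *
            (ENNReal.ofReal β ^ n * w₀) := by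
            refine hnest.trans ?_
            gcongr
        _ = w₀ * (2 * ENNReal.ofReal (3200 * δ * β) ^ n * w₀) := by
            rw [ENNReal.ofReal_mul (by positivity), ENNReal.ofReal_mul (by norm_num),
              ENNReal.ofReal_ofNat, mul_pow, mul_pow,
              show (3200 : ℝ≥0∞) = 1600 * 2 by norm_num, mul_pow]
            ring
    exact (ENNReal.mul_le_mul_iff_right hw₀0 hw₀t).1 h4
  have h5 : ENNReal.ofReal α ^ n ≤ 2 * ENNReal.ofReal (3200 * δ * β) ^ n +
      ENNReal.ofReal (α / 4) ^ n := by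
    refine (ENNReal.mul_le_mul_iff_left hw₀0 hw₀t).1 ?_
    rw [add_mul]
    exact h1.trans (by gcongr)
  have h6 : α ^ n ≤ 2 * (3200 * δ * β) ^ n + (α / 4) ^ n := by
    rw [← ENNReal.ofReal_pow hα0, ← ENNReal.ofReal_pow (by positivity),
      ← ENNReal.ofReal_pow (by positivity), ← ENNReal.ofReal_ofNat 2,
      ← ENNReal.ofReal_mul (by norm_num), ← ENNReal.ofReal_add (by positivity) (by positivity)] at h5
    exact (ENNReal.ofReal_le_ofReal_iff (by positivity)).1 h5
  have h7 : (α / 4) ^ n ≤ α ^ n / 2 := by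
    rw [div_pow]
    gcongr
    calc (2 : ℝ) ≤ 4 ^ 1 := by norm_num
      _ ≤ 4 ^ n := pow_le_pow_right₀ (by norm_num) hn1
  have h8 : α ^ n ≤ (12800 * δ * β) ^ n := by
    calc α ^ n ≤ 4 * (3200 * δ * β) ^ n := by linarith
      _ ≤ 4 ^ n * (3200 * δ * β) ^ n := by
        gcongr
        calc (4 : ℝ) = 4 ^ 1 := by norm_num
          _ ≤ 4 ^ n := pow_le_pow_right₀ (by norm_num) hn1
      _ = (12800 * δ * β) ^ n := by rw [← mul_pow]; ring
  exact le_of_pow_le_pow_left₀ (by omega) (by positivity) h8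

end Vol

theorem specVol (hN : SpecNest) (hLog : SpecLog) (hLin : SpecLin) (hExt : SpecExt)
    (hG : SpecGrow) : SpecVol := by
  intro k hk
  obtain ⟨M, hM, hgrow⟩ := hG k hk
  have hM0 : 0 < M := by linarith
  set δ : ℝ := 1 / (12800 * M ^ 2) with hδ
  have hδ0 : 0 < δ := by positivity
  obtain ⟨M₁, hM₁, hlog⟩ := hLog δ hδ0
  obtain ⟨i₀, hi₀⟩ := exists_pow_lt_of_lt_one (div_pos hδ0 (by positivity : 0 < 16 * k))
    (by norm_num : (1 / 2 : ℝ) < 1)
  have hi₀' : 16 * k * (1 / 2) ^ i₀ ≤ δ := by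
    rw [lt_div_iff₀ (by positivity)] at hi₀
    linarith
  refine ⟨4 * M₁ * M ^ i₀, ?_, ?_⟩
  · have h1 : 1 ≤ M ^ i₀ := one_le_pow₀ hM.le
    nlinarith
  intro n U h g hn H z t S ht hS hU hHigh
  have hn1 : 1 ≤ n := by omega
  obtain ⟨y₀, hy₀⟩ := hHigh
  by_contra hcon
  rw [not_le] at hcon
  -- decay of the super-level sets
  have hZ : ∀ i : ℕ, volume {x ∈ closedBall z (4 * t) | M ^ i * S ≤ dist (h x) y₀} ≤
      ((1 / 2) ^ n) ^ i * volume (closedBall z (4 * t)) := by
    intro i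
    induction i with
    | zero =>
      rw [pow_zero, pow_zero, one_mul, one_mul]
      exact measure_mono fun x hx => hx.1
    | succ i ih =>
      have h1 := (hgrow n U h g hn H).2.1 z (4 * t) (by positivity) hU y₀ (M ^ i * S)
        (by positivity) ?_
      · rw [pow_succ' M i, mul_assoc, pow_succ' ((1 / 2 : ℝ≥0∞) ^ n) i, mul_assoc]
        refine h1.trans ?_
        gcongr
        refine le_trans (measure_mono ?_) ih
        exact fun x hx => ⟨hx.1, hx.2.le⟩
      · refine le_trans (measure_mono ?_) hy₀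
        intro x hx
        exact ⟨hx.1, lt_of_le_of_lt (le_mul_of_one_le_left hS.le (one_le_pow₀ hM.le)) hx.2⟩
  set τ : ℕ → ℝ := fun j => (2 - (1 / 2) ^ j) * t with hτ
  set a : ℕ → ℝ := fun j => vr (h '' ball z (τ j)) with ha
  have hτt : ∀ j, t ≤ τ j := by
    intro j
    have h1 : ((1 : ℝ) / 2) ^ j ≤ 1 := pow_le_one₀ (by norm_num) (by norm_num)
    simp only [hτ]
    nlinarith
  have hτ2 : ∀ j, τ j < 2 * t := by
    intro j
    have h1 : (0 : ℝ) < (1 / 2) ^ j := by positivity
    simp only [hτ]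
    nlinarith
  have hU2 : closedBall z (2 * t) ⊆ U := (closedBall_subset_closedBall (by linarith)).trans hU
  have key : ∀ j : ℕ, 4 * M₁ * M ^ i₀ * (M ^ 2) ^ j * S ≤ a j := by
    intro j
    induction j with
    | zero =>
      have h1 : τ 0 = t := by simp only [hτ]; ring
      simp only [ha]
      rw [h1, pow_zero, mul_one]
      exact hcon.le
    | succ j ih =>
      set s : ℝ := M ^ (i₀ + 2 * j) * S with hs
      have hs0 : 0 < s := by positivity
      have hdiff : τ (j + 1) - τ j = (1 / 2) ^ (j + 1) * t := by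
        simp only [hτ]
        rw [pow_succ]
        ring
      have hlt : τ j < τ (j + 1) := by
        have : 0 < (1 / 2 : ℝ) ^ (j + 1) * t := by positivity
        linarith
      have h1 := Vol.step hN hLin hExt hn hk H hδ0 hM₁ (hlog n hn) (z := z) (y₀ := y₀) (t := t)
        (a := τ j) (b := τ (j + 1)) (s := s) hU2 (ht.trans_le (hτt j)) hlt (hτ2 _) hs0 ?_ ?_
      · have h2 : 12800 * δ * a (j + 1) = a (j + 1) / M ^ 2 := by
          rw [hδ]
          field_simp
        change a j ≤ 12800 * δ * a (j + 1) at h1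
        rw [h2, le_div_iff₀ (by positivity)] at h1
        calc 4 * M₁ * M ^ i₀ * (M ^ 2) ^ (j + 1) * S
            = 4 * M₁ * M ^ i₀ * (M ^ 2) ^ j * S * M ^ 2 := by rw [pow_succ]; ring
          _ ≤ a j * M ^ 2 := by gcongr
          _ ≤ a (j + 1) := h1
      · -- the energy in the first region
        have h3 : {x ∈ closedBall z (2 * t) | s ≤ dist (h x) y₀} ⊆
            {x ∈ closedBall z (4 * t) | M ^ (i₀ + 2 * j) * S ≤ dist (h x) y₀} :=
          fun x hx => ⟨closedBall_subset_closedBall (by linarith) hx.1, hx.2⟩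
        calc ENNReal.ofReal (k * (2 / (τ (j + 1) - τ j))) ^ n *
              volume {x ∈ closedBall z (2 * t) | s ≤ dist (h x) y₀}
            ≤ ENNReal.ofReal (k * (2 / (τ (j + 1) - τ j))) ^ n *
              (((1 / 2) ^ n) ^ (i₀ + 2 * j) * volume (closedBall z (4 * t))) := by
              gcongr
              exact (measure_mono h3).trans (hZ _)
          _ = ENNReal.ofReal (16 * k * (1 / 2) ^ i₀ * (1 / 2) ^ j) ^ n *
              volume (ball (0 : E n) 1) := by
              rw [vol_closedBall _ (by positivity), hdiff]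
              have h4 : ((1 / 2 : ℝ≥0∞) ^ n) ^ (i₀ + 2 * j) =
                  ENNReal.ofReal ((1 / 2) ^ (i₀ + 2 * j)) ^ n := by
                rw [← pow_mul, mul_comm n, pow_mul]
                congr 1
                rw [ENNReal.ofReal_pow (by norm_num)]
                congr 1
                rw [ENNReal.ofReal_div_of_pos (by norm_num), ENNReal.ofReal_one,
                  ENNReal.ofReal_ofNat]
              rw [h4, ← mul_assoc, ← mul_assoc, ← mul_pow, ← mul_pow,
                ← ENNReal.ofReal_mul (by positivity), ← ENNReal.ofReal_mul (by positivity)]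
              congr 3
              have h5 : ((1 : ℝ) / 2) ^ (i₀ + 2 * j) = (1 / 2) ^ i₀ * ((1 / 2) ^ j * (1 / 2) ^ j) := by
                rw [pow_add, two_mul, pow_add]
              rw [h5, pow_succ (1 / 2 : ℝ) j]
              field_simp
              ring
          _ ≤ ENNReal.ofReal δ ^ n * volume (ball (0 : E n) 1) := by
              gcongr
              refine le_trans ?_ hi₀'
              exact mul_le_of_le_one_right (by positivity)
                (pow_le_one₀ (by norm_num) (by norm_num))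
      · refine le_trans (le_of_eq ?_) ih
        rw [hs, pow_add, pow_mul]
        ring
  -- contradiction
  have hbd : ∀ j, a j ≤ vr (h '' closedBall z (2 * t)) := by
    intro j
    refine vr_mono (image_mono ?_)
      (H.volume_image_ne_top subset_rfl (isCompact_closedBall _ _) hU2)
    exact (ball_subset_ball (hτ2 j).le).trans ball_subset_closedBall
  have hM2 : 1 < M ^ 2 := by nlinarith
  have hQS : 0 < 4 * M₁ * M ^ i₀ * S := by positivity
  obtain ⟨j, hj⟩ := pow_unbounded_of_one_lt (vr (h '' closedBall z (2 * t)) /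
    (4 * M₁ * M ^ i₀ * S)) hM2
  rw [div_lt_iff₀ hQS] at hj
  have h1 := (key j).trans (hbd j)
  nlinarith

end Pool.Agent.Lib.MPd8b51b
end
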