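import Pool.Agent.Lib.MP_d8b51b_an.Spec

section
set_option autoImplicit false

/-!
# MP_d8b51b_an: module LOC (`ACL` is a local property)
-/

namespace Pool.Agent.Lib.MPd8b51b

open MeasureTheory Metric Set Filter
open scoped Topology

namespace Loc

open AbsolutelyContinuousOnInterval in
/-- absolute continuity on adjacent intervals glues -/
lemma glue {X : Type*} [PseudoMetricSpace X] {f : ℝ → X} {a c b : ℝ} (hac : a ≤ c) (hcb : c ≤ b)
    (h1 : AbsolutelyContinuousOnInterval f a c) (h2 : AbsolutelyContinuousOnInterval f c b) :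
    AbsolutelyContinuousOnInterval f a b := by
  rw [absolutelyContinuousOnInterval_iff] at h1 h2 ⊢
  intro ε hε
  obtain ⟨δ₁, hδ₁, H₁⟩ := h1 (ε / 2) (by positivity)
  obtain ⟨δ₂, hδ₂, H₂⟩ := h2 (ε / 2) (by positivity)
  refine ⟨min δ₁ δ₂, lt_min hδ₁ hδ₂, fun E hE hlen => ?_⟩
  have hmin : ∀ p q : ℝ, uIoc (min p c) (min q c) ⊆ uIoc p q := by
    intro p q x hx
    rw [mem_uIoc] at hx ⊢
    rcases hx with ⟨h3, h4⟩ | ⟨h3, h4⟩
    · left
      have h5 : x ≤ q := h4.trans (min_le_left _ _)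
      have h6 : x ≤ c := h4.trans (min_le_right _ _)
      refine ⟨?_, h5⟩
      rcases min_lt_iff.1 h3 with h7 | h7
      · exact h7
      · linarith
    · right
      have h5 : x ≤ p := h4.trans (min_le_left _ _)
      have h6 : x ≤ c := h4.trans (min_le_right _ _)
      refine ⟨?_, h5⟩
      rcases min_lt_iff.1 h3 with h7 | h7
      · exact h7
      · linarith
  have hmax : ∀ p q : ℝ, uIoc (max p c) (max q c) ⊆ uIoc p q := by
    intro p q x hx
    rw [mem_uIoc] at hx ⊢
    rcases hx with ⟨h3, h4⟩ | ⟨h3, h4⟩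
    · left
      have h5 : p < x := (le_max_left _ _).trans_lt h3
      have h6 : c < x := (le_max_right _ _).trans_lt h3
      refine ⟨h5, ?_⟩
      rcases le_max_iff.1 h4 with h7 | h7
      · exact h7
      · linarith
    · right
      have h5 : q < x := (le_max_left _ _).trans_lt h3
      have h6 : c < x := (le_max_right _ _).trans_lt h3
      refine ⟨h5, ?_⟩
      rcases le_max_iff.1 h4 with h7 | h7
      · exact h7
      · linarith
  have hE' := hE
  rw [disjWithin, mem_ofPred_eq] at hE'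
  obtain ⟨hin, hdis⟩ := hE'
  rw [uIcc_of_le (hac.trans hcb)] at hin
  have hE₁ : ((E.1, fun i => (min (E.2 i).1 c, min (E.2 i).2 c)) : ℕ × (ℕ → ℝ × ℝ)) ∈
      disjWithin a c := by
    rw [disjWithin, mem_ofPred_eq, uIcc_of_le hac]
    refine ⟨fun i hi => ?_, fun i hi j hj hij => ?_⟩
    · obtain ⟨h3, h4⟩ := hin i hi
      exact ⟨⟨le_min h3.1 hac, min_le_right _ _⟩, ⟨le_min h4.1 hac, min_le_right _ _⟩⟩
    · exact (hdis hi hj hij).mono (hmin _ _) (hmin _ _)
  have hE₂ : ((E.1, fun i => (max (E.2 i).1 c, max (E.2 i).2 c)) : ℕ × (ℕ → ℝ × ℝ)) ∈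
      disjWithin c b := by
    rw [disjWithin, mem_ofPred_eq, uIcc_of_le hcb]
    refine ⟨fun i hi => ?_, fun i hi j hj hij => ?_⟩
    · obtain ⟨h3, h4⟩ := hin i hi
      exact ⟨⟨le_max_right _ _, max_le h3.2 hcb⟩, ⟨le_max_right _ _, max_le h4.2 hcb⟩⟩
    · exact (hdis hi hj hij).mono (hmax _ _) (hmax _ _)
  have hL₁ : ∑ i ∈ Finset.range E.1, dist (min (E.2 i).1 c) (min (E.2 i).2 c) < δ₁ := by
    refine lt_of_le_of_lt (Finset.sum_le_sum fun i _ => ?_) (hlen.trans_le (min_le_left _ _))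
    rw [Real.dist_eq, Real.dist_eq]
    refine (abs_min_sub_min_le_max _ _ _ _).trans ?_
    rw [sub_self, abs_zero]
    exact max_le le_rfl (abs_nonneg _)
  have hL₂ : ∑ i ∈ Finset.range E.1, dist (max (E.2 i).1 c) (max (E.2 i).2 c) < δ₂ := by
    refine lt_of_le_of_lt (Finset.sum_le_sum fun i _ => ?_) (hlen.trans_le (min_le_right _ _))
    rw [Real.dist_eq, Real.dist_eq]
    exact abs_max_sub_max_le_abs _ _ _
  have hS₁ := H₁ _ hE₁ hL₁
  have hS₂ := H₂ _ hE₂ hL₂
  simp only at hS₁ hS₂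
  have hpt : ∀ p q : ℝ, dist (f p) (f q) ≤
      dist (f (min p c)) (f (min q c)) + dist (f (max p c)) (f (max q c)) := by
    intro p q
    rcases le_total p c with hp | hp <;> rcases le_total q c with hq | hq
    · rw [min_eq_left hp, min_eq_left hq, max_eq_right hp, max_eq_right hq, dist_self, add_zero]
    · rw [min_eq_left hp, min_eq_right hq, max_eq_right hp, max_eq_left hq]
      exact dist_triangle _ _ _
    · rw [min_eq_right hp, min_eq_left hq, max_eq_left hp, max_eq_right hq, add_comm]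
      exact dist_triangle _ _ _
    · rw [min_eq_right hp, min_eq_right hq, max_eq_left hp, max_eq_left hq, dist_self, zero_add]
  calc ∑ i ∈ Finset.range E.1, dist (f (E.2 i).1) (f (E.2 i).2) ≤
      ∑ i ∈ Finset.range E.1, (dist (f (min (E.2 i).1 c)) (f (min (E.2 i).2 c)) +
        dist (f (max (E.2 i).1 c)) (f (max (E.2 i).2 c))) :=
        Finset.sum_le_sum fun i _ => hpt _ _
    _ = (∑ i ∈ Finset.range E.1, dist (f (min (E.2 i).1 c)) (f (min (E.2 i).2 c))) +
        ∑ i ∈ Finset.range E.1, dist (f (max (E.2 i).1 c)) (f (max (E.2 i).2 c)) :=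
        Finset.sum_add_distrib
    _ < ε / 2 + ε / 2 := add_lt_add hS₁ hS₂
    _ = ε := add_halves ε

/-- absolute continuity on all short subintervals gives absolute continuity -/
lemma of_short {X : Type*} [PseudoMetricSpace X] {f : ℝ → X} {a b δ : ℝ} (hab : a ≤ b)
    (hδ : 0 < δ) (h : ∀ c d : ℝ, a ≤ c → c ≤ d → d ≤ b → d - c ≤ δ →
      AbsolutelyContinuousOnInterval f c d) : AbsolutelyContinuousOnInterval f a b := by
  have key : ∀ m : ℕ, AbsolutelyContinuousOnInterval f a (min (a + m * δ) b) := by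
    intro m
    induction m with
    | zero =>
      have e : min (a + ((0 : ℕ) : ℝ) * δ) b = a := by simp [hab]
      rw [e]
      exact h a a le_rfl le_rfl hab (by linarith)
    | succ m ih =>
      have hle : a + (m : ℝ) * δ ≤ a + ((m + 1 : ℕ) : ℝ) * δ := by
        push_cast
        nlinarith
      have h0 : 0 ≤ (m : ℝ) * δ := by positivity
      have h1 : a ≤ min (a + m * δ) b := le_min (by linarith) hab
      have h2 : min (a + (m : ℝ) * δ) b ≤ min (a + ((m + 1 : ℕ) : ℝ) * δ) b := min_le_min_right _ hle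
      refine glue h1 h2 ih (h _ _ h1 h2 (min_le_right _ _) ?_)
      rcases le_total (a + (m : ℝ) * δ) b with h3 | h3
      · rw [min_eq_left h3]
        have h4 : min (a + ((m + 1 : ℕ) : ℝ) * δ) b ≤ a + ((m + 1 : ℕ) : ℝ) * δ := min_le_left _ _
        push_cast at h4 ⊢
        linarith
      · rw [min_eq_right h3, min_eq_right (h3.trans hle)]
        linarith
  obtain ⟨m, hm⟩ := exists_nat_ge ((b - a) / δ)
  have h1 : b ≤ a + m * δ := by
    rw [div_le_iff₀ hδ] at hm
    linarith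
  have := key m
  rwa [min_eq_right h1] at this

end Loc

open Loc

theorem specLoc : SpecLoc := by
  intro n V h hV hcont hloc i
  classical
  choose! W hWo hxW hW using hloc
  obtain ⟨T, hTc, hTU⟩ := TopologicalSpace.isOpen_iUnion_countable (fun x : V => W x)
    (fun x => hWo x x.2)
  have hae : ∀ᵐ x : E n, ∀ v ∈ T, ∀ a b : ℝ,
      (∀ s ∈ uIcc a b, x + s • EuclideanSpace.single i (1 : ℝ) ∈ W v) →
      AbsolutelyContinuousOnInterval
        (fun s : ℝ => h (x + s • EuclideanSpace.single i (1 : ℝ))) a b :=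
    (ae_ball_iff hTc).2 fun v _ => hW v v.2 i
  filter_upwards [hae] with x hx
  have main : ∀ a b : ℝ, a ≤ b → (∀ s ∈ uIcc a b, x + s • EuclideanSpace.single i (1 : ℝ) ∈ V) →
      AbsolutelyContinuousOnInterval
        (fun s : ℝ => h (x + s • EuclideanSpace.single i (1 : ℝ))) a b := by
    intro a b hab hseg
    rw [uIcc_of_le hab] at hseg
    have hline : Continuous (fun s : ℝ => x + s • EuclideanSpace.single i (1 : ℝ)) := by fun_prop
    obtain ⟨δ, hδ, hδ'⟩ := lebesgue_number_lemma_of_metric (isCompact_Icc (a := a) (b := b))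
      (c := fun v : T => (fun s : ℝ => x + s • EuclideanSpace.single i (1 : ℝ)) ⁻¹' W v)
      (fun v => (hWo v v.1.2).preimage hline) (by
        intro s hs
        have h1 : x + s • EuclideanSpace.single i (1 : ℝ) ∈ ⋃ v : V, W v :=
          mem_iUnion.2 ⟨⟨_, hseg s hs⟩, hxW _ (hseg s hs)⟩
        rw [← hTU] at h1
        obtain ⟨v, hv⟩ := mem_iUnion.1 h1
        obtain ⟨hvT, hv'⟩ := mem_iUnion.1 hv
        exact mem_iUnion.2 ⟨⟨v, hvT⟩, hv'⟩)
    refine of_short hab (half_pos hδ) fun c d hac hcd hdb hlen => ?_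
    obtain ⟨v, hv⟩ := hδ' c ⟨hac, hcd.trans hdb⟩
    refine hx v v.2 c d fun s hs => ?_
    rw [uIcc_of_le hcd] at hs
    refine hv ?_
    rw [mem_ball, Real.dist_eq, abs_of_nonneg (by linarith [hs.1])]
    linarith [hs.2]
  intro a b hseg
  rcases le_total a b with hab | hab
  · exact main a b hab hseg
  · exact (main b a hab (by rwa [uIcc_comm])).symm

end Pool.Agent.Lib.MPd8b51b
end

section
set_option autoImplicit false

/-!
# MP_d8b51b_an: module MOLL, part A (integration by parts for ACL maps)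
-/

namespace Pool.Agent.Lib.MPd8b51b

open MeasureTheory Metric Set Filter Topology
open scoped ENNReal

namespace Moll

variable {n : ℕ}

/-- composition with a continuous linear functional -/
lemma ac_comp {X Y : Type*} [NormedAddCommGroup X] [NormedSpace ℝ X] [NormedAddCommGroup Y]
    [NormedSpace ℝ Y] (L : X →L[ℝ] Y) {f : ℝ → X} {a b : ℝ}
    (hf : AbsolutelyContinuousOnInterval f a b) :
    AbsolutelyContinuousOnInterval (fun s => L (f s)) a b := by
  unfold AbsolutelyContinuousOnInterval at hf ⊢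
  have h1 := hf.const_mul ‖L‖
  rw [mul_zero] at h1
  refine squeeze_zero (fun _ => Finset.sum_nonneg fun _ _ => dist_nonneg) (fun E => ?_) h1
  rw [Finset.mul_sum]
  refine Finset.sum_le_sum fun i _ => ?_
  rw [dist_eq_norm, dist_eq_norm, ← map_sub]
  exact L.le_opNorm _

/-- null sets are met by almost every line in a null set -/
lemma ae_line {P : E n → Prop} (hP : ∀ᵐ y : E n, P y) (e : E n) :
    ∀ᵐ x : E n, ∀ᵐ s : ℝ, P (x + s • e) := by
  obtain ⟨t, ht, htm, ht0⟩ := exists_measurable_superset_of_null (show volume {y | ¬ P y} = 0 from hP)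
  have h1 : MeasurableSet {z : E n × ℝ | z.1 + z.2 • e ∈ t} := by
    refine htm.preimage (f := fun z : E n × ℝ => z.1 + z.2 • e) ?_
    fun_prop
  have h2 : (volume.prod volume : Measure (E n × ℝ)) {z : E n × ℝ | z.1 + z.2 • e ∈ t} = 0 := by
    rw [Measure.prod_apply_symm h1]
    have h3 : ∀ s : ℝ, volume ((fun x : E n => (x, s)) ⁻¹' {z : E n × ℝ | z.1 + z.2 • e ∈ t}) = 0 := by
      intro s
      have h4 : (fun x : E n => (x, s)) ⁻¹' {z : E n × ℝ | z.1 + z.2 • e ∈ t}
          = (fun x : E n => x + s • e) ⁻¹' t := rfl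
      rw [h4, measure_preimage_add_right, ht0]
    rw [lintegral_congr h3, lintegral_zero]
  have h5 : ∀ᵐ z : E n × ℝ ∂(volume.prod volume), P (z.1 + z.2 • e) := by
    rw [ae_iff]
    refine measure_mono_null (fun z hz => ?_) h2
    exact ht hz
  exact Measure.ae_ae_of_ae_prod h5

/-- averaging over translations -/
lemma swap_lemma {G : E n → ℝ} (hGm : Measurable G) (hGi : Integrable G) {T : ℝ} (hT : 0 ≤ T)
    (e : E n) : ∫ x : E n, ∫ s in (0 : ℝ)..T, G (x + s • e) = T * ∫ x, G x := by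
  have hm : Measurable (fun z : E n × ℝ => G (z.1 + z.2 • e)) := by
    refine hGm.comp (g := G) (f := fun z : E n × ℝ => z.1 + z.2 • e) ?_
    fun_prop
  have hint2 : Integrable (fun z : E n × ℝ => G (z.1 + z.2 • e))
      (volume.prod (volume.restrict (Ioc (0 : ℝ) T))) := by
    rw [integrable_prod_iff' hm.aestronglyMeasurable]
    refine ⟨Eventually.of_forall fun s => hGi.comp_add_right (s • e), ?_⟩
    have h1 : ∀ s : ℝ, ∫ x : E n, ‖G (x + s • e)‖ = ∫ x : E n, ‖G x‖ := fun s =>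
      integral_add_right_eq_self (μ := (volume : Measure (E n))) (fun x => ‖G x‖) (s • e)
    simp only [h1]
    exact integrable_const _
  simp only [intervalIntegral.integral_of_le hT]
  rw [integral_integral_swap hint2]
  have h1 : ∀ s : ℝ, ∫ x : E n, G (x + s • e) = ∫ x, G x := fun s =>
    integral_add_right_eq_self (μ := (volume : Measure (E n))) (fun x => G x) (s • e)
  simp only [h1]
  simp [hT]

/-- Integration by parts for ACL maps. -/
lemma key {V : Set (E n)} {h : E n → E n} (hV : IsOpen V) (hc : ContinuousOn h V)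
    (hacl : ACL V h) (hdiff : ∀ᵐ x : E n, x ∈ V → DifferentiableAt ℝ h x)
    {ψ : E n → ℝ} (hψ : ContDiff ℝ 1 ψ) {S : Set (E n)} (hS : IsCompact S) (hSV : S ⊆ V)
    (hsupp : ∀ x, x ∉ S → ψ x = 0)
    (hint : IntegrableOn (fun x => fderiv ℝ h x) S) (i : Fin n) (L : E n →L[ℝ] ℝ) :
    ∫ x, (fderiv ℝ ψ x (EuclideanSpace.single i (1 : ℝ)) * L (h x) +
      ψ x * L (fderiv ℝ h x (EuclideanSpace.single i (1 : ℝ)))) = 0 := by
  set e : E n := EuclideanSpace.single i (1 : ℝ) with he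
  have hen : ‖e‖ = 1 := by simp [he]
  have hSm : MeasurableSet S := hS.isClosed.measurableSet
  have hfd : ∀ x, x ∉ S → fderiv ℝ ψ x = 0 := by
    intro x hx
    have h1 : ψ =ᶠ[𝓝 x] fun _ => 0 := by
      filter_upwards [hS.isClosed.isOpen_compl.mem_nhds hx] with y hy using hsupp y hy
    rw [h1.fderiv_eq]
    simp
  -- measurable version of `h`
  have hh0 : Measurable (S.indicator h) := by
    classical
    have h1 : Measurable (S.piecewise h (fun _ => (0 : E n))) :=
      (hc.mono hSV).measurable_piecewise continuousOn_const hSm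
    have h2 : S.indicator h = S.piecewise h (fun _ => (0 : E n)) := by
      funext x
      by_cases hx : x ∈ S
      · simp [hx]
      · simp [hx]
    rw [h2]
    exact h1
  set G : E n → ℝ := fun x => fderiv ℝ ψ x e * L (h x) + ψ x * L (fderiv ℝ h x e) with hG
  have hG0 : ∀ x, x ∉ S → G x = 0 := by
    intro x hx
    simp [hG, hfd x hx, hsupp x hx]
  have hGm : Measurable G := by
    have h1 : G = fun x => fderiv ℝ ψ x e * L (S.indicator h x) + ψ x * L (fderiv ℝ h x e) := by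
      funext x
      by_cases hx : x ∈ S
      · simp [hG, hx]
      · simp [hG, hfd x hx, hsupp x hx]
    rw [h1]
    have h2 : Measurable (fun x => fderiv ℝ ψ x e) := measurable_fderiv_apply_const ℝ ψ e
    have h3 : Measurable (fun x => fderiv ℝ h x e) := measurable_fderiv_apply_const ℝ h e
    exact (h2.mul (L.continuous.measurable.comp hh0)).add
      (hψ.continuous.measurable.mul (L.continuous.measurable.comp h3))
  have hGi : Integrable G := by
    have h1 : IntegrableOn G S := by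
      refine Integrable.add ?_ ?_
      · refine ContinuousOn.integrableOn_compact hS ?_
        refine ContinuousOn.mul ?_ (L.continuous.comp_continuousOn (hc.mono hSV))
        exact ((hψ.continuous_fderiv (by simp)).clm_apply continuous_const).continuousOn
      · have h2 : IntegrableOn (fun x => L (fderiv ℝ h x e)) S := by
          have h3 := (L.comp (ContinuousLinearMap.apply ℝ (E n) e)).integrable_comp hint
          exact h3
        obtain ⟨B, hB⟩ := hS.exists_bound_of_continuousOn hψ.continuous.continuousOn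
        refine Integrable.bdd_mul (c := B) h2 hψ.continuous.aestronglyMeasurable ?_
        filter_upwards [ae_restrict_mem hSm] with x hx using hB x hx
    refine (integrableOn_iff_integrable_of_support_subset ?_).1 h1
    intro x hx
    by_contra hxS
    exact hx (hG0 x hxS)
  obtain ⟨T, hT, hTV⟩ := hS.exists_cthickening_subset_open hV hSV
  set q : E n → ℝ := fun x => ψ x * L (h x) with hq
  have hqi : Integrable q := by
    have h1 : IntegrableOn q S := by
      refine ContinuousOn.integrableOn_compact hS ?_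
      exact hψ.continuous.continuousOn.mul (L.continuous.comp_continuousOn (hc.mono hSV))
    refine (integrableOn_iff_integrable_of_support_subset ?_).1 h1
    intro x hx
    by_contra hxS
    exact hx (by simp [hq, hsupp x hxS])
  -- the identity on lines
  have hline : ∀ᵐ x : E n, ∫ s in (0 : ℝ)..T, G (x + s • e) = q (x + T • e) - q x := by
    filter_upwards [hacl i, ae_line hdiff e] with x hx1 hx2
    by_cases hseg : ∀ s ∈ uIcc (0 : ℝ) T, x + s • e ∈ V
    · have hac : AbsolutelyContinuousOnInterval (fun s : ℝ => L (h (x + s • e))) 0 T :=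
        ac_comp L (hx1 0 T hseg)
      have hcd : ContDiff ℝ 1 (fun s : ℝ => ψ (x + s • e)) := by
        refine hψ.comp ?_
        fun_prop
      have hac2 : AbsolutelyContinuousOnInterval (fun s : ℝ => ψ (x + s • e)) 0 T :=
        hcd.contDiffOn.absolutelyContinuousOnInterval
      have h1 := hac2.integral_deriv_mul_eq_sub hac
      have h2 : ∫ s in (0 : ℝ)..T, G (x + s • e) =
          ∫ s in (0 : ℝ)..T, deriv (fun s : ℝ => ψ (x + s • e)) s * L (h (x + s • e)) +
            ψ (x + s • e) * deriv (fun s : ℝ => L (h (x + s • e))) s := by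
        refine intervalIntegral.integral_congr_ae ?_
        filter_upwards [hx2] with s hs hsT
        have hs1 : x + s • e ∈ V := hseg s (uIoc_subset_uIcc hsT)
        have hd1 : HasDerivAt (fun s : ℝ => x + s • e) e s := by
          simpa using ((hasDerivAt_id s).smul_const e).const_add x
        have hd2 : HasDerivAt (fun s : ℝ => ψ (x + s • e)) (fderiv ℝ ψ (x + s • e) e) s :=
          ((hψ.differentiable (by simp) _).hasFDerivAt).comp_hasDerivAt s hd1
        have hd3 : HasDerivAt (fun s : ℝ => L (h (x + s • e))) (L (fderiv ℝ h (x + s • e) e)) s :=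
          L.hasFDerivAt.comp_hasDerivAt s (((hs hs1).hasFDerivAt).comp_hasDerivAt s hd1)
        rw [hd2.deriv, hd3.deriv]
      rw [h2, h1]
      simp [hq]
    · have hno : ∀ s ∈ uIcc (0 : ℝ) T, x + s • e ∉ S := by
        intro s₀ hs₀ hmem
        refine hseg fun s hs => hTV ?_
        refine mem_cthickening_of_dist_le _ _ _ _ hmem ?_
        rw [dist_add_left, dist_eq_norm, ← sub_smul, norm_smul, hen, mul_one, Real.norm_eq_abs]
        rw [uIcc_of_le hT.le] at hs hs₀
        rw [abs_le]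
        constructor <;> linarith [hs.1, hs.2, hs₀.1, hs₀.2]
      have h1 : ∫ s in (0 : ℝ)..T, G (x + s • e) = ∫ s in (0 : ℝ)..T, (0 : ℝ) :=
        intervalIntegral.integral_congr fun s hs => hG0 _ (hno s hs)
      rw [h1]
      have h2 : q (x + T • e) = 0 := by
        simp only [hq]
        rw [hsupp _ (hno T right_mem_uIcc), zero_mul]
      have h3 : q x = 0 := by
        have h4 := hno 0 left_mem_uIcc
        rw [zero_smul, add_zero] at h4
        simp only [hq]
        rw [hsupp _ h4, zero_mul]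
      rw [h2, h3]
      simp
  have hmain : ∫ x : E n, ∫ s in (0 : ℝ)..T, G (x + s • e) = 0 := by
    rw [integral_congr_ae hline, integral_sub (hqi.comp_add_right _) hqi,
      integral_add_right_eq_self (fun x => q x) (T • e), sub_self]
  have hswap := swap_lemma hGm hGi hT.le e
  rw [hswap] at hmain
  rcases mul_eq_zero.1 hmain with h1 | h1
  · exact absurd h1 hT.ne'
  · exact h1

end Moll

end Pool.Agent.Lib.MPd8b51b
end

section
set_option autoImplicit false

/-!
# MP_d8b51b_an: module MOLL, part B (mollification, Jensen's inequality)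
-/

namespace Pool.Agent.Lib.MPd8b51b

open MeasureTheory Metric Set Filter Topology
open scoped ENNReal

namespace Moll

/-- Jensen's inequality for powers -/
lemma jensen {α : Type*} [MeasurableSpace α] (μ : Measure α) {φ w : α → ℝ≥0∞}
    (hφ : Measurable φ) (hw : Measurable w) (h1 : ∫⁻ t, φ t ∂μ ≤ 1) {n : ℕ} (hn : 1 ≤ n) :
    (∫⁻ t, φ t * w t ∂μ) ^ n ≤ ∫⁻ t, φ t * w t ^ n ∂μ := by
  rcases hn.eq_or_lt with rfl | hn
  · simp
  have hp : (1 : ℝ) < n := by exact_mod_cast hn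
  have hpq := Real.HolderConjugate.conjExponent hp
  have h2 : ∫⁻ t, φ t * w t ∂μ = ∫⁻ t, w t ∂(μ.withDensity φ) := by
    rw [lintegral_withDensity_eq_lintegral_mul _ hφ hw]; rfl
  have h3 : ∫⁻ t, φ t * w t ^ n ∂μ = ∫⁻ t, w t ^ n ∂(μ.withDensity φ) := by
    rw [lintegral_withDensity_eq_lintegral_mul _ hφ (hw.pow_const n)]; rfl
  rw [h2, h3]
  have hν : (μ.withDensity φ) univ ≤ 1 := by
    rw [withDensity_apply _ MeasurableSet.univ]; simpa using h1
  have h4 := ENNReal.lintegral_mul_le_Lp_mul_Lq (μ.withDensity φ) hpq hw.aemeasurable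
    (aemeasurable_const (b := (1 : ℝ≥0∞)))
  have h5 : ∫⁻ t, w t ∂(μ.withDensity φ) ≤
      (∫⁻ t, w t ^ n ∂(μ.withDensity φ)) ^ (1 / (n : ℝ)) := by
    calc ∫⁻ t, w t ∂(μ.withDensity φ)
        = ∫⁻ t, (w * (fun _ => (1 : ℝ≥0∞) : α → ℝ≥0∞)) t ∂(μ.withDensity φ) := by
          simp
      _ ≤ _ := h4
      _ ≤ (∫⁻ t, w t ^ n ∂(μ.withDensity φ)) ^ (1 / (n : ℝ)) * 1 := by
          gcongr
          · simp
          · simp only [ENNReal.one_rpow, lintegral_const, one_mul]
            exact ENNReal.rpow_le_one hν (by simpa using hpq.symm.nonneg)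
      _ = _ := mul_one _
  calc (∫⁻ t, w t ∂(μ.withDensity φ)) ^ n
      ≤ ((∫⁻ t, w t ^ n ∂(μ.withDensity φ)) ^ (1 / (n : ℝ))) ^ n := by gcongr
    _ = _ := by
        rw [← ENNReal.rpow_natCast, ← ENNReal.rpow_mul, one_div, inv_mul_cancel₀ (by positivity),
          ENNReal.rpow_one]

variable {n : ℕ}

/-- the mollification of an ACL map -/
lemma mollify {V : Set (E n)} {h : E n → E n} (hV : IsOpen V) (hc : ContinuousOn h V)
    (hacl : ACL V h) (hdiff : ∀ᵐ x : E n, x ∈ V → DifferentiableAt ℝ h x)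
    {C1 : Set (E n)} (hC1 : IsCompact C1) (hC1V : C1 ⊆ V)
    (hint : IntegrableOn (fun x => fderiv ℝ h x) C1) {δ : ℝ} (hδ : 0 < δ) :
    ∃ (φ : E n → ℝ) (F : E n → E n), Continuous φ ∧ (∀ x, 0 ≤ φ x) ∧
      (∫⁻ x, ENNReal.ofReal (φ x) = 1) ∧ (∀ x, δ ≤ ‖x‖ → φ x = 0) ∧ ContDiff ℝ 1 F ∧
      (∀ (x : E n) (ε : ℝ), ball x δ ⊆ C1 → (∀ t ∈ ball x δ, dist (h t) (h x) ≤ ε) →
        dist (F x) (h x) ≤ ε) ∧
      (∀ x, closedBall x δ ⊆ C1 → fderiv ℝ F x = ∫ t, φ (x - t) • fderiv ℝ h t) := by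
  obtain ⟨b, hb⟩ : ∃ b : ContDiffBump (0 : E n), b.rOut = δ :=
    ⟨⟨δ / 2, δ, half_pos hδ, half_lt_self hδ⟩, rfl⟩
  set φ : E n → ℝ := b.normed volume with hφ
  have hφc : ContDiff ℝ 1 φ := by exact_mod_cast b.contDiff_normed (n := 1)
  have hφs : HasCompactSupport φ := b.hasCompactSupport_normed
  have hφ0 : ∀ x, 0 ≤ φ x := fun x => b.nonneg_normed x
  have hφz : ∀ x, δ ≤ ‖x‖ → φ x = 0 := by
    intro x hx
    have h1 : x ∉ Function.support φ := by
      rw [hφ, b.support_normed_eq, hb]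
      simpa using hx
    simpa using h1
  have hφ1 : ∫⁻ x, ENNReal.ofReal (φ x) = 1 := by
    rw [← ofReal_integral_eq_lintegral_ofReal (hφc.continuous.integrable_of_hasCompactSupport hφs)
      (Eventually.of_forall hφ0), hφ, b.integral_normed]
    simp
  have hC1m : MeasurableSet C1 := hC1.isClosed.measurableSet
  set g : E n → E n := C1.indicator h with hg
  have hgi : Integrable g := by
    rw [hg, integrable_indicator_iff hC1m]
    exact (hc.mono hC1V).integrableOn_compact hC1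
  have hgl : LocallyIntegrable g := hgi.locallyIntegrable
  set Lm : ℝ →L[ℝ] E n →L[ℝ] E n := ContinuousLinearMap.lsmul ℝ ℝ with hLm
  refine ⟨φ, convolution φ g Lm volume, hφc.continuous, hφ0, hφ1, hφz, ?_, ?_, ?_⟩
  · exact_mod_cast hφs.contDiff_convolution_left (n := 1) Lm (by exact_mod_cast hφc) hgl
  · intro x ε hx ht
    have hxC : x ∈ C1 := hx (mem_ball_self hδ)
    have h1 : g x = h x := by simp [hg, hxC]
    rw [← h1]
    refine b.dist_normed_convolution_le hgi.aestronglyMeasurable ?_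
    intro t htx
    rw [hb] at htx
    rw [h1, show g t = h t by simp [hg, hx htx]]
    exact ht t htx
  · intro x hx
    have hfd : fderiv ℝ (convolution φ g Lm volume) x =
        convolution (fderiv ℝ φ) g (ContinuousLinearMap.precompL (E n) Lm) volume x :=
      (hφs.hasFDerivAt_convolution_left Lm hφc hgl x).fderiv
    have hfc : Continuous (fderiv ℝ φ) := hφc.continuous_fderiv (by simp)
    have hfs : HasCompactSupport (fderiv ℝ φ) := hφs.fderiv ℝ
    have hex : Integrable (fun t => (ContinuousLinearMap.precompL (E n) Lm) (fderiv ℝ φ t)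
        (g (x - t))) :=
      hfs.convolutionExists_left (ContinuousLinearMap.precompL (E n) Lm) hfc hgl x
    have hA : ∀ e : E n, fderiv ℝ (convolution φ g Lm volume) x e =
        ∫ t, (fderiv ℝ φ (x - t) e) • g t := by
      intro e
      rw [hfd]
      unfold convolution
      rw [ContinuousLinearMap.integral_apply hex]
      rw [← integral_sub_left_eq_self (fun t => (fderiv ℝ φ (x - t) e) • g t) volume x]
      refine integral_congr_ae (Eventually.of_forall fun t => ?_)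
      simp [hLm]
    have hS : IsCompact (closedBall x δ) := isCompact_closedBall x δ
    have hSm : MeasurableSet (closedBall x δ) := measurableSet_closedBall
    set ψ : E n → ℝ := fun t => φ (x - t) with hψ
    have hψc : ContDiff ℝ 1 ψ := hφc.comp (contDiff_const.sub contDiff_id)
    have hψz : ∀ t, t ∉ closedBall x δ → ψ t = 0 := by
      intro t ht
      refine hφz _ ?_
      rw [mem_closedBall, dist_eq_norm, not_le, norm_sub_rev] at ht
      exact ht.le
    have hψf : ∀ t e, fderiv ℝ ψ t e = - fderiv ℝ φ (x - t) e := by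
      intro t e
      have h1 : HasFDerivAt (fun t : E n => x - t) (-(ContinuousLinearMap.id ℝ (E n))) t := by
        simpa using (hasFDerivAt_id t).const_sub x
      have h2 := ((hφc.differentiable (by simp) (x - t)).hasFDerivAt).comp t h1
      have h3 : fderiv ℝ ψ t = (fderiv ℝ φ (x - t)).comp (-(ContinuousLinearMap.id ℝ (E n))) :=
        h2.fderiv
      rw [h3]
      simp
    have hfz : ∀ t, t ∉ closedBall x δ → fderiv ℝ ψ t = 0 := by
      intro t ht
      have h1 : ψ =ᶠ[𝓝 t] fun _ => 0 := by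
        filter_upwards [hS.isClosed.isOpen_compl.mem_nhds ht] with y hy using hψz y hy
      rw [h1.fderiv_eq]
      simp
    have hBi : Integrable (fun t => ψ t • fderiv ℝ h t) := by
      have h1 : IntegrableOn (fun t => ψ t • fderiv ℝ h t) (closedBall x δ) := by
        obtain ⟨B, hB⟩ := hS.exists_bound_of_continuousOn hψc.continuous.continuousOn
        refine Integrable.bdd_smul (hint.mono_set hx) B
          hψc.continuous.aestronglyMeasurable ?_
        filter_upwards [ae_restrict_mem hSm] with t ht using hB t ht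
      refine (integrableOn_iff_integrable_of_support_subset (f := fun t => ψ t • fderiv ℝ h t)
        ?_).1 h1
      intro t ht
      by_contra htS
      refine ht ?_
      show ψ t • fderiv ℝ h t = 0
      rw [hψz t htS]
      exact zero_smul ℝ (fderiv ℝ h t)
    have hAi : ∀ (e : E n), Integrable (fun t => fderiv ℝ φ (x - t) e • g t) := by
      intro e
      obtain ⟨B, hB⟩ := hS.exists_bound_of_continuousOn
        (f := fun t => fderiv ℝ ψ t e) (((hψc.continuous_fderiv (by simp)).clm_apply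
          continuous_const).continuousOn)
      refine Integrable.bdd_smul (φ := fun t => fderiv ℝ φ (x - t) e) hgi (max B 0) ?_ ?_
      · have h2 : Continuous (fun t => fderiv ℝ φ (x - t) e) :=
          (hfc.comp (continuous_const.sub continuous_id)).clm_apply continuous_const
        exact h2.aestronglyMeasurable
      · refine Eventually.of_forall fun t => ?_
        have h3 : ‖fderiv ℝ φ (x - t) e‖ = ‖fderiv ℝ ψ t e‖ := by rw [hψf, norm_neg]
        rw [h3]
        by_cases ht : t ∈ closedBall x δ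
        · exact (hB t ht).trans (le_max_left _ _)
        · rw [hfz t ht]; simp
    have hmain : ∀ (i : Fin n) (L : E n →L[ℝ] ℝ),
        L (fderiv ℝ (convolution φ g Lm volume) x (EuclideanSpace.single i (1 : ℝ))) =
        L ((∫ t, ψ t • fderiv ℝ h t) (EuclideanSpace.single i (1 : ℝ))) := by
      intro i L
      set e : E n := EuclideanSpace.single i (1 : ℝ) with he
      have hk := key hV hc hacl hdiff hψc hS (hx.trans hC1V) hψz (hint.mono_set hx) i L
      rw [← he] at hk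
      have h1 : L (fderiv ℝ (convolution φ g Lm volume) x e) =
          ∫ t, L (fderiv ℝ φ (x - t) e • g t) := by
        rw [hA e, ← L.integral_comp_comm (hAi e)]
      have h2 : L ((∫ t, ψ t • fderiv ℝ h t) e) = ∫ t, L ((ψ t • fderiv ℝ h t) e) := by
        rw [ContinuousLinearMap.integral_apply hBi, ← L.integral_comp_comm]
        exact (ContinuousLinearMap.apply ℝ (E n) e).integrable_comp hBi
      have h3 : Integrable (fun t => L (fderiv ℝ φ (x - t) e • g t)) := L.integrable_comp (hAi e)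
      have h4 : Integrable (fun t => L ((ψ t • fderiv ℝ h t) e)) :=
        L.integrable_comp ((ContinuousLinearMap.apply ℝ (E n) e).integrable_comp hBi)
      rw [h1, h2, ← sub_eq_zero, ← integral_sub h3 h4, ← neg_eq_zero, ← integral_neg, ← hk]
      refine integral_congr_ae (Eventually.of_forall fun t => ?_)
      simp only [map_smul, smul_eq_mul, smul_apply]
      by_cases ht : t ∈ closedBall x δ
      · have h5 : g t = h t := by simp [hg, hx ht]
        rw [h5, hψf]
        ring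
      · have h5 := hψf t e
        rw [hfz t ht] at h5
        have h6 : fderiv ℝ φ (x - t) e = 0 := by
          have := h5.symm
          simpa using this
        rw [h6, hfz t ht, hψz t ht]
        simp
    have hfin : ∀ i : Fin n, fderiv ℝ (convolution φ g Lm volume) x (EuclideanSpace.single i (1 : ℝ)) =
        (∫ t, ψ t • fderiv ℝ h t) (EuclideanSpace.single i (1 : ℝ)) := by
      intro i
      ext j
      exact hmain i (EuclideanSpace.proj j)
    have h7 := (EuclideanSpace.basisFun (Fin n) ℝ).toBasis.ext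
      (f₁ := (fderiv ℝ (convolution φ g Lm volume) x : E n →ₗ[ℝ] E n))
      (f₂ := ((∫ t, ψ t • fderiv ℝ h t : E n →L[ℝ] E n) : E n →ₗ[ℝ] E n)) (by
        intro i
        simpa using hfin i)
    exact ContinuousLinearMap.coe_injective h7

end Moll

end Pool.Agent.Lib.MPd8b51b
end

section
set_option autoImplicit false

/-!
# MP_d8b51b_an: module MOLL
-/

namespace Pool.Agent.Lib.MPd8b51b

open MeasureTheory Metric Set Filter Topology
open scoped ENNReal

namespace Moll

variable {n : ℕ}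

/-- the area inequality -/
lemma area {k : ℝ} {V : Set (E n)} {h : E n → E n} (hinj : InjOn h V) (hk : 0 ≤ k)
    (had : ∀ᵐ x : E n, x ∈ V → DifferentiableAt ℝ h x ∧
      ‖fderiv ℝ h x‖ ^ n ≤ k ^ n * |(fderiv ℝ h x).det|)
    {A : Set (E n)} (hA : MeasurableSet A) (hAV : A ⊆ V) (θ : E n → ℝ≥0∞) :
    ∫⁻ x in A, (θ (h x) * ‖fderiv ℝ h x‖ₑ) ^ n ≤
      ENNReal.ofReal k ^ n * ∫⁻ y in h '' A, θ y ^ n := by
  have hA'm : MeasurableSet (A ∩ {x | DifferentiableAt ℝ h x}) :=
    hA.inter (measurableSet_of_differentiableAt ℝ h)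
  have h1 : ∫⁻ y in h '' (A ∩ {x | DifferentiableAt ℝ h x}), θ y ^ n =
      ∫⁻ x in A ∩ {x | DifferentiableAt ℝ h x},
        ENNReal.ofReal |(fderiv ℝ h x).det| * θ (h x) ^ n :=
    lintegral_image_eq_lintegral_abs_det_fderiv_mul volume hA'm
      (fun x hx => (hx.2 : DifferentiableAt ℝ h x).hasFDerivAt.hasFDerivWithinAt)
      (hinj.mono (inter_subset_left.trans hAV)) _
  have h2 : A =ᵐ[volume] (A ∩ {x | DifferentiableAt ℝ h x} : Set (E n)) := by
    filter_upwards [had] with x hx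
    refine propext ⟨fun hxA => ⟨hxA, (hx (hAV hxA)).1⟩, fun hxA => hxA.1⟩
  calc ∫⁻ x in A, (θ (h x) * ‖fderiv ℝ h x‖ₑ) ^ n
      = ∫⁻ x in A ∩ {x | DifferentiableAt ℝ h x}, (θ (h x) * ‖fderiv ℝ h x‖ₑ) ^ n :=
        setLIntegral_congr h2
    _ ≤ ∫⁻ x in A ∩ {x | DifferentiableAt ℝ h x},
        ENNReal.ofReal k ^ n * (ENNReal.ofReal |(fderiv ℝ h x).det| * θ (h x) ^ n) := by
        refine setLIntegral_mono_ae' hA'm ?_
        filter_upwards [had] with x hx hxA
        have h3 := (hx (hAV hxA.1)).2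
        have h4 : ‖fderiv ℝ h x‖ₑ ^ n ≤ ENNReal.ofReal k ^ n * ENNReal.ofReal |(fderiv ℝ h x).det| := by
          rw [← ofReal_norm, ← ENNReal.ofReal_pow (norm_nonneg _), ← ENNReal.ofReal_pow hk,
            ← ENNReal.ofReal_mul (by positivity)]
          exact ENNReal.ofReal_le_ofReal h3
        rw [mul_pow]
        calc θ (h x) ^ n * ‖fderiv ℝ h x‖ₑ ^ n
            ≤ θ (h x) ^ n * (ENNReal.ofReal k ^ n * ENNReal.ofReal |(fderiv ℝ h x).det|) := by
              gcongr
          _ = _ := by ring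
    _ = ENNReal.ofReal k ^ n * ∫⁻ x in A ∩ {x | DifferentiableAt ℝ h x},
        ENNReal.ofReal |(fderiv ℝ h x).det| * θ (h x) ^ n :=
        lintegral_const_mul' _ _ (ENNReal.pow_ne_top ENNReal.ofReal_ne_top)
    _ = ENNReal.ofReal k ^ n * ∫⁻ y in h '' (A ∩ {x | DifferentiableAt ℝ h x}), θ y ^ n := by
        rw [h1]
    _ ≤ _ := by
        gcongr
        exact inter_subset_left

/-- choice of the neighbourhood -/
lemma choose {C : Set (E n)} (hC : IsClosed C) {δ₀ : ℝ} (hδ₀ : 0 < δ₀) {a d : E n → ℝ≥0∞}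
    (ha : Measurable a) (hd : Measurable d) (hdt : ∀ x, d x ≠ ∞)
    {B : ℝ≥0∞} (hB : B ≠ ∞) (haB : ∀ x ∈ cthickening δ₀ C, a x ≤ B)
    (hfin : ∫⁻ x in cthickening δ₀ C, d x ^ n ≠ ∞) {ε : ℝ≥0∞} (hε : ε ≠ 0) :
    ∃ η : ℝ, 0 < η ∧ ∃ δ : ℝ, 0 < δ ∧ δ ≤ δ₀ ∧
      ∫⁻ x in cthickening δ C, ((a x + ENNReal.ofReal η) * d x) ^ n ≤
        (∫⁻ x in C, (a x * d x) ^ n) + ε := by
  have hm0 : ∀ m : ℕ, (0 : ℝ) < 1 / ((m : ℝ) + 1) := fun m => by positivity
  have hm1 : ∀ m : ℕ, 1 / ((m : ℝ) + 1) ≤ 1 := fun m => by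
    rw [div_le_one (by positivity)]
    linarith [Nat.cast_nonneg (α := ℝ) m]
  have hsub : ∀ m : ℕ, cthickening (δ₀ * (1 / ((m : ℝ) + 1))) C ⊆ cthickening δ₀ C := fun m =>
    cthickening_mono (by nlinarith [hm1 m]) C
  have hCsub : C ⊆ cthickening δ₀ C := self_subset_cthickening C
  have hbm : ∫⁻ x, (cthickening δ₀ C).indicator (fun x => ((B + 1) * d x) ^ n) x ≠ ∞ := by
    rw [lintegral_indicator isClosed_cthickening.measurableSet]
    simp only [mul_pow]
    rw [lintegral_const_mul' _ _ (ENNReal.pow_ne_top (by simp [hB]))]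
    exact ENNReal.mul_ne_top (ENNReal.pow_ne_top (by simp [hB])) hfin
  have hlim := tendsto_lintegral_of_dominated_convergence (μ := (volume : Measure (E n)))
    (F := fun (m : ℕ) => (cthickening (δ₀ * (1 / ((m : ℝ) + 1))) C).indicator
      (fun x => ((a x + ENNReal.ofReal (1 / ((m : ℝ) + 1))) * d x) ^ n))
    (f := C.indicator (fun x => (a x * d x) ^ n))
    ((cthickening δ₀ C).indicator (fun x => ((B + 1) * d x) ^ n))
    (fun m => (((ha.add measurable_const).mul hd).pow_const n).indicator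
      isClosed_cthickening.measurableSet)
    (fun m => Eventually.of_forall fun x => by
      by_cases hx : x ∈ cthickening (δ₀ * (1 / ((m : ℝ) + 1))) C
      · rw [indicator_of_mem hx, indicator_of_mem (hsub m hx)]
        gcongr
        · exact haB x (hsub m hx)
        · exact ENNReal.ofReal_le_one.2 (hm1 m)
      · rw [indicator_of_notMem hx]
        exact zero_le)
    hbm
    (Eventually.of_forall fun x => by
      by_cases hx : x ∈ C
      · have h1 : ∀ m : ℕ, (cthickening (δ₀ * (1 / ((m : ℝ) + 1))) C).indicator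
            (fun x => ((a x + ENNReal.ofReal (1 / ((m : ℝ) + 1))) * d x) ^ n) x =
            ((a x + ENNReal.ofReal (1 / ((m : ℝ) + 1))) * d x) ^ n := fun m =>
          indicator_of_mem (self_subset_cthickening C hx) _
        simp only [h1, indicator_of_mem hx]
        have h2 : Tendsto (fun m : ℕ => ENNReal.ofReal (1 / ((m : ℝ) + 1))) atTop (𝓝 0) := by
          have := ENNReal.tendsto_ofReal (tendsto_one_div_add_atTop_nhds_zero_nat (𝕜 := ℝ))
          simpa using this
        have h3 : Tendsto (fun m : ℕ => a x + ENNReal.ofReal (1 / ((m : ℝ) + 1))) atTop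
            (𝓝 (a x)) := by
          simpa using (tendsto_const_nhds (x := a x)).add h2
        exact (ENNReal.continuous_pow n).continuousAt.tendsto.comp
          (ENNReal.Tendsto.mul_const h3 (Or.inr (hdt x)))
      · rw [indicator_of_notMem hx]
        have h1 : 0 < infEDist x C := by
          rw [pos_iff_ne_zero]
          intro h0
          exact hx (by simpa [hC.closure_eq] using mem_closure_iff_infEDist_zero.2 h0)
        have h2 : Tendsto (fun m : ℕ => ENNReal.ofReal (δ₀ * (1 / ((m : ℝ) + 1)))) atTop (𝓝 0) := by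
          have := ENNReal.tendsto_ofReal
            ((tendsto_one_div_add_atTop_nhds_zero_nat (𝕜 := ℝ)).const_mul δ₀)
          simpa using this
        refine tendsto_const_nhds.congr' ?_
        filter_upwards [(tendsto_order.1 h2).2 _ h1] with m hm
        rw [indicator_of_notMem]
        rw [mem_cthickening_iff, not_le]
        exact hm)
  have hI : ∫⁻ x, C.indicator (fun x => (a x * d x) ^ n) x ≠ ∞ := by
    refine ne_top_of_le_ne_top hbm (lintegral_mono fun x => ?_)
    by_cases hx : x ∈ C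
    · rw [indicator_of_mem hx, indicator_of_mem (hCsub hx)]
      gcongr
      exact (haB x (hCsub hx)).trans (le_add_right le_rfl)
    · rw [indicator_of_notMem hx]
      exact zero_le
  obtain ⟨m, hm⟩ := ((tendsto_order.1 hlim).2 _ (ENNReal.lt_add_right hI hε)).exists
  refine ⟨1 / ((m : ℝ) + 1), hm0 m, δ₀ * (1 / ((m : ℝ) + 1)), by positivity, by nlinarith [hm1 m], ?_⟩
  rw [lintegral_indicator isClosed_cthickening.measurableSet,
    lintegral_indicator hC.measurableSet] at hm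
  exact hm.le

end Moll

theorem specMoll : SpecMoll := by
  intro n k V h hn hk hV hc hinj hacl had C hCV hC θ hθc hθ0 ε hε
  have hdiff : ∀ᵐ x : E n, x ∈ V → DifferentiableAt ℝ h x := had.mono fun x hx hxV => (hx hxV).1
  obtain ⟨δ₀, hδ₀, hδ₀V⟩ := hC.exists_cthickening_subset_open hV hCV
  have hC1 : IsCompact (cthickening δ₀ C) := hC.cthickening
  have hC1m : MeasurableSet (cthickening δ₀ C) := hC1.isClosed.measurableSet
  have hC1c : ContinuousOn h (cthickening δ₀ C) := hc.mono hδ₀V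
  have hDm : Measurable (fderiv ℝ h) := measurable_fderiv ℝ h
  -- finite energy
  have hfin : ∫⁻ x in cthickening δ₀ C, ‖fderiv ℝ h x‖ₑ ^ n ≠ ∞ := by
    have h1 := Moll.area hinj hk had hC1m hδ₀V (fun _ => 1)
    simp only [one_mul, one_pow, lintegral_const, MeasurableSet.univ, Measure.restrict_apply,
      univ_inter] at h1
    refine ne_top_of_le_ne_top ?_ h1
    exact ENNReal.mul_ne_top (ENNReal.pow_ne_top ENNReal.ofReal_ne_top)
      (hC1.image_of_continuousOn hC1c).measure_lt_top.ne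
  have hint : IntegrableOn (fun x => fderiv ℝ h x) (cthickening δ₀ C) := by
    refine ⟨hDm.aestronglyMeasurable, ?_⟩
    unfold HasFiniteIntegral
    refine lt_of_le_of_lt (lintegral_mono (g := fun x => 1 + ‖fderiv ℝ h x‖ₑ ^ n) fun x => ?_) ?_
    · rcases le_total ‖fderiv ℝ h x‖ₑ 1 with h1 | h1
      · exact h1.trans (le_add_right le_rfl)
      · calc ‖fderiv ℝ h x‖ₑ ≤ ‖fderiv ℝ h x‖ₑ ^ n := le_self_pow₀ h1 (by omega)
          _ ≤ _ := le_add_left le_rfl
    · rw [lintegral_add_left measurable_const]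
      refine ENNReal.add_lt_top.2 ⟨?_, hfin.lt_top⟩
      simpa using hC1.measure_lt_top
  -- a measurable version of `h`
  set h0 : E n → E n := (cthickening δ₀ C).indicator h with hh0
  have hh0m : Measurable h0 := by
    classical
    have h1 : Measurable ((cthickening δ₀ C).piecewise h (fun _ => (0 : E n))) :=
      hC1c.measurable_piecewise continuousOn_const hC1m
    have h2 : h0 = (cthickening δ₀ C).piecewise h (fun _ => (0 : E n)) := by
      funext x
      by_cases hx : x ∈ cthickening δ₀ C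
      · simp [hh0, hx]
      · simp [hh0, hx]
    rw [h2]
    exact h1
  have hh0e : ∀ x ∈ cthickening δ₀ C, h0 x = h x := fun x hx => by simp [hh0, hx]
  obtain ⟨R, hR⟩ := hC1.exists_bound_of_continuousOn hC1c
  obtain ⟨B, hB⟩ := (isCompact_closedBall (0 : E n) (R + 1)).exists_bound_of_continuousOn
    hθc.continuousOn
  have hRin : ∀ x ∈ cthickening δ₀ C, h x ∈ closedBall (0 : E n) (R + 1) := fun x hx => by
    rw [mem_closedBall_zero_iff]
    linarith [hR x hx]
  obtain ⟨η, hη, δ₁, hδ₁, hδ₁₀, hmain⟩ := Moll.choose (n := n) hC.isClosed hδ₀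
    (a := fun x => ENNReal.ofReal (θ (h0 x))) (d := fun x => ‖fderiv ℝ h x‖ₑ)
    ((hθc.measurable.comp hh0m).ennreal_ofReal) hDm.enorm (fun x => enorm_ne_top) (B := ENNReal.ofReal B) ENNReal.ofReal_ne_top
    (fun x hx => by
      rw [hh0e x hx]
      exact ENNReal.ofReal_le_ofReal ((le_abs_self _).trans (hB _ (hRin x hx))))
    hfin (ε := ENNReal.ofReal ε) (by simpa using hε)
  have hA1 : cthickening δ₁ C ⊆ cthickening δ₀ C := cthickening_mono hδ₁₀ C
  have hAm : MeasurableSet (cthickening δ₁ C) := isClosed_cthickening.measurableSet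
  -- uniform continuity
  obtain ⟨τ, hτ, hτ'⟩ := Metric.uniformContinuousOn_iff.1
    ((isCompact_closedBall (0 : E n) (R + 1)).uniformContinuousOn_of_continuous hθc.continuousOn)
    η hη
  obtain ⟨ε₁, hε₁, hε₁ε, hε₁τ, hε₁1⟩ : ∃ ε₁ : ℝ, 0 < ε₁ ∧ ε₁ ≤ ε ∧ 2 * ε₁ < τ ∧ ε₁ ≤ 1 := by
    refine ⟨min (min ε (τ / 3)) 1, by positivity, ?_, ?_, min_le_right _ _⟩
    · exact (min_le_left _ _).trans (min_le_left _ _)
    · have := (min_le_left (min ε (τ / 3)) 1).trans (min_le_right _ _)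
      linarith
  obtain ⟨δ₂, hδ₂, hδ₂'⟩ := Metric.uniformContinuousOn_iff.1
    (hC1.uniformContinuousOn_of_continuous hC1c) ε₁ hε₁
  set δ : ℝ := min δ₁ δ₂ with hδ
  have hδ0 : 0 < δ := lt_min hδ₁ hδ₂
  obtain ⟨φ, F, hφc, hφ0, hφ1, hφz, hFc, hFd, hDF⟩ :=
    Moll.mollify hV hc hacl hdiff hC1 hδ₀V hint hδ0
  have hball : ∀ x ∈ C, closedBall x δ ⊆ cthickening δ₁ C := fun x hx t ht =>
    mem_cthickening_of_dist_le _ _ _ _ hx ((mem_closedBall.1 ht).trans (min_le_left _ _))
  have hFx : ∀ x ∈ C, dist (F x) (h x) ≤ ε₁ := by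
    intro x hx
    refine hFd x ε₁ (ball_subset_closedBall.trans ((hball x hx).trans hA1)) fun t ht => ?_
    have h1 : t ∈ cthickening δ₀ C := hA1 (hball x hx (ball_subset_closedBall ht))
    have h2 : x ∈ cthickening δ₀ C := self_subset_cthickening C hx
    exact (hδ₂' t h1 x h2 (lt_of_lt_of_le (mem_ball.1 ht) (min_le_right _ _))).le
  refine ⟨F, hFc, fun x hx => ?_, ?_⟩
  · rw [← dist_eq_norm]
    exact (hFx x hx).trans hε₁ε
  set w : E n → ℝ≥0∞ := (cthickening δ₁ C).indicator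
    (fun t => (ENNReal.ofReal (θ (h0 t)) + ENNReal.ofReal η) * ‖fderiv ℝ h t‖ₑ) with hw
  have hwm : Measurable w :=
    ((((hθc.measurable.comp hh0m).ennreal_ofReal).add measurable_const).mul hDm.enorm).indicator hAm
  have hpt : ∀ x ∈ C, (ENNReal.ofReal (θ (F x)) * ‖fderiv ℝ F x‖ₑ) ^ n ≤
      ∫⁻ t, ENNReal.ofReal (φ (x - t)) * w t ^ n := by
    intro x hx
    have hcb := hball x hx
    have hFxb : F x ∈ closedBall (0 : E n) (R + 1) := by
      rw [mem_closedBall_zero_iff]
      have h1 : ‖F x‖ ≤ ‖h x‖ + dist (F x) (h x) := by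
        rw [dist_eq_norm]
        calc ‖F x‖ = ‖h x + (F x - h x)‖ := by congr 1; abel
          _ ≤ _ := norm_add_le _ _
      linarith [hFx x hx, hR x (self_subset_cthickening C hx)]
    have h1 : ENNReal.ofReal (θ (F x)) * ‖fderiv ℝ F x‖ₑ ≤
        ∫⁻ t, ENNReal.ofReal (φ (x - t)) * w t := by
      rw [hDF x (hcb.trans hA1)]
      calc ENNReal.ofReal (θ (F x)) * ‖∫ t, φ (x - t) • fderiv ℝ h t‖ₑ
          ≤ ENNReal.ofReal (θ (F x)) * ∫⁻ t, ‖φ (x - t) • fderiv ℝ h t‖ₑ := by
            gcongr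
            exact enorm_integral_le_lintegral_enorm _
        _ = ∫⁻ t, ENNReal.ofReal (θ (F x)) * ‖φ (x - t) • fderiv ℝ h t‖ₑ :=
            (lintegral_const_mul' _ _ ENNReal.ofReal_ne_top).symm
        _ ≤ ∫⁻ t, ENNReal.ofReal (φ (x - t)) * w t := by
            refine lintegral_mono fun t => ?_
            simp only
            by_cases ht : t ∈ ball x δ
            · have htA : t ∈ cthickening δ₁ C := hcb (ball_subset_closedBall ht)
              have ht1 : t ∈ cthickening δ₀ C := hA1 htA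
              have h2 : w t = (ENNReal.ofReal (θ (h t)) + ENNReal.ofReal η) * ‖fderiv ℝ h t‖ₑ := by
                rw [hw, indicator_of_mem htA, hh0e t ht1]
              have h3 : dist (F x) (h t) < τ := by
                have h4 : dist (h x) (h t) < ε₁ := by
                  refine hδ₂' x (self_subset_cthickening C hx) t ht1 ?_
                  rw [dist_comm]
                  exact lt_of_lt_of_le (mem_ball.1 ht) (min_le_right _ _)
                calc dist (F x) (h t) ≤ dist (F x) (h x) + dist (h x) (h t) := dist_triangle _ _ _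
                  _ < τ := by linarith [hFx x hx]
              have h5 : θ (F x) ≤ θ (h t) + η := by
                have h6 := hτ' (F x) hFxb (h t) (hRin t ht1) h3
                rw [Real.dist_eq, abs_lt] at h6
                linarith [h6.2]
              have h7 : ENNReal.ofReal (θ (F x)) ≤ ENNReal.ofReal (θ (h t)) + ENNReal.ofReal η := by
                rw [← ENNReal.ofReal_add (hθ0 _) hη.le]
                exact ENNReal.ofReal_le_ofReal h5
              have h8 : ‖φ (x - t) • fderiv ℝ h t‖ₑ =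
                  ENNReal.ofReal (φ (x - t)) * ‖fderiv ℝ h t‖ₑ := by
                rw [enorm_smul, Real.enorm_of_nonneg (hφ0 _)]
              rw [h2, h8]
              calc ENNReal.ofReal (θ (F x)) * (ENNReal.ofReal (φ (x - t)) * ‖fderiv ℝ h t‖ₑ)
                  = ENNReal.ofReal (φ (x - t)) * (ENNReal.ofReal (θ (F x)) * ‖fderiv ℝ h t‖ₑ) := by
                    ring
                _ ≤ _ := by gcongr
            · have h2 : φ (x - t) = 0 := by
                refine hφz _ ?_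
                rw [mem_ball, dist_eq_norm, not_lt, norm_sub_rev] at ht
                exact ht
              have h8 : ‖φ (x - t) • fderiv ℝ h t‖ₑ =
                  ENNReal.ofReal (φ (x - t)) * ‖fderiv ℝ h t‖ₑ := by
                rw [enorm_smul, Real.enorm_of_nonneg (hφ0 _)]
              rw [h8, h2, ENNReal.ofReal_zero, zero_mul, mul_zero]
              exact zero_le
    refine (pow_le_pow_left' h1 n).trans ?_
    refine Moll.jensen volume ?_ hwm ?_ hn
    · exact (hφc.comp (continuous_const.sub continuous_id)).measurable.ennreal_ofReal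
    · rw [lintegral_sub_left_eq_self (fun t => ENNReal.ofReal (φ t)) x, hφ1]
  have hTon : ∫⁻ x : E n, ∫⁻ t : E n, ENNReal.ofReal (φ (x - t)) * w t ^ n = ∫⁻ t, w t ^ n := by
    rw [lintegral_lintegral_swap]
    · refine lintegral_congr fun t => ?_
      have h1 : Measurable (fun x : E n => ENNReal.ofReal (φ (x - t))) :=
        (hφc.comp (continuous_id.sub continuous_const)).measurable.ennreal_ofReal
      rw [lintegral_mul_const _ h1,
        lintegral_sub_right_eq_self (fun x => ENNReal.ofReal (φ x)) t, hφ1, one_mul]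
    · refine Measurable.aemeasurable ?_
      have h1 : Measurable (fun z : E n × E n => ENNReal.ofReal (φ (z.1 - z.2))) :=
        (hφc.comp (continuous_fst.sub continuous_snd)).measurable.ennreal_ofReal
      exact h1.mul ((hwm.comp measurable_snd).pow_const n)
  have hC1 : ∫⁻ x in C, (ENNReal.ofReal (θ (h0 x)) * ‖fderiv ℝ h x‖ₑ) ^ n ≤
      ENNReal.ofReal k ^ n * ∫⁻ y in h '' C, ENNReal.ofReal (θ y) ^ n := by
    have h1 := Moll.area hinj hk had hC.isClosed.measurableSet hCV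
      (fun y => ENNReal.ofReal (θ y))
    refine le_trans (le_of_eq ?_) h1
    refine setLIntegral_congr_fun hC.isClosed.measurableSet fun x hx => ?_
    rw [hh0e x (self_subset_cthickening C hx)]
  calc ∫⁻ x in C, (ENNReal.ofReal (θ (F x)) * ‖fderiv ℝ F x‖ₑ) ^ n
      ≤ ∫⁻ x in C, ∫⁻ t, ENNReal.ofReal (φ (x - t)) * w t ^ n :=
        setLIntegral_mono' hC.isClosed.measurableSet hpt
    _ ≤ ∫⁻ x, ∫⁻ t, ENNReal.ofReal (φ (x - t)) * w t ^ n := setLIntegral_le_lintegral _ _
    _ = ∫⁻ t, w t ^ n := hTon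
    _ = ∫⁻ t in cthickening δ₁ C,
        ((ENNReal.ofReal (θ (h0 t)) + ENNReal.ofReal η) * ‖fderiv ℝ h t‖ₑ) ^ n := by
        rw [← lintegral_indicator hAm]
        refine lintegral_congr fun t => ?_
        by_cases ht : t ∈ cthickening δ₁ C
        · rw [hw, indicator_of_mem ht, indicator_of_mem ht]
        · rw [hw, indicator_of_notMem ht, indicator_of_notMem ht, zero_pow (by omega)]
    _ ≤ (∫⁻ x in C, (ENNReal.ofReal (θ (h0 x)) * ‖fderiv ℝ h x‖ₑ) ^ n) + ENNReal.ofReal ε := hmain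
    _ ≤ ENNReal.ofReal k ^ n * (∫⁻ y in h '' C, ENNReal.ofReal (θ y) ^ n) + ENNReal.ofReal ε := by
        gcongr

end Pool.Agent.Lib.MPd8b51b
end

section
set_option autoImplicit false

/-!
# MP_d8b51b_an: module PAIR, the `L^p` segment inequality on a compact convex set
-/

namespace Pool.Agent.Lib.MPd8b51b

open MeasureTheory Metric Set
open scoped ENNReal

/-- Jensen for `[0, 1]`. -/
lemma PAIR.jensen (f : ℝ → ℝ≥0∞) (hf : Measurable f) (p : ℕ) (hp : 1 ≤ p) :
    (∫⁻ s in Icc (0 : ℝ) 1, f s) ^ p ≤ ∫⁻ s in Icc (0 : ℝ) 1, f s ^ p := by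
  have hprob : IsProbabilityMeasure (volume.restrict (Icc (0 : ℝ) 1)) :=
    ⟨by rw [Measure.restrict_apply_univ, Real.volume_Icc]; simp⟩
  have hp0 : (0 : ℝ) < p := by exact_mod_cast hp
  have h := eLpNorm'_le_eLpNorm'_of_exponent_le (f := f) (p := 1) (q := (p : ℝ)) one_pos
    (by exact_mod_cast hp) (volume.restrict (Icc (0 : ℝ) 1)) hf.aestronglyMeasurable
  rw [eLpNorm'_eq_lintegral_enorm, eLpNorm'_eq_lintegral_enorm] at h
  simp only [enorm_eq_self, ENNReal.rpow_one, one_div, inv_one, ENNReal.rpow_natCast] at h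
  calc (∫⁻ s in Icc (0 : ℝ) 1, f s) ^ p
      ≤ ((∫⁻ s in Icc (0 : ℝ) 1, f s ^ p) ^ ((p : ℝ)⁻¹)) ^ p := by gcongr
    _ = _ := by
      rw [← ENNReal.rpow_natCast, ← ENNReal.rpow_mul, inv_mul_cancel₀ hp0.ne', ENNReal.rpow_one]

/-- The mean value inequality in integral form. -/
lemma PAIR.segment {V G : Type*} [NormedAddCommGroup V] [NormedSpace ℝ V]
    [NormedAddCommGroup G] [NormedSpace ℝ G] [CompleteSpace G] (F : V → G) (hF : ContDiff ℝ 1 F)
    (p : ℕ) (hp : 1 ≤ p) (x y : V) :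
    ‖F x - F y‖ₑ ^ p ≤
      ‖x - y‖ₑ ^ p * ∫⁻ s in Icc (0 : ℝ) 1, ‖fderiv ℝ F (y + s • (x - y))‖ₑ ^ p := by
  have hc : Continuous fun s : ℝ => fderiv ℝ F (y + s • (x - y)) :=
    (hF.continuous_fderiv one_ne_zero).comp (by fun_prop)
  have hderiv : ∀ s ∈ uIcc (0 : ℝ) 1, HasDerivAt (fun s : ℝ => F (y + s • (x - y)))
      (fderiv ℝ F (y + s • (x - y)) (x - y)) s := by
    intro s _
    have h1 : HasDerivAt (fun s : ℝ => y + s • (x - y)) (x - y) s := by
      simpa using ((hasDerivAt_id s).smul_const (x - y)).const_add y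
    have h2 : HasFDerivAt F (fderiv ℝ F (y + s • (x - y))) (y + s • (x - y)) :=
      (hF.differentiable one_ne_zero _).hasFDerivAt
    exact h2.comp_hasDerivAt s h1
  have hint : IntervalIntegrable (fun s : ℝ => fderiv ℝ F (y + s • (x - y)) (x - y)) volume 0 1 :=
    (hc.clm_apply continuous_const).intervalIntegrable _ _
  have hFTC := intervalIntegral.integral_eq_sub_of_hasDerivAt hderiv hint
  simp only [one_smul, zero_smul, add_zero, add_sub_cancel] at hFTC
  have h1 : ‖F x - F y‖ₑ ≤ ‖x - y‖ₑ * ∫⁻ s in Icc (0 : ℝ) 1, ‖fderiv ℝ F (y + s • (x - y))‖ₑ := by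
    rw [← hFTC, intervalIntegral.integral_of_le zero_le_one]
    refine (enorm_integral_le_lintegral_enorm _).trans ?_
    rw [← lintegral_const_mul _ hc.enorm.measurable]
    refine (lintegral_mono_set Ioc_subset_Icc_self).trans (lintegral_mono fun s => ?_)
    calc ‖fderiv ℝ F (y + s • (x - y)) (x - y)‖ₑ
        ≤ ‖fderiv ℝ F (y + s • (x - y))‖ₑ * ‖x - y‖ₑ :=
          ContinuousLinearMap.le_opENorm _ _
      _ = _ := mul_comm _ _
  calc ‖F x - F y‖ₑ ^ p
      ≤ (‖x - y‖ₑ * ∫⁻ s in Icc (0 : ℝ) 1, ‖fderiv ℝ F (y + s • (x - y))‖ₑ) ^ p := by gcongr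
    _ = ‖x - y‖ₑ ^ p * (∫⁻ s in Icc (0 : ℝ) 1, ‖fderiv ℝ F (y + s • (x - y))‖ₑ) ^ p :=
        mul_pow _ _ _
    _ ≤ _ := by
      gcongr
      exact PAIR.jensen _ hc.enorm.measurable p hp

section

variable {V : Type*} [NormedAddCommGroup V] [NormedSpace ℝ V] [FiniteDimensional ℝ V]
  [MeasurableSpace V] [BorelSpace V] (μ : Measure V) [μ.IsAddHaarMeasure]

/-- Scaling towards a point of a convex set. -/
lemma PAIR.scale {K : Set V} (hK : Convex ℝ K) (hKm : MeasurableSet K) (g : V → ℝ≥0∞)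
    (hg : Measurable g) {s : ℝ} (hs0 : 0 ≤ s) (hs : s ≤ 1 / 2) {x : V} (hx : x ∈ K) :
    ∫⁻ y in K, g ((1 - s) • y + s • x) ∂μ ≤ 2 ^ Module.finrank ℝ V * ∫⁻ y in K, g y ∂μ := by
  have hs1 : (1 - s) ≠ 0 := by linarith
  have hs2 : 0 < 1 - s := by linarith
  have h1 : ∫⁻ y in K, g ((1 - s) • y + s • x) ∂μ ≤
      ∫⁻ y, K.indicator g ((1 - s) • y + s • x) ∂μ := by
    rw [← lintegral_indicator hKm]
    refine lintegral_mono fun y => ?_
    by_cases hy : y ∈ K
    · rw [indicator_of_mem hy, indicator_of_mem]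
      exact hK hy hx (by linarith) hs0 (by ring)
    · rw [indicator_of_notMem hy]
      exact zero_le
  refine h1.trans ?_
  have h2 : ∫⁻ y, K.indicator g ((1 - s) • y + s • x) ∂μ =
      ∫⁻ z, K.indicator g (z + s • x) ∂(Measure.map ((1 - s) • ·) μ) := by
    rw [lintegral_map]
    · exact (hg.indicator hKm).comp (measurable_id.add_const _)
    · exact measurable_const_smul (1 - s)
  rw [h2, Measure.map_addHaar_smul μ hs1, lintegral_smul_measure,
    lintegral_add_right_eq_self (fun z => K.indicator g z) (s • x), lintegral_indicator hKm,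
    smul_eq_mul]
  gcongr
  rw [abs_of_nonneg (by positivity : (0 : ℝ) ≤ ((1 - s) ^ Module.finrank ℝ V)⁻¹), ← inv_pow]
  calc ENNReal.ofReal ((1 - s)⁻¹ ^ Module.finrank ℝ V)
      ≤ ENNReal.ofReal (2 ^ Module.finrank ℝ V) := by
        refine ENNReal.ofReal_le_ofReal (pow_le_pow_left₀ (by positivity) ?_ _)
        rw [inv_le_comm₀ (by linarith) (by norm_num)]
        linarith
    _ = _ := by rw [ENNReal.ofReal_pow (by norm_num)]; simp

end

theorem specPair : SpecPair := by
  intro V _ _ _ _ _ μ _ G _ _ _ K F p hp hK hKc hF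
  have hKm : MeasurableSet K := hKc.measurableSet
  set g : V → ℝ≥0∞ := fun x => ‖fderiv ℝ F x‖ₑ ^ p with hgdef
  have hgc : Continuous g := (ENNReal.continuous_pow p).comp (hF.continuous_fderiv one_ne_zero).enorm
  have hg : Measurable g := hgc.measurable
  set m := Module.finrank ℝ V with hm
  -- for each `s` the double integral is bounded
  have hs : ∀ s ∈ Icc (0 : ℝ) 1, ∫⁻ x in K, (∫⁻ y in K, g (y + s • (x - y)) ∂μ) ∂μ ≤
      2 ^ m * μ K * ∫⁻ x in K, g x ∂μ := by
    intro s hs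
    have hmeas : Measurable (Function.uncurry fun x y : V => g (y + s • (x - y))) := by
      refine hg.comp ?_
      fun_prop
    rcases le_total s (1 / 2) with h | h
    · calc ∫⁻ x in K, (∫⁻ y in K, g (y + s • (x - y)) ∂μ) ∂μ
          ≤ ∫⁻ _x in K, (2 ^ m * ∫⁻ y in K, g y ∂μ) ∂μ := by
            refine setLIntegral_mono' hKm fun x hx => ?_
            have h1 := PAIR.scale μ hK hKm g hg hs.1 h hx
            refine le_trans (le_of_eq ?_) h1
            refine lintegral_congr fun y => ?_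
            congr 1
            module
        _ = 2 ^ m * μ K * ∫⁻ x in K, g x ∂μ := by
            rw [lintegral_const, Measure.restrict_apply_univ]
            ring
    · rw [lintegral_lintegral_swap hmeas.aemeasurable]
      calc ∫⁻ y in K, (∫⁻ x in K, g (y + s • (x - y)) ∂μ) ∂μ
          ≤ ∫⁻ _x in K, (2 ^ m * ∫⁻ y in K, g y ∂μ) ∂μ := by
            refine setLIntegral_mono' hKm fun y hy => ?_
            have h1 := PAIR.scale μ hK hKm g hg (s := 1 - s) (by linarith [hs.2]) (by linarith) hy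
            refine le_trans (le_of_eq ?_) h1
            refine lintegral_congr fun x => ?_
            congr 1
            module
        _ = 2 ^ m * μ K * ∫⁻ x in K, g x ∂μ := by
            rw [lintegral_const, Measure.restrict_apply_univ]
            ring
  have hmeas3 : Measurable (fun q : (V × V) × ℝ => g (q.1.2 + q.2 • (q.1.1 - q.1.2))) := by
    refine hg.comp ?_
    fun_prop
  calc ∫⁻ x in K, (∫⁻ y in K, ‖F x - F y‖ₑ ^ p ∂μ) ∂μ
      ≤ ∫⁻ x in K, (∫⁻ y in K, (Metric.ediam K ^ p *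
          ∫⁻ s in Icc (0 : ℝ) 1, g (y + s • (x - y))) ∂μ) ∂μ := by
        refine setLIntegral_mono' hKm fun x hx => setLIntegral_mono' hKm fun y hy => ?_
        refine (PAIR.segment F hF p hp x y).trans ?_
        gcongr
        rw [← edist_eq_enorm_sub]
        exact Metric.edist_le_ediam_of_mem hx hy
    _ = Metric.ediam K ^ p * ∫⁻ x in K, (∫⁻ y in K,
          (∫⁻ s in Icc (0 : ℝ) 1, g (y + s • (x - y))) ∂μ) ∂μ := by
        have hm1 : ∀ x : V, Measurable fun y : V => ∫⁻ s in Icc (0 : ℝ) 1, g (y + s • (x - y)) := by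
          intro x
          refine Measurable.lintegral_prod_right' (f := fun q : V × ℝ => g (q.1 + q.2 • (x - q.1))) ?_
          exact hg.comp (by fun_prop)
        have hm2 : Measurable fun x : V => ∫⁻ y in K,
            (∫⁻ s in Icc (0 : ℝ) 1, g (y + s • (x - y))) ∂μ := by
          refine Measurable.lintegral_prod_right'
            (f := fun q : V × V => ∫⁻ s in Icc (0 : ℝ) 1, g (q.2 + s • (q.1 - q.2))) ?_
          exact Measurable.lintegral_prod_right' hmeas3
        rw [← lintegral_const_mul _ hm2]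
        refine lintegral_congr fun x => ?_
        rw [lintegral_const_mul _ (hm1 x)]
    _ = Metric.ediam K ^ p * ∫⁻ s in Icc (0 : ℝ) 1,
          (∫⁻ x in K, (∫⁻ y in K, g (y + s • (x - y)) ∂μ) ∂μ) := by
        congr 1
        have h1 : ∀ x : V, ∫⁻ y in K, (∫⁻ s in Icc (0 : ℝ) 1, g (y + s • (x - y))) ∂μ =
            ∫⁻ s in Icc (0 : ℝ) 1, (∫⁻ y in K, g (y + s • (x - y)) ∂μ) := by
          intro x
          refine lintegral_lintegral_swap (Measurable.aemeasurable ?_)
          exact hg.comp (by fun_prop)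
        simp_rw [h1]
        refine lintegral_lintegral_swap (Measurable.aemeasurable ?_)
        refine Measurable.lintegral_prod_right'
          (f := fun q : (V × ℝ) × V => g (q.2 + q.1.2 • (q.1.1 - q.2))) ?_
        exact hg.comp (by fun_prop)
    _ ≤ Metric.ediam K ^ p * ∫⁻ _s in Icc (0 : ℝ) 1, (2 ^ m * μ K * ∫⁻ x in K, g x ∂μ) := by
        exact mul_le_mul_right (setLIntegral_mono' measurableSet_Icc hs) _
    _ = 2 ^ m * Metric.ediam K ^ p * μ K * ∫⁻ x in K, g x ∂μ := by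
        rw [lintegral_const, Measure.restrict_apply_univ, Real.volume_Icc]
        simp only [sub_zero, ENNReal.ofReal_one, mul_one]
        ring

end Pool.Agent.Lib.MPd8b51b
end

section
set_option autoImplicit false

/-!
# MP_d8b51b_an: module SECT (lifts of triangles)
-/

namespace Pool.Agent.Lib.MPd8b51b

open Metric Set Filter
open scoped Topology

namespace Sect

variable {n : ℕ}

/-- two lifts over a preconnected set that agree at one point agree everywhere -/
lemma unique_lift {α : Type*} [TopologicalSpace α] {f : E n → E n} {A : Set α}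
    (hA : IsPreconnected A) {s s' : α → E n} (hs : ContinuousOn s A) (hs' : ContinuousOn s' A)
    (hloc : ∀ a ∈ A, s a = s' a → ∃ V : Set (E n), IsOpen V ∧ s a ∈ V ∧ InjOn f V)
    (he : ∀ a ∈ A, f (s a) = f (s' a)) {a₀ : α} (ha₀ : a₀ ∈ A) (h₀ : s a₀ = s' a₀) :
    ∀ a ∈ A, s a = s' a := by
  have hpre : PreconnectedSpace A := isPreconnected_iff_preconnectedSpace.1 hA
  have hc : Continuous (fun a : A => s a) := continuousOn_iff_continuous_domRestrict.1 hs
  have hc' : Continuous (fun a : A => s' a) := continuousOn_iff_continuous_domRestrict.1 hs'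
  have hcl : IsClopen {a : A | s a = s' a} := by
    constructor
    · exact isClosed_eq hc hc'
    · rw [isOpen_iff_mem_nhds]
      intro a ha
      have ha' : s a = s' a := ha
      obtain ⟨V, hVo, haV, hinj⟩ := hloc a a.2 ha'
      have h1 : ∀ᶠ b : A in 𝓝 a, s b ∈ V := hc.continuousAt (hVo.mem_nhds haV)
      have h2 : ∀ᶠ b : A in 𝓝 a, s' b ∈ V := hc'.continuousAt (hVo.mem_nhds (ha' ▸ haV))
      filter_upwards [h1, h2] with b hb hb'
      exact hinj hb hb' (he b b.2)
  have huniv := hcl.eq_univ ⟨⟨a₀, ha₀⟩, h₀⟩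
  intro a ha
  have : (⟨a, ha⟩ : A) ∈ {a : A | s a = s' a} := huniv ▸ mem_univ _
  exact this

/-- a section with values in an open set on which `f` is injective is continuous -/
lemma cont_section {f : E n → E n} {V : Set (E n)} (hV : IsOpen V)
    (hop : ∀ W : Set (E n), IsOpen W → W ⊆ V → IsOpen (f '' W)) (hinj : InjOn f V)
    {s : E n → E n} {B : Set (E n)} (hs : ∀ q ∈ B, s q ∈ V ∧ f (s q) = q) : ContinuousOn s B := by
  intro q hq W hW
  obtain ⟨W', hW'W, hW'o, hqW'⟩ := _root_.mem_nhds_iff.1 hW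
  rw [Filter.mem_map, mem_nhdsWithin]
  refine ⟨f '' (W' ∩ V), hop _ (hW'o.inter hV) inter_subset_right,
    ⟨s q, ⟨hqW', (hs q hq).1⟩, (hs q hq).2⟩, ?_⟩
  rintro q' ⟨⟨x, ⟨hxW, hxV⟩, hx⟩, hq'B⟩
  have h1 := hs q' hq'B
  have h2 : s q' = x := hinj h1.1 hxV (h1.2.trans hx.symm)
  exact hW'W (h2 ▸ hxW)

lemma pt_zero_zero (y y' w : E n) : pt y y' w 0 0 = y := by simp [pt]

lemma pt_one (y y' w : E n) (u : ℝ) : pt y y' w u 1 = w := by simp [pt]

lemma continuous_pt (y y' : E n) : Continuous (fun q : E n × ℝ × ℝ => pt y y' q.1 q.2.1 q.2.2) := by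
  unfold pt
  fun_prop

/-- the triangle of a point of a triangle is contained in the triangle -/
lemma pt_pt (y y' w : E n) {u τ u' τ' : ℝ} (hu : u ∈ Icc (0 : ℝ) 1) (hτ : τ ∈ Icc (0 : ℝ) 1)
    (hu' : u' ∈ Icc (0 : ℝ) 1) (hτ' : τ' ∈ Icc (0 : ℝ) 1) :
    ∃ u'' ∈ Icc (0 : ℝ) 1, pt y y' (pt y y' w u τ) u' τ' = pt y y' w u'' (τ' * τ) := by
  rcases eq_or_ne (τ' * τ) 1 with h1 | h1
  · have ht : τ = 1 := by nlinarith [hτ.1, hτ.2, hτ'.1, hτ'.2]
    have ht' : τ' = 1 := by nlinarith [hτ.1, hτ.2, hτ'.1, hτ'.2]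
    subst ht ht'
    exact ⟨0, ⟨le_rfl, zero_le_one⟩, by simp [pt]⟩
  · have hlt : τ' * τ < 1 := lt_of_le_of_ne (mul_le_one₀ hτ'.2 hτ.1 hτ.2) h1
    have hpos : 0 < 1 - τ' * τ := by linarith
    have ha : 0 ≤ (1 - τ') * u' + τ' * (1 - τ) * u :=
      add_nonneg (mul_nonneg (by linarith [hτ'.2]) hu'.1)
        (mul_nonneg (mul_nonneg hτ'.1 (by linarith [hτ.2])) hu.1)
    have hb : (1 - τ') * u' + τ' * (1 - τ) * u ≤ 1 - τ' * τ := by
      have e1 : (1 - τ') * u' ≤ (1 - τ') := mul_le_of_le_one_right (by linarith [hτ'.2]) hu'.2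
      have e2 : τ' * (1 - τ) * u ≤ τ' * (1 - τ) :=
        mul_le_of_le_one_right (mul_nonneg hτ'.1 (by linarith [hτ.2])) hu.2
      nlinarith
    refine ⟨((1 - τ') * u' + τ' * (1 - τ) * u) / (1 - τ' * τ),
      ⟨div_nonneg ha hpos.le, (div_le_one hpos).2 hb⟩, ?_⟩
    have key : (1 - τ' * τ) * (((1 - τ') * u' + τ' * (1 - τ) * u) / (1 - τ' * τ)) =
        (1 - τ') * u' + τ' * (1 - τ) * u := mul_div_cancel₀ _ hpos.ne'
    have e3 : (1 - τ' * τ) * (1 - ((1 - τ') * u' + τ' * (1 - τ) * u) / (1 - τ' * τ)) =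
        (1 - τ' * τ) - ((1 - τ') * u' + τ' * (1 - τ) * u) := by rw [mul_sub, key, mul_one]
    unfold pt
    rw [smul_add (1 - τ' * τ), smul_smul, smul_smul, key, e3]
    module

/-- the affine coordinates -/
lemma isPreconnected_tri (y y' w : E n) (T : Set ℝ) (hT : Convex ℝ T) :
    IsPreconnected ((fun q : ℝ × ℝ => pt y y' w q.1 q.2) '' (Icc (0 : ℝ) 1 ×ˢ T)) := by
  refine ((convex_Icc (0 : ℝ) 1).prod hT).isPreconnected.image _ ?_
  have : Continuous (fun q : ℝ × ℝ => pt y y' w q.1 q.2) := by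
    unfold pt
    fun_prop
  exact this.continuousOn

/-- the trapezoid below the level `t` is convex -/
lemma convex_trap (y y' w : E n) {t : ℝ} (ht : t ≤ 1) :
    Convex ℝ ((fun q : ℝ × ℝ => pt y y' w q.1 q.2) '' (Icc (0 : ℝ) 1 ×ˢ Ico 0 t)) := by
  rintro _ ⟨⟨u, τ⟩, ⟨hu, hτ⟩, rfl⟩ _ ⟨⟨u', τ'⟩, ⟨hu', hτ'⟩, rfl⟩ a b ha hb hab
  simp only at hu hτ hu' hτ' ⊢
  have h1 : 0 ≤ 1 - τ := by linarith [hτ.2]
  have h1' : 0 ≤ 1 - τ' := by linarith [hτ'.2]
  have hτlt : a * τ + b * τ' < t := by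
    rcases eq_or_lt_of_le ha with h | h
    · have hb1 : b = 1 := by linarith
      rw [← h, hb1]
      linarith [hτ'.2]
    · have := mul_lt_mul_of_pos_left hτ.2 h
      have := mul_le_mul_of_nonneg_left hτ'.2.le hb
      nlinarith
  have hpos : 0 < 1 - (a * τ + b * τ') := by linarith
  have hA : 0 ≤ a * (1 - τ) * u + b * (1 - τ') * u' :=
    add_nonneg (mul_nonneg (mul_nonneg ha h1) hu.1) (mul_nonneg (mul_nonneg hb h1') hu'.1)
  have hB : a * (1 - τ) * u + b * (1 - τ') * u' ≤ 1 - (a * τ + b * τ') := by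
    have e1 : a * (1 - τ) * u ≤ a * (1 - τ) := mul_le_of_le_one_right (mul_nonneg ha h1) hu.2
    have e2 : b * (1 - τ') * u' ≤ b * (1 - τ') := mul_le_of_le_one_right (mul_nonneg hb h1') hu'.2
    nlinarith
  refine ⟨⟨(a * (1 - τ) * u + b * (1 - τ') * u') / (1 - (a * τ + b * τ')), a * τ + b * τ'⟩,
    ⟨⟨div_nonneg hA hpos.le, (div_le_one hpos).2 hB⟩,
      ⟨add_nonneg (mul_nonneg ha hτ.1) (mul_nonneg hb hτ'.1), hτlt⟩⟩, ?_⟩
  have key : (1 - (a * τ + b * τ')) *
      ((a * (1 - τ) * u + b * (1 - τ') * u') / (1 - (a * τ + b * τ'))) =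
        a * (1 - τ) * u + b * (1 - τ') * u' := mul_div_cancel₀ _ hpos.ne'
  have e3 : (1 - (a * τ + b * τ')) *
      (1 - (a * (1 - τ) * u + b * (1 - τ') * u') / (1 - (a * τ + b * τ'))) =
        (1 - (a * τ + b * τ')) - (a * (1 - τ) * u + b * (1 - τ') * u') := by
    rw [mul_sub, key, mul_one]
  simp only
  unfold pt
  rw [smul_add (1 - (a * τ + b * τ')), smul_smul, smul_smul, key, e3]
  have hb' : b = 1 - a := by linarith
  subst hb'
  module

/-- compact parameters: the set of good levels is open -/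
lemma isOpen_forall {α β : Type*} [TopologicalSpace α] [TopologicalSpace β] {S : Set β}
    (hS : IsOpen S) {K : Set α} (hK : IsCompact K) {γ : Type*} [TopologicalSpace γ]
    (φ : γ → α → β) (hφ : Continuous (fun q : γ × α => φ q.1 q.2)) :
    IsOpen {c : γ | ∀ a ∈ K, φ c a ∈ S} := by
  rw [isOpen_iff_mem_nhds]
  intro c hc
  have hc' : ∀ a ∈ K, φ c a ∈ S := hc
  have h : ∀ᶠ c' in 𝓝 c, ∀ a ∈ K, φ c' a ∈ S := by
    refine hK.eventually_forall_of_forall_eventually ?_
    intro a ha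
    exact hφ.continuousAt (hS.mem_nhds (hc' a ha))
  exact h

end Sect

open Sect

theorem specSect : SpecSect := by
  intro n f X hX hf hloc hop z y y' hz hzy
  classical
  -- a witness gives a section over the triangle
  let D : Set (E n) := {p | Lft f X z y y' p}
  let Wit : E n → Set (E n) → Prop := fun p V => IsOpen V ∧ V ⊆ X ∧ InjOn f V ∧ z ∈ V ∧
    ∀ u ∈ Icc (0 : ℝ) 1, ∀ τ ∈ Icc (0 : ℝ) 1, pt y y' p u τ ∈ f '' V
  have hopV : ∀ V : Set (E n), V ⊆ X → ∀ W : Set (E n), IsOpen W → W ⊆ V → IsOpen (f '' W) :=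
    fun V hV W hW hWV => hop W hW (hWV.trans hV)
  -- independence of the witness
  have hindep : ∀ p V V', Wit p V → Wit p V' → ∀ x ∈ V, ∀ x' ∈ V', f x = p → f x' = p → x = x' := by
    intro p V V' hV hV' x hx x' hx' hfx hfx'
    obtain ⟨hVo, hVX, hVi, hzV, hVT⟩ := hV
    obtain ⟨hVo', hVX', hVi', hzV', hVT'⟩ := hV'
    set T : Set (E n) := (fun q : ℝ × ℝ => pt y y' p q.1 q.2) '' (Icc (0 : ℝ) 1 ×ˢ Icc 0 1) with hT
    have hTc : IsPreconnected T := isPreconnected_tri y y' p _ (convex_Icc 0 1)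
    have hTV : ∀ q ∈ T, ∃ x ∈ V, f x = q := by
      rintro _ ⟨⟨u, τ⟩, ⟨hu, hτ⟩, rfl⟩
      exact hVT u hu τ hτ
    have hTV' : ∀ q ∈ T, ∃ x ∈ V', f x = q := by
      rintro _ ⟨⟨u, τ⟩, ⟨hu, hτ⟩, rfl⟩
      exact hVT' u hu τ hτ
    choose! s hsV hsf using hTV
    choose! s' hsV' hsf' using hTV'
    have hyT : y ∈ T := ⟨(0, 0), ⟨⟨le_rfl, zero_le_one⟩, ⟨le_rfl, zero_le_one⟩⟩, pt_zero_zero _ _ _⟩
    have hpT : p ∈ T := ⟨(0, 1), ⟨⟨le_rfl, zero_le_one⟩, ⟨zero_le_one, le_rfl⟩⟩, pt_one _ _ _ _⟩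
    have h1 : s y = s' y := by
      rw [hVi (hsV y hyT) hzV ((hsf y hyT).trans hzy.symm),
        hVi' (hsV' y hyT) hzV' ((hsf' y hyT).trans hzy.symm)]
    have h2 := unique_lift (f := f) hTc
      (cont_section hVo (hopV V hVX) hVi fun q hq => ⟨hsV q hq, hsf q hq⟩)
      (cont_section hVo' (hopV V' hVX') hVi' fun q hq => ⟨hsV' q hq, hsf' q hq⟩)
      (fun a ha _ => ⟨V, hVo, hsV a ha, hVi⟩)
      (fun a ha => (hsf a ha).trans (hsf' a ha).symm) hyT h1 p hpT
    rw [hVi hx (hsV p hpT) (hfx.trans (hsf p hpT).symm),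
      hVi' hx' (hsV' p hpT) (hfx'.trans (hsf' p hpT).symm), h2]
  -- the section
  have hex : ∀ p ∈ D, ∃ x, ∀ V, Wit p V → x ∈ V ∧ f x = p := by
    rintro p ⟨V, hV⟩
    obtain ⟨x, hxV, hx⟩ : p ∈ f '' V := by
      have := hV.2.2.2.2 0 ⟨le_rfl, zero_le_one⟩ 1 ⟨zero_le_one, le_rfl⟩
      rwa [pt_one] at this
    refine ⟨x, fun V' hV' => ?_⟩
    obtain ⟨x', hxV', hx'⟩ : p ∈ f '' V' := by
      have := hV'.2.2.2.2 0 ⟨le_rfl, zero_le_one⟩ 1 ⟨zero_le_one, le_rfl⟩
      rwa [pt_one] at this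
    have := hindep p V V' hV hV' x hxV x' hxV' hx hx'
    exact ⟨this ▸ hxV', hx⟩
  choose! g hg using hex
  have hwit : ∀ p ∈ D, ∃ V, Wit p V := fun p ⟨V, hV⟩ => ⟨V, hV⟩
  -- nearby points have the same witness
  have hnear : ∀ p V, Wit p V → IsOpen {p' | Wit p' V} := by
    intro p V hV
    have h1 := isOpen_forall (hop V hV.1 hV.2.1)
      ((isCompact_Icc (a := (0 : ℝ)) (b := 1)).prod (isCompact_Icc (a := (0 : ℝ)) (b := 1)))
      (fun (p' : E n) (q : ℝ × ℝ) => pt y y' p' q.1 q.2) (continuous_pt y y')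
    have h2 : {p' | Wit p' V} = {p' | ∀ q ∈ Icc (0 : ℝ) 1 ×ˢ Icc (0 : ℝ) 1,
        pt y y' p' q.1 q.2 ∈ f '' V} := by
      ext p'
      constructor
      · intro h q hq
        exact h.2.2.2.2 q.1 hq.1 q.2 hq.2
      · intro h
        exact ⟨hV.1, hV.2.1, hV.2.2.1, hV.2.2.2.1, fun u hu τ hτ => h (u, τ) ⟨hu, hτ⟩⟩
    rw [h2]
    exact h1
  have hDo : IsOpen D := by
    rw [isOpen_iff_mem_nhds]
    intro p hp
    obtain ⟨V, hV⟩ := hwit p hp
    filter_upwards [(hnear p V hV).mem_nhds hV] with p' hp'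
    exact ⟨V, hp'⟩
  have hgf : ∀ p ∈ D, g p ∈ X ∧ f (g p) = p := by
    intro p hp
    obtain ⟨V, hV⟩ := hwit p hp
    exact ⟨hV.2.1 (hg p hp V hV).1, (hg p hp V hV).2⟩
  have hgc : ContinuousOn g D := by
    intro p hp
    obtain ⟨V, hV⟩ := hwit p hp
    have h1 : ContinuousOn g {p' | Wit p' V} :=
      cont_section hV.1 (hopV V hV.2.1) hV.2.2.1 fun q hq => hg q ⟨V, hq⟩ V hq
    exact (h1.continuousAt ((hnear p V hV).mem_nhds hV)).continuousWithinAt
  have hsub : ∀ p V, Wit p V → ∀ u ∈ Icc (0 : ℝ) 1, ∀ τ ∈ Icc (0 : ℝ) 1,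
      Wit (pt y y' p u τ) V := by
    intro p V hV u hu τ hτ
    refine ⟨hV.1, hV.2.1, hV.2.2.1, hV.2.2.2.1, fun u' hu' τ' hτ' => ?_⟩
    obtain ⟨u'', hu'', h⟩ := pt_pt y y' p hu hτ hu' hτ'
    rw [h]
    exact hV.2.2.2.2 u'' hu'' _ ⟨mul_nonneg hτ'.1 hτ.1, mul_le_one₀ hτ'.2 hτ.1 hτ.2⟩
  refine ⟨g, hDo, hgc, hgf, ?_, ?_, ?_, ?_⟩
  · -- the image is open
    rw [isOpen_iff_mem_nhds]
    rintro _ ⟨p, hp, rfl⟩
    obtain ⟨V, hV⟩ := hwit p hp
    have hgp := hg p hp V hV
    have hcont : ContinuousAt f (g p) := hf.continuousAt (hX.mem_nhds (hV.2.1 hgp.1))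
    have h1 : ∀ᶠ x in 𝓝 (g p), f x ∈ {p' | Wit p' V} :=
      hcont ((hnear p V hV).mem_nhds (by rw [hgp.2]; exact hV))
    filter_upwards [h1, hV.1.mem_nhds hgp.1] with x hx hxV
    refine ⟨f x, ⟨V, hx⟩, ?_⟩
    have h2 := hg (f x) ⟨V, hx⟩ V hx
    exact hV.2.2.1 h2.1 hxV h2.2
  · intro p V h1 h2 h3 h4 h5
    exact (hg p ⟨V, h1, h2, h3, h4, h5⟩ V ⟨h1, h2, h3, h4, h5⟩).1
  · rintro p ⟨V, hV⟩ u hu τ hτ
    exact ⟨V, hsub p V hV u hu τ hτ⟩
  · intro w hw hbase C hC hCX
    -- the good levels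
    have hlev : IsOpen {τ : ℝ | ∀ u ∈ Icc (0 : ℝ) 1, pt y y' w u τ ∈ D} := by
      refine isOpen_forall hDo isCompact_Icc (fun (τ : ℝ) (u : ℝ) => pt y y' w u τ) ?_
      unfold pt
      fun_prop
    set S : Set ℝ := {τ : ℝ | ∀ u ∈ Icc (0 : ℝ) 1, pt y y' w u τ ∈ D} with hS
    have h0S : (0 : ℝ) ∈ S := hbase
    have h1S : (1 : ℝ) ∉ S := by
      intro h
      have := h 0 ⟨le_rfl, zero_le_one⟩
      rw [pt_one] at this
      exact hw this
    have hKc : IsCompact (Icc (0 : ℝ) 1 \ S) := isCompact_Icc.diff hlev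
    obtain ⟨t, ht, htmin⟩ := hKc.exists_isLeast ⟨1, ⟨zero_le_one, le_rfl⟩, h1S⟩
    have ht0 : 0 < t := by
      rcases eq_or_lt_of_le ht.1.1 with h | h
      · exact absurd (h ▸ h0S) ht.2
      · exact h
    have hbelow : ∀ τ ∈ Ico (0 : ℝ) t, τ ∈ S := by
      intro τ hτ
      by_contra h
      exact absurd (htmin ⟨⟨hτ.1, hτ.2.le.trans ht.1.2⟩, h⟩) (not_le.2 hτ.2)
    by_contra hcon
    push Not at hcon
    have hin : ∀ τ ∈ Ico (0 : ℝ) t, ∀ u ∈ Icc (0 : ℝ) 1, g (pt y y' w u τ) ∈ C := by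
      intro τ hτ u hu
      have hmax : max τ (t / 2) < t := max_lt hτ.2 (by linarith)
      refine hcon (max τ (t / 2)) ⟨lt_max_of_lt_right (by linarith), hmax.le.trans ht.1.2⟩ ?_ u hu τ
        ⟨hτ.1, le_max_left _ _⟩
      intro u' hu' τ' hτ'
      exact hbelow τ' ⟨hτ'.1, hτ'.2.trans_lt hmax⟩ u' hu'
    set Q : Set (E n) := (fun q : ℝ × ℝ => pt y y' w q.1 q.2) '' (Icc (0 : ℝ) 1 ×ˢ Ico 0 t) with hQ
    have hQconv : Convex ℝ Q := convex_trap y y' w ht.1.2
    have hQD : Q ⊆ D := by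
      rintro _ ⟨⟨u, τ⟩, ⟨hu, hτ⟩, rfl⟩
      exact hbelow τ hτ u hu
    have hQC : g '' Q ⊆ C := by
      rintro _ ⟨_, ⟨⟨u, τ⟩, ⟨hu, hτ⟩, rfl⟩, rfl⟩
      exact hin τ hτ u hu
    have hΓC : closure (g '' Q) ⊆ C := closure_minimal hQC hC.isClosed
    have hΓX : closure (g '' Q) ⊆ X := hΓC.trans hCX
    have hΓc : IsCompact (closure (g '' Q)) := hC.of_isClosed_subset isClosed_closure hΓC
    -- `f` is injective on the closure
    have hΓi : InjOn f (closure (g '' Q)) := by
      intro x₁ hx₁ x₂ hx₂ hxx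
      by_contra hne
      obtain ⟨A₁, A₂, hA₁o, hA₂o, hxA₁, hxA₂, hdis⟩ := t2_separation hne
      have hloc' : ∀ x ∈ X, ∀ A : Set (E n), IsOpen A → x ∈ A → ∃ V : Set (E n), IsOpen V ∧
          x ∈ V ∧ V ⊆ X ∧ V ⊆ A ∧ InjOn f V := by
        intro x hx A hA hxA
        obtain ⟨V, hVo, hxV, hVX, hVi⟩ := hloc x hx
        exact ⟨V ∩ A, hVo.inter hA, ⟨hxV, hxA⟩, inter_subset_left.trans hVX, inter_subset_right,
          hVi.mono inter_subset_left⟩
      obtain ⟨V₁, hV₁o, hxV₁, hV₁X, hV₁A, hV₁i⟩ := hloc' x₁ (hΓX hx₁) A₁ hA₁o hxA₁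
      obtain ⟨V₂, hV₂o, hxV₂, hV₂X, hV₂A, hV₂i⟩ := hloc' x₂ (hΓX hx₂) A₂ hA₂o hxA₂
      have hO : IsOpen (f '' V₁ ∩ f '' V₂) := (hop V₁ hV₁o hV₁X).inter (hop V₂ hV₂o hV₂X)
      obtain ⟨ε, hε, hball⟩ := Metric.isOpen_iff.1 hO (f x₁)
        ⟨⟨x₁, hxV₁, rfl⟩, ⟨x₂, hxV₂, hxx.symm⟩⟩
      have hQB : IsPreconnected (Q ∩ ball (f x₁) ε) :=
        (hQconv.inter (convex_ball _ _)).isPreconnected
      have key : ∀ (x : E n) (V : Set (E n)), IsOpen V → V ⊆ X → InjOn f V → x ∈ V →
          x ∈ closure (g '' Q) → f x = f x₁ → ball (f x₁) ε ⊆ f '' V →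
          ∃ q ∈ Q ∩ ball (f x₁) ε, ∀ q' ∈ Q ∩ ball (f x₁) ε, g q' ∈ V := by
        intro x V hVo hVX hVi hxV hxcl hfx hBV
        have hcont : ContinuousAt f x := hf.continuousAt (hX.mem_nhds (hVX hxV))
        have h1 : ∀ᶠ x' in 𝓝 x, x' ∈ V ∧ f x' ∈ ball (f x₁) ε :=
          (hVo.eventually_mem hxV).and
            (hcont (isOpen_ball.mem_nhds (by rw [hfx]; exact mem_ball_self hε)))
        obtain ⟨_, ⟨hgV, hgB⟩, q, hqQ, rfl⟩ := mem_closure_iff_nhds.1 hxcl _ h1
        rw [(hgf q (hQD hqQ)).2] at hgB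
        have hsec : ∀ q' ∈ Q ∩ ball (f x₁) ε, ∃ x' ∈ V, f x' = q' := fun q' hq' => hBV hq'.2
        choose! s hsV hsf using hsec
        have h2 := unique_lift (f := f) hQB
          (cont_section hVo (hopV V hVX) hVi fun q' hq' => ⟨hsV q' hq', hsf q' hq'⟩)
          (hgc.mono (inter_subset_left.trans hQD))
          (fun a ha _ => ⟨V, hVo, hsV a ha, hVi⟩)
          (fun a ha => (hsf a ha).trans (hgf a (hQD ha.1)).2.symm) ⟨hqQ, hgB⟩
          (hVi (hsV q ⟨hqQ, hgB⟩) hgV ((hsf q ⟨hqQ, hgB⟩).trans (hgf q (hQD hqQ)).2.symm))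
        exact ⟨q, ⟨hqQ, hgB⟩, fun q' hq' => h2 q' hq' ▸ hsV q' hq'⟩
      obtain ⟨q, hq, h1⟩ := key x₁ V₁ hV₁o hV₁X hV₁i hxV₁ hx₁ rfl (hball.trans inter_subset_left)
      obtain ⟨-, -, h2⟩ := key x₂ V₂ hV₂o hV₂X hV₂i hxV₂ hx₂ hxx.symm (hball.trans inter_subset_right)
      exact Set.disjoint_left.1 hdis (hV₁A (h1 q hq)) (hV₂A (h2 q hq))
    -- so `f` is injective near the closure
    obtain ⟨V₀, hV₀, hV₀i⟩ := hΓi.exists_mem_nhdsSet hΓc
      (fun x hx => hf.continuousAt (hX.mem_nhds (hΓX hx)))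
      (fun x hx => by
        obtain ⟨V, hVo, hxV, -, hVi⟩ := hloc x (hΓX hx)
        exact ⟨V, hVo.mem_nhds hxV, hVi⟩)
    obtain ⟨V₁, hV₁o, hΓV₁, hV₁V₀⟩ := mem_nhdsSet_iff_exists.1 hV₀
    set V : Set (E n) := V₁ ∩ X with hVdef
    have hVo : IsOpen V := hV₁o.inter hX
    have hVX : V ⊆ X := inter_subset_right
    have hVi : InjOn f V := hV₀i.mono (inter_subset_left.trans hV₁V₀)
    have hΓV : closure (g '' Q) ⊆ V := subset_inter hΓV₁ hΓX
    have hyQ : y ∈ Q := ⟨(0, 0), ⟨⟨le_rfl, zero_le_one⟩, ⟨le_rfl, ht0⟩⟩, pt_zero_zero _ _ _⟩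
    have hgy : g y = z := by
      obtain ⟨V', hV'⟩ := hwit y (hQD hyQ)
      have := hg y (hQD hyQ) V' hV'
      exact hV'.2.2.1 this.1 hV'.2.2.2.1 (this.2.trans hzy.symm)
    have hzV : z ∈ V := hΓV (subset_closure ⟨y, hyQ, hgy⟩)
    have hclQ : closure Q ⊆ f '' V := by
      have h1 : IsCompact (f '' closure (g '' Q)) := hΓc.image_of_continuousOn (hf.mono hΓX)
      have h2 : Q ⊆ f '' closure (g '' Q) := fun q hq =>
        ⟨g q, subset_closure ⟨q, hq, rfl⟩, (hgf q (hQD hq)).2⟩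
      exact (closure_minimal h2 h1.isClosed).trans (image_mono hΓV)
    have htrap : ∀ u ∈ Icc (0 : ℝ) 1, ∀ τ ∈ Icc (0 : ℝ) t, pt y y' w u τ ∈ f '' V := by
      intro u hu τ hτ
      apply hclQ
      have h1 : (u, τ) ∈ closure (Icc (0 : ℝ) 1 ×ˢ Ico 0 t) := by
        rw [closure_prod_eq, closure_Ico ht0.ne, closure_Icc]
        exact ⟨hu, hτ⟩
      have h2 : Continuous (fun q : ℝ × ℝ => pt y y' w q.1 q.2) := by
        unfold pt
        fun_prop
      exact image_closure_subset_closure_image h2 ⟨(u, τ), h1, rfl⟩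
    apply ht.2
    intro u hu
    refine ⟨V, hVo, hVX, hVi, hzV, fun u' hu' τ' hτ' => ?_⟩
    obtain ⟨u'', hu'', h⟩ := pt_pt y y' w hu ⟨ht0.le, ht.1.2⟩ hu' hτ'
    rw [h]
    exact htrap u'' hu'' _ ⟨mul_nonneg hτ'.1 ht0.le, mul_le_of_le_one_left ht0.le hτ'.2⟩

end Pool.Agent.Lib.MPd8b51b
end

section
set_option autoImplicit false

/-!
# MP_d8b51b_an: module TEL, telescoping
-/

namespace Pool.Agent.Lib.MPd8b51b

open MeasureTheory Metric Set
open scoped ENNReal

namespace TEL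

/-- One step: Minkowski on a product of probability measures. -/
lemma step {X G : Type*} [MeasurableSpace X] [NormedAddCommGroup G] (ν ν' : Measure X)
    [IsProbabilityMeasure ν] [IsProbabilityMeasure ν'] (F : X → G)
    (hF : AEStronglyMeasurable F ν) (hF' : AEStronglyMeasurable F ν') (p : ℕ) (hp : 1 ≤ p) (v : G) :
    (∫⁻ y, ‖F y - v‖ₑ ^ p ∂ν) ^ (1 / (p : ℝ)) ≤
      (∫⁻ y, (∫⁻ y', ‖F y - F y'‖ₑ ^ p ∂ν') ∂ν) ^ (1 / (p : ℝ)) +
        (∫⁻ y, ‖F y - v‖ₑ ^ p ∂ν') ^ (1 / (p : ℝ)) := by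
  have hp1 : (1 : ℝ) ≤ p := by exact_mod_cast hp
  have h1 : AEStronglyMeasurable (fun q : X × X => F q.1) (ν.prod ν') := hF.comp_fst
  have h2 : AEStronglyMeasurable (fun q : X × X => F q.2) (ν.prod ν') := hF'.comp_snd
  have hf : AEMeasurable (fun q : X × X => ‖F q.1 - F q.2‖ₑ) (ν.prod ν') := (h1.sub h2).enorm
  have hg : AEMeasurable (fun q : X × X => ‖F q.2 - v‖ₑ) (ν.prod ν') :=
    (h2.sub aestronglyMeasurable_const).enorm
  have hk : AEMeasurable (fun q : X × X => ‖F q.1 - v‖ₑ) (ν.prod ν') :=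
    (h1.sub aestronglyMeasurable_const).enorm
  have hM := ENNReal.lintegral_Lp_add_le hf hg hp1
  simp only [Pi.add_apply, ENNReal.rpow_natCast] at hM
  have hA : ∫⁻ y, ‖F y - v‖ₑ ^ p ∂ν = ∫⁻ q, ‖F q.1 - v‖ₑ ^ p ∂(ν.prod ν') := by
    rw [lintegral_prod _ (hk.pow_const p)]
    refine lintegral_congr fun y => ?_
    simp
  have hB : ∫⁻ q, ‖F q.1 - F q.2‖ₑ ^ p ∂(ν.prod ν') =
      ∫⁻ y, (∫⁻ y', ‖F y - F y'‖ₑ ^ p ∂ν') ∂ν := lintegral_prod _ (hf.pow_const p)
  have hC : ∫⁻ q, ‖F q.2 - v‖ₑ ^ p ∂(ν.prod ν') = ∫⁻ y, ‖F y - v‖ₑ ^ p ∂ν' := by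
    rw [lintegral_prod _ (hg.pow_const p)]
    simp
  rw [hA, ← hB, ← hC]
  refine le_trans ?_ hM
  refine ENNReal.rpow_le_rpow (lintegral_mono fun q => ?_) (by positivity)
  gcongr
  calc ‖F q.1 - v‖ₑ = ‖(F q.1 - F q.2) + (F q.2 - v)‖ₑ := by congr 1; abel
    _ ≤ _ := enorm_add_le _ _

end TEL

theorem specTel : SpecTel := by
  intro V _ _ _ _ _ μ _ G _ K F p x α hp hmp hK hKc hμ hx hF hα hsum hpair
  set m := Module.finrank ℝ V with hm
  have hp0 : (0 : ℝ) < p := by exact_mod_cast hp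
  set Kj : ℕ → Set V := fun j => AffineMap.homothety x ((1 / 2 : ℝ) ^ j) '' K with hKj
  have hKj0 : Kj 0 = K := by simp [hKj]
  have hμK : μ K ≠ ∞ := hKc.measure_lt_top.ne
  have hKjc : ∀ j, IsCompact (Kj j) := fun j => hKc.image (AffineMap.homothety_continuous x _)
  -- nestedness
  have hsub : ∀ j, Kj (j + 1) ⊆ Kj j := by
    rintro j _ ⟨y, hy, rfl⟩
    refine ⟨AffineMap.homothety x (1 / 2 : ℝ) y, ?_, ?_⟩
    · rw [AffineMap.homothety_apply]
      have := hK hy hx (show (0 : ℝ) ≤ 1 / 2 by norm_num) (show (0 : ℝ) ≤ 1 / 2 by norm_num)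
        (by norm_num)
      convert this using 1
      simp only [vsub_eq_sub, vadd_eq_add]
      module
    · rw [← AffineMap.homothety_mul_apply, pow_succ]
  have hsubK : ∀ j, Kj j ⊆ K := by
    intro j
    induction j with
    | zero => rw [hKj0]
    | succ j ih => exact (hsub j).trans ih
  have hvol : ∀ j, μ (Kj j) = ENNReal.ofReal (((1 / 2 : ℝ) ^ j) ^ m) * μ K := by
    intro j
    rw [hKj]
    simp only
    rw [Measure.addHaar_image_homothety, abs_of_nonneg (by positivity)]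
  have hpos : ∀ j, μ (Kj j) ≠ 0 := by
    intro j
    rw [hvol j]
    refine mul_ne_zero ?_ hμ.ne'
    exact (ENNReal.ofReal_pos.2 (by positivity)).ne'
  have htop : ∀ j, μ (Kj j) ≠ ∞ := fun j => (hKjc j).measure_lt_top.ne
  have hstep : ∀ j, μ (Kj j) = 2 ^ m * μ (Kj (j + 1)) := by
    intro j
    rw [hvol, hvol, ← mul_assoc]
    congr 1
    have h2 : (2 : ℝ≥0∞) ^ m = ENNReal.ofReal (2 ^ m) := by
      rw [ENNReal.ofReal_pow (by norm_num)]; simp
    rw [h2, ← ENNReal.ofReal_mul (by positivity)]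
    congr 1
    rw [← mul_pow]
    congr 1
    rw [pow_succ]
    ring
  set ν : ℕ → Measure V := fun j => (μ (Kj j))⁻¹ • μ.restrict (Kj j) with hν
  have hprob : ∀ j, IsProbabilityMeasure (ν j) := by
    intro j
    refine ⟨?_⟩
    simp only [hν, Measure.smul_apply, Measure.restrict_apply_univ, smul_eq_mul]
    exact ENNReal.inv_mul_cancel (hpos j) (htop j)
  have hmeas : ∀ j, AEStronglyMeasurable F (ν j) := by
    intro j
    refine AEStronglyMeasurable.smul_measure ?_ _
    exact ContinuousOn.aestronglyMeasurable_of_isCompact (hF.mono (hsubK j)) (hKjc j)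
      (hKjc j).measurableSet
  set N : ℕ → G → ℝ≥0∞ := fun j v => (∫⁻ y, ‖F y - v‖ₑ ^ p ∂(ν j)) ^ (1 / (p : ℝ)) with hN
  -- the pair averages
  have hpair' : ∀ j, (∫⁻ y, (∫⁻ y', ‖F y - F y'‖ₑ ^ p ∂(ν (j + 1))) ∂(ν j)) ^ (1 / (p : ℝ)) ≤
      ENNReal.ofReal (2 * α j) := by
    intro j
    have hle : ν (j + 1) ≤ (2 ^ m * (μ (Kj j))⁻¹) • μ.restrict (Kj j) := by
      have h1 : (μ (Kj (j + 1)))⁻¹ = 2 ^ m * (μ (Kj j))⁻¹ := by
        rw [hstep j, ENNReal.mul_inv (Or.inl (by positivity)) (Or.inl (by finiteness)),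
          ← mul_assoc, ENNReal.mul_inv_cancel (by positivity) (by finiteness), one_mul]
      simp only [hν]
      rw [h1]
      refine Measure.le_iff.2 fun t ht => ?_
      rw [Measure.smul_apply, Measure.smul_apply, smul_eq_mul, smul_eq_mul]
      exact mul_le_mul_right (Measure.restrict_mono (hsub j) le_rfl t) _
    have h2 : ∫⁻ y, (∫⁻ y', ‖F y - F y'‖ₑ ^ p ∂(ν (j + 1))) ∂(ν j) ≤
        2 ^ m * ENNReal.ofReal (α j) ^ p := by
      calc ∫⁻ y, (∫⁻ y', ‖F y - F y'‖ₑ ^ p ∂(ν (j + 1))) ∂(ν j)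
          ≤ ∫⁻ y, (∫⁻ y', ‖F y - F y'‖ₑ ^ p ∂((2 ^ m * (μ (Kj j))⁻¹) • μ.restrict (Kj j)))
              ∂(ν j) := by
            refine lintegral_mono fun y => ?_
            exact lintegral_mono' hle le_rfl
        _ = (μ (Kj j))⁻¹ * ((2 ^ m * (μ (Kj j))⁻¹) *
              ∫⁻ y in Kj j, (∫⁻ y' in Kj j, ‖F y - F y'‖ₑ ^ p ∂μ) ∂μ) := by
            simp only [hν, lintegral_smul_measure, smul_eq_mul]
            congr 1
            rw [lintegral_const_mul' _ _ (by
              exact ENNReal.mul_ne_top (by finiteness) (ENNReal.inv_ne_top.2 (hpos j)))]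
        _ ≤ (μ (Kj j))⁻¹ * ((2 ^ m * (μ (Kj j))⁻¹) *
              (ENNReal.ofReal (α j) ^ p * μ (Kj j) ^ 2)) := by
            gcongr
            exact hpair j
        _ = 2 ^ m * ENNReal.ofReal (α j) ^ p *
              (((μ (Kj j))⁻¹ * μ (Kj j)) * ((μ (Kj j))⁻¹ * μ (Kj j))) := by ring
        _ = _ := by
            rw [ENNReal.inv_mul_cancel (hpos j) (htop j)]
            ring
    calc (∫⁻ y, (∫⁻ y', ‖F y - F y'‖ₑ ^ p ∂(ν (j + 1))) ∂(ν j)) ^ (1 / (p : ℝ))
        ≤ (ENNReal.ofReal (2 * α j) ^ p) ^ (1 / (p : ℝ)) := by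
          refine ENNReal.rpow_le_rpow (h2.trans ?_) (by positivity)
          rw [ENNReal.ofReal_mul (by norm_num), mul_pow]
          have h3 : (2 : ℝ≥0∞) ^ m ≤ ENNReal.ofReal 2 ^ p := by
            calc (2 : ℝ≥0∞) ^ m ≤ 2 ^ p := pow_le_pow_right₀ (by norm_num) hmp
              _ = _ := by simp
          exact mul_le_mul_left h3 _
      _ = _ := by
          rw [← ENNReal.rpow_natCast, ← ENNReal.rpow_mul, mul_one_div_cancel hp0.ne',
            ENNReal.rpow_one]
  have hone : ∀ j v, N j v ≤ ENNReal.ofReal (2 * α j) + N (j + 1) v := by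
    intro j v
    have := hprob j
    have := hprob (j + 1)
    exact (TEL.step (ν j) (ν (j + 1)) F (hmeas j) (hmeas (j + 1)) p hp v).trans
      (add_le_add (hpair' j) le_rfl)
  have htel : ∀ n v, N 0 v ≤ ENNReal.ofReal (∑ j ∈ Finset.range n, 2 * α j) + N n v := by
    intro n v
    induction n with
    | zero => simp
    | succ n ih =>
      refine ih.trans ?_
      rw [Finset.sum_range_succ, ENNReal.ofReal_add (Finset.sum_nonneg fun j _ => by
        have := hα j; positivity) (by have := hα n; positivity), add_assoc]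
      exact add_le_add le_rfl (hone n v)
  have hsum2 : ∀ n, ∑ j ∈ Finset.range n, 2 * α j ≤ 2 * ∑' j, α j := by
    intro n
    rw [← Finset.mul_sum]
    exact mul_le_mul_of_nonneg_left (hsum.sum_le_tsum _ fun j _ => hα j) (by norm_num)
  -- the limit
  have hlim : ∀ ε : ℝ, 0 < ε → ∃ n, N n (F x) ≤ ENNReal.ofReal ε := by
    intro ε hε
    obtain ⟨δ, hδ, hδ2⟩ := Metric.continuousWithinAt_iff.1 (hF x hx) ε hε
    obtain ⟨R, hR⟩ := hKc.isBounded.subset_closedBall x
    have hR0 : 0 ≤ R := by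
      have := hR hx
      rw [mem_closedBall, dist_self] at this
      exact this
    obtain ⟨n, hn⟩ : ∃ n : ℕ, (1 / 2 : ℝ) ^ n * R < δ := by
      obtain ⟨n, hn⟩ := exists_pow_lt_of_lt_one (show 0 < δ / (R + 1) by positivity)
        (show (1 / 2 : ℝ) < 1 by norm_num)
      refine ⟨n, ?_⟩
      calc (1 / 2 : ℝ) ^ n * R ≤ (1 / 2 : ℝ) ^ n * (R + 1) := by gcongr; linarith
        _ < δ / (R + 1) * (R + 1) := by gcongr
        _ = δ := by field_simp
    refine ⟨n, ?_⟩
    have hnear : ∀ y ∈ Kj n, ‖F y - F x‖ₑ ≤ ENNReal.ofReal ε := by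
      intro y hy
      have hyK := hsubK n hy
      obtain ⟨z, hz, rfl⟩ := hy
      have hd : dist (AffineMap.homothety x ((1 / 2 : ℝ) ^ n) z) x < δ := by
        rw [AffineMap.homothety_apply, vsub_eq_sub, vadd_eq_add, dist_eq_norm, add_sub_cancel_right,
          norm_smul, Real.norm_of_nonneg (by positivity), ← dist_eq_norm]
        exact (mul_le_mul_of_nonneg_left (hR hz) (by positivity)).trans_lt hn
      have := hδ2 hyK hd
      rw [← edist_eq_enorm_sub, edist_dist]
      exact ENNReal.ofReal_le_ofReal this.le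
    have hprobn := hprob n
    calc N n (F x) ≤ (ENNReal.ofReal ε ^ p) ^ (1 / (p : ℝ)) := by
          refine ENNReal.rpow_le_rpow ?_ (by positivity)
          calc ∫⁻ y, ‖F y - F x‖ₑ ^ p ∂(ν n) ≤ ∫⁻ _y, ENNReal.ofReal ε ^ p ∂(ν n) := by
                simp only [hν, lintegral_smul_measure, smul_eq_mul]
                refine mul_le_mul_right ?_ _
                refine setLIntegral_mono' (hKjc n).measurableSet fun y hy => ?_
                exact pow_le_pow_left₀ zero_le (hnear y hy) p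
            _ = ENNReal.ofReal ε ^ p := by simp
      _ = ENNReal.ofReal ε := by
          rw [← ENNReal.rpow_natCast, ← ENNReal.rpow_mul, mul_one_div_cancel hp0.ne',
            ENNReal.rpow_one]
  have hfin : N 0 (F x) ≤ ENNReal.ofReal (2 * ∑' j, α j) := by
    refine ENNReal.le_of_forall_pos_le_add fun ε hε _ => ?_
    obtain ⟨n, hn⟩ := hlim ε (by exact_mod_cast hε)
    refine (htel n (F x)).trans (add_le_add (ENNReal.ofReal_le_ofReal (hsum2 n)) ?_)
    simpa using hn
  have hN0 : (∫⁻ y, ‖F y - F x‖ₑ ^ p ∂(ν 0)) ≤ ENNReal.ofReal (2 * ∑' j, α j) ^ p := by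
    have h1 : (N 0 (F x)) ^ p = ∫⁻ y, ‖F y - F x‖ₑ ^ p ∂(ν 0) := by
      simp only [hN]
      rw [← ENNReal.rpow_natCast, ← ENNReal.rpow_mul, one_div_mul_cancel hp0.ne', ENNReal.rpow_one]
    rw [← h1]
    exact pow_le_pow_left₀ zero_le hfin p
  simp only [hν, lintegral_smul_measure, smul_eq_mul, hKj0] at hN0
  calc ∫⁻ y in K, ‖F y - F x‖ₑ ^ p ∂μ
      = ((μ K)⁻¹ * ∫⁻ y in K, ‖F y - F x‖ₑ ^ p ∂μ) * μ K := by
        rw [mul_comm (μ K)⁻¹, mul_assoc, ENNReal.inv_mul_cancel hμ.ne' hμK, mul_one]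
    _ ≤ _ := by gcongr

end Pool.Agent.Lib.MPd8b51b
end

section
set_option autoImplicit false

/-!
# MP_d8b51b_an: module ZALC (Zalcman type choice of the centre)
-/

namespace Pool.Agent.Lib.MPd8b51b

open Metric Set Filter
open scoped Topology

namespace Zalc

variable {n : ℕ}

/-- the admissible radii at `x` -/
def Rad (f : E n → E n) (x : E n) : Set ℝ := {r | 0 < r ∧ r ≤ 1 / 2 ∧ InjOn f (ball x r)}

/-- the injectivity radius at `x` (at most `1 / 2`) -/
noncomputable def ir (f : E n → E n) (x : E n) : ℝ := sSup (Rad f x)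

lemma bdd (f : E n → E n) (x : E n) : BddAbove (Rad f x) := ⟨1 / 2, fun _ hr => hr.2.1⟩

lemma le_ir {f : E n → E n} {x : E n} {r : ℝ} (h0 : 0 < r) (h1 : r ≤ 1 / 2)
    (h2 : InjOn f (ball x r)) : r ≤ ir f x := le_csSup (bdd f x) ⟨h0, h1, h2⟩

lemma injOn_of_lt {f : E n → E n} {x : E n} {r : ℝ} (h0 : 0 < r) (h : r < ir f x) :
    InjOn f (ball x r) := by
  have hne : (Rad f x).Nonempty := by
    by_contra hcon
    rw [not_nonempty_iff_eq_empty] at hcon
    unfold ir at h
    rw [hcon, Real.sSup_empty] at h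
    linarith
  obtain ⟨r', hr', hlt⟩ := exists_lt_of_lt_csSup hne h
  exact hr'.2.2.mono (ball_subset_ball hlt.le)

lemma ir_le (f : E n → E n) (x : E n) : ir f x ≤ 1 / 2 :=
  Real.sSup_le (fun _ hr => hr.2.1) (by norm_num)

end Zalc

open Zalc

theorem specZalc : SpecZalc := by
  intro n f c hc hc' hloc hninj
  -- a uniform lower bound
  obtain ⟨δ, hδ, hδ'⟩ : ∃ δ : ℝ, 0 < δ ∧ ∀ x ∈ closedBall (0 : E n) (1 / 2), InjOn f (ball x δ) := by
    have hsub : closedBall (0 : E n) (1 / 2) ⊆ ball 0 1 := closedBall_subset_ball (by norm_num)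
    choose! V hVo hxV hVi using hloc
    obtain ⟨δ, hδ, hδ'⟩ := lebesgue_number_lemma_of_metric
      (isCompact_closedBall (0 : E n) (1 / 2)) (c := fun x : ball (0 : E n) 1 => V x)
      (fun x => hVo x x.2) (fun x hx => mem_iUnion.2 ⟨⟨x, hsub hx⟩, hxV x (hsub hx)⟩)
    refine ⟨δ, hδ, fun x hx => ?_⟩
    obtain ⟨i, hi⟩ := hδ' x hx
    exact (hVi i i.2).mono hi
  set δ' : ℝ := min δ (1 / 2) with hδ'def
  have hδ'pos : 0 < δ' := lt_min hδ (by norm_num)
  have hlower : ∀ x ∈ closedBall (0 : E n) (1 / 2), δ' ≤ ir f x := fun x hx =>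
    le_ir hδ'pos (min_le_right _ _) ((hδ' x hx).mono (ball_subset_ball (min_le_left _ _)))
  -- the infimum of the normalized radii
  set Λ : Set ℝ := (fun x : E n => ir f x / (1 / 2 - ‖x‖)) '' ball 0 (1 / 2) with hΛ
  have hΛb : ∀ l ∈ Λ, 2 * δ' ≤ l := by
    rintro _ ⟨x, hx, rfl⟩
    rw [mem_ball_zero_iff] at hx
    have h1 : 0 < 1 / 2 - ‖x‖ := by linarith
    simp only
    rw [le_div_iff₀ h1]
    have h2 := hlower x (by rw [mem_closedBall_zero_iff]; exact hx.le)
    have h3 := norm_nonneg x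
    nlinarith
  have hΛbdd : BddBelow Λ := ⟨2 * δ', hΛb⟩
  have h0mem : (0 : E n) ∈ ball (0 : E n) (1 / 2) := mem_ball_self (by norm_num)
  have hΛne : Λ.Nonempty := ⟨_, 0, h0mem, rfl⟩
  have hlam1 : 2 * δ' ≤ sInf Λ := le_csInf hΛne hΛb
  have hi0 : ir f 0 ≤ c := by
    by_contra hcon
    push Not at hcon
    exact hninj (injOn_of_lt hc hcon)
  have hlam2 : sInf Λ ≤ 2 * c := by
    have h1 : sInf Λ ≤ ir f 0 / (1 / 2 - ‖(0 : E n)‖) := csInf_le hΛbdd ⟨0, h0mem, rfl⟩
    rw [norm_zero, sub_zero] at h1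
    refine h1.trans ?_
    rw [div_le_iff₀ (by norm_num)]
    linarith
  obtain ⟨_, ⟨x₀, hx₀, rfl⟩, hlt⟩ := exists_lt_of_csInf_lt hΛne
    (show sInf Λ < 2 * sInf Λ by linarith)
  rw [mem_ball_zero_iff] at hx₀
  have hd : 0 < 1 / 2 - ‖x₀‖ := by linarith
  simp only at hlt
  rw [div_lt_iff₀ hd] at hlt
  set d : ℝ := 1 / 2 - ‖x₀‖ with hddef
  set ρ : ℝ := ir f x₀ with hρdef
  have hρ0 : 0 < ρ := hδ'pos.trans_le (hlower x₀ (by rw [mem_closedBall_zero_iff]; exact hx₀.le))
  have hρle : ρ ≤ 1 / 2 := ir_le f x₀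
  have hρd : ρ < 4 * c * d := hlt.trans_le (by nlinarith)
  have hd2 : d ≤ 1 / 2 := by linarith [norm_nonneg x₀]
  refine ⟨x₀, ρ, hρ0, fun x hx => ?_, fun hcon => ?_⟩
  · rw [mem_closedBall, dist_eq_norm] at hx
    have hx' : ‖x - x₀‖ ≤ d / 4 := by
      refine hx.trans ?_
      rw [div_le_iff₀ (by positivity)]
      nlinarith
    have hxn : ‖x‖ ≤ ‖x₀‖ + d / 4 := by
      calc ‖x‖ = ‖x₀ + (x - x₀)‖ := by rw [add_sub_cancel]
        _ ≤ ‖x₀‖ + ‖x - x₀‖ := norm_add_le _ _
        _ ≤ _ := by linarith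
    have hxlt : ‖x‖ < 1 / 2 := by linarith
    have hd' : d / 2 ≤ 1 / 2 - ‖x‖ := by linarith
    constructor
    · intro w hw
      rw [mem_ball, dist_eq_norm] at hw
      rw [mem_ball_zero_iff]
      calc ‖w‖ = ‖x + (w - x)‖ := by rw [add_sub_cancel]
        _ ≤ ‖x‖ + ‖w - x‖ := norm_add_le _ _
        _ < 1 := by linarith
    · have h1 : sInf Λ ≤ ir f x / (1 / 2 - ‖x‖) :=
        csInf_le hΛbdd ⟨x, by rw [mem_ball_zero_iff]; exact hxlt, rfl⟩
      rw [le_div_iff₀ (by linarith)] at h1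
      have h2 : ρ / 8 < ir f x := by nlinarith
      exact injOn_of_lt (by positivity) h2
  · have h1 : 2 * ρ ≤ 1 / 2 := by nlinarith
    have h2 := le_ir (by positivity) h1 hcon
    linarith

end Pool.Agent.Lib.MPd8b51b
end
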