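import Pool.Agent.Lib.MP_d8b51b_an.Spec2
import Pool.Agent.Lib.MP_d8b51b_an.Log
import Pool.Agent.Lib.MP_d8b51b_an.Zalc
import Pool.Agent.Lib.MP_d8b51b_an.Vol
import Pool.Agent.Lib.MP_d8b51b_an.AclInv
import Pool.Agent.Lib.MP_d8b51b_an.Class

section
set_option autoImplicit false

/-!
# MP_d8b51b_an: STEPANOV
-/

namespace Pool.Agent.Lib.MPd8b51b

open MeasureTheory Metric Set Filter Topology TopologicalSpace
open scoped ENNReal NNReal

namespace Stepanov

variable {n : ℕ}

/-- at a density point `y` of `A`, every nearby point is relatively close to `A` -/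
lemma near {A : Set (E n)} {y : E n} (hy : y ∈ A)
    (hd : Tendsto (fun r => volume (A ∩ closedBall y r) / volume (closedBall y r)) (𝓝[>] 0) (𝓝 1))
    {ε : ℝ} (hε : 0 < ε) :
    ∀ᶠ y' in 𝓝 y, ∃ z ∈ A, dist z y' ≤ ε * dist y' y := by
  set q : ℝ := (ε / (1 + ε)) ^ n with hq
  have hq0 : 0 < q := by positivity
  have hlt : (1 : ℝ≥0∞) - ENNReal.ofReal q < 1 :=
    ENNReal.sub_lt_self ENNReal.one_ne_top one_ne_zero (by simpa using hq0)
  have h1 : ∀ᶠ r in 𝓝[>] (0 : ℝ), 1 - ENNReal.ofReal q <
      volume (A ∩ closedBall y r) / volume (closedBall y r) := hd.eventually (lt_mem_nhds hlt)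
  rw [eventually_nhdsWithin_iff, Metric.eventually_nhds_iff] at h1
  obtain ⟨δ, hδ, h1⟩ := h1
  rw [Metric.eventually_nhds_iff]
  refine ⟨δ / (1 + ε), by positivity, fun y' hy' => ?_⟩
  rcases (dist_nonneg (x := y') (y := y)).eq_or_lt with h0 | h0
  · refine ⟨y, hy, ?_⟩
    rw [dist_comm, ← h0, mul_zero]
  by_contra hcon
  push Not at hcon
  set r := dist y' y with hr
  have hR : 0 < (1 + ε) * r := by positivity
  have hRδ : (1 + ε) * r < δ := by
    rw [lt_div_iff₀ (by positivity)] at hy'
    linarith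
  have h2 := h1 (y := (1 + ε) * r) (by rw [Real.dist_eq, sub_zero, abs_of_pos hR]; exact hRδ) hR
  set B := closedBall y ((1 + ε) * r) with hB
  set B' := closedBall y' (ε * r) with hB'
  have hsub : B' ⊆ B := by
    refine closedBall_subset_closedBall' ?_
    rw [← hr]
    linarith
  have hdisj : Disjoint (A ∩ B) B' := by
    rw [Set.disjoint_left]
    intro z hz hz'
    have := hcon z hz.1
    rw [hB', mem_closedBall] at hz'
    linarith
  have hBt : volume B ≠ ∞ := measure_closedBall_lt_top.ne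
  have hB0 : volume B ≠ 0 := (measure_closedBall_pos _ _ hR).ne'
  have h3 : volume (A ∩ B) + volume B' ≤ volume B := by
    rw [← measure_union hdisj isClosed_closedBall.measurableSet]
    exact measure_mono (union_subset inter_subset_right hsub)
  have h4 : volume B' = ENNReal.ofReal q * volume B := by
    rw [hB, hB', vol_closedBall _ (by positivity), vol_closedBall _ hR, hq,
      ENNReal.ofReal_pow (by positivity), ← mul_assoc, ← mul_pow, ← ENNReal.ofReal_mul (by positivity)]
    congr 3
    field_simp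
  rw [h4] at h3
  have h5 : volume (A ∩ B) / volume B + ENNReal.ofReal q ≤ 1 := by
    calc volume (A ∩ B) / volume B + ENNReal.ofReal q
        = (volume (A ∩ B) + ENNReal.ofReal q * volume B) / volume B := by
          rw [ENNReal.add_div, ENNReal.mul_div_cancel_right hB0 hBt]
      _ ≤ volume B / volume B := by gcongr
      _ = 1 := ENNReal.div_self hB0 hBt
  have h6 : volume (A ∩ B) / volume B ≤ 1 - ENNReal.ofReal q :=
    ENNReal.le_sub_of_add_le_right ENNReal.ofReal_ne_top h5
  exact absurd h2 (not_lt.2 h6)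

lemma piece (g : E n → E n) (m : ℕ) (q : E n) :
    ∀ᵐ y : E n, y ∈ {y | ∀ y' ∈ ball y (1 / (m + 1 : ℝ)), dist (g y') (g y) ≤ m * dist y' y} ∩
      ball q (1 / (2 * (m + 1 : ℝ))) → DifferentiableAt ℝ g y := by
  set A := {y | ∀ y' ∈ ball y (1 / (m + 1 : ℝ)), dist (g y') (g y) ≤ m * dist y' y} ∩
      ball q (1 / (2 * (m + 1 : ℝ))) with hA
  have hm : (0 : ℝ) < m + 1 := by positivity
  have hLip : LipschitzOnWith (m : ℝ≥0) g A := by
    rw [lipschitzOnWith_iff_dist_le_mul]
    intro x hx y hy
    refine hy.1 x ?_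
    have h1 := hx.2
    have h2 := hy.2
    rw [mem_ball] at h1 h2 ⊢
    calc dist x y ≤ dist x q + dist y q := dist_triangle_right _ _ _
      _ < 1 / (2 * (m + 1 : ℝ)) + 1 / (2 * (m + 1 : ℝ)) := by linarith
      _ = 1 / (m + 1 : ℝ) := by field_simp; norm_num
  obtain ⟨G, hG, hGg⟩ := hLip.extend_finite_dimension
  set K : ℝ≥0 := lipschitzExtensionConstant (E n) * m with hK
  filter_upwards [hG.ae_differentiableAt (μ := volume),
    ae_imp_of_ae_restrict (Besicovitch.ae_tendsto_measure_inter_div (volume : Measure (E n)) A)]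
    with y hdiff hdens hyA
  refine HasFDerivAt.differentiableAt (f' := fderiv ℝ G y) ?_
  rw [hasFDerivAt_iff_isLittleO, Asymptotics.isLittleO_iff]
  intro c hc
  set ε : ℝ := min 1 (c / (2 * (m + K + 1))) with hε
  have hKm : (0 : ℝ) < m + K + 1 := by positivity
  have hε0 : 0 < ε := by positivity
  have hε1 : ε ≤ 1 := min_le_left _ _
  have hε2 : (m + K) * ε ≤ c / 2 := by
    have : ε ≤ c / (2 * (m + K + 1)) := min_le_right _ _
    calc ((m : ℝ) + K) * ε ≤ (m + K + 1) * (c / (2 * (m + K + 1))) :=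
          mul_le_mul (by linarith) this hε0.le hKm.le
      _ = c / 2 := by field_simp
  have h1 := near hyA (hdens hyA) hε0
  have h2 := hdiff.hasFDerivAt
  rw [hasFDerivAt_iff_isLittleO, Asymptotics.isLittleO_iff] at h2
  have h3 := h2 (half_pos hc)
  have h4 : ∀ᶠ y' in 𝓝 y, dist y' y < 1 / (m + 1 : ℝ) := ball_mem_nhds y (by positivity)
  filter_upwards [h1, h3, h4] with y' ⟨z, hzA, hz⟩ h5 h6
  have hgy : g y = G y := hGg hyA
  have hgz : g z = G z := hGg hzA
  have hyz : dist y' z ≤ ε * dist y' y := by rw [dist_comm]; exact hz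
  have h7 : ‖g y' - g z‖ ≤ m * (ε * dist y' y) := by
    rw [← dist_eq_norm]
    refine (hzA.1 y' ?_).trans (by gcongr)
    rw [mem_ball]
    refine lt_of_le_of_lt (hyz.trans ?_) h6
    exact mul_le_of_le_one_left dist_nonneg hε1
  have h8 : ‖G z - G y'‖ ≤ K * (ε * dist y' y) := by
    rw [← dist_eq_norm]
    exact (hG.dist_le_mul z y').trans (by gcongr)
  have h9 : g y' - g y - (fderiv ℝ G y) (y' - y) =
      (g y' - g z) + (G z - G y') + (G y' - G y - (fderiv ℝ G y) (y' - y)) := by
    rw [hgy, hgz]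
    abel
  rw [h9]
  calc ‖(g y' - g z) + (G z - G y') + (G y' - G y - (fderiv ℝ G y) (y' - y))‖
      ≤ ‖g y' - g z‖ + ‖G z - G y'‖ + ‖G y' - G y - (fderiv ℝ G y) (y' - y)‖ := norm_add₃_le
    _ ≤ m * (ε * dist y' y) + K * (ε * dist y' y) + c / 2 * ‖y' - y‖ := by gcongr
    _ = (m + K) * ε * ‖y' - y‖ + c / 2 * ‖y' - y‖ := by rw [dist_eq_norm]; ring
    _ ≤ c / 2 * ‖y' - y‖ + c / 2 * ‖y' - y‖ := by gcongr
    _ = c * ‖y' - y‖ := by ring

end Stepanov

theorem specStepanov : SpecStepanov := by
  intro n g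
  have h1 : ∀ᵐ y : E n, ∀ m i : ℕ,
      y ∈ {y | ∀ y' ∈ ball y (1 / (m + 1 : ℝ)), dist (g y') (g y) ≤ m * dist y' y} ∩
      ball (denseSeq (E n) i) (1 / (2 * (m + 1 : ℝ))) → DifferentiableAt ℝ g y := by
    rw [ae_all_iff]
    intro m
    rw [ae_all_iff]
    intro i
    exact Stepanov.piece g m _
  filter_upwards [h1] with y hy
  rintro ⟨C, δ, hδ, hC⟩
  obtain ⟨m₁, hm₁⟩ := exists_nat_ge C
  obtain ⟨m₂, hm₂⟩ := exists_nat_one_div_lt hδ
  set m := max m₁ m₂ with hm
  have hmp : (0 : ℝ) < 1 / (2 * (m + 1 : ℝ)) := by positivity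
  obtain ⟨i, hi⟩ : ∃ i, denseSeq (E n) i ∈ ball y (1 / (2 * (m + 1 : ℝ))) := by
    have := (denseRange_denseSeq (E n)).exists_mem_open isOpen_ball ⟨y, mem_ball_self hmp⟩
    obtain ⟨i, hi⟩ := this
    exact ⟨i, hi⟩
  refine hy m i ⟨fun y' hy' => ?_, ?_⟩
  · refine (hC y' ?_).trans ?_
    · refine ball_subset_ball ?_ hy'
      refine le_trans ?_ hm₂.le
      gcongr
      exact le_max_right _ _
    · gcongr
      exact hm₁.trans (by exact_mod_cast le_max_left _ _)
  · rw [mem_ball, dist_comm]
    exact hi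

end Pool.Agent.Lib.MPd8b51b
end

section
set_option autoImplicit false

/-!
# MP_d8b51b_an: assembly of the modules
-/

namespace Pool.Agent.Lib.MPd8b51b

theorem nest_final : SpecNest := specNest specPair

theorem grow_final : SpecGrow := Grow.specGrow nest_final specLog specComp specExt

theorem mor_final : SpecMor := Mor.specMor specPair specTel grow_final

theorem vol_final : SpecVol := specVol nest_final specLog specLin specExt grow_final

theorem inr_final : SpecInr := specInr grow_final mor_final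

theorem cmp_final : SpecCmp := specCmp grow_final mor_final vol_final specMed inr_final

theorem chain_final : SpecChain := Chain.specChain specMed cmp_final inr_final vol_final mor_final

theorem morrey2_final : SpecMorrey2 := specMorrey2 specPair specTel

theorem bad_final : SpecBad := specBad specLog specSect morrey2_final

theorem main_final : SpecMain := specMain chain_final specZalc bad_final

theorem invQc_final : SpecInvQc :=
  specInvQc specMoll (Diam.specDiam specPair specTel specLin specExt) (AclInv.specAclInv specLoc)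
    (specDiff specStepanov)

theorem dimFreeRadius_pos_final (k : ℝ) (hk : 1 < k) : 0 < dimFreeRadius k :=
  dimFreeRadius_pos main_final specLoc invQc_final k hk

end Pool.Agent.Lib.MPd8b51b
end
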